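import Pool.Agent.Lib.MP_1cb9f1_lc.AlgGates

/-!
# From polynomial systems to gates: proofs
-/

set_option autoImplicit false

namespace Pool.Agent.Lib.MP_1cb9f1_lc

open MP_612bca_lc

/-- Membership in the list of gates. -/
theorem forall_gatesOf {L0 n : ℕ} {S : List Con} {P : Gate → Prop} :
    (∀ g ∈ gatesOf L0 n S, P g) ↔
      (P (.add 0 0 1) ∧ P (.add 0 1 2) ∧ P (.add 2 2 3) ∧ P (.add 4 4 0)) ∧
      (∀ k < L0 + 2, P (.lt (4 + (k + 1)) 0 (4 + k) (4 + k))) ∧
      ∀ r c, S[r]? = some c → ∀ g ∈ conGates L0 n r c, P g := by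
  unfold gatesOf
  simp only [List.forall_mem_append, List.forall_mem_cons, List.not_mem_nil, false_implies,
    implies_true, and_true, List.forall_mem_map, List.mem_range, List.mem_flatMap, Prod.exists,
    List.mem_zipIdx_iff_getElem?, and_assoc]
  refine and_congr_right fun _ => and_congr_right fun _ => and_congr_right fun _ =>
    and_congr_right fun _ => and_congr_right fun _ => ?_
  constructor
  · intro h r c hc g hg
    exact h g ⟨c, r, hc, hg⟩
  · rintro h g ⟨c, r, hc, hg⟩
    exact h r c hc g hg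

theorem gatesOf_below (L0 n : ℕ) (S : List Con) (hS : ∀ c ∈ S, c.Below n) :
    ∀ g ∈ gatesOf L0 n S, g.Below (rowsOf L0 n S) := by
  rw [forall_gatesOf]
  refine ⟨?_, ?_, ?_⟩
  · simp only [Gate.Below, rowsOf, bRow]
    omega
  · intro k hk
    simp only [Gate.Below, rowsOf, bRow]
    omega
  · intro r c hc g hg
    have hr : r < S.length := (List.getElem?_eq_some_iff.1 hc).1
    have hb := hS c (List.mem_of_getElem? hc)
    cases c with
    | one i =>
      simp only [Con.Below] at hb
      simp only [conGates, List.mem_singleton] at hg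
      subst hg
      simp only [Gate.Below, rowsOf, bRow, aRow]
      omega
    | add i j l =>
      simp only [Con.Below] at hb
      simp only [conGates, List.mem_cons, List.not_mem_nil, or_false] at hg
      rcases hg with rfl | rfl <;>
        · simp only [Gate.Below, rowsOf, bRow, aRow]
          omega
    | mul i j l =>
      simp only [Con.Below] at hb
      simp only [conGates, List.mem_cons, List.not_mem_nil, or_false] at hg
      rcases hg with rfl | rfl | rfl | rfl | rfl | rfl | rfl | rfl <;>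
        · simp only [Gate.Below, rowsOf, bRow, aRow, dRow]
          omega

/-! ### Soundness -/

/-- The chain decreases doubly exponentially. -/
theorem chain_bound {L0 n : ℕ} {S : List Con} {r : ℕ → ℝ} {ε : ℝ} (hε : 0 < ε)
    (hε' : ε ≤ 1 / 64 * (1 / 2) ^ 2 ^ (L0 + 1)) (h : ApproxSat ε (rowsOf L0 n S) (gatesOf L0 n S) r)
    (k : ℕ) (hk : k ≤ L0 + 1) : r (4 + (k + 1)) ≤ 3 / 4 * (1 / 2) ^ 2 ^ k := by
  obtain ⟨h0, hpos, hg⟩ := h
  rw [forall_gatesOf] at hg
  obtain ⟨⟨-, -, -, h4⟩, hch, -⟩ := hg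
  simp only [Gate.Approx, h0, mul_one] at h4 hch
  have hneg : ∀ k ≤ L0 + 2, -ε ≤ r (4 + k) := by
    intro k hk
    refine hpos _ ?_
    simp only [rowsOf, bRow]
    omega
  have hpw : ∀ k ≤ L0 + 1, ((1 : ℝ) / 2) ^ 2 ^ (L0 + 1) ≤ (1 / 2) ^ 2 ^ k := fun k hk =>
    pow_le_pow_of_le_one (by norm_num) (by norm_num) (Nat.pow_le_pow_right (by norm_num) hk)
  induction k with
  | zero =>
    have h1 := hch 0 (by omega)
    have h2 := abs_le.1 h4
    have h3 := hneg 0 (by omega)
    have h5 := hpw 0 (by omega)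
    simp only [pow_zero, pow_one, add_zero, zero_add] at h1 h3 h5 ⊢
    have h6 : ε ≤ 1 / 128 := by linarith
    nlinarith
  | succ k ih =>
    have h1 := hch (k + 1) (by omega)
    have h2 := ih (by omega)
    have h3 := hneg (k + 1) (by omega)
    have h5 := hpw (k + 1) hk
    have h7 := hpw k (by omega)
    have h6 : ((1 : ℝ) / 2) ^ 2 ^ (k + 1) = ((1 / 2) ^ 2 ^ k) ^ 2 := by
      rw [← pow_mul, pow_succ 2 k]
    rw [h6] at h5 ⊢
    set w : ℝ := (1 / 2) ^ 2 ^ k with hw
    have hw0 : 0 < w := by positivity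
    have h8 : r (4 + (k + 1)) ^ 2 ≤ (3 / 4 * w) ^ 2 := by
      refine sq_le_sq' ?_ h2
      linarith
    nlinarith

theorem gates_sound (L0 n : ℕ) (S : List Con) (r : ℕ → ℝ)
    (h : ApproxSat (1 / 2 ^ 2 ^ (L0 + 10)) (rowsOf L0 n S) (gatesOf L0 n S) r) :
    ∃ z : ℕ → ℝ, ∀ c ∈ S, |c.val z| < 1 / 2 ^ 2 ^ L0 := by
  set ε : ℝ := 1 / 2 ^ 2 ^ (L0 + 10) with hεdef
  set W : ℝ := 1 / 2 ^ 2 ^ L0 with hW
  have hW0 : 0 < W := by positivity
  have hW1 : W ≤ 1 / 2 := by
    rw [hW]
    have h1 : (2 : ℝ) ^ 1 ≤ 2 ^ 2 ^ L0 :=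
      pow_le_pow_right₀ (by norm_num) (Nat.one_le_two_pow)
    exact one_div_le_one_div_of_le (by norm_num) (by linarith)
  have hε : 0 < ε := by positivity
  have hpw : ∀ k, (1 : ℝ) / 2 ^ 2 ^ k = (1 / 2) ^ 2 ^ k := fun k => by
    rw [one_div_pow]
  have h1 : ((1 : ℝ) / 2) ^ 2 ^ (L0 + 1) = W ^ 2 := by
    rw [hW, hpw, ← pow_mul, pow_succ 2 L0]
  have hεW : ε ≤ 1 / 64 * W ^ 2 := by
    rw [← h1, hεdef, hpw]
    have h2 : (1 : ℝ) / 64 = (1 / 2) ^ 6 := by norm_num
    rw [h2, ← pow_add]
    refine pow_le_pow_of_le_one (by norm_num) (by norm_num) ?_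
    have h3 : 1 ≤ 2 ^ L0 := Nat.one_le_two_pow
    rw [pow_add 2 L0 1, pow_add 2 L0 10]
    omega
  have hε' : ε ≤ 1 / 64 * (1 / 2) ^ 2 ^ (L0 + 1) := by
    rw [h1]
    exact hεW
  have hd := chain_bound hε hε' h (L0 + 1) le_rfl
  rw [h1] at hd
  obtain ⟨h0, hpos, hg⟩ := h
  rw [forall_gatesOf] at hg
  obtain ⟨⟨g1, g2, g3, -⟩, -, hcon⟩ := hg
  simp only [Gate.Approx, h0] at g1 g2 g3
  rw [abs_le] at g1 g2 g3
  refine ⟨fun i => r (aRow L0 i) - 2, fun c hc => ?_⟩
  obtain ⟨q, hq⟩ := List.mem_iff_getElem?.1 hc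
  have hcg := hcon q c hq
  have hdl : -ε ≤ r (dRow L0) := by
    refine hpos _ ?_
    simp only [rowsOf, bRow, dRow]
    omega
  have hdrow : 4 + (L0 + 1 + 1) = dRow L0 := by
    simp only [dRow]
    omega
  rw [hdrow] at hd
  have hWW : W ^ 2 ≤ W / 2 := by nlinarith
  cases c with
  | one i =>
    simp only [conGates, List.mem_singleton, forall_eq, Gate.Approx, h0] at hcg
    simp only [Con.val]
    rw [abs_le] at hcg
    rw [abs_lt]
    constructor <;> linarith
  | add i j l =>
    simp only [conGates, List.mem_cons, List.not_mem_nil, or_false, forall_eq_or_imp, forall_eq,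
      Gate.Approx] at hcg
    obtain ⟨c1, c2⟩ := hcg
    simp only [Con.val]
    rw [abs_le] at c1 c2
    rw [abs_lt]
    constructor <;> linarith
  | mul i j l =>
    simp only [conGates, List.mem_cons, List.not_mem_nil, or_false, forall_eq_or_imp, forall_eq,
      Gate.Approx, h0, mul_one] at hcg
    obtain ⟨c1, c2, c3, c4, c5, c6, c7, c8⟩ := hcg
    simp only [Con.val]
    rw [abs_le] at c1 c2 c3 c4 c5 c6
    have key : (r (aRow L0 i) - 2) * (r (aRow L0 j) - 2) - (r (aRow L0 l) - 2) =
        r (aRow L0 i) * r (aRow L0 j) -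
          (2 * r (aRow L0 i) + 2 * r (aRow L0 j) + r (aRow L0 l) - 6) := by ring
    rw [key, abs_lt]
    constructor <;> linarith

/-! ### Completeness -/

/-- The exact values of the rows of a block. -/
noncomputable def blockVal (z : ℕ → ℝ) (d : ℝ) : Option Con → ℕ → ℝ
  | some (.mul i j _), 0 => (z i + 2) + (z j + 2)
  | some (.mul i j _), 1 => 2 * ((z i + 2) + (z j + 2))
  | some (.mul i j l), 2 => 2 * ((z i + 2) + (z j + 2)) + (z l + 2)
  | some (.mul i j _), 3 => (z i + 2) * (z j + 2)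
  | some (.mul i j _), 4 => (z i + 2) * (z j + 2) - d
  | some (.mul i j _), 5 => (z i + 2) * (z j + 2) + d
  | some (.add i j _), 0 => (z i + 2) + (z j + 2)
  | _, _ => 1

/-- The exact values of the chain. -/
noncomputable def chainVal (k : ℕ) : ℝ := (1 / 2) ^ (2 ^ (k + 1) - 1)

/-- The exact values of the rows. -/
noncomputable def rowVal (L0 n : ℕ) (S : List Con) (z : ℕ → ℝ) (i : ℕ) : ℝ :=
  if i = 0 then 1 else if i = 1 then 2 else if i = 2 then 3 else if i = 3 then 6 else
  if i < L0 + 7 then chainVal (i - 4) else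
  if i < L0 + 7 + n then z (i - (L0 + 7)) + 2 else
  blockVal z (chainVal (L0 + 2)) S[(i - (L0 + 7 + n)) / 6]? ((i - (L0 + 7 + n)) % 6)

theorem chainVal_zero : chainVal 0 = 1 / 2 := by
  simp [chainVal]

theorem chainVal_pos (k : ℕ) : 0 < chainVal k := by
  unfold chainVal
  positivity

theorem chainVal_le (k : ℕ) : chainVal k ≤ 1 / 2 := by
  unfold chainVal
  have h : 1 ≤ 2 ^ (k + 1) - 1 := by
    have : 1 ≤ 2 ^ k := Nat.one_le_two_pow
    rw [pow_succ]
    omega
  calc ((1 : ℝ) / 2) ^ (2 ^ (k + 1) - 1) ≤ (1 / 2) ^ 1 :=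
        pow_le_pow_of_le_one (by norm_num) (by norm_num) h
    _ = 1 / 2 := pow_one _

theorem chainVal_succ (k : ℕ) : chainVal (k + 1) = chainVal k * chainVal k / 2 := by
  unfold chainVal
  have h : 2 ^ (k + 1 + 1) - 1 = (2 ^ (k + 1) - 1) + (2 ^ (k + 1) - 1) + 1 := by
    have : 1 ≤ 2 ^ (k + 1) := Nat.one_le_two_pow
    rw [pow_succ 2 (k + 1)]
    omega
  rw [h, pow_succ, pow_add]
  ring

section
variable {L0 n : ℕ} {S : List Con} {z : ℕ → ℝ}

theorem rowVal_chain {k : ℕ} (hk : k ≤ L0 + 2) : rowVal L0 n S z (4 + k) = chainVal k := by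
  unfold rowVal
  rw [if_neg (by omega), if_neg (by omega), if_neg (by omega), if_neg (by omega),
    if_pos (by omega)]
  congr 1
  omega

theorem rowVal_dRow : rowVal L0 n S z (dRow L0) = chainVal (L0 + 2) := by
  have h : dRow L0 = 4 + (L0 + 2) := by
    simp only [dRow]
    omega
  rw [h, rowVal_chain le_rfl]

theorem rowVal_aRow {i : ℕ} (hi : i < n) : rowVal L0 n S z (aRow L0 i) = z i + 2 := by
  unfold rowVal aRow
  rw [if_neg (by omega), if_neg (by omega), if_neg (by omega), if_neg (by omega),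
    if_neg (by omega), if_pos (by omega)]
  congr 2
  omega

theorem rowVal_bRow {r s : ℕ} (hs : s < 6) :
    rowVal L0 n S z (bRow L0 n r + s) = blockVal z (chainVal (L0 + 2)) S[r]? s := by
  unfold rowVal bRow
  rw [if_neg (by omega), if_neg (by omega), if_neg (by omega), if_neg (by omega),
    if_neg (by omega), if_neg (by omega)]
  have h1 : (L0 + 7 + n + 6 * r + s - (L0 + 7 + n)) / 6 = r := by omega
  have h2 : (L0 + 7 + n + 6 * r + s - (L0 + 7 + n)) % 6 = s := by omega
  rw [h1, h2]

theorem rowVal_bRow0 {r : ℕ} :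
    rowVal L0 n S z (bRow L0 n r) = blockVal z (chainVal (L0 + 2)) S[r]? 0 :=
  rowVal_bRow (s := 0) (by norm_num)

end

/-- All exact values are in `(0, 16)`. -/
theorem blockVal_bound {z : ℕ → ℝ} (hb : ∀ i, |z i| ≤ 1) {d : ℝ} (hd0 : 0 < d) (hd : d ≤ 1 / 2)
    (c : Option Con) (s : ℕ) : 0 < blockVal z d c s ∧ blockVal z d c s < 16 := by
  have h : ∀ i, 1 ≤ z i + 2 ∧ z i + 2 ≤ 3 := fun i => by
    have := abs_le.1 (hb i)
    constructor <;> linarith
  have hm : ∀ i j, 1 ≤ (z i + 2) * (z j + 2) ∧ (z i + 2) * (z j + 2) ≤ 9 := fun i j => by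
    have hi := h i
    have hj := h j
    constructor <;> nlinarith
  unfold blockVal
  split
  case h_8 => norm_num
  case h_3 i j l =>
    have hi := h i
    have hj := h j
    have hl := h l
    constructor <;> linarith
  all_goals
    rename_i i j _
    have hi := h i
    have hj := h j
    have h1 := hm i j
    constructor <;> linarith

theorem gates_complete (L0 n : ℕ) (S : List Con) (hS : ∀ c ∈ S, c.Below n) (z : ℕ → ℝ)
    (hz : Sol S z) (hb : ∀ i, |z i| ≤ 1) :
    ∃ r, Sat (rowsOf L0 n S) (gatesOf L0 n S) r := by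
  have hd0 := chainVal_pos (L0 + 2)
  have hd1 := chainVal_le (L0 + 2)
  have e0 : rowVal L0 n S z 0 = 1 := by simp [rowVal]
  have e1 : rowVal L0 n S z 1 = 2 := by simp [rowVal]
  have e2 : rowVal L0 n S z 2 = 3 := by simp [rowVal]
  have e3 : rowVal L0 n S z 3 = 6 := by simp [rowVal]
  have e4 : rowVal L0 n S z 4 = 1 / 2 := by
    have := rowVal_chain (L0 := L0) (n := n) (S := S) (z := z) (k := 0) (by omega)
    rw [← chainVal_zero, ← this]
  refine ⟨rowVal L0 n S z, e0, ?_, ?_⟩
  · intro i _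
    unfold rowVal
    split_ifs
    · norm_num
    · norm_num
    · norm_num
    · norm_num
    · exact ⟨chainVal_pos _, lt_of_le_of_lt (chainVal_le _) (by norm_num)⟩
    · have := abs_le.1 (hb (i - (L0 + 7)))
      constructor <;> linarith
    · exact blockVal_bound hb hd0 hd1 _ _
  · rw [forall_gatesOf]
    refine ⟨?_, ?_, ?_⟩
    · simp only [Gate.Holds, e0, e1, e2, e3, e4]
      norm_num
    · intro k hk
      simp only [Gate.Holds, e0, mul_one]
      rw [rowVal_chain (by omega), rowVal_chain (by omega), chainVal_succ]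
      have := chainVal_pos k
      nlinarith [mul_pos this this]
    · intro r c hc
      have hbl := hS c (List.mem_of_getElem? hc)
      have hsol := hz c (List.mem_of_getElem? hc)
      have hB : ∀ s < 6, rowVal L0 n S z (bRow L0 n r + s) =
          blockVal z (chainVal (L0 + 2)) (some c) s := fun s hs => by
        rw [rowVal_bRow hs, hc]
      have hB0 : rowVal L0 n S z (bRow L0 n r) = blockVal z (chainVal (L0 + 2)) (some c) 0 :=
        hB 0 (by norm_num)
      cases c with
      | one i =>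
        simp only [Con.Below] at hbl
        simp only [Con.val] at hsol
        simp only [conGates, List.mem_singleton, forall_eq, Gate.Holds, e0, e1,
          rowVal_aRow hbl]
        linarith
      | add i j l =>
        simp only [Con.Below] at hbl
        simp only [Con.val] at hsol
        simp only [conGates, List.mem_cons, List.not_mem_nil, or_false, forall_eq_or_imp,
          forall_eq, Gate.Holds, e1, rowVal_aRow hbl.1, rowVal_aRow hbl.2.1,
          rowVal_aRow hbl.2.2, hB0, blockVal]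
        constructor
        · trivial
        · linarith
      | mul i j l =>
        simp only [Con.Below] at hbl
        simp only [Con.val] at hsol
        simp only [conGates, List.mem_cons, List.not_mem_nil, or_false, forall_eq_or_imp,
          forall_eq, Gate.Holds, e0, e3, rowVal_aRow hbl.1, rowVal_aRow hbl.2.1,
          rowVal_aRow hbl.2.2, rowVal_dRow, hB0, hB 1 (by norm_num), hB 2 (by norm_num),
          hB 3 (by norm_num), hB 4 (by norm_num), hB 5 (by norm_num), blockVal]
        refine ⟨?_, ?_, ?_, ?_, ?_, ?_, ?_, ?_⟩ <;> first | trivial | linarith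

end Pool.Agent.Lib.MP_1cb9f1_lc
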