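import Pool.Agent.Lib.MP_1cb9f1_lc.Iface
import Pool.Agent.Lib.MP_612bca_lc.AlgDefs

/-!
# From polynomial systems to gates

Rows: `0` = 1, `1` = 2, `2` = 3, `3` = 6, `4 + k` (`k ≤ L0 + 2`) the chain `d_0 = 1/2`,
`d_{k+1} < d_k ^ 2`; `L0 + 7 + i` (`i < n`) the value `a_i = z_i + 2`; block `r` (constraint number
`r`) consists of the rows `L0 + 7 + n + 6 * r + s`, `s < 6`.
-/

namespace Pool.Agent.Lib.MP_1cb9f1_lc

open MP_612bca_lc

/-- Row of the last member of the chain. -/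
def dRow (L0 : ℕ) : ℕ := L0 + 6

/-- Row of the variable `z_i + 2`. -/
def aRow (L0 i : ℕ) : ℕ := L0 + 7 + i

/-- First row of the block of the `r`-th constraint. -/
def bRow (L0 n r : ℕ) : ℕ := L0 + 7 + n + 6 * r

/-- Number of rows. -/
def rowsOf (L0 n : ℕ) (S : List Con) : ℕ := bRow L0 n S.length

/-- Gates of the `r`-th constraint. -/
def conGates (L0 n r : ℕ) : Con → List Gate
  | .one i => [.add 0 1 (aRow L0 i)]
  | .add i j l => [.add (aRow L0 i) (aRow L0 j) (bRow L0 n r),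
      .add (aRow L0 l) 1 (bRow L0 n r)]
  | .mul i j l =>
    let b := bRow L0 n r
    [.add (aRow L0 i) (aRow L0 j) b, .add b b (b + 1), .add (b + 1) (aRow L0 l) (b + 2),
      .add (b + 3) 3 (b + 2), .add (b + 4) (dRow L0) (b + 3), .add (b + 3) (dRow L0) (b + 5),
      .lt (aRow L0 i) (aRow L0 j) (b + 5) 0, .lt (b + 4) 0 (aRow L0 i) (aRow L0 j)]

/-- The gates of the system `S` with `n` variables and precision exponent `L0`. -/
def gatesOf (L0 n : ℕ) (S : List Con) : List Gate :=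
  [.add 0 0 1, .add 0 1 2, .add 2 2 3, .add 4 4 0] ++
  ((List.range (L0 + 2)).map fun k => Gate.lt (4 + (k + 1)) 0 (4 + k) (4 + k)) ++
  S.zipIdx.flatMap fun p => conGates L0 n p.2 p.1

/-! Statements to prove (module ALG, file `Alg.lean`):

theorem gatesOf_below (L0 n : ℕ) (S : List Con) (hS : ∀ c ∈ S, c.Below n) :
    ∀ g ∈ gatesOf L0 n S, g.Below (rowsOf L0 n S)

theorem gates_sound (L0 n : ℕ) (S : List Con) (r : ℕ → ℝ)
    (h : ApproxSat (1 / 2 ^ 2 ^ (L0 + 10)) (rowsOf L0 n S) (gatesOf L0 n S) r) :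
    ∃ z : ℕ → ℝ, ∀ c ∈ S, |c.val z| < 1 / 2 ^ 2 ^ L0

theorem gates_complete (L0 n : ℕ) (S : List Con) (hS : ∀ c ∈ S, c.Below n) (z : ℕ → ℝ)
    (hz : Sol S z) (hb : ∀ i, |z i| ≤ 1) :
    ∃ r, Sat (rowsOf L0 n S) (gatesOf L0 n S) r
-/

end Pool.Agent.Lib.MP_1cb9f1_lc
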