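import Pool.Agent.Lib.MP_1cb9f1_lc.AlgGates
import Pool.Agent.Lib.MP_612bca_lc.PTimeAlg

/-!
# The gates of a sentence are computable in polynomial time
-/

namespace Pool.Agent.Lib.MP_1cb9f1_lc

open MP_612bca_lc Pool.Agent.PolyTime

/-- Tagged tuple of a gate. -/
def Gate.code : Gate → ℕ × (ℕ × (ℕ × (ℕ × ℕ)))
  | .add i j l => (0, (i, (j, (l, 0))))
  | .lt x y z u => (1, (x, (y, (z, u))))

instance : Enc Gate := ⟨fun c => enc c.code⟩

theorem enc_gate (c : Gate) : enc c = enc c.code := rfl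

section
variable {α β : Type} [Enc α] [Enc β]

theorem ptime_gate_add {f g h : α → ℕ} (hf : PTime f) (hg : PTime g) (hh : PTime h) :
    PTime (fun a => Gate.add (f a) (g a) (h a)) :=
  ((PTime.const 0).pair (hf.pair (hg.pair (hh.pair (PTime.const 0))))).of_enc_eq (fun x => x)
    (fun _ => rfl) (fun _ => rfl)

theorem ptime_gate_lt {f g h k : α → ℕ} (hf : PTime f) (hg : PTime g) (hh : PTime h)
    (hk : PTime k) : PTime (fun a => Gate.lt (f a) (g a) (h a) (k a)) :=
  ((PTime.const 1).pair (hf.pair (hg.pair (hh.pair hk)))).of_enc_eq (fun x => x)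
    (fun _ => rfl) (fun _ => rfl)

theorem ptime_gate_code {f : α → Gate} (hf : PTime f) : PTime (fun a => (f a).code) :=
  hf.of_enc_eq (fun x => x) (fun _ => rfl) (fun _ => rfl)

/-- Case distinction on gates. -/
theorem ptime_gate_cases {f : α → Gate} (hf : PTime f) {A : α → ℕ → ℕ → ℕ → β}
    {B : α → ℕ → ℕ → ℕ → ℕ → β}
    (hA : PTime (fun p : α × (ℕ × (ℕ × ℕ)) => A p.1 p.2.1 p.2.2.1 p.2.2.2))
    (hB : PTime (fun p : α × (ℕ × (ℕ × (ℕ × ℕ))) =>
      B p.1 p.2.1 p.2.2.1 p.2.2.2.1 p.2.2.2.2)) :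
    PTime (fun a => match f a with
      | .add i j l => A a i j l
      | .lt x y z u => B a x y z u) := by
  have h0 : PTime (fun a => (f a).code) := ptime_gate_code hf
  have e1 : PTime (fun a => (f a).code.2) := PTime.snd.comp h0
  have e2 : PTime (fun a => (f a).code.2.2) := PTime.snd.comp e1
  have e3 : PTime (fun a => (f a).code.2.2.2) := PTime.snd.comp e2
  have h1 : PTime (fun a => A a (f a).code.2.1 (f a).code.2.2.1 (f a).code.2.2.2.1) := by
    have := PTime.comp (f := fun p : α × (ℕ × (ℕ × ℕ)) => A p.1 p.2.1 p.2.2.1 p.2.2.2)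
      (g := fun a => (a, ((f a).code.2.1, ((f a).code.2.2.1, (f a).code.2.2.2.1)))) hA
      (PTime.id.pair ((PTime.fst.comp e1).pair ((PTime.fst.comp e2).pair (PTime.fst.comp e3))))
    exact this
  have h2 : PTime (fun a => B a (f a).code.2.1 (f a).code.2.2.1 (f a).code.2.2.2.1
      (f a).code.2.2.2.2) := by
    have := PTime.comp (f := fun p : α × (ℕ × (ℕ × (ℕ × ℕ))) =>
      B p.1 p.2.1 p.2.2.1 p.2.2.2.1 p.2.2.2.2)
      (g := fun a => (a, (f a).code.2)) hB (PTime.id.pair e1)
    exact this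
  refine (PTime.ite (PTime.eq (PTime.fst.comp h0) (PTime.const 0)) h1 h2).of_eq fun a => ?_
  cases f a <;> rfl

theorem ptime_dRow {L : α → ℕ} (hL : PTime L) : PTime (fun x => dRow (L x)) :=
  hL.add (PTime.const 6)

theorem ptime_aRow {L i : α → ℕ} (hL : PTime L) (hi : PTime i) :
    PTime (fun x => aRow (L x) (i x)) :=
  (hL.add (PTime.const 7)).add hi

theorem ptime_bRow {L n r : α → ℕ} (hL : PTime L) (hn : PTime n) (hr : PTime r) :
    PTime (fun x => bRow (L x) (n x) (r x)) :=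
  ((hL.add (PTime.const 7)).add hn).add ((PTime.const 6).mul hr)

theorem ptime_rowsOf {L n : α → ℕ} {S : α → List Con} (hL : PTime L) (hn : PTime n)
    (hS : PTime S) : PTime (fun x => rowsOf (L x) (n x) (S x)) :=
  ptime_bRow hL hn hS.length

theorem ptime_conGates {L n r : α → ℕ} {c : α → Con} (hL : PTime L) (hn : PTime n)
    (hr : PTime r) (hc : PTime c) : PTime (fun x => conGates (L x) (n x) (r x) (c x)) := by
  have A : PTime (fun p : α × ℕ => [Gate.add 0 1 (aRow (L p.1) p.2)]) :=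
    ptime_list1 (ptime_gate_add (PTime.const 0) (PTime.const 1)
      (ptime_aRow (hL.comp PTime.fst) PTime.snd))
  have i : PTime (fun p : α × (ℕ × (ℕ × ℕ)) => aRow (L p.1) p.2.1) :=
    ptime_aRow (hL.comp PTime.fst) (PTime.fst.comp PTime.snd)
  have j : PTime (fun p : α × (ℕ × (ℕ × ℕ)) => aRow (L p.1) p.2.2.1) :=
    ptime_aRow (hL.comp PTime.fst) (PTime.fst.comp (PTime.snd.comp PTime.snd))
  have l : PTime (fun p : α × (ℕ × (ℕ × ℕ)) => aRow (L p.1) p.2.2.2) :=
    ptime_aRow (hL.comp PTime.fst) (PTime.snd.comp (PTime.snd.comp PTime.snd))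
  have d : PTime (fun p : α × (ℕ × (ℕ × ℕ)) => dRow (L p.1)) := ptime_dRow (hL.comp PTime.fst)
  have b : PTime (fun p : α × (ℕ × (ℕ × ℕ)) => bRow (L p.1) (n p.1) (r p.1)) :=
    ptime_bRow (hL.comp PTime.fst) (hn.comp PTime.fst) (hr.comp PTime.fst)
  have c' : ∀ i, PTime (fun _ : α × (ℕ × (ℕ × ℕ)) => (i : ℕ)) := PTime.const
  have v : ∀ i, PTime (fun p : α × (ℕ × (ℕ × ℕ)) => bRow (L p.1) (n p.1) (r p.1) + i) :=
    fun i => b.add (c' i)
  have B : PTime (fun p : α × (ℕ × (ℕ × ℕ)) =>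
      [Gate.add (aRow (L p.1) p.2.1) (aRow (L p.1) p.2.2.1) (bRow (L p.1) (n p.1) (r p.1)),
      Gate.add (aRow (L p.1) p.2.2.2) 1 (bRow (L p.1) (n p.1) (r p.1))]) :=
    ptime_list2 (ptime_gate_add i j b) (ptime_gate_add l (c' 1) b)
  have C := (ptime_gate_add i j b).cons ((ptime_gate_add b b (v 1)).cons
    ((ptime_gate_add (v 1) l (v 2)).cons ((ptime_gate_add (v 3) (c' 3) (v 2)).cons
    ((ptime_gate_add (v 4) d (v 3)).cons ((ptime_gate_add (v 3) d (v 5)).cons
    (ptime_list2 (ptime_gate_lt i j (v 5) (c' 0)) (ptime_gate_lt (v 4) (c' 0) i j)))))))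
  refine (ptime_con_cases hc (A := fun x i => conGates (L x) (n x) (r x) (.one i))
    (B := fun x i j l => conGates (L x) (n x) (r x) (.add i j l))
    (C := fun x i j l => conGates (L x) (n x) (r x) (.mul i j l)) A B C).of_eq fun x => ?_
  cases c x <;> rfl

theorem ptime_gatesOf {L n : α → ℕ} {S : α → List Con} (hL : PTime L) (hn : PTime n)
    (hS : PTime S) : PTime (fun x => gatesOf (L x) (n x) (S x)) := by
  have h1 : PTime (fun _ : α => [Gate.add 0 0 1, .add 0 1 2, .add 2 2 3, .add 4 4 0]) :=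
    PTime.const _
  have h2 : PTime (fun x => (List.range (L x + 2)).map fun k =>
      Gate.lt (4 + (k + 1)) 0 (4 + k) (4 + k)) := by
    have k : PTime (fun p : α × ℕ => 4 + p.2) := (PTime.const 4).add PTime.snd
    have k' : PTime (fun p : α × ℕ => 4 + (p.2 + 1)) := (PTime.const 4).add PTime.snd.succ
    exact PTime.map (g := fun (_ : α) (k : ℕ) => Gate.lt (4 + (k + 1)) 0 (4 + k) (4 + k))
      (PTime.range (hL.add (PTime.const 2))) (ptime_gate_lt k' (PTime.const 0) k k)
  have h3 : PTime (fun x => (S x).zipIdx.flatMap fun p => conGates (L x) (n x) p.2 p.1) := by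
    have e : PTime (fun p : α × (Con × ℕ) => p.2) := PTime.snd
    exact PTime.flatMap (g := fun (x : α) (p : Con × ℕ) => conGates (L x) (n x) p.2 p.1)
      hS.zipIdx (ptime_conGates (hL.comp PTime.fst) (hn.comp PTime.fst) (PTime.snd.comp e)
        (PTime.fst.comp e))
  exact (h1.append h2).append h3

end

/-- Number of rows for a list of tokens. -/
def insN (toks : List (ℕ × List Bool)) : ℕ := rowsOf (bExp toks) (bNum toks) (bSys toks)

/-- Gates for a list of tokens. -/
def insG (toks : List (ℕ × List Bool)) : List Gate := gatesOf (bExp toks) (bNum toks) (bSys toks)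

/-- Precision exponent for a list of tokens. -/
def insL (toks : List (ℕ × List Bool)) : ℕ := bExp toks + 10

theorem ins_ptime : PTime (fun toks : List (ℕ × List Bool) => (insN toks, (insG toks, insL toks))) :=
  (ptime_rowsOf (ptime_bExp PTime.id) (ptime_bNum PTime.id) (ptime_bSys PTime.id)).pair
    ((ptime_gatesOf (ptime_bExp PTime.id) (ptime_bNum PTime.id) (ptime_bSys PTime.id)).pair
      ((ptime_bExp PTime.id).add (PTime.const 10)))

end Pool.Agent.Lib.MP_1cb9f1_lc
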