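import Pool.Agent.Lib.MP_1cb9f1_lc.ListGraph
import Pool.Agent.Lib.MP_1cb9f1_lc.GatesPTime
import Pool.Agent.Lib.MP_1cb9f1_lc.Alg
import Pool.Agent.Lib.MP_612bca_lc.Sys
import Pool.Agent.Lib.MP_612bca_lc.Bound
import Pool.Agent.Lib.MP_612bca_lc.Parse
import Pool.Agent.Lib.MP_612bca_lc.Machine

/-!
# Assembly: from the geometric theorem to hardness
-/

namespace Pool.Agent.Lib.MP_1cb9f1_lc

open MP_612bca_lc Pool.Agent.PolyTime

/-- The reduction, from the geometric theorems. -/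
theorem hard_of_geometry {β : Type} [Enc β] [EncInj β] [DecidableEq β] (Δ : ℕ)
    (VL : ℕ → List Gate → ℕ → List β) (adj : ℕ → List Gate → ℕ → β → β → Bool)
    (hnd : ∀ n gs L, (VL n gs L).Nodup)
    (hsymm : ∀ n gs L, ∀ x ∈ VL n gs L, ∀ y ∈ VL n gs L, adj n gs L x y = true →
      adj n gs L y x = true)
    (hdeg : ∀ n gs L, ∀ x ∈ VL n gs L, ((VL n gs L).filter fun y => adj n gs L x y).length ≤ Δ)
    (hsound : ∀ n gs L, (∀ g ∈ gs, g.Below n) → (∃ p, RealizesOn (VL n gs L) (adj n gs L) p) →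
      ∃ r, ApproxSat (1 / 2 ^ 2 ^ L) n gs r)
    (hcomplete : ∀ n gs L, (∀ g ∈ gs, g.Below n) → (∃ r, Sat n gs r) →
      ∃ p, RealizesOn (VL n gs L) (adj n gs L) p)
    (hVL : PTime (fun x : ℕ × (List Gate × ℕ) => VL x.1 x.2.1 x.2.2))
    (hadj : PTime (fun p : (ℕ × (List Gate × ℕ)) × (β × β) =>
      adj p.1.1 p.1.2.1 p.1.2.2 p.2.1 p.2.2)) : UDGHard Δ := by
  intro L' hL'
  obtain ⟨g, hg, hgL⟩ := hL'
  obtain ⟨P, hP, hP'⟩ := parse_exists
  have hword : PTime (fun x : ℕ × (List Gate × ℕ) =>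
      listWord (VL x.1 x.2.1 x.2.2) (adj x.1 x.2.1 x.2.2)) := ptime_listWord hVL hadj
  refine ⟨fun x => listWord (VL (insN (P (g x))) (insG (P (g x))) (insL (P (g x))))
    (adj (insN (P (g x))) (insG (P (g x))) (insL (P (g x)))), ?_, ?_⟩
  · rw [CookLevin.polyTimeComputable_iff] at hg ⊢
    exact hword.comp (ins_ptime.comp (hP.comp hg))
  · intro x
    obtain ⟨φ, h1, h2⟩ := hgL x
    have h3 : P (g x) = φ.toks := by rw [h1, hP']
    beta_reduce
    rw [h3, h2]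
    have hS := sysOf_below φ
    have hB := boundSys_below _ _ hS
    have hG : ∀ g ∈ insG φ.toks, g.Below (insN φ.toks) := gatesOf_below _ _ _ hB
    refine ⟨_, listGraph (VL (insN φ.toks) (insG φ.toks) (insL φ.toks))
      (adj (insN φ.toks) (insG φ.toks) (insL φ.toks)), ?_, ?_, ?_⟩
    · exact (graphWord_listGraph _ _ (hsymm _ _ _)).symm
    · exact listGraph_degree _ (hnd _ _ _) _ _ (hdeg _ _ _)
    · rw [listGraph_udg _ (hnd _ _ _) _ (hsymm _ _ _), ← sysOf_iff]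
      constructor
      · intro h
        obtain ⟨z, hz, hz1⟩ := boundSys_complete _ _ hS h
        exact hcomplete _ _ _ hG (gates_complete _ _ _ hB z hz hz1)
      · intro h
        obtain ⟨r, hr⟩ := hsound _ _ _ hG h
        exact boundSys_sound _ _ hS (gates_sound _ _ _ r hr)

end Pool.Agent.Lib.MP_1cb9f1_lc
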