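import Pool.Agent.Lib.MP_1cb9f1_lc.Iface

/-!
Rope / junction / product calculus (soundness side of MP_1cb9f1_lc).

A point at the site `q` (a lattice point, spacing `2`) is at `q + x` with displacement `x`.  For a
point with displacement `x` at `q` and a point with displacement `y` at `q + 2 e` (`e` a unit
vector) being near means `Ed e x y : |y - x|² + 4 ⟨e, y - x⟩ ≤ 0`.
`R` bounds all displacements: `nsq x ≤ R²`.
-/

set_option autoImplicit false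

namespace Pool.Agent.MP1cb9f1

open Pool.Agent.Lib.MP_1cb9f1_lc

/-- scalar product -/
def dot (u v : ℝ × ℝ) : ℝ := u.1 * v.1 + u.2 * v.2

/-- squared norm -/
def nsq (u : ℝ × ℝ) : ℝ := u.1 ^ 2 + u.2 ^ 2

/-- the edge relation in terms of displacements -/
def Ed (e x y : ℝ × ℝ) : Prop := nsq (y - x) + 4 * dot e (y - x) ≤ 0

theorem nsq_nonneg (u : ℝ × ℝ) : 0 ≤ nsq u := by unfold nsq; positivity

theorem near_iff_ed (q e x y : ℝ × ℝ) (he : nsq e = 1) :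
    Near (q + x) (q + (2 * e.1, 2 * e.2) + y) ↔ Ed e x y := by
  unfold Near Ed nsq dot
  unfold nsq at he
  simp only [Prod.fst_add, Prod.snd_add, Prod.fst_sub, Prod.snd_sub]
  constructor
  · intro h; nlinarith [h, he]
  · intro h; nlinarith [h, he]

theorem abs_dot_le {e x : ℝ × ℝ} {R : ℝ} (hR : 0 ≤ R) (he : nsq e = 1) (hx : nsq x ≤ R ^ 2) :
    |dot e x| ≤ R := by
  apply abs_le_of_sq_le_sq _ hR
  have : dot e x ^ 2 ≤ nsq e * nsq x := by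
    unfold dot nsq
    nlinarith [sq_nonneg (e.1 * x.2 - e.2 * x.1)]
  rw [he] at this
  linarith

theorem nsq_sub_le {x y : ℝ × ℝ} {R : ℝ} (hx : nsq x ≤ R ^ 2) (hy : nsq y ≤ R ^ 2) :
    nsq (y - x) ≤ 4 * R ^ 2 := by
  unfold nsq at *
  simp only [Prod.fst_sub, Prod.snd_sub]
  nlinarith [sq_nonneg (y.1 + x.1), sq_nonneg (y.2 + x.2)]

theorem dot_sub (e x y : ℝ × ℝ) : dot e (y - x) = dot e y - dot e x := by
  unfold dot; simp only [Prod.fst_sub, Prod.snd_sub]; ring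

/-- an edge: the coordinate decreases -/
theorem ed_le {e x y : ℝ × ℝ} (h : Ed e x y) : dot e y ≤ dot e x := by
  unfold Ed at h
  rw [dot_sub] at h
  linarith [nsq_nonneg (y - x)]

/-- an edge, sharp form -/
theorem ed_sharp {e x y : ℝ × ℝ} (h : Ed e x y) : dot e y + nsq (y - x) / 4 ≤ dot e x := by
  unfold Ed at h
  rw [dot_sub] at h
  linarith

/-- a non-edge, sharp form -/
theorem ned_sharp {e x y : ℝ × ℝ} (h : ¬ Ed e x y) : dot e x < dot e y + nsq (y - x) / 4 := by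
  unfold Ed at h
  rw [dot_sub] at h
  linarith

/-- a non-edge: the coordinate does not decrease by more than `R²` -/
theorem ned_lt {e x y : ℝ × ℝ} {R : ℝ} (h : ¬ Ed e x y) (hx : nsq x ≤ R ^ 2)
    (hy : nsq y ≤ R ^ 2) : dot e x < dot e y + R ^ 2 := by
  have h1 := ned_sharp h
  have h2 := nsq_sub_le hx hy
  linarith

/-- the induced `2 × 2` matching `a ~ a'`, `b ~ b'`, `a !~ b'`, `b !~ a'` in direction `e` -/
structure Match (e a b a' b' : ℝ × ℝ) : Prop where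
  aa : Ed e a a'
  bb : Ed e b b'
  ab : ¬ Ed e a b'
  ba : ¬ Ed e b a'

/-- one link of a double rope -/
theorem Match.link {e a b a' b' : ℝ × ℝ} {R : ℝ} (h : Match e a b a' b')
    (ha : nsq a ≤ R ^ 2) (hb : nsq b ≤ R ^ 2) (ha' : nsq a' ≤ R ^ 2) (hb' : nsq b' ≤ R ^ 2) :
    dot e a' ≤ dot e a ∧ dot e a ≤ dot e a' + 2 * R ^ 2 ∧
    dot e b' ≤ dot e b ∧ dot e b ≤ dot e b' + 2 * R ^ 2 ∧
    |dot e a - dot e b| ≤ R ^ 2 ∧ |dot e a' - dot e b'| ≤ R ^ 2 := by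
  have h1 := ed_le h.aa
  have h2 := ed_le h.bb
  have h3 := ned_lt h.ab ha hb'
  have h4 := ned_lt h.ba hb ha'
  refine ⟨h1, by linarith, h2, by linarith, ?_, ?_⟩
  · rw [abs_le]; constructor <;> linarith
  · rw [abs_le]; constructor <;> linarith

/-- a double rope with `n` links -/
theorem rope {e : ℝ × ℝ} {R : ℝ} {a b : ℕ → ℝ × ℝ} {n : ℕ}
    (hm : ∀ i < n, Match e (a i) (b i) (a (i + 1)) (b (i + 1)))
    (ha : ∀ i ≤ n, nsq (a i) ≤ R ^ 2) (hb : ∀ i ≤ n, nsq (b i) ≤ R ^ 2) (i : ℕ) :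
    ∀ k, i + k ≤ n → dot e (a (i + k)) ≤ dot e (a i) ∧
      dot e (a i) ≤ dot e (a (i + k)) + 2 * k * R ^ 2 := by
  intro k
  induction k with
  | zero => intro _; simp
  | succ k ih =>
    intro hk
    obtain ⟨h1, h2⟩ := ih (by omega)
    obtain ⟨h3, h4, -⟩ := (hm (i + k) (by omega)).link (ha _ (by omega)) (hb _ (by omega))
      (ha _ (by omega)) (hb _ (by omega))
    rw [show i + (k + 1) = i + k + 1 by ring]
    push_cast
    constructor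
    · linarith
    · linarith

/-- symmetric form: all values of a rope agree up to `2 n R²` -/
theorem rope_abs {e : ℝ × ℝ} {R : ℝ} {a b : ℕ → ℝ × ℝ} {n : ℕ}
    (hm : ∀ i < n, Match e (a i) (b i) (a (i + 1)) (b (i + 1)))
    (ha : ∀ i ≤ n, nsq (a i) ≤ R ^ 2) (hb : ∀ i ≤ n, nsq (b i) ≤ R ^ 2) {i j : ℕ}
    (hi : i ≤ n) (hj : j ≤ n) : |dot e (a i) - dot e (a j)| ≤ 2 * n * R ^ 2 := by
  have hR : 0 ≤ R ^ 2 := sq_nonneg R
  rcases le_total i j with h | h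
  · obtain ⟨k, rfl⟩ := Nat.exists_eq_add_of_le h
    obtain ⟨h1, h2⟩ := rope hm ha hb i k hj
    have hk : (k : ℝ) ≤ n := by exact_mod_cast (show k ≤ n by omega)
    rw [abs_le]
    constructor <;> nlinarith
  · obtain ⟨k, rfl⟩ := Nat.exists_eq_add_of_le h
    obtain ⟨h1, h2⟩ := rope hm ha hb j k hi
    have hk : (k : ℝ) ≤ n := by exact_mod_cast (show k ≤ n by omega)
    rw [abs_le]
    constructor <;> nlinarith

/-- junction by edges: `a ~ p ~ a'` -/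
theorem junction_edge {e a p a' : ℝ × ℝ} (h1 : Ed e a p) (h2 : Ed e p a') :
    dot e a' ≤ dot e p ∧ dot e p ≤ dot e a := ⟨ed_le h2, ed_le h1⟩

/-- junction by non-edges: `a !~ p !~ a'` -/
theorem junction_nonedge {e a p a' : ℝ × ℝ} {R : ℝ} (h1 : ¬ Ed e a p) (h2 : ¬ Ed e p a')
    (ha : nsq a ≤ R ^ 2) (hp : nsq p ≤ R ^ 2) (ha' : nsq a' ≤ R ^ 2) :
    dot e a - R ^ 2 ≤ dot e p ∧ dot e p ≤ dot e a' + R ^ 2 :=
  ⟨by linarith [ned_lt h1 ha hp], (ned_lt h2 hp ha').le⟩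

/-- the six points of a product gadget: `p i ~ r i`, `p (i+1) !~ r i` -/
structure Hex (e : ℝ × ℝ) (p0 p1 p2 r0 r1 r2 : ℝ × ℝ) : Prop where
  e0 : Ed e p0 r0
  e1 : Ed e p1 r1
  e2 : Ed e p2 r2
  n0 : ¬ Ed e p1 r0
  n1 : ¬ Ed e p2 r1
  n2 : ¬ Ed e p0 r2

/-- the exact inequality of the product gadget -/
theorem Hex.exact {e p0 p1 p2 r0 r1 r2 : ℝ × ℝ} (h : Hex e p0 p1 p2 r0 r1 r2) :
    0 < dot (p0 - p1) r0 + dot (p1 - p2) r1 + dot (p2 - p0) r2 := by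
  obtain ⟨e0, e1, e2, n0, n1, n2⟩ := h
  unfold Ed at e0 e1 e2 n0 n1 n2
  push Not at n0 n1 n2
  unfold nsq dot at *
  simp only [Prod.fst_sub, Prod.snd_sub] at *
  nlinarith

/-- the coordinates in direction `e` of the six points agree up to `3 R²` -/
theorem Hex.close {e p0 p1 p2 r0 r1 r2 : ℝ × ℝ} {R : ℝ} (h : Hex e p0 p1 p2 r0 r1 r2)
    (hp0 : nsq p0 ≤ R ^ 2) (hp1 : nsq p1 ≤ R ^ 2) (hp2 : nsq p2 ≤ R ^ 2)
    (hr0 : nsq r0 ≤ R ^ 2) (hr1 : nsq r1 ≤ R ^ 2) (hr2 : nsq r2 ≤ R ^ 2) :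
    |dot e p0 - dot e p1| ≤ 2 * R ^ 2 ∧ |dot e p1 - dot e p2| ≤ 2 * R ^ 2 ∧
    |dot e p2 - dot e p0| ≤ 2 * R ^ 2 ∧
    |dot e r0 - dot e r1| ≤ 2 * R ^ 2 ∧ |dot e r0 - dot e r2| ≤ 2 * R ^ 2 := by
  have a0 := ed_le h.e0
  have a1 := ed_le h.e1
  have a2 := ed_le h.e2
  have b0 := ned_lt h.n0 hp1 hr0
  have b1 := ned_lt h.n1 hp2 hr1
  have b2 := ned_lt h.n2 hp0 hr2
  refine ⟨?_, ?_, ?_, ?_, ?_⟩ <;> rw [abs_le] <;> constructor <;> linarith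

/-- scalar products in terms of the coordinates along two unit vectors at scalar product `c`,
`c² = 1/4` -/
theorem dot_coord {e f : ℝ × ℝ} {c : ℝ} (he : nsq e = 1) (hf : nsq f = 1) (hc : dot e f = c)
    (hc2 : c ^ 2 = 1 / 4) (x y : ℝ × ℝ) :
    3 * dot x y = 4 * (dot e x * dot e y + dot f x * dot f y
      - c * (dot e x * dot f y + dot f x * dot e y)) := by
  unfold nsq at he hf
  unfold dot at hc ⊢
  have hdet : (e.1 * f.2 - e.2 * f.1) ^ 2 = 3 / 4 := by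
    have : (e.1 * f.2 - e.2 * f.1) ^ 2 =
        (e.1 ^ 2 + e.2 ^ 2) * (f.1 ^ 2 + f.2 ^ 2) - (e.1 * f.1 + e.2 * f.2) ^ 2 := by ring
    rw [this, he, hf, hc, hc2]; norm_num
  -- both sides are quadratic forms; use the Gram determinant identity
  have key : (e.1 * x.1 + e.2 * x.2) * (e.1 * y.1 + e.2 * y.2) * (f.1 ^ 2 + f.2 ^ 2)
      + (f.1 * x.1 + f.2 * x.2) * (f.1 * y.1 + f.2 * y.2) * (e.1 ^ 2 + e.2 ^ 2)
      - (e.1 * f.1 + e.2 * f.2) * ((e.1 * x.1 + e.2 * x.2) * (f.1 * y.1 + f.2 * y.2)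
        + (f.1 * x.1 + f.2 * x.2) * (e.1 * y.1 + e.2 * y.2))
      = (e.1 * f.2 - e.2 * f.1) ^ 2 * (x.1 * y.1 + x.2 * y.2) := by ring
  rw [he, hf, hc, hdet] at key
  linarith

theorem mul_le_of_abs {x y A B : ℝ} (hx : |x| ≤ A) (hy : |y| ≤ B) : x * y ≤ A * B := by
  calc x * y ≤ |x * y| := le_abs_self _
    _ = |x| * |y| := abs_mul x y
    _ ≤ A * B := mul_le_mul hx hy (abs_nonneg y) ((abs_nonneg x).trans hx)

theorem prod_aux {a0 a1 a2 s0 s1 s2 b0 b1 b2 t0 t1 t2 c R : ℝ} (hR : 0 ≤ R) (hcabs : |c| ≤ 1 / 2)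
    (k0 : |a0 - a1| ≤ 2 * R ^ 2) (k1 : |a1 - a2| ≤ 2 * R ^ 2) (k2 : |a2 - a0| ≤ 2 * R ^ 2)
    (l1 : |s0 - s1| ≤ 2 * R ^ 2) (l2 : |s0 - s2| ≤ 2 * R ^ 2)
    (m0 : |s0| ≤ R) (m1 : |s1| ≤ R) (m2 : |s2| ≤ R)
    (q0 : |t0| ≤ R) (q1 : |t1| ≤ R) (q2 : |t2| ≤ R)
    (u0 : |b0| ≤ R) (u1 : |b1| ≤ R) (u2 : |b2| ≤ R)
    (main : 0 < (a0 - a1) * s0 + (a1 - a2) * s1 + (a2 - a0) * s2
      + ((b0 - b1) * t0 + (b1 - b2) * t1 + (b2 - b0) * t2)
      - c * ((a0 - a1) * t0 + (a1 - a2) * t1 + (a2 - a0) * t2)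
      - c * ((b0 - b1) * s0 + (b1 - b2) * s1 + (b2 - b0) * s2)) :
    -(15 * R ^ 3) < (b0 - b1) * t0 + (b1 - b2) * t1 + (b2 - b0) * t2 := by
  have hR3 : 0 ≤ R ^ 3 := pow_nonneg hR 3
  have E1 : (a0 - a1) * s0 + (a1 - a2) * s1 + (a2 - a0) * s2 ≤ 6 * R ^ 3 := by
    have g0 := mul_le_of_abs k0 m0
    have g1 := mul_le_of_abs k1 m1
    have g2 := mul_le_of_abs k2 m2
    linarith [show 2 * R ^ 2 * R = 2 * R ^ 3 by ring]
  have E2 : -c * ((a0 - a1) * t0 + (a1 - a2) * t1 + (a2 - a0) * t2) ≤ 3 * R ^ 3 := by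
    have g : |(a0 - a1) * t0 + (a1 - a2) * t1 + (a2 - a0) * t2| ≤ 6 * R ^ 3 := by
      rw [abs_le]
      constructor
      · have g0 := mul_le_of_abs k0 (show |-t0| ≤ R by rwa [abs_neg])
        have g1 := mul_le_of_abs k1 (show |-t1| ≤ R by rwa [abs_neg])
        have g2 := mul_le_of_abs k2 (show |-t2| ≤ R by rwa [abs_neg])
        linarith [show 2 * R ^ 2 * R = 2 * R ^ 3 by ring]
      · have g0 := mul_le_of_abs k0 q0
        have g1 := mul_le_of_abs k1 q1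
        have g2 := mul_le_of_abs k2 q2
        linarith [show 2 * R ^ 2 * R = 2 * R ^ 3 by ring]
    have := mul_le_of_abs (show |-c| ≤ 1 / 2 by rwa [abs_neg]) g
    linarith
  have E3 : -c * ((b0 - b1) * s0 + (b1 - b2) * s1 + (b2 - b0) * s2) ≤ 6 * R ^ 3 := by
    have v1 : |b1 - b2| ≤ 2 * R := by
      calc |b1 - b2| ≤ |b1| + |b2| := abs_sub b1 b2
        _ ≤ 2 * R := by linarith
    have v2 : |b2 - b0| ≤ 2 * R := by
      calc |b2 - b0| ≤ |b2| + |b0| := abs_sub b2 b0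
        _ ≤ 2 * R := by linarith
    have e : (b0 - b1) * s0 + (b1 - b2) * s1 + (b2 - b0) * s2 =
        -((b1 - b2) * (s0 - s1) + (b2 - b0) * (s0 - s2)) := by ring
    have g : |(b0 - b1) * s0 + (b1 - b2) * s1 + (b2 - b0) * s2| ≤ 12 * R ^ 3 := by
      rw [e, abs_neg]
      calc |(b1 - b2) * (s0 - s1) + (b2 - b0) * (s0 - s2)|
          ≤ |(b1 - b2) * (s0 - s1)| + |(b2 - b0) * (s0 - s2)| := abs_add_le _ _
        _ = |b1 - b2| * |s0 - s1| + |b2 - b0| * |s0 - s2| := by rw [abs_mul, abs_mul]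
        _ ≤ (2 * R) * (2 * R ^ 2) + (2 * R) * (2 * R ^ 2) := by
            gcongr
        _ = 8 * R ^ 3 := by ring
        _ ≤ 12 * R ^ 3 := by linarith
    have := mul_le_of_abs (show |-c| ≤ 1 / 2 by rwa [abs_neg]) g
    linarith
  linarith

/-- **Product inequality.** The coordinates of `p_i`, `r_i` in the second direction. -/
theorem Hex.product {e f p0 p1 p2 r0 r1 r2 : ℝ × ℝ} {c R : ℝ} (h : Hex e p0 p1 p2 r0 r1 r2)
    (he : nsq e = 1) (hf : nsq f = 1) (hc : dot e f = c) (hc2 : c ^ 2 = 1 / 4) (hR : 0 ≤ R)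
    (hp0 : nsq p0 ≤ R ^ 2) (hp1 : nsq p1 ≤ R ^ 2) (hp2 : nsq p2 ≤ R ^ 2)
    (hr0 : nsq r0 ≤ R ^ 2) (hr1 : nsq r1 ≤ R ^ 2) (hr2 : nsq r2 ≤ R ^ 2) :
    -(15 * R ^ 3) < (dot f p0 - dot f p1) * dot f r0 + (dot f p1 - dot f p2) * dot f r1 +
      (dot f p2 - dot f p0) * dot f r2 := by
  have hex := h.exact
  obtain ⟨k0, k1, k2, l1, l2⟩ := h.close hp0 hp1 hp2 hr0 hr1 hr2
  have hcabs : |c| ≤ 1 / 2 := by
    apply abs_le_of_sq_le_sq _ (by norm_num)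
    rw [hc2]; norm_num
  have d0 := dot_coord he hf hc hc2 (p0 - p1) r0
  have d1 := dot_coord he hf hc hc2 (p1 - p2) r1
  have d2 := dot_coord he hf hc hc2 (p2 - p0) r2
  rw [dot_sub, dot_sub] at d0 d1 d2
  refine prod_aux hR hcabs k0 k1 k2 l1 l2 (abs_dot_le hR he hr0) (abs_dot_le hR he hr1)
    (abs_dot_le hR he hr2) (abs_dot_le hR hf hr0) (abs_dot_le hR hf hr1) (abs_dot_le hR hf hr2)
    (abs_dot_le hR hf hp0) (abs_dot_le hR hf hp1) (abs_dot_le hR hf hp2) ?_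
  linarith

end Pool.Agent.MP1cb9f1
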