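import Pool.Agent.Lib.MP_612bca_lc.Defs

/-!
# Unit disk graphs of bounded degree and `∃ℝ`-hardness

Public definitions used in the statement of the main result of `MP_1cb9f1_lc`. The existential
theory of the reals, the class `∃ℝ` (`InExistsR`) and polynomial-time computability
(`CookLevin.PolyTimeComputable`) are those of `Pool.Agent.Lib.MP_612bca_lc.Defs` and
`Pool.Agent.Lib.CookLevin.Defs`.
-/

namespace Pool.Agent.Lib.MP_1cb9f1_lc

open MP_612bca_lc

/-- `G` is a unit disk graph: there are closed disks of radius `1` in the Euclidean plane such that
two distinct vertices are adjacent if and only if their disks meet. -/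
def IsUnitDiskGraph {V : Type*} (G : SimpleGraph V) : Prop :=
  ∃ p : V → EuclideanSpace ℝ (Fin 2), ∀ u v, u ≠ v →
    (G.Adj u v ↔ (Metric.closedBall (p u) 1 ∩ Metric.closedBall (p v) 1).Nonempty)

/-- The maximum degree of `G` is at most `Δ`. -/
def MaxDegreeLE {n : ℕ} (G : SimpleGraph (Fin n)) (Δ : ℕ) : Prop :=
  ∀ v, {w | G.Adj v w}.ncard ≤ Δ

open Classical in
/-- The graph `G` on `{0, …, n-1}` by its vertex and edge lists, as a bit string: `n` times `1`, then
`0`, then for every edge `ij` with `i < j` (in lexicographic order) `i` times `1`, then `0`, `j`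
times `1`, then `0`. -/
noncomputable def graphWord (n : ℕ) (G : SimpleGraph (Fin n)) : List Bool :=
  List.replicate n true ++ false ::
    (List.finRange n).flatMap fun i => (List.finRange n).flatMap fun j =>
      if i < j ∧ G.Adj i j then
        List.replicate i true ++ false :: List.replicate j true ++ [false] else []

/-- The problem `UDG_Δ` (unit disk graph recognition with inputs restricted to graphs of maximum
degree at most `Δ`) is `∃ℝ`-hard: every problem in `∃ℝ` has a polynomial-time many-one reduction
whose values are codes of graphs of maximum degree at most `Δ`, the yes-instances being mapped to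
unit disk graphs and the no-instances to graphs that are not unit disk graphs. -/
def UDGHard (Δ : ℕ) : Prop :=
  ∀ L : Set (List Bool), InExistsR L →
    ∃ f : List Bool → List Bool, CookLevin.PolyTimeComputable f ∧
      ∀ x, ∃ (n : ℕ) (G : SimpleGraph (Fin n)), f x = graphWord n G ∧ MaxDegreeLE G Δ ∧
        (x ∈ L ↔ IsUnitDiskGraph G)

end Pool.Agent.Lib.MP_1cb9f1_lc
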