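import Pool.Agent.Lib.MP_1cb9f1_lc.GeoDefs

/-!
# The vertex list has no duplicates; symmetry; bounded degree
-/

namespace Pool.Agent.MP1cb9f1

open Pool.Agent.Lib.MP_1cb9f1_lc

theorem adjV_comm (x y : VC) : adjV x y = adjV y x := by
  unfold adjV
  rw [Bool.or_assoc, Bool.or_assoc, Bool.or_comm (adjDir x y)]
  congr 1
  rw [Bool.eq_iff_iff, decide_eq_true_iff, decide_eq_true_iff]
  exact eq_comm

theorem nodup_flatMap_key {α β : Type} {l : List α} {f : α → List β} (k : β → α) (hl : l.Nodup)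
    (hf : ∀ x ∈ l, (f x).Nodup) (hk : ∀ x ∈ l, ∀ y ∈ f x, k y = x) : (l.flatMap f).Nodup := by
  induction l with
  | nil => simp
  | cons a l ih =>
    rw [List.nodup_cons] at hl
    rw [List.flatMap_cons, List.nodup_append']
    refine ⟨hf a List.mem_cons_self, ih hl.2 (fun x hx => hf x (List.mem_cons_of_mem _ hx))
      (fun x hx => hk x (List.mem_cons_of_mem _ hx)), ?_⟩
    intro y h1 h2
    obtain ⟨b, hb, hy⟩ := List.mem_flatMap.1 h2
    have e1 := hk a List.mem_cons_self y h1
    have e2 := hk b (List.mem_cons_of_mem _ hb) y hy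
    rw [e1] at e2
    exact hl.1 (e2 ▸ hb)

/-! ### Labels -/

theorem opExtras_good (T : ℕ) (o : Op) (x y : ℕ) :
    (opExtras T o x y).Nodup ∧ ∀ l ∈ opExtras T o x y, 27 ≤ l ∧ l < 44 := by
  unfold opExtras
  split_ifs <;> simp

theorem extrasAt_good (T : ℕ) (ops : List Op) (i j : ℕ) :
    (extrasAt T ops i j).Nodup ∧ ∀ l ∈ extrasAt T ops i j, 27 ≤ l ∧ l < 44 := by
  unfold extrasAt
  split_ifs
  · exact opExtras_good _ _ _ _
  · simp

theorem labelsAt_nodup (T : ℕ) (ops : List Op) (i j : ℕ) : (labelsAt T ops i j).Nodup := by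
  have h := extrasAt_good T ops i j
  unfold labelsAt
  rw [List.nodup_append']
  refine ⟨?_, h.1, ?_⟩
  · split_ifs <;> decide
  · intro l h1 h2
    have h3 := (h.2 l h2).1
    have h4 : l < 27 := by
      revert h1
      split_ifs <;> simp only [List.mem_append, List.mem_range, List.mem_cons, List.not_mem_nil,
        or_false] <;> omega
    omega

theorem labelsAt_lt (T : ℕ) (ops : List Op) (i j : ℕ) : ∀ l ∈ labelsAt T ops i j, l < 44 := by
  intro l hl
  have h := extrasAt_good T ops i j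
  unfold labelsAt at hl
  rw [List.mem_append] at hl
  rcases hl with hl | hl
  · revert hl
    split_ifs <;> simp only [List.mem_append, List.mem_range, List.mem_cons, List.not_mem_nil,
        or_false] <;> omega
  · exact (h.2 l hl).2

/-! ### Strip sites -/

/-- The number of a strip site. -/
def numOf (K : ℕ) (s : ℕ × ℕ) : ℕ := if s.1 = 0 then 2 * (K + 1 - s.2) else 2 * (K - s.2) + 1

theorem numOf_siteOf (K g : ℕ) (h : g / 2 ≤ K) : numOf K (siteOf K g) = g := by
  unfold siteOf
  split_ifs with h1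
  · simp only [numOf, if_true]
    omega
  · simp only [numOf]
    rw [if_neg (by omega)]
    omega

theorem corners_nodup : corners.Nodup := by decide

/-! ### No duplicates -/

theorem regionV_nodup (K T : ℕ) (ops : List Op) : (regionV K T ops).Nodup := by
  unfold regionV
  refine nodup_flatMap_key (fun y : VC => y.1.1) List.nodup_range (fun i _ => ?_) ?_
  · refine nodup_flatMap_key (fun y : VC => y.1.2 - K) List.nodup_range (fun j _ => ?_) ?_
    · refine List.Nodup.map ?_ (labelsAt_nodup T ops i j)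
      intro a b h
      simpa using h
    · intro j _ y hy
      obtain ⟨l, -, rfl⟩ := List.mem_map.1 hy
      simp
  · intro i _ y hy
    obtain ⟨j, -, hy⟩ := List.mem_flatMap.1 hy
    obtain ⟨l, -, rfl⟩ := List.mem_map.1 hy
    rfl

theorem mem_regionV' {K T : ℕ} {ops : List Op} {y : VC} (hy : y ∈ regionV K T ops) :
    ∃ i j l, i ≤ regI T ops ∧ j ≤ regJ T ∧ l ∈ labelsAt T ops i j ∧ y = ((i, K + j), (0, l)) := by
  obtain ⟨i, hi, hy⟩ := List.mem_flatMap.1 hy
  obtain ⟨j, hj, hy⟩ := List.mem_flatMap.1 hy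
  obtain ⟨l, hl, rfl⟩ := List.mem_map.1 hy
  rw [List.mem_range] at hi hj
  exact ⟨i, j, l, by omega, by omega, hl, rfl⟩

theorem lev_nodup (K M k : ℕ) (f g : ℕ → ℕ) (r : ℕ → ℕ) (hr : ∀ m < M, r (g m) = m)
    (hf : ∀ m < M, ∀ d < k, (f m + d) / 2 ≤ K) :
    ((List.range M).flatMap fun m => (List.range k).flatMap fun d =>
      corners.map fun c => ((siteOf K (f m + d), (g m, c)) : VC)).Nodup := by
  refine nodup_flatMap_key (fun y : VC => r y.2.1) List.nodup_range (fun m hm => ?_) ?_
  · rw [List.mem_range] at hm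
    refine nodup_flatMap_key (fun y : VC => numOf K y.1 - f m) List.nodup_range (fun d _ => ?_) ?_
    · refine List.Nodup.map ?_ corners_nodup
      intro a b h
      simpa using h
    · intro d hd y hy
      rw [List.mem_range] at hd
      obtain ⟨l, -, rfl⟩ := List.mem_map.1 hy
      simp only
      rw [numOf_siteOf _ _ (hf m hm d hd)]
      omega
  · intro m hm y hy
    rw [List.mem_range] at hm
    obtain ⟨j, -, hy⟩ := List.mem_flatMap.1 hy
    obtain ⟨l, -, rfl⟩ := List.mem_map.1 hy
    exact hr m hm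

theorem mem_lev {K M k : ℕ} {f g : ℕ → ℕ} {y : VC}
    (hy : y ∈ (List.range M).flatMap fun m => (List.range k).flatMap fun d =>
      corners.map fun c => ((siteOf K (f m + d), (g m, c)) : VC)) :
    ∃ m < M, ∃ d < k, ∃ c ∈ corners, y = (siteOf K (f m + d), (g m, c)) := by
  obtain ⟨m, hm, hy⟩ := List.mem_flatMap.1 hy
  obtain ⟨d, hd, hy⟩ := List.mem_flatMap.1 hy
  obtain ⟨l, hl, rfl⟩ := List.mem_map.1 hy
  rw [List.mem_range] at hm hd
  exact ⟨m, hm, d, hd, l, hl, rfl⟩

theorem mem_towerV' {K N : ℕ} {y : VC} (hy : y ∈ towerV K N) :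
    ∃ m < N, ∃ d < 4, ∃ c ∈ corners, y = (siteOf K (m + d), (m + 1, c)) :=
  mem_lev (f := fun m => m) (g := fun m => m + 1) hy

theorem mem_seedV' {K N M : ℕ} {y : VC} (hy : y ∈ seedV K N M) :
    ∃ m < M, ∃ d < 3, ∃ c ∈ corners, y = (siteOf K (N + d), (N + 1 + m, c)) :=
  mem_lev (f := fun _ => N) (g := fun m => N + 1 + m) hy

theorem verts_nodup (T : ℕ) (ops : List Op) (N M : ℕ) : (verts T ops N M).Nodup := by
  unfold verts
  have h1 := regionV_nodup (shiftK N M) T ops
  have h2 : (towerV (shiftK N M) N).Nodup := by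
    refine lev_nodup (shiftK N M) N 4 (fun m => m) (fun m => m + 1) (fun l => l - 1)
      (fun m _ => by simp) ?_
    intro m hm d hd
    unfold shiftK
    omega
  have h3 : (seedV (shiftK N M) N M).Nodup := by
    refine lev_nodup (shiftK N M) M 3 (fun _ => N) (fun m => N + 1 + m) (fun l => l - (N + 1))
      (fun m _ => by simp) ?_
    intro m hm d hd
    unfold shiftK
    omega
  rw [List.nodup_append', List.nodup_append']
  refine ⟨⟨h1, h2, ?_⟩, h3, ?_⟩
  · intro y hy1 hy2
    obtain ⟨i, j, l, -, -, -, rfl⟩ := mem_regionV' hy1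
    obtain ⟨m, -, d, -, c, -, h⟩ := mem_towerV' hy2
    simp at h
  · intro y hy1 hy2
    obtain ⟨m, -, d, -, c, -, h⟩ := mem_seedV' hy2
    rcases List.mem_append.1 hy1 with hy1 | hy1
    · obtain ⟨i, j, l, -, -, -, rfl⟩ := mem_regionV' hy1
      simp only [Prod.mk.injEq] at h
      omega
    · obtain ⟨m', hm', d', -, c', -, rfl⟩ := mem_towerV' hy1
      simp only [Prod.mk.injEq] at h
      omega

theorem VLgeo_nodup (M c n : ℕ) (gs : List Gate) (L : ℕ) : (VLgeo M c n gs L).Nodup :=
  verts_nodup _ _ _ _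

/-! ### Degree -/

/-- A list containing all points at the site `s`. -/
def ptsAt (N M : ℕ) (s : ℕ × ℕ) : List VC :=
  (List.range 44).map (fun l => ((s, (0, l)) : VC)) ++
  ((List.range 4).flatMap fun d => corners.map fun c =>
    ((s, (numOf (shiftK N M) s + 1 - d, c)) : VC)) ++
  ((List.range M).flatMap fun m => corners.map fun c => ((s, (N + 1 + m, c)) : VC))

theorem ptsAt_length (N M : ℕ) (s : ℕ × ℕ) : (ptsAt N M s).length = 68 + 6 * M := by
  unfold ptsAt
  have hc : corners.length = 6 := rfl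
  simp only [List.length_append, List.length_map, List.length_range, List.length_flatMap, hc,
    List.map_const', List.sum_replicate, smul_eq_mul]
  omega

theorem mem_ptsAt {T : ℕ} {ops : List Op} {N M : ℕ} {y : VC} (hy : y ∈ verts T ops N M) :
    y ∈ ptsAt N M y.1 := by
  unfold ptsAt
  rcases List.mem_append.1 hy with hy | hy
  · rcases List.mem_append.1 hy with hy | hy
    · obtain ⟨i, j, l, -, -, hl, rfl⟩ := mem_regionV' hy
      refine List.mem_append_left _ (List.mem_append_left _ (List.mem_map.2 ⟨l, ?_, rfl⟩))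
      exact List.mem_range.2 (labelsAt_lt _ _ _ _ l hl)
    · obtain ⟨m, hm, d, hd, c, hc, rfl⟩ := mem_towerV' hy
      refine List.mem_append_left _ (List.mem_append_right _ (List.mem_flatMap.2
        ⟨d, List.mem_range.2 hd, List.mem_map.2 ⟨c, hc, ?_⟩⟩))
      simp only
      rw [numOf_siteOf _ _ (by unfold shiftK; omega)]
      have : m + d + 1 - d = m + 1 := by omega
      rw [this]
  · obtain ⟨m, hm, d, hd, c, hc, rfl⟩ := mem_seedV' hy
    exact List.mem_append_right _ (List.mem_flatMap.2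
      ⟨m, List.mem_range.2 hm, List.mem_map.2 ⟨c, hc, rfl⟩⟩)

/-- The site `s` and its neighbours. -/
def nbrs (s : ℕ × ℕ) : List (ℕ × ℕ) :=
  [s, (s.1 + 1, s.2), (s.1, s.2 + 1), (s.1 - 1, s.2 + 1), (s.1 - 1, s.2), (s.1, s.2 - 1),
    (s.1 + 1, s.2 - 1)]

theorem nb_mem {k : ℕ} {s t : ℕ × ℕ} (h : nb k s t = true) : t ∈ nbrs s ∧ s ∈ nbrs t := by
  obtain ⟨a, b⟩ := s
  obtain ⟨a', b'⟩ := t
  unfold nb at h
  split_ifs at h <;> simp only [Bool.and_eq_true, decide_eq_true_iff] at h <;>
    simp only [nbrs, List.mem_cons, Prod.mk.injEq, List.not_mem_nil, or_false] <;> omega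

theorem adjV_site {x y : VC} (h : adjV x y = true) : y.1 ∈ nbrs x.1 := by
  unfold adjV adjDir at h
  simp only [Bool.or_eq_true, Bool.and_eq_true, decide_eq_true_iff] at h
  rcases h with (h | (h | h) | h) | (h | h) | h
  · rw [← h]
    simp [nbrs]
  · exact (nb_mem h.1).1
  · exact (nb_mem h.1).1
  · exact (nb_mem h.1).1
  · exact (nb_mem h.1).2
  · exact (nb_mem h.1).2
  · exact (nb_mem h.1).2

theorem verts_degree (T : ℕ) (ops : List Op) (N M : ℕ) (x : VC) :
    ((verts T ops N M).filter fun y => adjV x y).length ≤ 42 * M + 476 := by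
  have h1 : ((verts T ops N M).filter fun y => adjV x y).Nodup := (verts_nodup T ops N M).filter _
  have h2 : ((verts T ops N M).filter fun y => adjV x y) ⊆ (nbrs x.1).flatMap (ptsAt N M) := by
    intro y hy
    rw [List.mem_filter] at hy
    exact List.mem_flatMap.2 ⟨y.1, adjV_site hy.2, mem_ptsAt hy.1⟩
  have h3 := (h1.subperm h2).length_le
  refine h3.trans ?_
  rw [List.length_flatMap]
  simp only [nbrs, List.map_cons, List.map_nil, List.sum_cons, List.sum_nil, ptsAt_length]
  omega

theorem VLgeo_degree (M c n : ℕ) (gs : List Gate) (L : ℕ) (x : VC) :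
    ((VLgeo M c n gs L).filter fun y => adjV x y).length ≤ 42 * M + 476 :=
  verts_degree _ _ _ _ _

end Pool.Agent.MP1cb9f1
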