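import Pool.Agent.Lib.MP_1cb9f1_lc.GeoDefs

/-!
# Well-formedness of the operations of an instance
-/

namespace Pool.Agent.MP1cb9f1

open Pool.Agent.Lib.MP_1cb9f1_lc

theorem mem_opsOf {n : ℕ} {gs : List Gate} {o : Op} (h : o ∈ opsOf n gs) :
    o ∈ [((1 : ℕ), ((0 : ℕ), ((0 : ℕ), n + 1))), (1, n + 1, n + 1, n + 2),
      (1, n + 2, n + 2, n + 3), (1, n + 3, n + 3, n + 4), (2, n + 4, n + 4, 0)] ∨
    ∃ g ∈ gs, ∃ e < gs.length, o ∈ opsGate (n + 5 + e) g := by
  rcases List.mem_append.1 h with h | h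
  · exact Or.inl h
  · obtain ⟨g, hg, h⟩ := List.mem_flatMap.1 h
    have h1 := List.mem_zipIdx hg
    refine Or.inr ⟨g.1, ?_, g.2, ?_, h⟩
    · rw [h1.2.2]
      exact List.getElem_mem _
    · simpa using h1.2.1

theorem opsWF (n : ℕ) (gs : List Gate) (hg : ∀ g ∈ gs, g.Below n) :
    ∀ o ∈ opsOf n gs, OpWF (rowsT n gs) o := by
  intro o ho
  rcases mem_opsOf ho with h | ⟨g, hgm, e, he, h⟩
  · simp only [List.mem_cons, List.not_mem_nil, or_false] at h
    rcases h with rfl | rfl | rfl | rfl | rfl <;> simp only [OpWF, rowsT] <;> omega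
  · have hb := hg g hgm
    cases g with
    | add i j l =>
      simp only [opsGate, List.mem_cons, List.not_mem_nil, or_false] at h
      simp only [Gate.Below] at hb
      rcases h with rfl | rfl <;> simp only [OpWF, rowsT] <;> omega
    | lt x y z u =>
      simp only [opsGate, List.mem_cons, List.not_mem_nil, or_false] at h
      simp only [Gate.Below] at hb
      rcases h with rfl | rfl <;> simp only [OpWF, rowsT] <;> omega

end Pool.Agent.MP1cb9f1
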