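import Pool.Agent.Lib.MP_612bca_lc.PTimeAlg

/-!
# More arithmetic in unary, and integers
-/

namespace Pool.Agent.Lib.MP_1cb9f1_lc

open MP_612bca_lc Pool.Agent.PolyTime

section
variable {α β : Type} [Enc α] [Enc β]

theorem ptime_count {f : α → ℕ} {c : α → ℕ → Bool} (hf : PTime f) (hc : PTime₂ c) :
    PTime (fun a => ((List.range (f a)).filter (c a)).length) :=
  (PTime.filter (PTime.range hf) hc).length

theorem ptime_sub {f g : α → ℕ} (hf : PTime f) (hg : PTime g) : PTime (fun a => f a - g a) := by
  have h : PTime₂ (fun (a : α) (k : ℕ) => decide (g a ≤ k)) := ptime_le (hg.comp PTime.fst) PTime.snd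
  refine (ptime_count hf h).of_eq fun a => ?_
  have key : ∀ n m : ℕ, ((List.range n).filter fun k => decide (m ≤ k)).length = n - m := by
    intro n m
    induction n with
    | zero => simp
    | succ n ih =>
      rw [List.range_succ, List.filter_append, List.length_append, ih]
      by_cases hm : m ≤ n
      · simp [hm]; omega
      · simp [hm]; omega
  exact key _ _

theorem ptime_div {f g : α → ℕ} (hf : PTime f) (hg : PTime g) : PTime (fun a => f a / g a) := by
  have h : PTime₂ (fun (a : α) (k : ℕ) => decide ((k + 1) * g a ≤ f a)) :=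
    ptime_le (PTime.snd.succ.mul (hg.comp PTime.fst)) (hf.comp PTime.fst)
  have key : ∀ n m : ℕ, 0 < m → ∀ N, ((List.range N).filter fun k =>
      decide ((k + 1) * m ≤ n)).length = min N (n / m) := by
    intro n m hm N
    induction N with
    | zero => simp
    | succ N ih =>
      rw [List.range_succ, List.filter_append, List.length_append, ih]
      by_cases h1 : (N + 1) * m ≤ n
      · have h2 : N + 1 ≤ n / m := (Nat.le_div_iff_mul_le hm).2 h1
        simp [h1]
        omega
      · have h2 : ¬ N + 1 ≤ n / m := fun h => h1 ((Nat.le_div_iff_mul_le hm).1 h)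
        simp [h1]
        omega
  refine (PTime.ite (PTime.eq hg (PTime.const 0)) (PTime.const 0) (ptime_count hf h)).of_eq
    fun a => ?_
  by_cases h0 : g a = 0
  · simp [h0]
  · have := key (f a) (g a) (Nat.pos_of_ne_zero h0) (f a)
    have h2 : f a / g a ≤ f a := Nat.div_le_self _ _
    simp only [h0, decide_false, Bool.false_eq_true, if_false]
    rw [this]
    omega

theorem ptime_mod {f g : α → ℕ} (hf : PTime f) (hg : PTime g) : PTime (fun a => f a % g a) :=
  (ptime_sub hf (hg.mul (ptime_div hf hg))).of_eq fun a => by
    have := Nat.div_add_mod (f a) (g a)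
    omega

theorem ptime_getElem? {f : α → List β} {i : α → ℕ} (hf : PTime f) (hi : PTime i) :
    PTime (fun a => (f a)[i a]?) := by
  have h : PTime₂ (fun (a : α) (p : β × ℕ) => decide (p.2 = i a)) :=
    PTime.eq (PTime.snd.comp PTime.snd) (hi.comp PTime.fst)
  have h1 : PTime (fun a => ((f a).zipIdx.find? fun p => decide (p.2 = i a)).map Prod.fst) :=
    PTime.omap (g := fun (_ : α) (p : β × ℕ) => p.1) (PTime.find? hf.zipIdx h)
      (PTime.fst.comp PTime.snd)
  refine h1.of_eq fun a => ?_
  have key : ∀ (l : List β) (m i : ℕ),
      ((l.zipIdx m).find? fun p => decide (p.2 = m + i)).map Prod.fst = l[i]? := by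
    intro l
    induction l with
    | nil => intro m i; simp
    | cons x l ih =>
      intro m i
      rw [List.zipIdx_cons, List.find?_cons]
      cases i with
      | zero => simp
      | succ i =>
        have h1 : ¬ (m = m + (i + 1)) := by omega
        simp only [h1, decide_false]
        rw [List.getElem?_cons_succ, ← ih (m + 1) i]
        congr 2
        funext p
        congr 1
        rw [eq_iff_iff]
        omega
  have := key (f a) 0 (i a)
  simpa using this

end

end Pool.Agent.Lib.MP_1cb9f1_lc
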