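import Pool.Agent.Lib.MP_1cb9f1_lc.GeoDefs
import Pool.Agent.Lib.MP_1cb9f1_lc.GatesPTime
import Pool.Agent.Lib.MP_1cb9f1_lc.UnaryArith
import Pool.Agent.Lib.MP_612bca_lc.Machine

/-!
# The vertex list and the adjacency are computable in polynomial time
-/

namespace Pool.Agent.MP1cb9f1

open Pool.Agent.Lib.MP_1cb9f1_lc Pool.Agent.Lib.MP_612bca_lc Pool.Agent.PolyTime

section
variable {α β : Type} [Enc α] [Enc β]

/-! ### Propositional conditions -/

theorem pt_eq {f g : α → ℕ} (hf : PTime f) (hg : PTime g) :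
    PTime (fun a => decide (f a = g a)) := PTime.eq hf hg

theorem pt_and {c d : α → Prop} [DecidablePred c] [DecidablePred d]
    [∀ a, Decidable (c a ∧ d a)] (hc : PTime (fun a => decide (c a)))
    (hd : PTime (fun a => decide (d a))) : PTime (fun a => decide (c a ∧ d a)) :=
  (hc.and hd).of_eq fun a => by simp

theorem pt_or {c d : α → Prop} [DecidablePred c] [DecidablePred d]
    [∀ a, Decidable (c a ∨ d a)] (hc : PTime (fun a => decide (c a)))
    (hd : PTime (fun a => decide (d a))) : PTime (fun a => decide (c a ∨ d a)) :=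
  (hc.or hd).of_eq fun a => by simp

theorem pt_getD {f : α → List β} {i : α → ℕ} {d : α → β} (hf : PTime f) (hi : PTime i)
    (hd : PTime d) : PTime (fun a => (f a).getD (i a) (d a)) :=
  (PTime.getD (ptime_getElem? hf hi) hd).of_eq fun a => by simp [List.getD_eq_getElem?_getD]

/-! ### Adjacency -/

theorem pt_ky {k l : α → ℕ} (hk : PTime k) (hl : PTime l) : PTime (fun a => ky (k a) (l a)) :=
  PTime.iteC (pt_eq hk (PTime.const 0)) (pt_getD (PTime.const keyTab0) hl (PTime.const 0))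
    (PTime.iteC (pt_eq hk (PTime.const 1)) (pt_getD (PTime.const keyTab1) hl (PTime.const 0))
      (pt_getD (PTime.const keyTab2) hl (PTime.const 0)))

theorem pt_kz {k : α → ℕ} (hk : PTime k) : PTime (fun a => kz (k a)) :=
  PTime.iteC (pt_eq hk (PTime.const 0)) (PTime.const 3) (PTime.const 4)

theorem pt_rule {k : α → ℕ} {p q : α → ℕ × ℕ} (hk : PTime k) (hp : PTime p) (hq : PTime q) :
    PTime (fun a => rule (k a) (p a) (q a)) := by
  have p1 := PTime.fst.comp hp
  have p2 := PTime.snd.comp hp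
  have q1 := PTime.fst.comp hq
  have q2 := PTime.snd.comp hq
  have e1 : PTime (fun a => decide ((p a).2 = (q a).2) ||
      decide (ky (k a) (q a).2 < ky (k a) (p a).2) ||
      (decide (k a = 0) && decide (((p a).2, (q a).2) ∈ gadgetPairs))) :=
    ((pt_eq p2 q2).or (ptime_lt (pt_ky hk q2) (pt_ky hk p2))).or
      ((pt_eq hk (PTime.const 0)).and (PTime.mem (p2.pair q2) (PTime.const gadgetPairs)))
  exact PTime.iteC (pt_eq p1 q1) e1 (PTime.iteC (ptime_lt q1 p1) (ptime_lt (pt_kz hk) (pt_ky hk p2))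
    (ptime_lt (pt_ky hk q2) (pt_kz hk)))

theorem pt_nb {k : α → ℕ} {s t : α → ℕ × ℕ} (hk : PTime k) (hs : PTime s) (ht : PTime t) :
    PTime (fun a => nb (k a) (s a) (t a)) := by
  have s1 := PTime.fst.comp hs
  have s2 := PTime.snd.comp hs
  have t1 := PTime.fst.comp ht
  have t2 := PTime.snd.comp ht
  exact PTime.iteC (pt_eq hk (PTime.const 0)) ((pt_eq t1 s1.succ).and (pt_eq t2 s2))
    (PTime.iteC (pt_eq hk (PTime.const 1)) ((pt_eq t1 s1).and (pt_eq t2 s2.succ))
      ((pt_eq t1.succ s1).and (pt_eq t2 s2.succ)))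

theorem pt_adjDir {x y : α → VC} (hx : PTime x) (hy : PTime y) :
    PTime (fun a => adjDir (x a) (y a)) := by
  have x1 := PTime.fst.comp hx
  have x2 := PTime.snd.comp hx
  have y1 := PTime.fst.comp hy
  have y2 := PTime.snd.comp hy
  have c : ∀ i, PTime (fun _ : α => (i : ℕ)) := PTime.const
  exact (((pt_nb (c 0) x1 y1).and (pt_rule (c 0) x2 y2)).or
    ((pt_nb (c 1) x1 y1).and (pt_rule (c 1) x2 y2))).or
    ((pt_nb (c 2) x1 y1).and (pt_rule (c 2) x2 y2))

theorem pt_adjV {x y : α → VC} (hx : PTime x) (hy : PTime y) :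
    PTime (fun a => adjV (x a) (y a)) :=
  ((PTime.eq (PTime.fst.comp hx) (PTime.fst.comp hy)).or (pt_adjDir hx hy)).or (pt_adjDir hy hx)

/-! ### Operations -/

theorem pt_rowsT {n : α → ℕ} {gs : α → List Gate} (hn : PTime n) (hg : PTime gs) :
    PTime (fun a => rowsT (n a) (gs a)) := (hn.add (PTime.const 5)).add hg.length

theorem pt_op {c a b d : α → ℕ} (hc : PTime c) (ha : PTime a) (hb : PTime b) (hd : PTime d) :
    PTime (fun x => ((c x, a x, b x, d x) : Op)) := hc.pair (ha.pair (hb.pair hd))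

theorem pt_opsGate {t : α → ℕ} {g : α → Gate} (ht : PTime t) (hg : PTime g) :
    PTime (fun a => opsGate (t a) (g a)) := by
  have A : PTime (fun p : α × (ℕ × (ℕ × ℕ)) =>
      [((1, p.2.1, p.2.2.1, t p.1) : Op), (0, p.2.2.2, t p.1, 0)]) := by
    have e : PTime (fun p : α × (ℕ × (ℕ × ℕ)) => p.2) := PTime.snd
    have t' : PTime (fun p : α × (ℕ × (ℕ × ℕ)) => t p.1) := ht.comp PTime.fst
    exact ptime_list2 (pt_op (PTime.const 1) (PTime.fst.comp e) (PTime.fst.comp (PTime.snd.comp e))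
      t') (pt_op (PTime.const 0) (PTime.snd.comp (PTime.snd.comp e)) t' (PTime.const 0))
  have B : PTime (fun p : α × (ℕ × (ℕ × (ℕ × ℕ))) =>
      [((3, p.2.1, p.2.2.1, t p.1) : Op), (4, p.2.2.2.1, p.2.2.2.2, t p.1)]) := by
    have e : PTime (fun p : α × (ℕ × (ℕ × (ℕ × ℕ))) => p.2) := PTime.snd
    have t' : PTime (fun p : α × (ℕ × (ℕ × (ℕ × ℕ))) => t p.1) := ht.comp PTime.fst
    exact ptime_list2 (pt_op (PTime.const 3) (PTime.fst.comp e) (PTime.fst.comp (PTime.snd.comp e))
      t') (pt_op (PTime.const 4) (PTime.fst.comp (PTime.snd.comp (PTime.snd.comp e)))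
        (PTime.snd.comp (PTime.snd.comp (PTime.snd.comp e))) t')
  refine (ptime_gate_cases hg (A := fun a i j l => [((1, i, j, t a) : Op), (0, l, t a, 0)])
    (B := fun a x y z u => [((3, x, y, t a) : Op), (4, z, u, t a)]) A B).of_eq fun a => ?_
  cases g a <;> rfl

theorem pt_opsOf {n : α → ℕ} {gs : α → List Gate} (hn : PTime n) (hg : PTime gs) :
    PTime (fun a => opsOf (n a) (gs a)) := by
  have c : ∀ i, PTime (fun _ : α => (i : ℕ)) := PTime.const
  have v : ∀ i, PTime (fun a => n a + i) := fun i => hn.add (c i)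
  have h1 : PTime (fun a => ([(1, 0, 0, n a + 1), (1, n a + 1, n a + 1, n a + 2),
      (1, n a + 2, n a + 2, n a + 3), (1, n a + 3, n a + 3, n a + 4),
      (2, n a + 4, n a + 4, 0)] : List Op)) :=
    (pt_op (c 1) (c 0) (c 0) (v 1)).cons ((pt_op (c 1) (v 1) (v 1) (v 2)).cons
      ((pt_op (c 1) (v 2) (v 2) (v 3)).cons (ptime_list2 (pt_op (c 1) (v 3) (v 3) (v 4))
        (pt_op (c 2) (v 4) (v 4) (c 0)))))
  have e : PTime (fun p : α × (Gate × ℕ) => p.2) := PTime.snd
  have h2 : PTime (fun a => (gs a).zipIdx.flatMap fun g => opsGate (n a + 5 + g.2) g.1) :=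
    PTime.flatMap (g := fun (a : α) (g : Gate × ℕ) => opsGate (n a + 5 + g.2) g.1) hg.zipIdx
      (pt_opsGate (((hn.comp PTime.fst).add (PTime.const 5)).add (PTime.snd.comp e))
        (PTime.fst.comp e))
  exact h1.append h2

/-! ### Layout -/

theorem pt_rho {a : α → ℕ} (ha : PTime a) : PTime (fun x => rho (a x)) :=
  ((PTime.const 2).mul ha).add (PTime.const 2)

theorem pt_opExtras {T x y : α → ℕ} {o : α → Op} (hT : PTime T) (ho : PTime o) (hx : PTime x)
    (hy : PTime y) : PTime (fun a => opExtras (T a) (o a) (x a) (y a)) := by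
  have c : ∀ i, PTime (fun _ : α => (i : ℕ)) := PTime.const
  have k : ∀ l : List ℕ, PTime (fun _ : α => l) := PTime.const
  have o1 := PTime.fst.comp ho
  have o2 := PTime.snd.comp ho
  have oa := PTime.fst.comp o2
  have o3 := PTime.snd.comp o2
  have ob := PTime.fst.comp o3
  have oc := PTime.snd.comp o3
  have x2 := pt_eq hx (c 2)
  have x3 := pt_eq hx (c 3)
  have ra := pt_rho oa
  have rb := pt_rho ob
  have rc := pt_rho oc
  have rT := pt_rho hT
  have ya := pt_eq hy ra
  have yb := pt_eq hy rb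
  have yc := pt_eq hy rc
  exact PTime.iteC (pt_eq o1 (c 0))
    (PTime.iteC (pt_and x2 (pt_or ya yb)) (k [28]) (k []))
    (PTime.iteC (pt_eq o1 (c 1))
      (PTime.iteC (pt_and x2 yb) (k [28])
        (PTime.iteC (pt_and x2 yc) (k [29])
          (PTime.iteC (pt_and ya (pt_eq (hx.add ra) ((c 2).add rc))) (k [31]) (k []))))
      (PTime.iteC (pt_eq o1 (c 2))
        (PTime.iteC (pt_and x2 yb) (k [28])
          (PTime.iteC (pt_and x2 (pt_eq hy rT)) (k [30])
            (PTime.iteC (pt_and ya (pt_eq (hx.add ra) ((c 2).add rT))) (k [31]) (k []))))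
        (PTime.iteC (pt_and x2 ya) (k [28])
          (PTime.iteC (pt_and x2 yc) (k [27])
            (PTime.iteC (pt_and yb (pt_eq (hx.add rb) ((c 4).add rT))) (k [31])
              (PTime.iteC (pt_and x2 (pt_eq hy (rT.add (c 1))))
                (PTime.iteC (pt_eq o1 (c 3)) (k [32, 33, 34]) (k [38, 39, 40]))
                (PTime.iteC (pt_and x3 (pt_eq hy (rT.add (c 1))))
                  (PTime.iteC (pt_eq o1 (c 3)) (k [35, 36, 37]) (k [41, 42, 43]))
                  (k []))))))))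

theorem pt_blk {T : α → ℕ} (hT : PTime T) : PTime (fun a => blk (T a)) :=
  ((PTime.const 2).mul hT).add (PTime.const 10)

theorem pt_opAt {T i : α → ℕ} {ops : α → List Op} (hT : PTime T) (ho : PTime ops)
    (hi : PTime i) : PTime (fun a => opAt (T a) (ops a) (i a)) :=
  pt_getD ho (ptime_div hi (pt_blk hT)) (PTime.const (0, 0, 0, 0))

theorem pt_extrasAt {T i j : α → ℕ} {ops : α → List Op} (hT : PTime T) (ho : PTime ops)
    (hi : PTime i) (hj : PTime j) : PTime (fun a => extrasAt (T a) (ops a) (i a) (j a)) :=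
  PTime.iteC (ptime_lt (ptime_div hi (pt_blk hT)) ho.length)
    (pt_opExtras hT (pt_opAt hT ho hi) (ptime_mod hi (pt_blk hT)) hj) (PTime.const [])

theorem pt_labelsAt {T i j : α → ℕ} {ops : α → List Op} (hT : PTime T) (ho : PTime ops)
    (hi : PTime i) (hj : PTime j) : PTime (fun a => labelsAt (T a) (ops a) (i a) (j a)) := by
  have c : ∀ i, PTime (fun _ : α => (i : ℕ)) := PTime.const
  have k : ∀ l : List ℕ, PTime (fun _ : α => l) := PTime.const
  exact ((((k (List.range 19)).append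
    (PTime.iteC (pt_eq (ptime_mod hj (c 2)) (c 0)) (k [19, 20]) (k []))).append
    (PTime.iteC (pt_eq (ptime_mod hi (c 2)) (c 0)) (k [21, 22, 23, 24]) (k []))).append
    (PTime.iteC (pt_eq (ptime_mod (hi.add hj) (c 2)) (c 0)) (k [25, 26]) (k []))).append
    (pt_extrasAt hT ho hi hj)

theorem pt_regI {T : α → ℕ} {ops : α → List Op} (hT : PTime T) (ho : PTime ops) :
    PTime (fun a => regI (T a) (ops a)) :=
  ((pt_blk hT).mul ho.length).add (PTime.const 2)

theorem pt_regJ {T : α → ℕ} (hT : PTime T) : PTime (fun a => regJ (T a)) :=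
  ((PTime.const 2).mul hT).add (PTime.const 6)

theorem pt_siteOf {K g : α → ℕ} (hK : PTime K) (hg : PTime g) :
    PTime (fun a => siteOf (K a) (g a)) := by
  have c : ∀ i, PTime (fun _ : α => (i : ℕ)) := PTime.const
  exact PTime.iteC (pt_eq (ptime_mod hg (c 2)) (c 0))
    ((c 0).pair (ptime_sub (hK.add (c 1)) (ptime_div hg (c 2))))
    ((c 1).pair (ptime_sub hK (ptime_div hg (c 2))))

theorem pt_regionV {K T : α → ℕ} {ops : α → List Op} (hK : PTime K) (hT : PTime T)
    (ho : PTime ops) : PTime (fun a => regionV (K a) (T a) (ops a)) := by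
  have h1 : PTime₂ (fun (p : (α × ℕ) × ℕ) (l : ℕ) => ((((p.1.2, K p.1.1 + p.2), (0, l))) : VC)) := by
    have e : PTime (fun q : ((α × ℕ) × ℕ) × ℕ => q.1) := PTime.fst
    exact ((PTime.snd.comp (PTime.fst.comp e)).pair
      ((hK.comp (PTime.fst.comp (PTime.fst.comp e))).add (PTime.snd.comp e))).pair
      ((PTime.const 0).pair PTime.snd)
  have h2 : PTime₂ (fun (p : α × ℕ) (j : ℕ) => (labelsAt (T p.1) (ops p.1) p.2 j).map fun l =>
      (((p.2, K p.1 + j), (0, l)) : VC)) :=
    PTime.map (f := fun q : (α × ℕ) × ℕ => labelsAt (T q.1.1) (ops q.1.1) q.1.2 q.2)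
      (g := fun (q : (α × ℕ) × ℕ) (l : ℕ) => (((q.1.2, K q.1.1 + q.2), (0, l)) : VC))
      (pt_labelsAt (hT.comp (PTime.fst.comp PTime.fst)) (ho.comp (PTime.fst.comp PTime.fst))
        (PTime.snd.comp PTime.fst) PTime.snd) h1
  have h3 : PTime₂ (fun (a : α) (i : ℕ) => (List.range (regJ (T a) + 1)).flatMap fun j =>
      (labelsAt (T a) (ops a) i j).map fun l => (((i, K a + j), (0, l)) : VC)) :=
    PTime.flatMap (f := fun p : α × ℕ => List.range (regJ (T p.1) + 1))
      (g := fun (p : α × ℕ) (j : ℕ) => (labelsAt (T p.1) (ops p.1) p.2 j).map fun l =>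
        (((p.2, K p.1 + j), (0, l)) : VC))
      (PTime.range (pt_regJ (hT.comp PTime.fst)).succ) h2
  exact PTime.flatMap (PTime.range (pt_regI hT ho).succ) h3

theorem pt_lev {K M : α → ℕ} (k : ℕ) {f g : α → ℕ → ℕ} (hK : PTime K) (hM : PTime M)
    (hf : PTime₂ f) (hg : PTime₂ g) :
    PTime (fun a => (List.range (M a)).flatMap fun m => (List.range k).flatMap fun d =>
      corners.map fun c => ((siteOf (K a) (f a m + d), (g a m, c)) : VC)) := by
  have h1 : PTime₂ (fun (p : (α × ℕ) × ℕ) (c : ℕ) =>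
      ((siteOf (K p.1.1) (f p.1.1 p.1.2 + p.2), (g p.1.1 p.1.2, c)) : VC)) := by
    have e : PTime (fun q : ((α × ℕ) × ℕ) × ℕ => q.1) := PTime.fst
    have ea : PTime (fun q : ((α × ℕ) × ℕ) × ℕ => q.1.1) := PTime.fst.comp e
    exact (pt_siteOf (hK.comp (PTime.fst.comp ea)) ((PTime.comp hf ea).add (PTime.snd.comp e))).pair
      ((PTime.comp hg ea).pair PTime.snd)
  have h2 : PTime₂ (fun (p : α × ℕ) (d : ℕ) => corners.map fun c =>
      ((siteOf (K p.1) (f p.1 p.2 + d), (g p.1 p.2, c)) : VC)) :=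
    PTime.map (f := fun _ : (α × ℕ) × ℕ => corners)
      (g := fun (q : (α × ℕ) × ℕ) (c : ℕ) =>
        ((siteOf (K q.1.1) (f q.1.1 q.1.2 + q.2), (g q.1.1 q.1.2, c)) : VC))
      (PTime.const corners) h1
  have h3 : PTime₂ (fun (a : α) (m : ℕ) => (List.range k).flatMap fun d =>
      corners.map fun c => ((siteOf (K a) (f a m + d), (g a m, c)) : VC)) :=
    PTime.flatMap (f := fun _ : α × ℕ => List.range k)
      (g := fun (p : α × ℕ) (d : ℕ) => corners.map fun c =>
        ((siteOf (K p.1) (f p.1 p.2 + d), (g p.1 p.2, c)) : VC)) (PTime.const _) h2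
  exact PTime.flatMap (PTime.range hM) h3

theorem pt_verts {T N M : α → ℕ} {ops : α → List Op} (hT : PTime T) (ho : PTime ops)
    (hN : PTime N) (hM : PTime M) : PTime (fun a => verts (T a) (ops a) (N a) (M a)) := by
  have hK : PTime (fun a => shiftK (N a) (M a)) :=
    (PTime.const 2).mul ((hN.add hM).add (PTime.const 3))
  have h1 := pt_regionV hK hT ho
  have h2 : PTime (fun a => towerV (shiftK (N a) (M a)) (N a)) :=
    pt_lev 4 (f := fun _ m => m) (g := fun _ m => m + 1) hK hN PTime.snd PTime.snd.succ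
  have h3 : PTime (fun a => seedV (shiftK (N a) (M a)) (N a) (M a)) := by
    refine (pt_lev 3 (f := fun a _ => N a) (g := fun a m => N a + 1 + m) hK hM
      (hN.comp PTime.fst) (((hN.comp PTime.fst).add (PTime.const 1)).add PTime.snd))
  exact (h1.append h2).append h3

theorem pt_towerN (c : ℕ) {n L : α → ℕ} {gs : α → List Gate} (hn : PTime n) (hg : PTime gs)
    (hL : PTime L) : PTime (fun a => towerN c (n a) (gs a) (L a)) :=
  (hL.add ((PTime.const c).mul ((pt_regI (pt_rowsT hn hg) (pt_opsOf hn hg)).add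
    (pt_regJ (pt_rowsT hn hg))))).add (PTime.const c)

end

/-- The vertex list is computable in polynomial time. -/
theorem ptime_VLgeo (M c : ℕ) :
    PTime (fun x : ℕ × (List Gate × ℕ) => VLgeo M c x.1 x.2.1 x.2.2) := by
  have n : PTime (fun x : ℕ × (List Gate × ℕ) => x.1) := PTime.fst
  have g : PTime (fun x : ℕ × (List Gate × ℕ) => x.2.1) := PTime.fst.comp PTime.snd
  have L : PTime (fun x : ℕ × (List Gate × ℕ) => x.2.2) := PTime.snd.comp PTime.snd
  exact pt_verts (pt_rowsT n g) (pt_opsOf n g) (pt_towerN c n g L) (PTime.const M)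

/-- The adjacency is computable in polynomial time. -/
theorem ptime_adjV : PTime (fun p : (ℕ × (List Gate × ℕ)) × (VC × VC) => adjV p.2.1 p.2.2) :=
  pt_adjV (PTime.fst.comp PTime.snd) (PTime.snd.comp PTime.snd)

end Pool.Agent.MP1cb9f1
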