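import Pool.Agent.Lib.MP_1cb9f1_lc.GeoDefs

/-!
# Operations on row values: soundness and completeness with respect to the gates
-/

set_option autoImplicit false

namespace Pool.Agent.MP1cb9f1

open Pool.Agent.Lib.MP_1cb9f1_lc

/-- Membership in the list of operations. -/
theorem forall_opsOf {n : ℕ} {gs : List Gate} {P : Op → Prop} :
    (∀ o ∈ opsOf n gs, P o) ↔
      (P (1, 0, 0, n + 1) ∧ P (1, n + 1, n + 1, n + 2) ∧ P (1, n + 2, n + 2, n + 3) ∧
        P (1, n + 3, n + 3, n + 4) ∧ P (2, n + 4, n + 4, 0)) ∧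
      ∀ e g, gs[e]? = some g → ∀ o ∈ opsGate (n + 5 + e) g, P o := by
  unfold opsOf
  simp only [List.forall_mem_append, List.forall_mem_cons, List.not_mem_nil, false_implies,
    implies_true, and_true, List.mem_flatMap, Prod.exists, List.mem_zipIdx_iff_getElem?, and_assoc]
  refine and_congr_right fun _ => and_congr_right fun _ => and_congr_right fun _ =>
    and_congr_right fun _ => and_congr_right fun _ => ?_
  constructor
  · intro h e g hg o ho
    exact h o ⟨g, e, hg, ho⟩
  · rintro h o ⟨g, e, hg, ho⟩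
    exact h e g hg o ho

/-! ### Completeness -/

/-- The value of the row of a gate. -/
noncomputable def gateVal (r : ℕ → ℝ) : Option Gate → ℝ
  | some (.add _ _ l) => r l / 32
  | some (.lt x y z u) =>
    (r x / 32 * (r y / 32) + min (r x / 32) (r z / 32 * (r u / 32))) / 2
  | none => 1 / 32

/-- The exact row values. -/
noncomputable def opVal (n : ℕ) (gs : List Gate) (r : ℕ → ℝ) (a : ℕ) : ℝ :=
  if a < n then r a / 32 else if a = n then 1 / 32 else if a = n + 1 then 1 / 16 else
  if a = n + 2 then 1 / 8 else if a = n + 3 then 1 / 4 else if a = n + 4 then 1 / 2 else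
  gateVal r gs[a - (n + 5)]?

section

variable {n : ℕ} {gs : List Gate} {r : ℕ → ℝ}

theorem opVal_lt {a : ℕ} (h : a < n) : opVal n gs r a = r a / 32 := by
  rw [opVal, if_pos h]

theorem opVal_zero (h0 : r 0 = 1) : opVal n gs r 0 = 1 / 32 := by
  by_cases h : 0 < n
  · rw [opVal_lt h, h0]
  · rw [opVal, if_neg h, if_pos (by omega)]

theorem opVal_one : opVal n gs r (n + 1) = 1 / 16 := by
  rw [opVal, if_neg (by omega), if_neg (by omega), if_pos rfl]

theorem opVal_two : opVal n gs r (n + 2) = 1 / 8 := by
  rw [opVal, if_neg (by omega), if_neg (by omega), if_neg (by omega), if_pos rfl]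

theorem opVal_three : opVal n gs r (n + 3) = 1 / 4 := by
  rw [opVal, if_neg (by omega), if_neg (by omega), if_neg (by omega), if_neg (by omega),
    if_pos rfl]

theorem opVal_four : opVal n gs r (n + 4) = 1 / 2 := by
  rw [opVal, if_neg (by omega), if_neg (by omega), if_neg (by omega), if_neg (by omega),
    if_neg (by omega), if_pos rfl]

theorem opVal_gate (e : ℕ) : opVal n gs r (n + 5 + e) = gateVal r gs[e]? := by
  rw [opVal, if_neg (by omega), if_neg (by omega), if_neg (by omega), if_neg (by omega),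
    if_neg (by omega), if_neg (by omega)]
  congr 2
  omega

end

theorem gateVal_lt_spec {n : ℕ} {r : ℕ → ℝ} (hr : ∀ i < n, 0 < r i ∧ r i < 16) {x y z u : ℕ}
    (hx : x < n) (hy : y < n) (hz : z < n) (hu : u < n) (h : r x * r y < r z * r u) :
    r x / 32 * (r y / 32) < gateVal r (some (.lt x y z u)) ∧
      gateVal r (some (.lt x y z u)) < r x / 32 ∧
      gateVal r (some (.lt x y z u)) < r z / 32 * (r u / 32) := by
  have h1 := hr x hx
  have h2 := hr y hy
  have h3 := hr z hz
  have h4 := hr u hu
  have k1 : r x / 32 * (r y / 32) < r x / 32 := by nlinarith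
  have k2 : r x / 32 * (r y / 32) < r z / 32 * (r u / 32) := by nlinarith
  have k3 : r x / 32 * (r y / 32) < min (r x / 32) (r z / 32 * (r u / 32)) := lt_min k1 k2
  have k4 := min_le_left (r x / 32) (r z / 32 * (r u / 32))
  have k5 := min_le_right (r x / 32) (r z / 32 * (r u / 32))
  simp only [gateVal]
  refine ⟨?_, ?_, ?_⟩ <;> linarith

theorem opsComplete (n : ℕ) (gs : List Gate) (hg : ∀ g ∈ gs, g.Below n) (r : ℕ → ℝ)
    (hr : Sat n gs r) :
    ∃ v : ℕ → ℝ, (∀ a < rowsT n gs, 0 < v a ∧ v a < 3 / 5) ∧ ∀ o ∈ opsOf n gs, OpHolds v o := by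
  obtain ⟨h0, hpos, hgs⟩ := hr
  refine ⟨opVal n gs r, fun a _ => ?_, ?_⟩
  · unfold opVal
    split_ifs with h1
    · have := hpos a h1
      constructor <;> linarith
    · norm_num
    · norm_num
    · norm_num
    · norm_num
    · norm_num
    · cases hget : gs[a - (n + 5)]? with
      | none =>
        simp only [gateVal]
        norm_num
      | some g =>
        have hmem := List.mem_of_getElem? hget
        have hb := hg g hmem
        have hh := hgs g hmem
        cases g with
        | add i j l =>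
          simp only [Gate.Below] at hb
          have := hpos l hb.2.2
          simp only [gateVal]
          constructor <;> linarith
        | lt x y z u =>
          simp only [Gate.Below] at hb
          simp only [Gate.Holds] at hh
          have hs := gateVal_lt_spec hpos hb.1 hb.2.1 hb.2.2.1 hb.2.2.2 hh
          have h1 := hpos x hb.1
          have h2 := hpos y hb.2.1
          have h3 : 0 < r x / 32 * (r y / 32) := by
            have := h1.1
            have := h2.1
            positivity
          constructor <;> linarith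
  · rw [forall_opsOf]
    refine ⟨?_, ?_⟩
    · simp only [OpHolds, opVal_zero h0, opVal_one, opVal_two, opVal_three, opVal_four]
      norm_num
    · intro e g hget o ho
      have hmem := List.mem_of_getElem? hget
      have hb := hg g hmem
      have hh := hgs g hmem
      have hv : opVal n gs r (n + 5 + e) = gateVal r (some g) := by
        rw [opVal_gate, hget]
      cases g with
      | add i j l =>
        simp only [Gate.Below] at hb
        simp only [Gate.Holds] at hh
        simp only [opsGate, List.mem_cons, List.not_mem_nil, or_false] at ho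
        rcases ho with rfl | rfl
        · simp only [OpHolds, hv, opVal_lt hb.1, opVal_lt hb.2.1, gateVal]
          norm_num
          linarith
        · simp only [OpHolds, hv, opVal_lt hb.2.2, gateVal]
          norm_num
      | lt x y z u =>
        simp only [Gate.Below] at hb
        simp only [Gate.Holds] at hh
        have hs := gateVal_lt_spec hpos hb.1 hb.2.1 hb.2.2.1 hb.2.2.2 hh
        simp only [opsGate, List.mem_cons, List.not_mem_nil, or_false] at ho
        rcases ho with rfl | rfl
        · simp only [OpHolds, hv, opVal_lt hb.1, opVal_lt hb.2.1]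
          refine ⟨fun h => absurd h (by norm_num), fun h => absurd h (by norm_num),
            fun h => absurd h (by norm_num), fun _ => ⟨hs.1, hs.2.1⟩,
            fun h => absurd h (by norm_num)⟩
        · simp only [OpHolds, hv, opVal_lt hb.2.2.1, opVal_lt hb.2.2.2]
          refine ⟨fun h => absurd h (by norm_num), fun h => absurd h (by norm_num),
            fun h => absurd h (by norm_num), fun h => absurd h (by norm_num), fun _ => hs.2.2⟩

/-! ### Soundness -/

/-- Soundness with explicit constants. -/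
theorem opsSound' (n : ℕ) (gs : List Gate) (v : ℕ → ℝ) (δ : ℝ) (hδ : 0 ≤ δ) (hδ' : δ ≤ 1 / 100)
    (hv : ∀ a < rowsT n gs, -δ ≤ v a) (ho : ∀ o ∈ opsOf n gs, OpApprox δ v o) :
    ∃ r, ApproxSat (5000 * δ) n gs r := by
  rw [forall_opsOf] at ho
  obtain ⟨⟨o1, o2, o3, o4, o5⟩, og⟩ := ho
  have p1 := abs_le.1 (o1.2.1 rfl)
  have p2 := abs_le.1 (o2.2.1 rfl)
  have p3 := abs_le.1 (o3.2.1 rfl)
  have p4 := abs_le.1 (o4.2.1 rfl)
  have p5 := abs_le.1 (o5.2.2.1 rfl)
  simp only at p1 p2 p3 p4 p5
  have hv0 : 1 / 50 ≤ v 0 := by linarith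
  have hv0' : 0 < v 0 := by linarith
  have hinv : (v 0)⁻¹ ≤ 50 := by
    rw [inv_le_comm₀ hv0' (by norm_num)]
    linarith
  have hinv0 : 0 < (v 0)⁻¹ := inv_pos.2 hv0'
  refine ⟨fun i => v i * (v 0)⁻¹, ?_, ?_, ?_⟩
  · exact mul_inv_cancel₀ hv0'.ne'
  · intro i hi
    have h1 := hv i (by unfold rowsT; omega)
    nlinarith
  · intro g hg
    obtain ⟨e, he⟩ := List.mem_iff_getElem?.1 hg
    have h1 := og e g he
    cases g with
    | add i j l =>
      simp only [opsGate, List.mem_cons, List.not_mem_nil, or_false, forall_eq_or_imp,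
        forall_eq] at h1
      obtain ⟨h2, h3⟩ := h1
      have h4 := abs_le.1 (h2.2.1 rfl)
      have h5 := abs_le.1 (h3.1 rfl)
      simp only at h4 h5
      simp only [Gate.Approx]
      have e1 : v i * (v 0)⁻¹ + v j * (v 0)⁻¹ - v l * (v 0)⁻¹ = (v i + v j - v l) * (v 0)⁻¹ := by
        ring
      rw [e1, abs_mul, abs_of_pos hinv0]
      have h6 : |v i + v j - v l| ≤ 2 * δ := by
        rw [abs_le]
        constructor <;> linarith
      calc |v i + v j - v l| * (v 0)⁻¹ ≤ 2 * δ * 50 :=
            mul_le_mul h6 hinv hinv0.le (by linarith)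
        _ ≤ 5000 * δ := by linarith
    | lt x y z u =>
      simp only [opsGate, List.mem_cons, List.not_mem_nil, or_false, forall_eq_or_imp,
        forall_eq] at h1
      obtain ⟨h2, h3⟩ := h1
      have h4 := h2.2.2.2.1 rfl
      have h5 := h3.2.2.2.2 rfl
      simp only at h4 h5
      simp only [Gate.Approx]
      have e1 : v x * (v 0)⁻¹ * (v y * (v 0)⁻¹) - v z * (v 0)⁻¹ * (v u * (v 0)⁻¹) =
          (v x * v y - v z * v u) * ((v 0)⁻¹ * (v 0)⁻¹) := by ring
      have h6 : v x * v y - v z * v u ≤ 2 * δ := by linarith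
      have h7 : (v 0)⁻¹ * (v 0)⁻¹ ≤ 50 * 50 := mul_le_mul hinv hinv hinv0.le (by norm_num)
      have h8 : 0 ≤ (v 0)⁻¹ * (v 0)⁻¹ := by positivity
      have h9 : (v x * v y - v z * v u) * ((v 0)⁻¹ * (v 0)⁻¹) ≤ 2 * δ * (50 * 50) :=
        (mul_le_mul_of_nonneg_right h6 h8).trans
          (mul_le_mul_of_nonneg_left h7 (by linarith))
      linarith

theorem opsSound : ∃ C δ₀ : ℝ, 0 < C ∧ 0 < δ₀ ∧ ∀ (n : ℕ) (gs : List Gate) (v : ℕ → ℝ) (δ : ℝ),
    0 ≤ δ → δ ≤ δ₀ → (∀ a < rowsT n gs, -δ ≤ v a ∧ v a ≤ 2) →
    (∀ o ∈ opsOf n gs, OpApprox δ v o) → ∃ r, ApproxSat (C * δ) n gs r :=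
  ⟨5000, 1 / 100, by norm_num, by norm_num, fun n gs v δ h1 h2 h3 h4 =>
    opsSound' n gs v δ h1 h2 (fun a ha => (h3 a ha).1) h4⟩

end Pool.Agent.MP1cb9f1
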