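import Pool.Agent.Lib.MP_1cb9f1_lc.Assemble
import Pool.Agent.Lib.MP_1cb9f1_lc.GeoOps
import Pool.Agent.Lib.MP_1cb9f1_lc.GeoPTime
import Pool.Agent.Lib.MP_1cb9f1_lc.GeoList
import Pool.Agent.Lib.MP_1cb9f1_lc.Ops

/-!
# Assembly from the soundness and completeness theorems of the construction
-/

namespace Pool.Agent.MP1cb9f1

open Pool.Agent.Lib.MP_1cb9f1_lc Pool.Agent.Lib.MP_612bca_lc Pool.Agent.PolyTime

theorem hard_of_construction (M c : ℕ)
    (hsound : ∀ (n : ℕ) (gs : List Gate) (L : ℕ), (∀ g ∈ gs, g.Below n) →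
      (∃ p, RealizesOn (VLgeo M c n gs L) adjV p) → ∃ r, ApproxSat (1 / 2 ^ 2 ^ L) n gs r)
    (geoComplete : ∀ (T : ℕ) (ops : List Op) (v : ℕ → ℝ), (∀ o ∈ ops, OpWF T o) →
      (∀ a < T, 0 < v a ∧ v a < 3 / 5) → (∀ o ∈ ops, OpHolds v o) →
      ∀ N M, ∃ p : VC → ℝ × ℝ, RealizesOn (verts T ops N M) adjV p) :
    UDGHard (42 * M + 476) := by
  refine hard_of_geometry (β := VC) (42 * M + 476) (fun n gs L => VLgeo M c n gs L)
    (fun _ _ _ => adjV) (fun n gs L => VLgeo_nodup M c n gs L) ?_ ?_ hsound ?_ (ptime_VLgeo M c)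
    ptime_adjV
  · intro n gs L x _ y _ h
    rw [adjV_comm]
    exact h
  · intro n gs L x _
    exact VLgeo_degree M c n gs L x
  · rintro n gs L hgs ⟨r, hr⟩
    obtain ⟨v, hv, hops⟩ := opsComplete n gs hgs r hr
    exact geoComplete _ _ v (opsWF n gs hgs) hv hops _ _

end Pool.Agent.MP1cb9f1
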