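import Pool.Agent.Lib.MP_1cb9f1_lc.Glue4
import Pool.Agent.Lib.MP_1cb9f1_lc.HardOf

/-!
# Soundness of the reduction, and the final theorem
-/

set_option autoImplicit false

namespace Pool.Agent.Lib.MP_1cb9f1_lc

open Pool.Agent.MP1cb9f1

theorem ApproxSat.mono {ε ε' : ℝ} (h : ε ≤ ε') {n : ℕ} {gs : List Gate} {r : ℕ → ℝ}
    (hr : ApproxSat ε n gs r) : ApproxSat ε' n gs r := by
  obtain ⟨h1, h2, h3⟩ := hr
  refine ⟨h1, fun i hi => by linarith [h2 i hi], fun g hg => ?_⟩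
  have := h3 g hg
  cases g with
  | add i j l => exact le_trans this h
  | lt x y z u =>
    simp only [Gate.Approx] at this ⊢
    linarith

/-- The statement of the module `reg_ops`. -/
def RegOps : Prop := ∀ (T : ℕ) (ops : List Op) (X : ℕ → ℕ → ℕ → ℝ × ℝ) (a R e : ℝ),
  (∀ o ∈ ops, OpWF T o) → RegDisp T ops X → 0 < a → a ≤ R → 0 ≤ e → BoundR T ops X R →
  FramesOK T ops X a e →
  ∃ v : ℕ → ℝ, (∀ b < T, -(1000 * (regS T ops * R ^ 2 + e) * R / a ^ 2) ≤ v b ∧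
    v b ≤ 1 + 1000 * (regS T ops * R ^ 2 + e) * R / a ^ 2) ∧
    ∀ o ∈ ops, OpApprox (1000 * (regS T ops * R ^ 2 + e) * R / a ^ 2) v o

/-- The error estimate. -/
theorem err_bound {n L : ℕ} (hn : 10 ≤ n) {a R : ℝ} (ha : 0 < a) (haR : a ≤ R)
    (h1 : R ≤ 144 * 25 ^ n * a) (h2 : R ≤ (1 / 2) ^ (2 ^ L + 20 * n)) :
    5000 * (11000 * (n : ℝ) ^ 2 * R ^ 3 / a ^ 2) ≤ 1 / 2 ^ 2 ^ L ∧
      11000 * (n : ℝ) ^ 2 * R ^ 3 / a ^ 2 ≤ 1 / 100 := by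
  have hR : 0 < R := by linarith
  have hq : R / a ≤ 144 * 25 ^ n := by rw [div_le_iff₀ ha]; exact h1
  have hq0 : 0 ≤ R / a := by positivity
  have hq2 : (R / a) ^ 2 ≤ (144 * 25 ^ n) ^ 2 := pow_le_pow_left₀ hq0 hq 2
  have h25 : (25 : ℝ) ^ n ≤ 2 ^ (5 * n) := by
    rw [pow_mul]; exact pow_le_pow_left₀ (by norm_num) (by norm_num) n
  have hn2 : (n : ℝ) ≤ 2 ^ n := by
    have := Nat.lt_two_pow_self (n := n)
    exact_mod_cast this.le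
  have e1 : 11000 * (n : ℝ) ^ 2 * R ^ 3 / a ^ 2 = 11000 * n ^ 2 * (R / a) ^ 2 * R := by
    field_simp
  have hbig : 5000 * 11000 * (144 : ℝ) ^ 2 ≤ 2 ^ (5 * n) := by
    have : (2 : ℝ) ^ 50 ≤ 2 ^ (5 * n) := pow_le_pow_right₀ (by norm_num) (by omega)
    refine le_trans (by norm_num) this
  have e2 : 5000 * (11000 * (n : ℝ) ^ 2 * (R / a) ^ 2 * R) ≤ 2 ^ (17 * n) * R := by
    have s1 : (n : ℝ) ^ 2 ≤ (2 ^ n) ^ 2 := pow_le_pow_left₀ (Nat.cast_nonneg n) hn2 2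
    have s2 : (R / a) ^ 2 ≤ (144 * 2 ^ (5 * n)) ^ 2 :=
      hq2.trans (pow_le_pow_left₀ (by positivity) (by linarith) 2)
    have s3 : (n : ℝ) ^ 2 * (R / a) ^ 2 ≤ (2 ^ n) ^ 2 * (144 * 2 ^ (5 * n)) ^ 2 :=
      mul_le_mul s1 s2 (by positivity) (by positivity)
    have s4 : (2 : ℝ) ^ (17 * n) = 2 ^ (5 * n) * ((2 ^ n) ^ 2 * (2 ^ (5 * n)) ^ 2) := by
      rw [← pow_mul, ← pow_mul, ← pow_add, ← pow_add]; congr 1; ring
    calc 5000 * (11000 * (n : ℝ) ^ 2 * (R / a) ^ 2 * R)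
        = 5000 * 11000 * ((n : ℝ) ^ 2 * (R / a) ^ 2) * R := by ring
      _ ≤ 5000 * 11000 * ((2 ^ n) ^ 2 * (144 * 2 ^ (5 * n)) ^ 2) * R := by gcongr
      _ = (5000 * 11000 * 144 ^ 2) * ((2 ^ n) ^ 2 * (2 ^ (5 * n)) ^ 2) * R := by ring
      _ ≤ 2 ^ (5 * n) * ((2 ^ n) ^ 2 * (2 ^ (5 * n)) ^ 2) * R := by gcongr
      _ = 2 ^ (17 * n) * R := by rw [s4]
  have e3 : (2 : ℝ) ^ (17 * n) * R ≤ (1 / 2) ^ 2 ^ L * (1 / 2) ^ (3 * n) := by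
    calc (2 : ℝ) ^ (17 * n) * R ≤ 2 ^ (17 * n) * (1 / 2) ^ (2 ^ L + 20 * n) := by gcongr
      _ = (2 ^ (17 * n) * (1 / 2) ^ (17 * n)) * ((1 / 2) ^ 2 ^ L * (1 / 2) ^ (3 * n)) := by
          rw [show 2 ^ L + 20 * n = 17 * n + (2 ^ L + 3 * n) by ring, pow_add, pow_add]; ring
      _ = (1 / 2) ^ 2 ^ L * (1 / 2) ^ (3 * n) := by
          rw [← mul_pow]; norm_num
  have p1 : (1 / 2 : ℝ) ^ (3 * n) ≤ 1 := pow_le_one₀ (by norm_num) (by norm_num)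
  have p2 : (1 / 2 : ℝ) ^ 2 ^ L ≤ 1 := pow_le_one₀ (by norm_num) (by norm_num)
  have p3 : 0 < (1 / 2 : ℝ) ^ 2 ^ L := by positivity
  have p4 : 0 < (1 / 2 : ℝ) ^ (3 * n) := by positivity
  have p5 : (1 / 2 : ℝ) ^ 2 ^ L = 1 / 2 ^ 2 ^ L := by rw [one_div, one_div, inv_pow]
  rw [e1]
  constructor
  · rw [← p5]
    refine (e2.trans e3).trans ?_
    nlinarith
  · have : 5000 * (11000 * (n : ℝ) ^ 2 * (R / a) ^ 2 * R) ≤ 1 := by
      refine (e2.trans e3).trans ?_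
      nlinarith
    linarith

/-- Soundness of the construction. -/
theorem construction_sound (hops : RegOps) : ∃ M : ℕ, 1 ≤ M ∧ ∀ (n : ℕ) (gs : List Gate) (L : ℕ),
    (∀ g ∈ gs, g.Below n) → (∃ p, RealizesOn (VLgeo M 80 n gs L) adjV p) →
    ∃ r, ApproxSat (1 / 2 ^ 2 ^ L) n gs r := by
  obtain ⟨M, hM1, hM⟩ := geo_region
  refine ⟨M, hM1, fun n gs L hgs ⟨p, hp⟩ => ?_⟩
  obtain ⟨X, a, R, hX, ha, haR, hRa, hR, hB, hF⟩ := hM 20 80 (by norm_num) n gs L p hp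
  set T := rowsT n gs with hT
  set ops := opsOf n gs with hOps
  set m := regI T ops + regJ T + 2 with hm
  have hm10 : 10 ≤ m := by rw [hm]; unfold regI regJ; omega
  have hR0 : 0 < R := by linarith
  obtain ⟨v, hv1, hv2⟩ := hops T ops X a R _ (opsWF n gs hgs) hX ha haR (by positivity) hB hF
  have hcast : ((regI T ops : ℝ) + regJ T + 2) = m := by rw [hm]; push_cast; ring
  rw [hcast] at hv1 hv2
  set d := 1000 * (regS T ops * R ^ 2 + 10 * (m : ℝ) ^ 2 * R ^ 2) * R / a ^ 2 with hd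
  have hd0 : 0 ≤ d := by positivity
  have hregS : (regS T ops : ℝ) ≤ m ^ 2 := by
    have h1 : regS T ops ≤ m ^ 2 := by
      have : regS T ops ≤ m := by unfold regS; omega
      nlinarith
    exact_mod_cast h1
  have hdle : d ≤ 11000 * (m : ℝ) ^ 2 * R ^ 3 / a ^ 2 := by
    rw [hd]
    apply div_le_div_of_nonneg_right _ (by positivity)
    have h3 : regS T ops * R ^ 2 + 10 * (m : ℝ) ^ 2 * R ^ 2 ≤ 11 * (m : ℝ) ^ 2 * R ^ 2 := by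
      nlinarith [sq_nonneg R]
    calc 1000 * (regS T ops * R ^ 2 + 10 * (m : ℝ) ^ 2 * R ^ 2) * R
        ≤ 1000 * (11 * (m : ℝ) ^ 2 * R ^ 2) * R := by gcongr
      _ = 11000 * (m : ℝ) ^ 2 * R ^ 3 := by ring
  obtain ⟨b1, b2⟩ := err_bound (L := L) hm10 ha haR hRa hR
  obtain ⟨r, hr⟩ := opsSound' n gs v d hd0 (hdle.trans b2) (fun b hb => (hv1 b hb).1) hv2
  exact ⟨r, hr.mono (by linarith)⟩

end Pool.Agent.Lib.MP_1cb9f1_lc
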