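import Pool.Agent.Lib.MP_1cb9f1_lc.Place

/-!
# The frames of the region

Every site of the region carries the `19` points with integer coordinates
`|α|, |β|, |β - α| ≤ 2` (coordinates in the directions `d0`, `d1`, `d2 = d1 - d0`). They force one
common unit `a` in the whole region.
-/

namespace Pool.Agent.Lib.MP_1cb9f1_lc

theorem link_near {A B p q e : ℝ × ℝ} (he : dot e e = 1) (hB1 : B.1 = A.1 + 2 * e.1)
    (hB2 : B.2 = A.2 + 2 * e.2) (h : dsq p q ≤ 4) : dot e (q - B) ≤ dot e (p - A) := by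
  have h1 : dsq p q = 4 * dot e e - 4 * (dot e (p - A) - dot e (q - B)) +
      dot ((p - A) - (q - B)) ((p - A) - (q - B)) := by
    simp only [dsq, dot, Prod.fst_sub, Prod.snd_sub, hB1, hB2]; ring
  have h2 := dot_self_nonneg ((p - A) - (q - B))
  rw [he] at h1
  linarith

theorem link_far {A B p q e : ℝ × ℝ} {R : ℝ} (he : dot e e = 1) (hB1 : B.1 = A.1 + 2 * e.1)
    (hB2 : B.2 = A.2 + 2 * e.2) (hp : dsq p A ≤ R ^ 2) (hq : dsq q B ≤ R ^ 2)
    (h : 4 < dsq p q) : dot e (p - A) < dot e (q - B) + R ^ 2 := by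
  have h1 : dsq p q = 4 * dot e e - 4 * (dot e (p - A) - dot e (q - B)) +
      dot ((p - A) - (q - B)) ((p - A) - (q - B)) := by
    simp only [dsq, dot, Prod.fst_sub, Prod.snd_sub, hB1, hB2]; ring
  have h2 : dot ((p - A) - (q - B)) ((p - A) - (q - B)) ≤ 2 * dsq p A + 2 * dsq q B := by
    have h3 := dot_self_nonneg ((p - A) + (q - B))
    have h4 : dot ((p - A) - (q - B)) ((p - A) - (q - B)) +
        dot ((p - A) + (q - B)) ((p - A) + (q - B)) = 2 * dsq p A + 2 * dsq q B := by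
      simp only [dsq, dot, Prod.fst_sub, Prod.snd_sub, Prod.fst_add, Prod.snd_add]; ring
    linarith
  rw [he] at h1
  linarith

/-- A `2 × 2` matching between two neighbouring sites. -/
theorem line_pair {A B p p' q q' e : ℝ × ℝ} {R : ℝ} (he : dot e e = 1)
    (hB1 : B.1 = A.1 + 2 * e.1) (hB2 : B.2 = A.2 + 2 * e.2) (hp : dsq p A ≤ R ^ 2)
    (hp' : dsq p' A ≤ R ^ 2) (hq : dsq q B ≤ R ^ 2) (hq' : dsq q' B ≤ R ^ 2)
    (h1 : dsq p q ≤ 4) (h2 : dsq p' q' ≤ 4) (h3 : 4 < dsq p q') (h4 : 4 < dsq p' q) :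
    |dot e (p - A) - dot e (q - B)| ≤ 2 * R ^ 2 ∧ |dot e (p - A) - dot e (p' - A)| ≤ R ^ 2 ∧
      |dot e (q - B) - dot e (q' - B)| ≤ R ^ 2 := by
  have a1 := link_near he hB1 hB2 h1
  have a2 := link_near he hB1 hB2 h2
  have a3 := link_far he hB1 hB2 hp hq' h3
  have a4 := link_far he hB1 hB2 hp' hq h4
  refine ⟨?_, ?_, ?_⟩ <;> rw [abs_le] <;> constructor <;> linarith

/-- The labels of the frame points. -/
def Lab (α β : ℤ) : Prop := -2 ≤ α ∧ α ≤ 2 ∧ -2 ≤ β ∧ β ≤ 2 ∧ -2 ≤ β - α ∧ β - α ≤ 2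

/-- The hypotheses on the region with frames. -/
structure FrameReal (W H : ℕ) (P : ℕ → ℕ → Set (ℝ × ℝ)) (F : ℕ → ℕ → ℤ → ℤ → ℝ × ℝ) : Prop
    extends RegionReal W H P where
  mem : ∀ i j α β, i < W → j < H → Lab α β → F i j α β ∈ P i j
  link0 : ∀ i j α β α' β', i + 1 < W → j < H → Lab α β → Lab α' β' →
    (dsq (F i j α β) (F (i + 1) j α' β') ≤ 4 ↔ (α' < α ∨ (α = α' ∧ β = β')))
  link1 : ∀ i j α β α' β', i < W → j + 1 < H → Lab α β → Lab α' β' →
    (dsq (F i j α β) (F i (j + 1) α' β') ≤ 4 ↔ (β' < β ∨ (α = α' ∧ β = β')))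
  link2 : ∀ i j α β α' β', i + 1 < W → j + 1 < H → Lab α β → Lab α' β' →
    (dsq (F (i + 1) j α β) (F i (j + 1) α' β') ≤ 4 ↔ (β' - α' < β - α ∨ (α = α' ∧ β = β')))
  n00_10 : ∀ z ∈ P 0 0, ∃ α β, Lab α β ∧ dsq z (F 1 0 α β) ≤ 4
  f00_10 : ∀ z ∈ P 0 0, ∃ α β, Lab α β ∧ 4 < dsq z (F 1 0 α β)
  n00_01 : ∀ z ∈ P 0 0, ∃ α β, Lab α β ∧ dsq z (F 0 1 α β) ≤ 4
  f00_01 : ∀ z ∈ P 0 0, ∃ α β, Lab α β ∧ 4 < dsq z (F 0 1 α β)
  n01_11 : ∀ z ∈ P 0 1, ∃ α β, Lab α β ∧ dsq z (F 1 1 α β) ≤ 4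
  f01_11 : ∀ z ∈ P 0 1, ∃ α β, Lab α β ∧ 4 < dsq z (F 1 1 α β)
  n01_00 : ∀ z ∈ P 0 1, ∃ α β, Lab α β ∧ dsq (F 0 0 α β) z ≤ 4
  f01_00 : ∀ z ∈ P 0 1, ∃ α β, Lab α β ∧ 4 < dsq (F 0 0 α β) z

theorem other0 {α β : ℤ} (h : Lab α β) : ∃ β', β' ≠ β ∧ Lab α β' := by
  unfold Lab at *
  by_cases h1 : β = α
  · by_cases h2 : α = 0
    · exact ⟨1, by omega, by omega⟩
    · exact ⟨0, by omega, by omega⟩
  · exact ⟨α, by omega, by omega⟩

theorem other1 {α β : ℤ} (h : Lab α β) : ∃ α', α' ≠ α ∧ Lab α' β := by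
  unfold Lab at *
  by_cases h1 : β = α
  · by_cases h2 : α = 0
    · exact ⟨1, by omega, by omega⟩
    · exact ⟨0, by omega, by omega⟩
  · exact ⟨β, by omega, by omega⟩

theorem other2 {α β : ℤ} (h : Lab α β) : ∃ α' β', α' ≠ α ∧ β' - α' = β - α ∧ Lab α' β' := by
  unfold Lab at *
  by_cases h1 : α = 0
  · by_cases h2 : 0 ≤ β
    · exact ⟨-1, β - 1, by omega, by omega, by omega⟩
    · exact ⟨1, β + 1, by omega, by omega, by omega⟩
  · exact ⟨0, β - α, by omega, by omega, by omega⟩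

section
variable {W H : ℕ} {P : ℕ → ℕ → Set (ℝ × ℝ)} {F : ℕ → ℕ → ℤ → ℤ → ℝ × ℝ} {O d0 d1 : ℝ × ℝ}
  {R : ℝ}

/-- Coordinate in direction `e` of the frame point `(α, β)` at the site `(i, j)`, relative to the
exact lattice point. -/
def fu (O d0 d1 : ℝ × ℝ) (F : ℕ → ℕ → ℤ → ℤ → ℝ × ℝ) (e : ℝ × ℝ) (i j : ℕ) (α β : ℤ) : ℝ :=
  dot e (F i j α β - lat O d0 d1 i j)

/-- Setting: all points of the region are within `R` of the exact lattice. -/
structure Placed (W H : ℕ) (P : ℕ → ℕ → Set (ℝ × ℝ)) (F : ℕ → ℕ → ℤ → ℤ → ℝ × ℝ)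
    (O d0 d1 : ℝ × ℝ) (R : ℝ) : Prop extends FrameReal W H P F where
  h0 : dot d0 d0 = 1
  h1 : dot d1 d1 = 1
  h01 : dot d0 d1 = 1 / 2
  hb : ∀ i j, i < W → j < H → ∀ x ∈ P i j, dsq x (lat O d0 d1 i j) ≤ R ^ 2

theorem Placed.h2 (h : Placed W H P F O d0 d1 R) : dot (d1 - d0) (d1 - d0) = 1 := by
  have : dot (d1 - d0) (d1 - d0) = dot d1 d1 - 2 * dot d0 d1 + dot d0 d0 := by
    simp only [dot, Prod.fst_sub, Prod.snd_sub]; ring
  rw [this, h.h0, h.h1, h.h01]; norm_num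

/-- Direction `0`, two labels with the same `α`. -/
theorem Placed.pair0 (h : Placed W H P F O d0 d1 R) {i j : ℕ} (hi : i + 1 < W) (hj : j < H)
    {α β β' : ℤ} (hL : Lab α β) (hL' : Lab α β') (hne : β' ≠ β) :
    |fu O d0 d1 F d0 i j α β - fu O d0 d1 F d0 (i + 1) j α β| ≤ 2 * R ^ 2 ∧
    |fu O d0 d1 F d0 i j α β - fu O d0 d1 F d0 i j α β'| ≤ R ^ 2 ∧
    |fu O d0 d1 F d0 (i + 1) j α β - fu O d0 d1 F d0 (i + 1) j α β'| ≤ R ^ 2 := by
  refine line_pair (A := lat O d0 d1 i j) (B := lat O d0 d1 (i + 1) j) h.h0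
    (by simp only [lat]; push_cast; ring) (by simp only [lat]; push_cast; ring)
    (h.hb i j (by omega) hj _ (h.mem i j α β (by omega) hj hL))
    (h.hb i j (by omega) hj _ (h.mem i j α β' (by omega) hj hL'))
    (h.hb (i + 1) j hi hj _ (h.mem (i + 1) j α β hi hj hL))
    (h.hb (i + 1) j hi hj _ (h.mem (i + 1) j α β' hi hj hL')) ?_ ?_ ?_ ?_
  · exact (h.link0 i j α β α β hi hj hL hL).2 (Or.inr ⟨rfl, rfl⟩)
  · exact (h.link0 i j α β' α β' hi hj hL' hL').2 (Or.inr ⟨rfl, rfl⟩)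
  · by_contra hc
    push Not at hc
    have := (h.link0 i j α β α β' hi hj hL hL').1 hc
    omega
  · by_contra hc
    push Not at hc
    have := (h.link0 i j α β' α β hi hj hL' hL).1 hc
    omega

theorem Placed.pair1 (h : Placed W H P F O d0 d1 R) {i j : ℕ} (hi : i < W) (hj : j + 1 < H)
    {α α' β : ℤ} (hL : Lab α β) (hL' : Lab α' β) (hne : α' ≠ α) :
    |fu O d0 d1 F d1 i j α β - fu O d0 d1 F d1 i (j + 1) α β| ≤ 2 * R ^ 2 ∧
    |fu O d0 d1 F d1 i j α β - fu O d0 d1 F d1 i j α' β| ≤ R ^ 2 ∧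
    |fu O d0 d1 F d1 i (j + 1) α β - fu O d0 d1 F d1 i (j + 1) α' β| ≤ R ^ 2 := by
  refine line_pair (A := lat O d0 d1 i j) (B := lat O d0 d1 i (j + 1)) h.h1
    (by simp only [lat]; push_cast; ring) (by simp only [lat]; push_cast; ring)
    (h.hb i j hi (by omega) _ (h.mem i j α β hi (by omega) hL))
    (h.hb i j hi (by omega) _ (h.mem i j α' β hi (by omega) hL'))
    (h.hb i (j + 1) hi hj _ (h.mem i (j + 1) α β hi hj hL))
    (h.hb i (j + 1) hi hj _ (h.mem i (j + 1) α' β hi hj hL')) ?_ ?_ ?_ ?_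
  · exact (h.link1 i j α β α β hi hj hL hL).2 (Or.inr ⟨rfl, rfl⟩)
  · exact (h.link1 i j α' β α' β hi hj hL' hL').2 (Or.inr ⟨rfl, rfl⟩)
  · by_contra hc
    push Not at hc
    have := (h.link1 i j α β α' β hi hj hL hL').1 hc
    omega
  · by_contra hc
    push Not at hc
    have := (h.link1 i j α' β α β hi hj hL' hL).1 hc
    omega

theorem Placed.pair2 (h : Placed W H P F O d0 d1 R) {i j : ℕ} (hi : i + 1 < W) (hj : j + 1 < H)
    {α α' β β' : ℤ} (hL : Lab α β) (hL' : Lab α' β') (hne : α' ≠ α) (hs : β' - α' = β - α) :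
    |fu O d0 d1 F (d1 - d0) (i + 1) j α β - fu O d0 d1 F (d1 - d0) i (j + 1) α β| ≤ 2 * R ^ 2 ∧
    |fu O d0 d1 F (d1 - d0) (i + 1) j α β - fu O d0 d1 F (d1 - d0) (i + 1) j α' β'| ≤ R ^ 2 ∧
    |fu O d0 d1 F (d1 - d0) i (j + 1) α β - fu O d0 d1 F (d1 - d0) i (j + 1) α' β'| ≤
      R ^ 2 := by
  refine line_pair (A := lat O d0 d1 (i + 1) j) (B := lat O d0 d1 i (j + 1)) h.h2
    (by simp only [lat, Prod.fst_sub]; push_cast; ring)
    (by simp only [lat, Prod.snd_sub]; push_cast; ring)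
    (h.hb (i + 1) j hi (by omega) _ (h.mem (i + 1) j α β hi (by omega) hL))
    (h.hb (i + 1) j hi (by omega) _ (h.mem (i + 1) j α' β' hi (by omega) hL'))
    (h.hb i (j + 1) (by omega) hj _ (h.mem i (j + 1) α β (by omega) hj hL))
    (h.hb i (j + 1) (by omega) hj _ (h.mem i (j + 1) α' β' (by omega) hj hL')) ?_ ?_ ?_ ?_
  · exact (h.link2 i j α β α β hi hj hL hL).2 (Or.inr ⟨rfl, rfl⟩)
  · exact (h.link2 i j α' β' α' β' hi hj hL' hL').2 (Or.inr ⟨rfl, rfl⟩)
  · by_contra hc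
    push Not at hc
    have := (h.link2 i j α β α' β' hi hj hL hL').1 hc
    omega
  · by_contra hc
    push Not at hc
    have := (h.link2 i j α' β' α β hi hj hL' hL).1 hc
    omega

end

/-- The rigidity of one frame: three families of parallel classes. -/
theorem frame_rigid {r0 r1 : ℤ → ℤ → ℝ} {ε : ℝ}
    (H0 : ∀ α β β', Lab α β → Lab α β' → |r0 α β - r0 α β'| ≤ ε)
    (H1 : ∀ α α' β, Lab α β → Lab α' β → |r1 α β - r1 α' β| ≤ ε)
    (H2 : ∀ α β α' β', Lab α β → Lab α' β' → β' - α' = β - α →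
      |(r1 α β - r0 α β) - (r1 α' β' - r0 α' β')| ≤ ε)
    (z0 : r0 0 0 = 0) (z1 : r1 0 0 = 0) {α β : ℤ} (hL : Lab α β) :
    |r0 α β - α * r0 1 1| ≤ 12 * ε ∧ |r1 α β - β * r0 1 1| ≤ 12 * ε := by
  have L : ∀ a b : ℤ, -2 ≤ a ∧ a ≤ 2 ∧ -2 ≤ b ∧ b ≤ 2 ∧ -2 ≤ b - a ∧ b - a ≤ 2 → Lab a b :=
    fun a b h => h
  have b11 : Lab 1 1 := L _ _ (by omega)
  have b00 : Lab 0 0 := L _ _ (by omega)
  have b01 : Lab 0 1 := L _ _ (by omega)
  have b12 : Lab 1 2 := L _ _ (by omega)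
  have b22 : Lab 2 2 := L _ _ (by omega)
  have b02 : Lab 0 2 := L _ _ (by omega)
  have bm0 : Lab (-1) 0 := L _ _ (by omega)
  have bmm : Lab (-1) (-1) := L _ _ (by omega)
  have bm20 : Lab (-2) 0 := L _ _ (by omega)
  have bm2m2 : Lab (-2) (-2) := L _ _ (by omega)
  have c1 := abs_le.mp (H2 1 1 0 0 b11 b00 (by norm_num))
  rw [z0, z1] at c1
  have c2 := abs_le.mp (H0 0 1 0 b01 b00)
  rw [z0] at c2
  have c3 := abs_le.mp (H1 0 1 1 b01 b11)
  have c4 := abs_le.mp (H0 1 2 1 b12 b11)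
  have c5 := abs_le.mp (H2 1 2 0 1 b12 b01 (by norm_num))
  have c6 := abs_le.mp (H2 2 2 0 0 b22 b00 (by norm_num))
  rw [z0, z1] at c6
  have c7 := abs_le.mp (H1 2 1 2 b22 b12)
  have c8 := abs_le.mp (H0 0 2 0 b02 b00)
  rw [z0] at c8
  have c9 := abs_le.mp (H1 0 1 2 b02 b12)
  have c10 := abs_le.mp (H1 (-1) 0 0 bm0 b00)
  rw [z1] at c10
  have c11 := abs_le.mp (H2 (-1) 0 0 1 bm0 b01 (by norm_num))
  have c12 := abs_le.mp (H0 (-1) (-1) 0 bmm bm0)
  have c13 := abs_le.mp (H2 (-1) (-1) 0 0 bmm b00 (by norm_num))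
  rw [z0, z1] at c13
  have c14 := abs_le.mp (H1 (-2) 0 0 bm20 b00)
  rw [z1] at c14
  have c15 := abs_le.mp (H2 (-2) 0 0 2 bm20 b02 (by norm_num))
  have c16 := abs_le.mp (H0 (-2) (-2) 0 bm2m2 bm20)
  have c17 := abs_le.mp (H2 (-2) (-2) 0 0 bm2m2 b00 (by norm_num))
  rw [z0, z1] at c17
  have hε : 0 ≤ ε := le_trans (abs_nonneg _) (H0 0 1 0 b01 b00)
  obtain ⟨g1, g2, g3, g4, g5, g6⟩ := hL
  constructor
  · have k : α = -2 ∨ α = -1 ∨ α = 0 ∨ α = 1 ∨ α = 2 := by omega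
    rcases k with rfl | rfl | rfl | rfl | rfl
    · have := abs_le.mp (H0 (-2) β 0 (L _ _ (by omega)) bm20)
      rw [abs_le]; push_cast; constructor <;> linarith
    · have := abs_le.mp (H0 (-1) β 0 (L _ _ (by omega)) bm0)
      rw [abs_le]; push_cast; constructor <;> linarith
    · have := abs_le.mp (H0 0 β 0 (L _ _ (by omega)) b00)
      rw [abs_le]; push_cast; constructor <;> linarith
    · have := abs_le.mp (H0 1 β 1 (L _ _ (by omega)) b11)
      rw [abs_le]; push_cast; constructor <;> linarith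
    · have := abs_le.mp (H0 2 β 2 (L _ _ (by omega)) b22)
      rw [abs_le]; push_cast; constructor <;> linarith
  · have k : β = -2 ∨ β = -1 ∨ β = 0 ∨ β = 1 ∨ β = 2 := by omega
    rcases k with rfl | rfl | rfl | rfl | rfl
    · have := abs_le.mp (H1 α (-2) (-2) (L _ _ (by omega)) bm2m2)
      rw [abs_le]; push_cast; constructor <;> linarith
    · have := abs_le.mp (H1 α (-1) (-1) (L _ _ (by omega)) bmm)
      rw [abs_le]; push_cast; constructor <;> linarith
    · have := abs_le.mp (H1 α 0 0 (L _ _ (by omega)) b00)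
      rw [abs_le]; push_cast; constructor <;> linarith
    · have := abs_le.mp (H1 α 1 1 (L _ _ (by omega)) b11)
      rw [abs_le]; push_cast; constructor <;> linarith
    · have := abs_le.mp (H1 α 1 2 (L _ _ (by omega)) b12)
      rw [abs_le]; push_cast; constructor <;> linarith

section
variable {W H : ℕ} {P : ℕ → ℕ → Set (ℝ × ℝ)} {F : ℕ → ℕ → ℤ → ℤ → ℝ × ℝ} {O d0 d1 : ℝ × ℝ}
  {R : ℝ}

theorem Placed.same0 (h : Placed W H P F O d0 d1 R) (hW : 2 ≤ W) {i j : ℕ} (hi : i < W)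
    (hj : j < H) {α β β' : ℤ} (hL : Lab α β) (hL' : Lab α β') :
    |fu O d0 d1 F d0 i j α β - fu O d0 d1 F d0 i j α β'| ≤ R ^ 2 := by
  by_cases hne : β' = β
  · subst hne; simp only [sub_self, abs_zero]; positivity
  rcases Nat.lt_or_ge (i + 1) W with h1 | h1
  · exact (h.pair0 h1 hj hL hL' hne).2.1
  · obtain ⟨i', rfl⟩ : ∃ i', i = i' + 1 := ⟨i - 1, by omega⟩
    exact (h.pair0 hi hj hL hL' hne).2.2

theorem Placed.same1 (h : Placed W H P F O d0 d1 R) (hH : 2 ≤ H) {i j : ℕ} (hi : i < W)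
    (hj : j < H) {α α' β : ℤ} (hL : Lab α β) (hL' : Lab α' β) :
    |fu O d0 d1 F d1 i j α β - fu O d0 d1 F d1 i j α' β| ≤ R ^ 2 := by
  by_cases hne : α' = α
  · subst hne; simp only [sub_self, abs_zero]; positivity
  rcases Nat.lt_or_ge (j + 1) H with h1 | h1
  · exact (h.pair1 hi h1 hL hL' hne).2.1
  · obtain ⟨j', rfl⟩ : ∃ j', j = j' + 1 := ⟨j - 1, by omega⟩
    exact (h.pair1 hi hj hL hL' hne).2.2

theorem Placed.same2 (h : Placed W H P F O d0 d1 R) (hW : 2 ≤ W) (hH : 2 ≤ H) {i j : ℕ}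
    (hi : i < W) (hj : j < H) (hc : 0 < i + j) (hc' : i + j + 2 < W + H) {α β α' β' : ℤ}
    (hL : Lab α β) (hL' : Lab α' β') (hs : β' - α' = β - α) :
    |fu O d0 d1 F (d1 - d0) i j α β - fu O d0 d1 F (d1 - d0) i j α' β'| ≤ R ^ 2 := by
  by_cases hne : α' = α
  · have : β' = β := by omega
    subst hne this; simp only [sub_self, abs_zero]; positivity
  by_cases h1 : 0 < i ∧ j + 1 < H
  · obtain ⟨i', rfl⟩ : ∃ i', i = i' + 1 := ⟨i - 1, by omega⟩
    exact (h.pair2 hi h1.2 hL hL' hne hs).2.1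
  · have h2 : 0 < j ∧ i + 1 < W := by omega
    obtain ⟨j', rfl⟩ : ∃ j', j = j' + 1 := ⟨j - 1, by omega⟩
    exact (h.pair2 h2.2 hj hL hL' hne hs).2.2

/-- Coordinates relative to the centre of the frame. -/
def rel (F : ℕ → ℕ → ℤ → ℤ → ℝ × ℝ) (e : ℝ × ℝ) (i j : ℕ) (α β : ℤ) : ℝ :=
  dot e (F i j α β - F i j 0 0)

theorem rel_eq (e : ℝ × ℝ) (i j : ℕ) (α β : ℤ) :
    rel F e i j α β = fu O d0 d1 F e i j α β - fu O d0 d1 F e i j 0 0 := by
  simp only [rel, fu, dot, Prod.fst_sub, Prod.snd_sub]; ring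

theorem lab00 : Lab 0 0 := by unfold Lab; omega

theorem lab11 : Lab 1 1 := by unfold Lab; omega

/-- One site with three directions. -/
theorem Placed.site (h : Placed W H P F O d0 d1 R) (hW : 2 ≤ W) (hH : 2 ≤ H) {i j : ℕ}
    (hi : i < W) (hj : j < H) (hc : 0 < i + j) (hc' : i + j + 2 < W + H) {α β : ℤ}
    (hL : Lab α β) :
    |rel F d0 i j α β - α * rel F d0 i j 1 1| ≤ 12 * R ^ 2 ∧
      |rel F d1 i j α β - β * rel F d0 i j 1 1| ≤ 12 * R ^ 2 := by
  refine frame_rigid (r0 := rel F d0 i j) (r1 := rel F d1 i j) ?_ ?_ ?_ ?_ ?_ hL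
  · intro α β β' hL hL'
    have := h.same0 hW hi hj hL hL'
    rw [rel_eq (O := O) (d0 := d0) (d1 := d1), rel_eq (O := O) (d0 := d0) (d1 := d1)]
    rwa [sub_sub_sub_cancel_right]
  · intro α α' β hL hL'
    have := h.same1 hH hi hj hL hL'
    rw [rel_eq (O := O) (d0 := d0) (d1 := d1), rel_eq (O := O) (d0 := d0) (d1 := d1)]
    rwa [sub_sub_sub_cancel_right]
  · intro α β α' β' hL hL' hs
    have := h.same2 hW hH hi hj hc hc' hL hL' hs
    have e : ∀ a b, rel F d1 i j a b - rel F d0 i j a b = rel F (d1 - d0) i j a b := by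
      intro a b
      simp only [rel, dot, Prod.fst_sub, Prod.snd_sub]; ring
    rw [e, e, rel_eq (O := O) (d0 := d0) (d1 := d1), rel_eq (O := O) (d0 := d0) (d1 := d1)]
    rwa [sub_sub_sub_cancel_right]
  · simp [rel, dot]
  · simp [rel, dot]

theorem Placed.step0 (h : Placed W H P F O d0 d1 R) {i j : ℕ} (hi : i + 1 < W) (hj : j < H)
    {α β : ℤ} (hL : Lab α β) :
    |rel F d0 i j α β - rel F d0 (i + 1) j α β| ≤ 4 * R ^ 2 := by
  obtain ⟨β', hne, hL'⟩ := other0 hL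
  obtain ⟨b0, hne0, hL0⟩ := other0 lab00
  have a1 := abs_le.mp (h.pair0 hi hj hL hL' hne).1
  have a2 := abs_le.mp (h.pair0 hi hj lab00 hL0 hne0).1
  rw [rel_eq (O := O) (d0 := d0) (d1 := d1), rel_eq (O := O) (d0 := d0) (d1 := d1), abs_le]
  constructor <;> linarith

theorem Placed.step1 (h : Placed W H P F O d0 d1 R) {i j : ℕ} (hi : i < W) (hj : j + 1 < H)
    {α β : ℤ} (hL : Lab α β) :
    |rel F d1 i j α β - rel F d1 i (j + 1) α β| ≤ 4 * R ^ 2 := by
  obtain ⟨α', hne, hL'⟩ := other1 hL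
  obtain ⟨a0, hne0, hL0⟩ := other1 lab00
  have a1 := abs_le.mp (h.pair1 hi hj hL hL' hne).1
  have a2 := abs_le.mp (h.pair1 hi hj lab00 hL0 hne0).1
  rw [rel_eq (O := O) (d0 := d0) (d1 := d1), rel_eq (O := O) (d0 := d0) (d1 := d1), abs_le]
  constructor <;> linarith

theorem Placed.row (h : Placed W H P F O d0 d1 R) {j : ℕ} (hj : j < H) {α β : ℤ}
    (hL : Lab α β) (i : ℕ) : ∀ k, i + k < W →
    |rel F d0 i j α β - rel F d0 (i + k) j α β| ≤ 4 * k * R ^ 2 := by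
  intro k
  induction k with
  | zero => intro _; simp
  | succ k ih =>
    intro hk
    have a1 := abs_le.mp (ih (by omega))
    have a2 := abs_le.mp (h.step0 (i := i + k) (by omega) hj hL)
    rw [show i + (k + 1) = i + k + 1 by ring, abs_le]
    push_cast
    constructor <;> linarith

theorem Placed.col (h : Placed W H P F O d0 d1 R) {i : ℕ} (hi : i < W) {α β : ℤ}
    (hL : Lab α β) (j : ℕ) : ∀ k, j + k < H →
    |rel F d1 i j α β - rel F d1 i (j + k) α β| ≤ 4 * k * R ^ 2 := by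
  intro k
  induction k with
  | zero => intro _; simp
  | succ k ih =>
    intro hk
    have a1 := abs_le.mp (ih (by omega))
    have a2 := abs_le.mp (h.step1 (j := j + k) hi (by omega) hL)
    rw [show j + (k + 1) = j + k + 1 by ring, abs_le]
    push_cast
    constructor <;> linarith

/-- The units `rel d0 (1,1)` and `rel d1 (1,1)` agree at a site with three directions. -/
theorem Placed.unit_eq (h : Placed W H P F O d0 d1 R) (hW : 2 ≤ W) (hH : 2 ≤ H) {i j : ℕ}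
    (hi : i < W) (hj : j < H) (hc : 0 < i + j) (hc' : i + j + 2 < W + H) :
    |rel F d1 i j 1 1 - rel F d0 i j 1 1| ≤ R ^ 2 := by
  have := h.same2 hW hH hi hj hc hc' lab11 lab00 (by norm_num)
  have e : rel F d1 i j 1 1 - rel F d0 i j 1 1 =
      fu O d0 d1 F (d1 - d0) i j 1 1 - fu O d0 d1 F (d1 - d0) i j 0 0 := by
    simp only [rel, fu, dot, Prod.fst_sub, Prod.snd_sub]; ring
  rw [e]; exact this

/-- All units agree with the one at the site `(0, 1)`. -/
theorem Placed.unit_all (h : Placed W H P F O d0 d1 R) (hW : 3 ≤ W) (hH : 3 ≤ H) {i j : ℕ}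
    (hi : i < W) (hj : j < H) :
    |rel F d0 i j 1 1 - rel F d0 0 1 1 1| ≤ (4 * (i + j) + 20) * R ^ 2 := by
  have hR : 0 ≤ R ^ 2 := by positivity
  rcases Nat.eq_zero_or_pos j with h1 | h1
  · subst h1
    -- bottom row
    have p0 : |rel F d0 i 0 1 1 - rel F d0 1 0 1 1| ≤ (4 * i + 4) * R ^ 2 := by
      rcases Nat.eq_zero_or_pos i with h2 | h2
      · subst h2
        have := h.step0 (i := 0) (j := 0) (by omega) (by omega) lab11
        push_cast
        linarith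
      · obtain ⟨k, rfl⟩ : ∃ k, i = 1 + k := ⟨i - 1, by omega⟩
        have := h.row (j := 0) (by omega) lab11 1 k hi
        rw [abs_sub_comm] at this
        push_cast
        nlinarith
    have p1 := abs_le.mp (h.unit_eq (i := 1) (j := 0) (by omega) (by omega) (by omega) (by omega)
      (by omega) (by omega))
    have p2 := abs_le.mp (h.step1 (i := 1) (j := 0) (by omega) (by omega) lab11)
    have p3 := abs_le.mp (h.unit_eq (i := 1) (j := 1) (by omega) (by omega) (by omega) (by omega)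
      (by omega) (by omega))
    have p4 := abs_le.mp (h.step0 (i := 0) (j := 1) (by omega) (by omega) lab11)
    have p0' := abs_le.mp p0
    norm_num at p1 p2 p3 p4
    rw [abs_le]
    push_cast
    constructor <;> nlinarith
  · obtain ⟨k, rfl⟩ : ∃ k, j = 1 + k := ⟨j - 1, by omega⟩
    have p0 := abs_le.mp (h.row (j := 1 + k) hj lab11 0 i (by omega))
    rw [Nat.zero_add] at p0
    have p1 := abs_le.mp (h.unit_eq (i := 0) (j := 1 + k) (by omega) (by omega) (by omega) hj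
      (by omega) (by omega))
    have p2 := abs_le.mp (h.col (i := 0) (by omega) lab11 1 k hj)
    have p3 := abs_le.mp (h.unit_eq (i := 0) (j := 1) (by omega) (by omega) (by omega) (by omega)
      (by omega) (by omega))
    rw [abs_le]
    push_cast
    constructor <;> nlinarith

/-- **Frames.** All frames are the nominal ones, with the common unit `a = rel d0 (0,1) (1,1)`. -/
theorem Placed.frames (h : Placed W H P F O d0 d1 R) (hW : 3 ≤ W) (hH : 3 ≤ H) {i j : ℕ}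
    (hi : i < W) (hj : j < H) {α β : ℤ} (hL : Lab α β) :
    |rel F d0 i j α β - α * rel F d0 0 1 1 1| ≤ (8 * (W + H) + 60) * R ^ 2 ∧
      |rel F d1 i j α β - β * rel F d0 0 1 1 1| ≤ (8 * (W + H) + 60) * R ^ 2 := by
  have hR : 0 ≤ R ^ 2 := by positivity
  have hα : |(α : ℝ)| ≤ 2 := by
    obtain ⟨g1, g2, -⟩ := hL
    rw [abs_le]; constructor
    · exact_mod_cast g1
    · exact_mod_cast g2
  have hβ : |(β : ℝ)| ≤ 2 := by
    obtain ⟨-, -, g1, g2, -⟩ := hL
    rw [abs_le]; constructor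
    · exact_mod_cast g1
    · exact_mod_cast g2
  -- sites with three directions
  have main : ∀ i j, i < W → j < H → 0 < i + j → i + j + 2 < W + H →
      |rel F d0 i j α β - α * rel F d0 0 1 1 1| ≤ (8 * (i + j) + 52) * R ^ 2 ∧
      |rel F d1 i j α β - β * rel F d0 0 1 1 1| ≤ (8 * (i + j) + 52) * R ^ 2 := by
    intro i j hi hj hc hc'
    obtain ⟨s0, s1⟩ := h.site (by omega) (by omega) hi hj hc hc' hL
    have u := h.unit_all hW hH hi hj
    have key : ∀ c : ℝ, |c| ≤ 2 → |c * rel F d0 i j 1 1 - c * rel F d0 0 1 1 1| ≤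
        2 * ((4 * (i + j) + 20) * R ^ 2) := by
      intro c hc
      rw [← mul_sub, abs_mul]
      exact mul_le_mul hc u (abs_nonneg _) (by norm_num)
    have k0 := abs_le.mp (key α hα)
    have k1 := abs_le.mp (key β hβ)
    have s0' := abs_le.mp s0
    have s1' := abs_le.mp s1
    constructor
    · rw [abs_le]; constructor <;> nlinarith
    · rw [abs_le]; constructor <;> nlinarith
  have hiW : (i : ℝ) + 1 ≤ W := by exact_mod_cast hi
  have hjH : (j : ℝ) + 1 ≤ H := by exact_mod_cast hj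
  by_cases hc : 0 < i + j
  · by_cases hc' : i + j + 2 < W + H
    · obtain ⟨m0, m1⟩ := main i j hi hj hc hc'
      constructor
      · refine le_trans m0 ?_; nlinarith
      · refine le_trans m1 ?_; nlinarith
    · obtain ⟨i', rfl⟩ : ∃ i', i = i' + 1 := ⟨i - 1, by omega⟩
      obtain ⟨j', rfl⟩ : ∃ j', j = j' + 1 := ⟨j - 1, by omega⟩
      have m0 := abs_le.mp (main i' (j' + 1) (by omega) hj (by omega) (by omega)).1
      have m1 := abs_le.mp (main (i' + 1) j' hi (by omega) (by omega) (by omega)).2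
      have t0 := abs_le.mp (h.step0 (i := i') hi hj hL)
      have t1 := abs_le.mp (h.step1 (j := j') hi hj hL)
      push_cast at *
      constructor
      · rw [abs_le]; constructor <;> nlinarith
      · rw [abs_le]; constructor <;> nlinarith
  · have hi0 : i = 0 := by omega
    have hj0 : j = 0 := by omega
    subst hi0 hj0
    have m0 := abs_le.mp (main 1 0 (by omega) (by omega) (by omega) (by omega)).1
    have m1 := abs_le.mp (main 0 1 (by omega) (by omega) (by omega) (by omega)).2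
    have t0 := abs_le.mp (h.step0 (i := 0) (j := 0) (by omega) (by omega) hL)
    have t1 := abs_le.mp (h.step1 (i := 0) (j := 0) (by omega) (by omega) hL)
    norm_num at m0 m1 t0 t1
    have hWR : (3 : ℝ) ≤ W := by exact_mod_cast hW
    have hHR : (3 : ℝ) ≤ H := by exact_mod_cast hH
    constructor
    · rw [abs_le]; constructor <;> nlinarith
    · rw [abs_le]; constructor <;> nlinarith

end

/-- Two small coordinates. -/
theorem small_coords {d0 d1 u : ℝ × ℝ} {B : ℝ} (h0 : dot d0 d0 = 1) (h1 : dot d1 d1 = 1)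
    (h01 : dot d0 d1 = 1 / 2) (k0 : |dot d0 u| ≤ B) (k1 : |dot d1 u| ≤ B) :
    dot u u ≤ (2 * B) ^ 2 := by
  have G := gram u d0 d1
  rw [h0, h1, h01, dot_comm u d0, dot_comm u d1] at G
  obtain ⟨a1, a2⟩ := abs_le.mp k0
  obtain ⟨b1, b2⟩ := abs_le.mp k1
  have e1 : dot d0 u ^ 2 ≤ B ^ 2 := sq_le_sq' a1 a2
  have e2 : dot d1 u ^ 2 ≤ B ^ 2 := sq_le_sq' b1 b2
  have e3 : -(dot d0 u * dot d1 u) ≤ B ^ 2 := by
    nlinarith [sq_nonneg (dot d0 u + dot d1 u)]
  nlinarith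

section
variable {W H : ℕ} {P : ℕ → ℕ → Set (ℝ × ℝ)} {F : ℕ → ℕ → ℤ → ℤ → ℝ × ℝ} {O d0 d1 : ℝ × ℝ}
  {R : ℝ}

/-- The base clusters are bounded by the unit. -/
theorem Placed.base_le (h : Placed W H P F O d0 d1 R) (hW : 3 ≤ W) (hH : 3 ≤ H) :
    (∀ x ∈ P 0 0, ∀ y ∈ P 0 0,
      dsq x y ≤ (8 * |rel F d0 0 1 1 1| + (32 * (W + H) + 252) * R ^ 2) ^ 2) ∧
    (∀ x ∈ P 0 1, ∀ y ∈ P 0 1,
      dsq x y ≤ (8 * |rel F d0 0 1 1 1| + (32 * (W + H) + 252) * R ^ 2) ^ 2) := by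
  set a := rel F d0 0 1 1 1 with ha
  set E := (8 * (W + H) + 60) * R ^ 2 with hE
  have hR : 0 ≤ R ^ 2 := by positivity
  have hE0 : 0 ≤ E := by positivity
  have bound : ∀ c : ℤ, -2 ≤ c → c ≤ 2 → |(c : ℝ) * a| ≤ 2 * |a| := by
    intro c h1 h2
    rw [abs_mul]
    refine mul_le_mul_of_nonneg_right ?_ (abs_nonneg _)
    rw [abs_le]; constructor
    · exact_mod_cast h1
    · exact_mod_cast h2
  have f0 : ∀ i j, i < W → j < H → ∀ α β, Lab α β → |rel F d0 i j α β| ≤ 2 * |a| + E := by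
    intro i j hi hj α β hL
    have h1 := abs_le.mp (h.frames hW hH hi hj hL).1
    have h2 := abs_le.mp (bound α hL.1 hL.2.1)
    rw [abs_le]; constructor <;> linarith
  have f1 : ∀ i j, i < W → j < H → ∀ α β, Lab α β → |rel F d1 i j α β| ≤ 2 * |a| + E := by
    intro i j hi hj α β hL
    have h1 := abs_le.mp (h.frames hW hH hi hj hL).2
    have h2 := abs_le.mp (bound β hL.2.2.1 hL.2.2.2.1)
    rw [abs_le]; constructor <;> linarith
  obtain ⟨b0, hne0, hL0⟩ := other0 lab00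
  obtain ⟨a0, hne1, hL1⟩ := other1 lab00
  have relfu0 : ∀ i j α β, rel F d0 i j α β = fu O d0 d1 F d0 i j α β - fu O d0 d1 F d0 i j 0 0 :=
    fun i j α β => rel_eq _ _ _ _ _
  have relfu1 : ∀ i j α β, rel F d1 i j α β = fu O d0 d1 F d1 i j α β - fu O d0 d1 F d1 i j 0 0 :=
    fun i j α β => rel_eq _ _ _ _ _
  have split : ∀ (e z c A : ℝ × ℝ), dot e (z - c) = dot e (z - A) - dot e (c - A) := by
    intro e z c A
    simp only [dot, Prod.fst_sub, Prod.snd_sub]; ring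
  -- head side: `z` at `(0, j)`, frames at `(1, j)`
  have side0 : ∀ j, j < H → ∀ z ∈ P 0 j, (∃ α β, Lab α β ∧ dsq z (F 1 j α β) ≤ 4) →
      (∃ α β, Lab α β ∧ 4 < dsq z (F 1 j α β)) →
      |dot d0 (z - F 0 j 0 0)| ≤ 2 * |a| + E + 3 * R ^ 2 := by
    intro j hj z hz ⟨α, β, hL, hn⟩ ⟨α', β', hL', hf⟩
    have g1 := link_near (A := lat O d0 d1 0 j) (B := lat O d0 d1 1 j) h.h0
      (by simp only [lat]; push_cast; ring) (by simp only [lat]; push_cast; ring) hn
    have g2 := link_far (A := lat O d0 d1 0 j) (B := lat O d0 d1 1 j) h.h0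
      (by simp only [lat]; push_cast; ring) (by simp only [lat]; push_cast; ring)
      (h.hb 0 j (by omega) hj z hz)
      (h.hb 1 j (by omega) hj _ (h.mem 1 j α' β' (by omega) hj hL')) hf
    have g3 := abs_le.mp (h.pair0 (i := 0) (j := j) (by omega) hj lab00 hL0 hne0).1
    have g4 := abs_le.mp (f0 1 j (by omega) hj α β hL)
    have g5 := abs_le.mp (f0 1 j (by omega) hj α' β' hL')
    rw [relfu0] at g4 g5
    rw [split d0 z (F 0 j 0 0) (lat O d0 d1 0 j)]
    simp only [fu, Nat.zero_add] at g3 g4 g5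
    rw [abs_le]; constructor <;> linarith
  have side1 : ∀ z ∈ P 0 0, (∃ α β, Lab α β ∧ dsq z (F 0 1 α β) ≤ 4) →
      (∃ α β, Lab α β ∧ 4 < dsq z (F 0 1 α β)) →
      |dot d1 (z - F 0 0 0 0)| ≤ 2 * |a| + E + 3 * R ^ 2 := by
    intro z hz ⟨α, β, hL, hn⟩ ⟨α', β', hL', hf⟩
    have g1 := link_near (A := lat O d0 d1 0 0) (B := lat O d0 d1 0 1) h.h1
      (by simp only [lat]; push_cast; ring) (by simp only [lat]; push_cast; ring) hn
    have g2 := link_far (A := lat O d0 d1 0 0) (B := lat O d0 d1 0 1) h.h1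
      (by simp only [lat]; push_cast; ring) (by simp only [lat]; push_cast; ring)
      (h.hb 0 0 (by omega) (by omega) z hz)
      (h.hb 0 1 (by omega) (by omega) _ (h.mem 0 1 α' β' (by omega) (by omega) hL')) hf
    have g3 := abs_le.mp (h.pair1 (i := 0) (j := 0) (by omega) (by omega) lab00 hL1 hne1).1
    have g4 := abs_le.mp (f1 0 1 (by omega) (by omega) α β hL)
    have g5 := abs_le.mp (f1 0 1 (by omega) (by omega) α' β' hL')
    rw [relfu1] at g4 g5
    rw [split d1 z (F 0 0 0 0) (lat O d0 d1 0 0)]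
    simp only [fu, Nat.zero_add] at g3 g4 g5
    rw [abs_le]; constructor <;> linarith
  have side2 : ∀ z ∈ P 0 1, (∃ α β, Lab α β ∧ dsq (F 0 0 α β) z ≤ 4) →
      (∃ α β, Lab α β ∧ 4 < dsq (F 0 0 α β) z) →
      |dot d1 (z - F 0 1 0 0)| ≤ 2 * |a| + E + 3 * R ^ 2 := by
    intro z hz ⟨α, β, hL, hn⟩ ⟨α', β', hL', hf⟩
    have g1 := link_near (A := lat O d0 d1 0 0) (B := lat O d0 d1 0 1) h.h1
      (by simp only [lat]; push_cast; ring) (by simp only [lat]; push_cast; ring) hn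
    have g2 := link_far (A := lat O d0 d1 0 0) (B := lat O d0 d1 0 1) h.h1
      (by simp only [lat]; push_cast; ring) (by simp only [lat]; push_cast; ring)
      (h.hb 0 0 (by omega) (by omega) _ (h.mem 0 0 α' β' (by omega) (by omega) hL'))
      (h.hb 0 1 (by omega) (by omega) z hz) hf
    have g3 := abs_le.mp (h.pair1 (i := 0) (j := 0) (by omega) (by omega) lab00 hL1 hne1).1
    have g4 := abs_le.mp (f1 0 0 (by omega) (by omega) α β hL)
    have g5 := abs_le.mp (f1 0 0 (by omega) (by omega) α' β' hL')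
    rw [relfu1] at g4 g5
    rw [split d1 z (F 0 1 0 0) (lat O d0 d1 0 1)]
    simp only [fu, Nat.zero_add] at g3 g4 g5
    rw [abs_le]; constructor <;> linarith
  have fin : ∀ c x y : ℝ × ℝ, |dot d0 (x - c)| ≤ 2 * |a| + E + 3 * R ^ 2 →
      |dot d0 (y - c)| ≤ 2 * |a| + E + 3 * R ^ 2 → |dot d1 (x - c)| ≤ 2 * |a| + E + 3 * R ^ 2 →
      |dot d1 (y - c)| ≤ 2 * |a| + E + 3 * R ^ 2 →
      dsq x y ≤ (8 * |a| + (32 * (W + H) + 252) * R ^ 2) ^ 2 := by
    intro c x y h1 h2 h3 h4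
    have e : ∀ d : ℝ × ℝ, dot d (x - y) = dot d (x - c) - dot d (y - c) := by
      intro d; simp only [dot, Prod.fst_sub, Prod.snd_sub]; ring
    have k0 : |dot d0 (x - y)| ≤ 2 * (2 * |a| + E + 3 * R ^ 2) := by
      rw [e]; rw [abs_le] at *; constructor <;> linarith [h1.1, h1.2, h2.1, h2.2]
    have k1 : |dot d1 (x - y)| ≤ 2 * (2 * |a| + E + 3 * R ^ 2) := by
      rw [e]; rw [abs_le] at *; constructor <;> linarith [h3.1, h3.2, h4.1, h4.2]
    have := small_coords h.h0 h.h1 h.h01 k0 k1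
    rw [dsq_eq_dot]
    refine this.trans (le_of_eq ?_)
    rw [hE]; ring
  constructor
  · intro x hx y hy
    exact fin (F 0 0 0 0) x y (side0 0 (by omega) x hx (h.n00_10 x hx) (h.f00_10 x hx))
      (side0 0 (by omega) y hy (h.n00_10 y hy) (h.f00_10 y hy))
      (side1 x hx (h.n00_01 x hx) (h.f00_01 x hx)) (side1 y hy (h.n00_01 y hy) (h.f00_01 y hy))
  · intro x hx y hy
    exact fin (F 0 1 0 0) x y (side0 1 (by omega) x hx (h.n01_11 x hx) (h.f01_11 x hx))
      (side0 1 (by omega) y hy (h.n01_11 y hy) (h.f01_11 y hy))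
      (side2 x hx (h.n01_00 x hx) (h.f01_00 x hx)) (side2 y hy (h.n01_00 y hy) (h.f01_00 y hy))

/-- The unit is almost nonnegative. -/
theorem Placed.unit_ge (h : Placed W H P F O d0 d1 R) (hW : 3 ≤ W) (hH : 3 ≤ H) :
    -(2 * R ^ 2) ≤ rel F d0 0 1 1 1 := by
  have g1 := link_near (A := lat O d0 d1 0 1) (B := lat O d0 d1 1 1) (p := F 0 1 1 1)
    (q := F 1 1 0 0) h.h0
    (by simp only [lat]; push_cast; ring) (by simp only [lat]; push_cast; ring)
    ((h.link0 0 1 1 1 0 0 (by omega) (by omega) lab11 lab00).2 (Or.inl (by norm_num)))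
  obtain ⟨b0, hne0, hL0⟩ := other0 lab00
  have g3 := abs_le.mp (h.pair0 (i := 0) (j := 1) (by omega) (by omega) lab00 hL0 hne0).1
  rw [rel_eq (O := O) (d0 := d0) (d1 := d1)]
  simp only [fu, Nat.zero_add] at g3 ⊢
  linarith

/-- The centres of the frames are near the exact lattice points. -/
theorem Placed.centre (h : Placed W H P F O d0 d1 R) (hW : 2 ≤ W) (hH : 2 ≤ H)
    (hO : F 0 0 0 0 = O) {ℓ : ℝ} (hℓ : F 0 1 0 0 = (O.1 + ℓ * d1.1, O.2 + ℓ * d1.2)) {i j : ℕ}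
    (hi : i < W) (hj : j < H) :
    |fu O d0 d1 F d0 i j 0 0| ≤ (2 * j ^ 2 + 9 * j + 2 * i) * R ^ 2 ∧
      |fu O d0 d1 F d1 i j 0 0| ≤ (2 * i ^ 2 + 5 * i + 2 * j) * R ^ 2 := by
  have hR : 0 ≤ R ^ 2 := by positivity
  obtain ⟨b0, hne0, hL0⟩ := other0 lab00
  obtain ⟨a0, hne1, hL1⟩ := other1 lab00
  obtain ⟨a2, b2, hne2, hs2, hL2⟩ := other2 lab00
  have p0 : ∀ i j, i + 1 < W → j < H →
      |fu O d0 d1 F d0 i j 0 0 - fu O d0 d1 F d0 (i + 1) j 0 0| ≤ 2 * R ^ 2 :=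
    fun i j hi hj => (h.pair0 hi hj lab00 hL0 hne0).1
  have p1 : ∀ i j, i < W → j + 1 < H →
      |fu O d0 d1 F d1 i j 0 0 - fu O d0 d1 F d1 i (j + 1) 0 0| ≤ 2 * R ^ 2 :=
    fun i j hi hj => (h.pair1 hi hj lab00 hL1 hne1).1
  have p2 : ∀ i j, i + 1 < W → j + 1 < H →
      |(fu O d0 d1 F d1 (i + 1) j 0 0 - fu O d0 d1 F d0 (i + 1) j 0 0) -
        (fu O d0 d1 F d1 i (j + 1) 0 0 - fu O d0 d1 F d0 i (j + 1) 0 0)| ≤ 2 * R ^ 2 := by
    intro i j hi hj
    have := (h.pair2 hi hj lab00 hL2 hne2 hs2).1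
    have e : ∀ i j, fu O d0 d1 F (d1 - d0) i j 0 0 =
        fu O d0 d1 F d1 i j 0 0 - fu O d0 d1 F d0 i j 0 0 := by
      intro i j; simp only [fu, dot, Prod.fst_sub, Prod.snd_sub]; ring
    rwa [e, e] at this
  have f00 : fu O d0 d1 F d0 0 0 0 0 = 0 := by
    simp only [fu, hO, lat, dot, Prod.fst_sub, Prod.snd_sub]; push_cast; ring
  have g00 : fu O d0 d1 F d1 0 0 0 0 = 0 := by
    simp only [fu, hO, lat, dot, Prod.fst_sub, Prod.snd_sub]; push_cast; ring
  have g01 : fu O d0 d1 F d1 0 1 0 0 = ℓ - 2 := by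
    have : fu O d0 d1 F d1 0 1 0 0 = (ℓ - 2) * dot d1 d1 := by
      simp only [fu, hℓ, lat, dot, Prod.fst_sub, Prod.snd_sub]; push_cast; ring
    rw [this, h.h1, mul_one]
  have f01 : fu O d0 d1 F d0 0 1 0 0 = (ℓ - 2) / 2 := by
    have : fu O d0 d1 F d0 0 1 0 0 = (ℓ - 2) * dot d0 d1 := by
      simp only [fu, hℓ, lat, dot, Prod.fst_sub, Prod.snd_sub]; push_cast; ring
    rw [this, h.h01]; ring
  have hτ := abs_le.mp (p1 0 0 (by omega) (by omega))
  rw [g00, Nat.zero_add, g01] at hτ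
  -- (1)
  have fi0 : ∀ i, i < W → |fu O d0 d1 F d0 i 0 0 0| ≤ 2 * i * R ^ 2 := by
    intro i
    induction i with
    | zero => intro _; rw [f00]; simp
    | succ i ih =>
      intro hi
      have a1 := abs_le.mp (ih (by omega))
      have a2 := abs_le.mp (p0 i 0 hi (by omega))
      rw [abs_le]; push_cast; constructor <;> linarith
  have fi1 : ∀ i, i < W → |fu O d0 d1 F d0 i 1 0 0| ≤ (2 * i + 1) * R ^ 2 := by
    intro i
    induction i with
    | zero => intro _; rw [f01, abs_le]; push_cast; constructor <;> linarith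
    | succ i ih =>
      intro hi
      have a1 := abs_le.mp (ih (by omega))
      have a2 := abs_le.mp (p0 i 1 hi (by omega))
      rw [abs_le]; push_cast; constructor <;> linarith
  have g0j : ∀ j, j < H → |fu O d0 d1 F d1 0 j 0 0| ≤ 2 * j * R ^ 2 := by
    intro j
    induction j with
    | zero => intro _; rw [g00]; simp
    | succ j ih =>
      intro hj
      have a1 := abs_le.mp (ih (by omega))
      have a2 := abs_le.mp (p1 0 j (by omega) hj)
      rw [abs_le]; push_cast; constructor <;> linarith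
  -- (2)
  have g1j : ∀ j, j < H → |fu O d0 d1 F d1 1 j 0 0| ≤ (2 * j + 5) * R ^ 2 := by
    intro j
    induction j with
    | zero =>
      intro _
      have a1 := abs_le.mp (p2 0 0 (by omega) (by omega))
      have a2 := abs_le.mp (p0 0 0 (by omega) (by omega))
      simp only [Nat.zero_add] at a1 a2
      rw [g01, f01] at a1
      rw [f00] at a2
      rw [abs_le]; push_cast; constructor <;> linarith
    | succ j ih =>
      intro hj
      have a1 := abs_le.mp (ih (by omega))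
      have a2 := abs_le.mp (p1 1 j (by omega) hj)
      rw [abs_le]; push_cast; constructor <;> linarith
  -- (3)
  have f0j : ∀ j, j < H → |fu O d0 d1 F d0 0 j 0 0| ≤ (2 * j ^ 2 + 9 * j) * R ^ 2 := by
    intro j
    induction j with
    | zero => intro _; rw [f00]; simp
    | succ j ih =>
      intro hj
      have a1 := abs_le.mp (ih (by omega))
      have a2 := abs_le.mp (p2 0 j (by omega) hj)
      have a3 := abs_le.mp (p0 0 j (by omega) (by omega))
      have a4 := abs_le.mp (g1j j (by omega))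
      have a5 := abs_le.mp (g0j (j + 1) hj)
      simp only [Nat.zero_add] at a2 a3
      push_cast at a5
      rw [abs_le]; push_cast
      constructor <;> nlinarith
  -- (5)
  have gi0 : ∀ i, i < W → |fu O d0 d1 F d1 i 0 0 0| ≤ (2 * i ^ 2 + 5 * i) * R ^ 2 := by
    intro i
    induction i with
    | zero => intro _; rw [g00]; simp
    | succ i ih =>
      intro hi
      have a1 := abs_le.mp (ih (by omega))
      have a2 := abs_le.mp (p2 i 0 hi (by omega))
      have a3 := abs_le.mp (p1 i 0 (by omega) (by omega))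
      have a4 := abs_le.mp (fi1 i (by omega))
      have a5 := abs_le.mp (fi0 (i + 1) hi)
      simp only [Nat.zero_add] at a2 a3
      push_cast at a5
      rw [abs_le]; push_cast
      constructor <;> nlinarith
  constructor
  · have : ∀ k, k < W → |fu O d0 d1 F d0 k j 0 0| ≤ (2 * j ^ 2 + 9 * j + 2 * k) * R ^ 2 := by
      intro k
      induction k with
      | zero =>
        intro _
        have := f0j j hj
        push_cast
        linarith
      | succ k ih =>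
        intro hk
        have a1 := abs_le.mp (ih (by omega))
        have a2 := abs_le.mp (p0 k j hk hj)
        rw [abs_le]; push_cast; constructor <;> linarith
    exact this i hi
  · have : ∀ k, k < H → |fu O d0 d1 F d1 i k 0 0| ≤ (2 * i ^ 2 + 5 * i + 2 * k) * R ^ 2 := by
      intro k
      induction k with
      | zero =>
        intro _
        have := gi0 i hi
        push_cast
        linarith
      | succ k ih =>
        intro hk
        have a1 := abs_le.mp (ih (by omega))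
        have a2 := abs_le.mp (p1 i k hi hk)
        rw [abs_le]; push_cast; constructor <;> linarith
    exact this j hj

end

/-- The maximal distance of a pair in two finite sets is attained. -/
theorem exists_diam {A B : Set (ℝ × ℝ)} (fA : A.Finite) (fB : B.Finite) {a : ℝ × ℝ}
    (ha : a ∈ A) : ∃ s : ℝ, 0 ≤ s ∧ (∀ x ∈ A, ∀ y ∈ A, dsq x y ≤ s ^ 2) ∧
      (∀ x ∈ B, ∀ y ∈ B, dsq x y ≤ s ^ 2) ∧
      ((∃ x ∈ A, ∃ y ∈ A, dsq x y = s ^ 2) ∨ ∃ x ∈ B, ∃ y ∈ B, dsq x y = s ^ 2) := by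
  set S : Set ((ℝ × ℝ) × (ℝ × ℝ)) := A ×ˢ A ∪ B ×ˢ B with hS
  have fS : S.Finite := (fA.prod fA).union (fB.prod fB)
  have nS : S.Nonempty := ⟨(a, a), Or.inl ⟨ha, ha⟩⟩
  obtain ⟨m, hm, hmax⟩ := Set.exists_max_image S (fun p => dsq p.1 p.2) fS nS
  have e : Real.sqrt (dsq m.1 m.2) ^ 2 = dsq m.1 m.2 := Real.sq_sqrt (dsq_nonneg _ _)
  refine ⟨Real.sqrt (dsq m.1 m.2), Real.sqrt_nonneg _, ?_, ?_, ?_⟩
  · intro x hx y hy
    rw [e]; exact hmax (x, y) (Or.inl ⟨hx, hy⟩)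
  · intro x hx y hy
    rw [e]; exact hmax (x, y) (Or.inr ⟨hx, hy⟩)
  · rw [e]
    rcases hm with hm | hm
    · exact Or.inl ⟨m.1, hm.1, m.2, hm.2, rfl⟩
    · exact Or.inr ⟨m.1, hm.1, m.2, hm.2, rfl⟩

/-- **The region.** If the two base clusters are small enough, the whole region is placed on an
exact lattice with an error `R` which is bounded by a constant times the unit `a` of the frames. -/
theorem region_frames {W H : ℕ} {P : ℕ → ℕ → Set (ℝ × ℝ)} {F : ℕ → ℕ → ℤ → ℤ → ℝ × ℝ}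
    (h : FrameReal W H P F) (hW : 3 ≤ W) (hH : 3 ≤ H) (fin0 : (P 0 0).Finite)
    (fin1 : (P 0 1).Finite) {s : ℝ} (hs : 0 ≤ s) (small : 1000 * 25 ^ (3 * (W + H)) * s ≤ 1 / 4)
    (c00 : ∀ x ∈ P 0 0, ∀ y ∈ P 0 0, dsq x y ≤ s ^ 2)
    (c01 : ∀ x ∈ P 0 1, ∀ y ∈ P 0 1, dsq x y ≤ s ^ 2) :
    ∃ (O d0 d1 : ℝ × ℝ) (a R : ℝ), 0 < a ∧ 0 < R ∧ R ≤ 48 * 25 ^ (W + H) * a ∧
      R ≤ 3 * 25 ^ (W + H) * s ∧ Placed W H P F O d0 d1 R ∧
      ∀ i j, i < W → j < H → ∀ α β, Lab α β →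
        |rel F d0 i j α β - α * a| ≤ (8 * (W + H) + 60) * R ^ 2 ∧
        |rel F d1 i j α β - β * a| ≤ (8 * (W + H) + 60) * R ^ 2 ∧
        |fu O d0 d1 F d0 i j 0 0| ≤ (2 * j ^ 2 + 9 * j + 2 * i) * R ^ 2 ∧
        |fu O d0 d1 F d1 i j 0 0| ≤ (2 * i ^ 2 + 5 * i + 2 * j) * R ^ 2 := by
  set n := W + H with hn
  have hn6 : 6 ≤ n := by omega
  set K : ℝ := 25 ^ n with hK
  have hK3 : (25 : ℝ) ^ (3 * n) = K ^ 3 := by rw [hK, ← pow_mul]; ring_nf
  have hKbig : (1000 : ℝ) ≤ K := by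
    have : (25 : ℝ) ^ 6 ≤ 25 ^ n := pow_le_pow_right₀ (by norm_num) hn6
    exact le_trans (by norm_num) this
  have hnK : (n : ℝ) ≤ K := by
    have h1 : n < 25 ^ n := Nat.lt_pow_self (by norm_num)
    have h2 : ((n : ℕ) : ℝ) ≤ ((25 ^ n : ℕ) : ℝ) := by exact_mod_cast h1.le
    rw [hK]
    push_cast at h2
    exact h2
  have hn0 : (0 : ℝ) ≤ n := Nat.cast_nonneg n
  have hWH : ((W : ℝ) + H) = n := by rw [hn]; push_cast; ring
  rw [hK3] at small
  have hK0 : 0 < K := by linarith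
  have hKs : K * s ≤ 1 / 4000000000 := by
    have h1 : 1000 * K ^ 3 * s = 1000 * K ^ 2 * (K * s) := by ring
    rw [h1] at small
    have h2 : 1000 * (1000 : ℝ) ^ 2 ≤ 1000 * K ^ 2 := by nlinarith
    have h3 : 0 ≤ K * s := by positivity
    nlinarith
  have small' : 25 ^ (W + H) * (3 * s) ≤ 1 / 100 := by
    rw [← hn, ← hK]; nlinarith
  have hc00 := h.mem 0 0 0 0 (by omega) (by omega) lab00
  have hc01 := h.mem 0 1 0 0 (by omega) (by omega) lab00
  obtain ⟨d0, d1, ℓ, h0, h1, h01, hℓ, hℓ', hall⟩ := place_exists h.toRegionReal (by omega) (by omega)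
    hs small' c00 c01 hc00 hc01
  obtain ⟨t, ht0, t00, t01, tatt⟩ := exists_diam fin0 fin1 hc00
  have hts : t ≤ s := by
    rcases tatt with ⟨x, hx, y, hy, hxy⟩ | ⟨x, hx, y, hy, hxy⟩
    · have := c00 x hx y hy
      rw [hxy] at this
      exact abs_le_of_sq_le_sq' this hs |>.2
    · have := c01 x hx y hy
      rw [hxy] at this
      exact abs_le_of_sq_le_sq' this hs |>.2
  have hP := hall t ht0 hts t00 t01
  set R := 25 ^ (W + H) * (3 * t) with hR
  have hRK : R = 3 * K * t := by rw [hR, ← hn, ← hK]; ring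
  have hpl : Placed W H P F (F 0 0 0 0) d0 d1 R :=
    { toFrameReal := h, h0 := h0, h1 := h1, h01 := h01, hb := hP }
  set a := rel F d0 0 1 1 1 with ha
  have hbase := hpl.base_le hW hH
  rw [hWH, ← ha] at hbase
  -- positivity of `t`
  have htpos : 0 < t := by
    rcases lt_or_eq_of_le ht0 with h2 | h2
    · exact h2
    · exfalso
      have h3 : dsq (F 0 0 0 0) (F 0 0 1 1) ≤ 0 := by
        have := t00 _ hc00 _ (h.mem 0 0 1 1 (by omega) (by omega) lab11)
        rw [← h2] at this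
        simpa using this
      have h4 : F 0 0 0 0 = F 0 0 1 1 := by
        unfold dsq at h3
        have e1 : ((F 0 0 0 0).1 - (F 0 0 1 1).1) ^ 2 = 0 := by
          nlinarith [sq_nonneg ((F 0 0 0 0).1 - (F 0 0 1 1).1),
            sq_nonneg ((F 0 0 0 0).2 - (F 0 0 1 1).2)]
        have e2 : ((F 0 0 0 0).2 - (F 0 0 1 1).2) ^ 2 = 0 := by
          nlinarith [sq_nonneg ((F 0 0 0 0).1 - (F 0 0 1 1).1),
            sq_nonneg ((F 0 0 0 0).2 - (F 0 0 1 1).2)]
        have e3 := pow_eq_zero_iff (two_ne_zero) |>.mp e1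
        have e4 := pow_eq_zero_iff (two_ne_zero) |>.mp e2
        ext
        · linarith
        · linarith
      have l10 : Lab 1 0 := by unfold Lab; omega
      have h5 := (h.link1 0 0 1 1 1 0 (by omega) (by omega) lab11 l10).2 (Or.inl (by norm_num))
      rw [← h4] at h5
      have h6 := (h.link1 0 0 0 0 1 0 (by omega) (by omega) lab00 l10).1 h5
      omega
  have hRpos : 0 < R := by rw [hRK]; positivity
  -- the quadratic term is small
  have hquad : (32 * n + 252) * R ^ 2 ≤ t / 2 := by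
    have e1 : (32 * n + 252) * R ^ 2 = 9 * (32 * n + 252) * K ^ 2 * t * t := by rw [hRK]; ring
    have e2 : 9 * (32 * (n : ℝ) + 252) ≤ 1000 * K := by nlinarith
    have e3 : 9 * (32 * (n : ℝ) + 252) * K ^ 2 * t ≤ 1000 * K * K ^ 2 * s := by
      have : 9 * (32 * (n : ℝ) + 252) * K ^ 2 ≤ 1000 * K * K ^ 2 :=
        mul_le_mul_of_nonneg_right e2 (by positivity)
      exact mul_le_mul this hts ht0 (by positivity)
    have e4 : 1000 * K * K ^ 2 * s = 1000 * K ^ 3 * s := by ring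
    rw [e1]
    nlinarith
  have hta : t ≤ 16 * |a| := by
    have hX : 0 ≤ 8 * |a| + (32 * n + 252) * R ^ 2 := by positivity
    have h2 : t ≤ 8 * |a| + (32 * n + 252) * R ^ 2 := by
      rcases tatt with ⟨x, hx, y, hy, hxy⟩ | ⟨x, hx, y, hy, hxy⟩
      · have := hbase.1 x hx y hy
        rw [hxy] at this
        exact abs_le_of_sq_le_sq' this hX |>.2
      · have := hbase.2 x hx y hy
        rw [hxy] at this
        exact abs_le_of_sq_le_sq' this hX |>.2
    linarith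
  have hapos : 0 < a := by
    have h2 := hpl.unit_ge hW hH
    rw [← ha] at h2
    by_contra hc
    push Not at hc
    have h3 : |a| ≤ 2 * R ^ 2 := by rw [abs_of_nonpos hc]; linarith
    have h4 : (32 * n + 252) * R ^ 2 ≥ 252 * R ^ 2 := by nlinarith [sq_nonneg R]
    nlinarith
  rw [abs_of_pos hapos] at hta
  refine ⟨F 0 0 0 0, d0, d1, a, R, hapos, hRpos, ?_, ?_, hpl, ?_⟩
  · rw [hRK]; nlinarith
  · rw [hRK]; nlinarith
  · intro i j hi hj α β hL
    obtain ⟨k1, k2⟩ := hpl.frames hW hH hi hj hL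
    obtain ⟨k3, k4⟩ := hpl.centre (by omega) (by omega) rfl hℓ' hi hj
    exact ⟨k1, k2, k3, k4⟩

end Pool.Agent.Lib.MP_1cb9f1_lc
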