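import Mathlib

/-!
General completeness lemma for unit disk graphs on the triangular lattice (MP_1cb9f1_lc).

Site `(i, j)` is the point `(2 i + j, √3 j)`; a point with displacement `X = (x, y)` at this site is
put at `(2 i + j + w x, √3 j + w y)`.  For all small `w > 0` two points are at distance at most `2`
iff their sites are equal, or the sites are neighbours in direction `e` and
`e · (X' - X) < 0` or `X' = X`.
-/

set_option autoImplicit false

namespace Pool.Agent.MP1cb9f1

/-- squared distance -/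
noncomputable def dist2 (P Q : ℝ × ℝ) : ℝ := (P.1 - Q.1) ^ 2 + (P.2 - Q.2) ^ 2

/-- the point with displacement `X` at the site `s`, at scale `w` -/
noncomputable def place (w : ℝ) (s : ℤ × ℤ) (X : ℝ × ℝ) : ℝ × ℝ :=
  (2 * s.1 + s.2 + w * X.1, Real.sqrt 3 * s.2 + w * X.2)

/-- twice the scalar product of the unit vector in direction `d` (a difference of two
neighbouring sites) and `D` -/
noncomputable def dirDot (d : ℤ × ℤ) (D : ℝ × ℝ) : ℝ :=
  (2 * d.1 + d.2) * D.1 + Real.sqrt 3 * d.2 * D.2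

/-- the adjacency of two points with sites `s, s'` and displacements `X, X'` at small scale -/
def Touch (s s' : ℤ × ℤ) (X X' : ℝ × ℝ) : Prop :=
  s = s' ∨ ((s'.1 - s.1) ^ 2 + (s'.1 - s.1) * (s'.2 - s.2) + (s'.2 - s.2) ^ 2 = 1 ∧
    (dirDot (s'.1 - s.1, s'.2 - s.2) (X'.1 - X.1, X'.2 - X.2) < 0 ∨ X' = X))

theorem norm_ge_three {a b : ℤ} (h0 : ¬ (a = 0 ∧ b = 0))
    (h1 : a ^ 2 + a * b + b ^ 2 ≠ 1) : 3 ≤ a ^ 2 + a * b + b ^ 2 := by
  by_contra hlt
  push Not at hlt
  have hb : (2 * a + b) ^ 2 + 3 * b ^ 2 < 12 := by nlinarith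
  have ha : (2 * b + a) ^ 2 + 3 * a ^ 2 < 12 := by nlinarith
  have hb1 : b < 2 := by nlinarith [sq_nonneg (2 * a + b)]
  have hb2 : -2 < b := by nlinarith [sq_nonneg (2 * a + b)]
  have ha1 : a < 2 := by nlinarith [sq_nonneg (2 * b + a)]
  have ha2 : -2 < a := by nlinarith [sq_nonneg (2 * b + a)]
  interval_cases a <;> interval_cases b <;> simp_all

theorem dist2_place (w : ℝ) (s s' : ℤ × ℤ) (X X' : ℝ × ℝ) :
    dist2 (place w s X) (place w s' X') =
      4 * (((s'.1 - s.1) ^ 2 + (s'.1 - s.1) * (s'.2 - s.2) + (s'.2 - s.2) ^ 2 : ℤ) : ℝ)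
      + 2 * w * dirDot (s'.1 - s.1, s'.2 - s.2) (X'.1 - X.1, X'.2 - X.2)
      + w ^ 2 * ((X'.1 - X.1) ^ 2 + (X'.2 - X.2) ^ 2) := by
  have h3 : Real.sqrt 3 ^ 2 = 3 := Real.sq_sqrt (by norm_num)
  unfold dist2 place dirDot
  push_cast
  linear_combination ((s.2 : ℝ) - s'.2) ^ 2 * h3

/-- one pair of points -/
theorem touch_pair (s s' : ℤ × ℤ) (X X' : ℝ × ℝ) :
    ∃ w0 : ℝ, 0 < w0 ∧ ∀ w : ℝ, 0 < w → w ≤ w0 →
      (dist2 (place w s X) (place w s' X') ≤ 4 ↔ Touch s s' X X') := by
  set D : ℝ × ℝ := (X'.1 - X.1, X'.2 - X.2) with hD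
  set d : ℤ × ℤ := (s'.1 - s.1, s'.2 - s.2) with hd
  set N : ℝ := D.1 ^ 2 + D.2 ^ 2 with hN
  have hN0 : 0 ≤ N := by positivity
  set A : ℝ := dirDot d D with hA
  by_cases h0 : d.1 = 0 ∧ d.2 = 0
  · -- same site
    have hs : s = s' := by
      obtain ⟨h1, h2⟩ := h0
      simp only [hd] at h1 h2
      ext <;> omega
    refine ⟨1 / (1 + N), by positivity, fun w hw hw0 => ?_⟩
    have hA0 : A = 0 := by
      simp only [hA, dirDot, h0.1, h0.2]
      push_cast
      ring
    have h1 : dist2 (place w s X) (place w s' X') = w ^ 2 * N := by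
      rw [dist2_place, ← hd]
      have : ((s'.1 - s.1) ^ 2 + (s'.1 - s.1) * (s'.2 - s.2) + (s'.2 - s.2) ^ 2 : ℤ) = 0 := by
        have e1 : s'.1 - s.1 = 0 := h0.1
        have e2 : s'.2 - s.2 = 0 := h0.2
        rw [e1, e2]; ring
      rw [this]
      have : dirDot d (X'.1 - X.1, X'.2 - X.2) = 0 := hA0
      rw [this]
      simp only [hN, hD]
      push_cast
      ring
    refine ⟨fun _ => Or.inl hs, fun _ => ?_⟩
    rw [h1]
    have h2 : w * (1 + N) ≤ 1 := by
      rwa [le_div_iff₀ (by positivity)] at hw0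
    have h3 : w ≤ 1 := by nlinarith
    nlinarith
  by_cases hn : d.1 ^ 2 + d.1 * d.2 + d.2 ^ 2 = 1
  · -- neighbouring sites
    have hform : ∀ w : ℝ, dist2 (place w s X) (place w s' X') = 4 + 2 * w * A + w ^ 2 * N := by
      intro w
      rw [dist2_place]
      have : ((s'.1 - s.1) ^ 2 + (s'.1 - s.1) * (s'.2 - s.2) + (s'.2 - s.2) ^ 2 : ℤ) = 1 := hn
      rw [this]
      simp only [hN, hD, hA, hd]
      push_cast
      ring
    have hns : s ≠ s' := by
      rintro rfl
      apply h0
      simp [hd]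
    by_cases hAneg : A < 0
    · refine ⟨-A / (1 + N), div_pos (by linarith) (by positivity), fun w hw hw0 => ?_⟩
      rw [le_div_iff₀ (by positivity)] at hw0
      refine ⟨fun _ => Or.inr ⟨hn, Or.inl hAneg⟩, fun _ => ?_⟩
      rw [hform]
      nlinarith
    · push Not at hAneg
      refine ⟨1, one_pos, fun w hw _ => ?_⟩
      rw [hform]
      constructor
      · intro h
        refine Or.inr ⟨hn, Or.inr ?_⟩
        have h1 : 0 ≤ 2 * w * A := by positivity
        have h2 : w ^ 2 * N ≤ 0 := by linarith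
        have h3 : N ≤ 0 := by
          by_contra hc
          push Not at hc
          have : 0 < w ^ 2 * N := by positivity
          linarith
        have h4 : D.1 = 0 := by
          have : D.1 ^ 2 = 0 := by nlinarith [sq_nonneg D.1, sq_nonneg D.2]
          exact pow_eq_zero_iff (two_ne_zero) |>.mp this
        have h5 : D.2 = 0 := by
          have : D.2 ^ 2 = 0 := by nlinarith [sq_nonneg D.1, sq_nonneg D.2]
          exact pow_eq_zero_iff (two_ne_zero) |>.mp this
        simp only [hD] at h4 h5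
        ext <;> linarith
      · rintro (h | ⟨-, h | h⟩)
        · exact absurd h hns
        · exact absurd h (not_lt.mpr hAneg)
        · have hA0 : A = 0 := by
            simp only [hA, hD, h, dirDot, sub_self]
            ring
          have hN0 : N = 0 := by
            simp only [hN, hD, h, sub_self]
            ring
          rw [hA0, hN0]
          linarith
  · -- far sites
    have h3 : 3 ≤ d.1 ^ 2 + d.1 * d.2 + d.2 ^ 2 := norm_ge_three h0 hn
    have hns : s ≠ s' := by
      rintro rfl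
      apply h0
      simp [hd]
    refine ⟨1 / (1 + |A|), by positivity, fun w hw hw0 => ?_⟩
    rw [le_div_iff₀ (by positivity)] at hw0
    have h4 : ¬ Touch s s' X X' := by
      rintro (h | ⟨h, -⟩)
      · exact hns h
      · exact hn h
    refine ⟨fun h => ?_, fun h => absurd h h4⟩
    exfalso
    rw [dist2_place] at h
    have h5 : (3 : ℝ) ≤ (((s'.1 - s.1) ^ 2 + (s'.1 - s.1) * (s'.2 - s.2) +
        (s'.2 - s.2) ^ 2 : ℤ) : ℝ) := by exact_mod_cast h3
    have h6 : |w * A| ≤ 1 := by
      rw [abs_mul, abs_of_pos hw]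
      nlinarith [abs_nonneg A]
    have h7 : -1 ≤ w * A := (abs_le.mp h6).1
    have h8 : 0 ≤ w ^ 2 * N := by positivity
    have h9 : 2 * w * dirDot (s'.1 - s.1, s'.2 - s.2) (X'.1 - X.1, X'.2 - X.2) = 2 * (w * A) := by
      simp only [hA, hd, hD]
      ring
    rw [h9] at h
    have h10 : w ^ 2 * ((X'.1 - X.1) ^ 2 + (X'.2 - X.2) ^ 2) = w ^ 2 * N := by
      simp only [hN, hD]
    rw [h10] at h
    linarith

/-- **General completeness.**  For finitely many points with sites and displacements there is a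
placement in which two points are at distance at most `2` iff `Touch` holds. -/
theorem touch_all {ι : Type*} [Finite ι] (s : ι → ℤ × ℤ) (X : ι → ℝ × ℝ) :
    ∃ w : ℝ, 0 < w ∧ ∀ p q : ι,
      (dist2 (place w (s p) (X p)) (place w (s q) (X q)) ≤ 4 ↔ Touch (s p) (s q) (X p) (X q)) := by
  have := Fintype.ofFinite ι
  choose f hf0 hf using fun pq : ι × ι => touch_pair (s pq.1) (s pq.2) (X pq.1) (X pq.2)
  rcases isEmpty_or_nonempty ι with hι | hι
  · exact ⟨1, one_pos, fun p => (hι.false p).elim⟩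
  · obtain ⟨m, hm⟩ := Finite.exists_min f
    exact ⟨f m, hf0 m, fun p q => hf (p, q) (f m) (hf0 m) (hm (p, q))⟩

end Pool.Agent.MP1cb9f1
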