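import Pool.Agent.Lib.MP_1cb9f1_lc.Defs

/-!
# The interface between algebra and geometry

Instances: `n` positive quantities `r 0 = 1, r 1, …, r (n - 1)` and a list of gates
`r i + r j = r l` and `r x * r y < r z * r u`.
-/

namespace Pool.Agent.Lib.MP_1cb9f1_lc

/-- Gates. -/
inductive Gate
  | add (i j l : ℕ) : Gate
  | lt (x y z u : ℕ) : Gate
  deriving DecidableEq

/-- All indices are below `n`. -/
def Gate.Below (n : ℕ) : Gate → Prop
  | .add i j l => i < n ∧ j < n ∧ l < n
  | .lt x y z u => x < n ∧ y < n ∧ z < n ∧ u < n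

/-- Exact validity of a gate. -/
def Gate.Holds (r : ℕ → ℝ) : Gate → Prop
  | .add i j l => r i + r j = r l
  | .lt x y z u => r x * r y < r z * r u

/-- Approximate validity of a gate. -/
def Gate.Approx (ε : ℝ) (r : ℕ → ℝ) : Gate → Prop
  | .add i j l => |r i + r j - r l| ≤ ε
  | .lt x y z u => r x * r y ≤ r z * r u + ε

/-- Exact solutions: quantity number `0` is the unit, all quantities are in `(0, 16)`. -/
def Sat (n : ℕ) (gs : List Gate) (r : ℕ → ℝ) : Prop :=
  r 0 = 1 ∧ (∀ i < n, 0 < r i ∧ r i < 16) ∧ ∀ g ∈ gs, g.Holds r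

/-- Approximate solutions. -/
def ApproxSat (ε : ℝ) (n : ℕ) (gs : List Gate) (r : ℕ → ℝ) : Prop :=
  r 0 = 1 ∧ (∀ i < n, -ε ≤ r i) ∧ ∀ g ∈ gs, g.Approx ε r

/-- The distance of two points of the plane given by coordinates is at most `2`. -/
def Near (p q : ℝ × ℝ) : Prop := (p.1 - q.1) ^ 2 + (p.2 - q.2) ^ 2 ≤ 4

/-- Realization of a graph as a unit disk graph, in coordinates. -/
def Realizes {V : Type*} (adj : V → V → Prop) (p : V → ℝ × ℝ) : Prop :=
  ∀ u v, u ≠ v → (adj u v ↔ Near (p u) (p v))

theorem isUnitDiskGraph_iff {V : Type*} (G : SimpleGraph V) :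
    IsUnitDiskGraph G ↔ ∃ p : V → ℝ × ℝ, Realizes G.Adj p := by
  have key : ∀ a b : EuclideanSpace ℝ (Fin 2),
      (Metric.closedBall a 1 ∩ Metric.closedBall b 1).Nonempty ↔
        Near (a 0, a 1) (b 0, b 1) := by
    intro a b
    have hd : dist a b ^ 2 = (a 0 - b 0) ^ 2 + (a 1 - b 1) ^ 2 := by
      rw [EuclideanSpace.dist_eq, Real.sq_sqrt (by positivity)]
      simp [Fin.sum_univ_two, Real.dist_eq, sq_abs]
    have h1 : (Metric.closedBall a 1 ∩ Metric.closedBall b 1).Nonempty ↔ dist a b ≤ 2 := by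
      constructor
      · rintro ⟨c, hc1, hc2⟩
        rw [Metric.mem_closedBall] at hc1 hc2
        have := dist_triangle a c b
        rw [dist_comm a c] at this
        linarith
      · intro h
        refine ⟨midpoint ℝ a b, ?_, ?_⟩
        · rw [Metric.mem_closedBall, dist_midpoint_left]
          simp only [Real.norm_ofNat]
          linarith
        · rw [Metric.mem_closedBall, dist_midpoint_right]
          simp only [Real.norm_ofNat]
          linarith
    rw [h1]
    unfold Near
    rw [← hd]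
    constructor
    · intro h
      nlinarith [dist_nonneg (x := a) (y := b)]
    · intro h
      nlinarith [dist_nonneg (x := a) (y := b)]
  constructor
  · rintro ⟨p, hp⟩
    refine ⟨fun v => (p v 0, p v 1), fun u v huv => ?_⟩
    rw [hp u v huv, key]
  · rintro ⟨p, hp⟩
    refine ⟨fun v => !₂[(p v).1, (p v).2], fun u v huv => ?_⟩
    rw [hp u v huv, key]
    simp

end Pool.Agent.Lib.MP_1cb9f1_lc
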