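import Pool.Agent.Lib.MP_1cb9f1_lc.GenComplete
import Pool.Agent.Lib.MP_1cb9f1_lc.Iface

/-!
General completeness lemma, second version (MP_1cb9f1_lc): points with levels and second order
parts.

A point with data `(site, lev, X, Y)` is put at `site + w^a X + w^(2a) Y`, `a = 3^lev`, on the
triangular lattice of spacing `2`.  For small `w > 0` two points are at distance at most `2` iff
`TouchG` holds, provided there is no second order tie (`NoTie`).
-/

set_option autoImplicit false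

namespace Pool.Agent.MP1cb9f1

open Filter Topology Pool.Agent.Lib.MP_1cb9f1_lc

/-- Data of a point: its site, its level (larger = finer), first and second order displacement. -/
structure Pt where
  site : ℤ × ℤ
  lev : ℕ
  X : ℝ × ℝ
  Y : ℝ × ℝ

/-- the position of the point at scale `w` -/
noncomputable def Pt.pos (w : ℝ) (p : Pt) : ℝ × ℝ :=
  (2 * p.site.1 + p.site.2 + (w ^ (3 ^ p.lev) * p.X.1 + w ^ (2 * 3 ^ p.lev) * p.Y.1),
    Real.sqrt 3 * p.site.2 + (w ^ (3 ^ p.lev) * p.X.2 + w ^ (2 * 3 ^ p.lev) * p.Y.2))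

/-- difference of first order parts, finer points count as `0` -/
noncomputable def effD (p q : Pt) : ℝ × ℝ :=
  ((if q.lev ≤ p.lev then q.X.1 else 0) - (if p.lev ≤ q.lev then p.X.1 else 0),
    (if q.lev ≤ p.lev then q.X.2 else 0) - (if p.lev ≤ q.lev then p.X.2 else 0))

/-- difference of second order parts, finer points count as `0` -/
noncomputable def effE (p q : Pt) : ℝ × ℝ :=
  ((if q.lev ≤ p.lev then q.Y.1 else 0) - (if p.lev ≤ q.lev then p.Y.1 else 0),
    (if q.lev ≤ p.lev then q.Y.2 else 0) - (if p.lev ≤ q.lev then p.Y.2 else 0))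

/-- the difference of the sites -/
def sdiff (p q : Pt) : ℤ × ℤ := (q.site.1 - p.site.1, q.site.2 - p.site.2)

/-- neighbouring sites -/
def Nbr (p q : Pt) : Prop :=
  (sdiff p q).1 ^ 2 + (sdiff p q).1 * (sdiff p q).2 + (sdiff p q).2 ^ 2 = 1

/-- the second order quantity -/
noncomputable def sec (p q : Pt) : ℝ :=
  (effD p q).1 ^ 2 + (effD p q).2 ^ 2 + 2 * dirDot (sdiff p q) (effE p q)

/-- equal data (up to the site) -/
def SameX (p q : Pt) : Prop := p.lev = q.lev ∧ p.X = q.X ∧ p.Y = q.Y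

/-- the adjacency at small scale -/
def TouchG (p q : Pt) : Prop :=
  p.site = q.site ∨ (Nbr p q ∧ (dirDot (sdiff p q) (effD p q) < 0 ∨
    (dirDot (sdiff p q) (effD p q) = 0 ∧ sec p q < 0) ∨ SameX p q))

/-- no second order tie -/
def NoTie (p q : Pt) : Prop :=
  Nbr p q → dirDot (sdiff p q) (effD p q) = 0 → sec p q = 0 → SameX p q

theorem dirDot_add (d : ℤ × ℤ) (u v : ℝ × ℝ) :
    dirDot d (u.1 + v.1, u.2 + v.2) = dirDot d u + dirDot d v := by
  unfold dirDot; ring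

theorem dirDot_smul (d : ℤ × ℤ) (c : ℝ) (u : ℝ × ℝ) :
    dirDot d (c * u.1, c * u.2) = c * dirDot d u := by
  unfold dirDot; ring

/-- the analytic core: the sign of `2⟨e,δ⟩ + |δ|²` for `δ = w^a (D + w^a E(w))`, `E(w) → E0` -/
theorem sign_core (d : ℤ × ℤ) (a : ℕ) (ha : 1 ≤ a) (D E0 : ℝ × ℝ) (E : ℝ → ℝ × ℝ)
    (hE : Tendsto E (𝓝[>] 0) (𝓝 E0)) :
    (dirDot d D < 0 → ∀ᶠ w in 𝓝[>] (0 : ℝ),
      2 * dirDot d (w ^ a * (D.1 + w ^ a * (E w).1), w ^ a * (D.2 + w ^ a * (E w).2)) +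
        ((w ^ a * (D.1 + w ^ a * (E w).1)) ^ 2 + (w ^ a * (D.2 + w ^ a * (E w).2)) ^ 2) < 0) ∧
    (0 < dirDot d D → ∀ᶠ w in 𝓝[>] (0 : ℝ),
      0 < 2 * dirDot d (w ^ a * (D.1 + w ^ a * (E w).1), w ^ a * (D.2 + w ^ a * (E w).2)) +
        ((w ^ a * (D.1 + w ^ a * (E w).1)) ^ 2 + (w ^ a * (D.2 + w ^ a * (E w).2)) ^ 2)) ∧
    (dirDot d D = 0 → D.1 ^ 2 + D.2 ^ 2 + 2 * dirDot d E0 < 0 → ∀ᶠ w in 𝓝[>] (0 : ℝ),
      2 * dirDot d (w ^ a * (D.1 + w ^ a * (E w).1), w ^ a * (D.2 + w ^ a * (E w).2)) +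
        ((w ^ a * (D.1 + w ^ a * (E w).1)) ^ 2 + (w ^ a * (D.2 + w ^ a * (E w).2)) ^ 2) < 0) ∧
    (dirDot d D = 0 → 0 < D.1 ^ 2 + D.2 ^ 2 + 2 * dirDot d E0 → ∀ᶠ w in 𝓝[>] (0 : ℝ),
      0 < 2 * dirDot d (w ^ a * (D.1 + w ^ a * (E w).1), w ^ a * (D.2 + w ^ a * (E w).2)) +
        ((w ^ a * (D.1 + w ^ a * (E w).1)) ^ 2 + (w ^ a * (D.2 + w ^ a * (E w).2)) ^ 2)) := by
  have hw : Tendsto (fun w : ℝ => w) (𝓝[>] 0) (𝓝 0) := tendsto_nhdsWithin_of_tendsto_nhds tendsto_id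
  have hwa : Tendsto (fun w : ℝ => w ^ a) (𝓝[>] 0) (𝓝 0) := by
    have := hw.pow a
    rwa [zero_pow (by omega)] at this
  have hE1 : Tendsto (fun w => (E w).1) (𝓝[>] 0) (𝓝 E0.1) := (continuous_fst.tendsto E0).comp hE
  have hE2 : Tendsto (fun w => (E w).2) (𝓝[>] 0) (𝓝 E0.2) := (continuous_snd.tendsto E0).comp hE
  have hdE : Tendsto (fun w => dirDot d (E w)) (𝓝[>] 0) (𝓝 (dirDot d E0)) := by
    unfold dirDot
    exact (hE1.const_mul _).add (hE2.const_mul _)
  have hin1 : Tendsto (fun w : ℝ => D.1 + w ^ a * (E w).1) (𝓝[>] 0) (𝓝 D.1) := by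
    have := (tendsto_const_nhds (x := D.1)).add (hwa.mul hE1)
    simpa using this
  have hin2 : Tendsto (fun w : ℝ => D.2 + w ^ a * (E w).2) (𝓝[>] 0) (𝓝 D.2) := by
    have := (tendsto_const_nhds (x := D.2)).add (hwa.mul hE2)
    simpa using this
  -- second factor
  have h2 : Tendsto (fun w : ℝ => (D.1 + w ^ a * (E w).1) ^ 2 + (D.2 + w ^ a * (E w).2) ^ 2 +
      2 * dirDot d (E w)) (𝓝[>] 0) (𝓝 (D.1 ^ 2 + D.2 ^ 2 + 2 * dirDot d E0)) :=
    ((hin1.pow 2).add (hin2.pow 2)).add (hdE.const_mul 2)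
  have h1 : Tendsto (fun w : ℝ => 2 * dirDot d D + w ^ a * ((D.1 + w ^ a * (E w).1) ^ 2 +
      (D.2 + w ^ a * (E w).2) ^ 2 + 2 * dirDot d (E w))) (𝓝[>] 0) (𝓝 (2 * dirDot d D)) := by
    have := (tendsto_const_nhds (x := 2 * dirDot d D)).add (hwa.mul h2)
    simpa using this
  have key : ∀ w : ℝ,
      2 * dirDot d (w ^ a * (D.1 + w ^ a * (E w).1), w ^ a * (D.2 + w ^ a * (E w).2)) +
        ((w ^ a * (D.1 + w ^ a * (E w).1)) ^ 2 + (w ^ a * (D.2 + w ^ a * (E w).2)) ^ 2) =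
      w ^ a * (2 * dirDot d D + w ^ a * ((D.1 + w ^ a * (E w).1) ^ 2 +
      (D.2 + w ^ a * (E w).2) ^ 2 + 2 * dirDot d (E w))) := by
    intro w
    unfold dirDot
    ring
  have hpos : ∀ᶠ w in 𝓝[>] (0 : ℝ), 0 < w := eventually_mem_nhdsWithin
  refine ⟨fun h => ?_, fun h => ?_, fun h h' => ?_, fun h h' => ?_⟩
  · have := h1.eventually_lt_const (show 2 * dirDot d D < 0 by linarith)
    filter_upwards [this, hpos] with w h3 h4
    rw [key]
    exact mul_neg_of_pos_of_neg (pow_pos h4 a) h3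
  · have := h1.eventually_const_lt (show 0 < 2 * dirDot d D by linarith)
    filter_upwards [this, hpos] with w h3 h4
    rw [key]
    exact mul_pos (pow_pos h4 a) h3
  · filter_upwards [h2.eventually_lt_const h', hpos] with w h3 h4
    rw [key, h, mul_zero, zero_add]
    exact mul_neg_of_pos_of_neg (pow_pos h4 a) (mul_neg_of_pos_of_neg (pow_pos h4 a) h3)
  · filter_upwards [h2.eventually_const_lt h', hpos] with w h3 h4
    rw [key, h, mul_zero, zero_add]
    exact mul_pos (pow_pos h4 a) (mul_pos (pow_pos h4 a) h3)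

/-- squared distance of two placed points -/
theorem pos_dist (w : ℝ) (p q : Pt) (δ : ℝ × ℝ)
    (h1 : (w ^ (3 ^ q.lev) * q.X.1 + w ^ (2 * 3 ^ q.lev) * q.Y.1) -
      (w ^ (3 ^ p.lev) * p.X.1 + w ^ (2 * 3 ^ p.lev) * p.Y.1) = δ.1)
    (h2 : (w ^ (3 ^ q.lev) * q.X.2 + w ^ (2 * 3 ^ q.lev) * q.Y.2) -
      (w ^ (3 ^ p.lev) * p.X.2 + w ^ (2 * 3 ^ p.lev) * p.Y.2) = δ.2) :
    ((p.pos w).1 - (q.pos w).1) ^ 2 + ((p.pos w).2 - (q.pos w).2) ^ 2 =
      4 * (((sdiff p q).1 ^ 2 + (sdiff p q).1 * (sdiff p q).2 + (sdiff p q).2 ^ 2 : ℤ) : ℝ)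
      + 2 * dirDot (sdiff p q) δ + (δ.1 ^ 2 + δ.2 ^ 2) := by
  have h3 : Real.sqrt 3 ^ 2 = 3 := Real.sq_sqrt (by norm_num)
  unfold Pt.pos dirDot sdiff
  rw [← h1, ← h2]
  push_cast
  linear_combination ((p.site.2 : ℝ) - q.site.2) ^ 2 * h3

/-- the displacement difference has the form of `sign_core` -/
theorem delta_form (p q : Pt) : ∃ (a : ℕ) (E : ℝ → ℝ × ℝ), 1 ≤ a ∧
    Tendsto E (𝓝[>] 0) (𝓝 (effE p q)) ∧ ∀ w : ℝ,
    (w ^ (3 ^ q.lev) * q.X.1 + w ^ (2 * 3 ^ q.lev) * q.Y.1) -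
      (w ^ (3 ^ p.lev) * p.X.1 + w ^ (2 * 3 ^ p.lev) * p.Y.1) =
        w ^ a * ((effD p q).1 + w ^ a * (E w).1) ∧
    (w ^ (3 ^ q.lev) * q.X.2 + w ^ (2 * 3 ^ q.lev) * q.Y.2) -
      (w ^ (3 ^ p.lev) * p.X.2 + w ^ (2 * 3 ^ p.lev) * p.Y.2) =
        w ^ a * ((effD p q).2 + w ^ a * (E w).2) := by
  have hw : Tendsto (fun w : ℝ => w) (𝓝[>] 0) (𝓝 0) := tendsto_nhdsWithin_of_tendsto_nhds tendsto_id
  have hzero : ∀ n : ℕ, 1 ≤ n → Tendsto (fun w : ℝ => w ^ n) (𝓝[>] 0) (𝓝 0) := by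
    intro n hn
    have := hw.pow n
    rwa [zero_pow (by omega)] at this
  rcases lt_trichotomy p.lev q.lev with h | h | h
  · -- `p` coarser
    obtain ⟨c, hc⟩ : ∃ c, 3 ^ q.lev = 2 * 3 ^ p.lev + (c + 1) := by
      have h1 : 3 ^ (p.lev + 1) ≤ 3 ^ q.lev := Nat.pow_le_pow_right (by norm_num) h
      have h2 : 1 ≤ 3 ^ p.lev := Nat.one_le_pow _ _ (by norm_num)
      rw [pow_succ] at h1
      exact ⟨3 ^ q.lev - 2 * 3 ^ p.lev - 1, by omega⟩
    refine ⟨3 ^ p.lev, fun w => (w ^ (c + 1) * q.X.1 + w ^ (c + 1 + 3 ^ q.lev) * q.Y.1 - p.Y.1,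
      w ^ (c + 1) * q.X.2 + w ^ (c + 1 + 3 ^ q.lev) * q.Y.2 - p.Y.2),
      Nat.one_le_pow _ _ (by norm_num), ?_, fun w => ?_⟩
    · have e : effE p q = (0 * q.X.1 + 0 * q.Y.1 - p.Y.1, 0 * q.X.2 + 0 * q.Y.2 - p.Y.2) := by
        unfold effE
        rw [if_neg (by omega), if_pos (by omega), if_neg (by omega), if_pos (by omega)]
        ext <;> simp
      rw [e]
      refine Tendsto.prodMk_nhds ?_ ?_
      · exact (((hzero _ (by omega)).mul_const _).add
          ((hzero _ (by omega)).mul_const _)).sub tendsto_const_nhds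
      · exact (((hzero _ (by omega)).mul_const _).add
          ((hzero _ (by omega)).mul_const _)).sub tendsto_const_nhds
    · have e : effD p q = (-p.X.1, -p.X.2) := by
        unfold effD
        rw [if_neg (by omega), if_pos (by omega), if_neg (by omega), if_pos (by omega)]
        ext <;> simp
      rw [e]
      constructor
      · have e1 : w ^ (3 ^ q.lev) = w ^ (3 ^ p.lev) * w ^ (3 ^ p.lev) * w ^ (c + 1) := by
          rw [hc]; ring
        have e2 : w ^ (2 * 3 ^ q.lev) =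
            w ^ (3 ^ p.lev) * w ^ (3 ^ p.lev) * w ^ (c + 1 + 3 ^ q.lev) := by
          rw [two_mul]
          nth_rewrite 1 [hc]
          ring
        rw [e1, e2]
        ring
      · have e1 : w ^ (3 ^ q.lev) = w ^ (3 ^ p.lev) * w ^ (3 ^ p.lev) * w ^ (c + 1) := by
          rw [hc]; ring
        have e2 : w ^ (2 * 3 ^ q.lev) =
            w ^ (3 ^ p.lev) * w ^ (3 ^ p.lev) * w ^ (c + 1 + 3 ^ q.lev) := by
          rw [two_mul]
          nth_rewrite 1 [hc]
          ring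
        rw [e1, e2]
        ring
  · -- equal levels
    refine ⟨3 ^ p.lev, fun _ => (q.Y.1 - p.Y.1, q.Y.2 - p.Y.2),
      Nat.one_le_pow _ _ (by norm_num), ?_, fun w => ?_⟩
    · have e : effE p q = (q.Y.1 - p.Y.1, q.Y.2 - p.Y.2) := by
        unfold effE
        rw [if_pos (by omega), if_pos (by omega), if_pos (by omega), if_pos (by omega)]
      rw [e]
      exact tendsto_const_nhds
    · have e : effD p q = (q.X.1 - p.X.1, q.X.2 - p.X.2) := by
        unfold effD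
        rw [if_pos (by omega), if_pos (by omega), if_pos (by omega), if_pos (by omega)]
      rw [e, h]
      constructor <;> ring
  · -- `q` coarser
    obtain ⟨c, hc⟩ : ∃ c, 3 ^ p.lev = 2 * 3 ^ q.lev + (c + 1) := by
      have h1 : 3 ^ (q.lev + 1) ≤ 3 ^ p.lev := Nat.pow_le_pow_right (by norm_num) h
      have h2 : 1 ≤ 3 ^ q.lev := Nat.one_le_pow _ _ (by norm_num)
      rw [pow_succ] at h1
      exact ⟨3 ^ p.lev - 2 * 3 ^ q.lev - 1, by omega⟩
    refine ⟨3 ^ q.lev, fun w => (q.Y.1 - (w ^ (c + 1) * p.X.1 + w ^ (c + 1 + 3 ^ p.lev) * p.Y.1),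
      q.Y.2 - (w ^ (c + 1) * p.X.2 + w ^ (c + 1 + 3 ^ p.lev) * p.Y.2)),
      Nat.one_le_pow _ _ (by norm_num), ?_, fun w => ?_⟩
    · have e : effE p q = (q.Y.1 - (0 * p.X.1 + 0 * p.Y.1), q.Y.2 - (0 * p.X.2 + 0 * p.Y.2)) := by
        unfold effE
        rw [if_pos (by omega), if_neg (by omega), if_pos (by omega), if_neg (by omega)]
        ext <;> simp
      rw [e]
      refine Tendsto.prodMk_nhds ?_ ?_
      · exact tendsto_const_nhds.sub (((hzero _ (by omega)).mul_const _).add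
          ((hzero _ (by omega)).mul_const _))
      · exact tendsto_const_nhds.sub (((hzero _ (by omega)).mul_const _).add
          ((hzero _ (by omega)).mul_const _))
    · have e : effD p q = (q.X.1, q.X.2) := by
        unfold effD
        rw [if_pos (by omega), if_neg (by omega), if_pos (by omega), if_neg (by omega)]
        ext <;> simp
      rw [e]
      constructor
      · have e1 : w ^ (3 ^ p.lev) = w ^ (3 ^ q.lev) * w ^ (3 ^ q.lev) * w ^ (c + 1) := by
          rw [hc]; ring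
        have e2 : w ^ (2 * 3 ^ p.lev) =
            w ^ (3 ^ q.lev) * w ^ (3 ^ q.lev) * w ^ (c + 1 + 3 ^ p.lev) := by
          rw [two_mul]
          nth_rewrite 1 [hc]
          ring
        rw [e1, e2]
        ring
      · have e1 : w ^ (3 ^ p.lev) = w ^ (3 ^ q.lev) * w ^ (3 ^ q.lev) * w ^ (c + 1) := by
          rw [hc]; ring
        have e2 : w ^ (2 * 3 ^ p.lev) =
            w ^ (3 ^ q.lev) * w ^ (3 ^ q.lev) * w ^ (c + 1 + 3 ^ p.lev) := by
          rw [two_mul]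
          nth_rewrite 1 [hc]
          ring
        rw [e1, e2]
        ring

theorem touchG_pair (p q : Pt) (ht : NoTie p q) :
    ∀ᶠ w in 𝓝[>] (0 : ℝ), (Near (p.pos w) (q.pos w) ↔ TouchG p q) := by
  obtain ⟨a, E, ha, hE, hδ⟩ := delta_form p q
  have hw : Tendsto (fun w : ℝ => w) (𝓝[>] 0) (𝓝 0) := tendsto_nhdsWithin_of_tendsto_nhds tendsto_id
  have hwa : Tendsto (fun w : ℝ => w ^ a) (𝓝[>] 0) (𝓝 0) := by
    have := hw.pow a
    rwa [zero_pow (by omega)] at this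
  set d := sdiff p q with hd
  set D := effD p q with hD
  -- the displacement difference
  let δ : ℝ → ℝ × ℝ := fun w => (w ^ a * (D.1 + w ^ a * (E w).1), w ^ a * (D.2 + w ^ a * (E w).2))
  have hdist : ∀ w, ((p.pos w).1 - (q.pos w).1) ^ 2 + ((p.pos w).2 - (q.pos w).2) ^ 2 =
      4 * ((d.1 ^ 2 + d.1 * d.2 + d.2 ^ 2 : ℤ) : ℝ)
      + 2 * dirDot d (δ w) + ((δ w).1 ^ 2 + (δ w).2 ^ 2) := by
    intro w
    exact pos_dist w p q (δ w) (hδ w).1 (hδ w).2
  have hE1 : Tendsto (fun w => (E w).1) (𝓝[>] 0) (𝓝 (effE p q).1) :=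
    (continuous_fst.tendsto _).comp hE
  have hE2 : Tendsto (fun w => (E w).2) (𝓝[>] 0) (𝓝 (effE p q).2) :=
    (continuous_snd.tendsto _).comp hE
  have hδ1 : Tendsto (fun w => (δ w).1) (𝓝[>] 0) (𝓝 0) := by
    have := hwa.mul ((tendsto_const_nhds (x := D.1)).add (hwa.mul hE1))
    simpa [δ] using this
  have hδ2 : Tendsto (fun w => (δ w).2) (𝓝[>] 0) (𝓝 0) := by
    have := hwa.mul ((tendsto_const_nhds (x := D.2)).add (hwa.mul hE2))
    simpa [δ] using this
  have hg : Tendsto (fun w => 2 * dirDot d (δ w) + ((δ w).1 ^ 2 + (δ w).2 ^ 2)) (𝓝[>] 0) (𝓝 0) := by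
    have h1 : Tendsto (fun w => dirDot d (δ w)) (𝓝[>] 0) (𝓝 0) := by
      unfold dirDot
      have := (hδ1.const_mul (2 * (d.1 : ℝ) + d.2)).add (hδ2.const_mul (Real.sqrt 3 * d.2))
      simpa using this
    have := (h1.const_mul 2).add ((hδ1.pow 2).add (hδ2.pow 2))
    simpa using this
  by_cases h0 : d.1 = 0 ∧ d.2 = 0
  · have hs : p.site = q.site := by
      obtain ⟨h1, h2⟩ := h0
      simp only [hd, sdiff] at h1 h2
      ext <;> omega
    filter_upwards [hg.eventually_lt_const (show (0 : ℝ) < 4 by norm_num)] with w h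
    refine ⟨fun _ => Or.inl hs, fun _ => ?_⟩
    unfold Near
    rw [hdist w, h0.1, h0.2]
    push_cast
    have : dirDot d (δ w) = 0 := by simp [dirDot, h0.1, h0.2]
    linarith
  have hns : p.site ≠ q.site := by
    intro h
    apply h0
    simp [hd, sdiff, h]
  by_cases hn : d.1 ^ 2 + d.1 * d.2 + d.2 ^ 2 = 1
  · have hN : Nbr p q := hn
    obtain ⟨c1, c2, c3, c4⟩ := sign_core d a ha D (effE p q) E hE
    have hnear : ∀ w, Near (p.pos w) (q.pos w) ↔
        2 * dirDot d (δ w) + ((δ w).1 ^ 2 + (δ w).2 ^ 2) ≤ 0 := by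
      intro w
      unfold Near
      rw [hdist w, hn]
      push_cast
      constructor <;> intro h <;> linarith
    have hT : TouchG p q ↔ (dirDot d D < 0 ∨ (dirDot d D = 0 ∧ sec p q < 0) ∨ SameX p q) := by
      unfold TouchG
      constructor
      · rintro (h | ⟨-, h⟩)
        · exact absurd h hns
        · exact h
      · exact fun h => Or.inr ⟨hN, h⟩
    have hsame : SameX p q → ∀ w, (δ w).1 = 0 ∧ (δ w).2 = 0 := by
      rintro ⟨e1, e2, e3⟩ w
      have := hδ w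
      rw [e1, e2, e3] at this
      simp only [sub_self] at this
      exact ⟨this.1.symm, this.2.symm⟩
    rcases lt_trichotomy (dirDot d D) 0 with h | h | h
    · filter_upwards [c1 h] with w hw'
      rw [hnear, hT]
      exact ⟨fun _ => Or.inl h, fun _ => hw'.le⟩
    · rcases lt_trichotomy (sec p q) 0 with h2 | h2 | h2
      · filter_upwards [c3 h h2] with w hw'
        rw [hnear, hT]
        exact ⟨fun _ => Or.inr (Or.inl ⟨h, h2⟩), fun _ => hw'.le⟩
      · have hS := ht hN h h2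
        refine Eventually.of_forall fun w => ?_
        rw [hnear, hT]
        obtain ⟨z1, z2⟩ := hsame hS w
        refine ⟨fun _ => Or.inr (Or.inr hS), fun _ => ?_⟩
        simp only [dirDot, z1, z2]
        norm_num
      · filter_upwards [c4 h h2] with w hw'
        rw [hnear, hT]
        refine ⟨fun hh => absurd hw' (not_lt.mpr hh), ?_⟩
        rintro (hh | ⟨-, hh⟩ | hh)
        · linarith
        · linarith
        · obtain ⟨z1, z2⟩ := hsame hh w
          simp only [dirDot, z1, z2]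
          norm_num
    · filter_upwards [c2 h] with w hw'
      rw [hnear, hT]
      refine ⟨fun hh => absurd hw' (not_lt.mpr hh), ?_⟩
      rintro (hh | ⟨hh, -⟩ | hh)
      · linarith
      · linarith
      · obtain ⟨z1, z2⟩ := hsame hh w
        simp only [dirDot, z1, z2]
        norm_num
  · have h3 : 3 ≤ d.1 ^ 2 + d.1 * d.2 + d.2 ^ 2 := norm_ge_three h0 hn
    have h5 : (3 : ℝ) ≤ ((d.1 ^ 2 + d.1 * d.2 + d.2 ^ 2 : ℤ) : ℝ) := by exact_mod_cast h3
    filter_upwards [hg.eventually_const_lt (show (-8 : ℝ) < 0 by norm_num)] with w h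
    refine ⟨fun hh => ?_, ?_⟩
    · exfalso
      unfold Near at hh
      rw [hdist w] at hh
      linarith
    · rintro (hh | ⟨hh, -⟩)
      · exact absurd hh hns
      · exact absurd hh hn

/-- **General completeness, with levels and second order parts.** -/
theorem touchG_all {ι : Type*} [Finite ι] (P : ι → Pt)
    (ht : ∀ p q, p ≠ q → NoTie (P p) (P q)) :
    ∃ pos : ι → ℝ × ℝ, ∀ p q, p ≠ q → (Near (pos p) (pos q) ↔ TouchG (P p) (P q)) := by
  have h : ∀ᶠ w in 𝓝[>] (0 : ℝ), ∀ pq : ι × ι, pq.1 ≠ pq.2 →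
      (Near ((P pq.1).pos w) ((P pq.2).pos w) ↔ TouchG (P pq.1) (P pq.2)) := by
    rw [eventually_all]
    intro pq
    by_cases hne : pq.1 = pq.2
    · exact Eventually.of_forall fun w h => absurd hne h
    · filter_upwards [touchG_pair _ _ (ht _ _ hne)] with w hw _
      exact hw
  obtain ⟨w, hw⟩ := h.exists
  exact ⟨fun p => (P p).pos w, fun p q hpq => hw (p, q) hpq⟩

end Pool.Agent.MP1cb9f1
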