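import Pool.Agent.Lib.MP_1cb9f1_lc.GeoVals

/-!
# Completeness of the geometric construction, the main theorem (MP_1cb9f1_lc)
-/

set_option autoImplicit false

namespace Pool.Agent.MP1cb9f1

open Pool.Agent.Lib.MP_1cb9f1_lc

/-! ## The data of the sites -/

/-- the value of the lattice row `j` -/
noncomputable def Rf (T : ℕ) (v : ℕ → ℝ) (j : ℕ) : ℝ :=
  if j % 2 = 0 ∧ 2 ≤ j ∧ j < 2 * T + 2 then v ((j - 2) / 2) else 1 / 7

/-- the lower value of the column `i` -/
noncomputable def Caf (T : ℕ) (ops : List Op) (v : ℕ → ℝ) (i : ℕ) : ℝ :=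
  if i / blk T < ops.length ∧ i % blk T = 2 then
    if (opAt T ops i).1 = 0 then v (opAt T ops i).2.1 / 2
    else if (opAt T ops i).1 = 1 ∨ (opAt T ops i).1 = 2 then v (opAt T ops i).2.2.1 / 2
    else v (opAt T ops i).2.2.2
  else 1 / 8

/-- the upper value of the column `i` -/
noncomputable def Cbf (T : ℕ) (ops : List Op) (v : ℕ → ℝ) (i : ℕ) : ℝ :=
  if i / blk T < ops.length ∧ i % blk T = 2 then
    if (opAt T ops i).1 = 0 then v (opAt T ops i).2.1
    else if (opAt T ops i).1 = 1 ∨ (opAt T ops i).1 = 2 then v (opAt T ops i).2.2.1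
    else v (opAt T ops i).2.1
  else 1 / 4

/-- the value of the antidiagonal `d` -/
noncomputable def Df (T : ℕ) (ops : List Op) (v : ℕ → ℝ) (d : ℕ) : ℝ :=
  if d / blk T < ops.length then
    if (opAt T ops d).1 = 1 then
      if d % blk T = 2 + rho (opAt T ops d).2.2.2 then v (opAt T ops d).2.1 else 1 / 9
    else if (opAt T ops d).1 = 2 then
      if d % blk T = 2 + rho T then v (opAt T ops d).2.1 else 1 / 9
    else if d % blk T = 4 + rho T ∧ (opAt T ops d).1 ≠ 0 then v (opAt T ops d).2.2.1 else 1 / 9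
  else 1 / 9

/-- the data of a site, `K` being the shift -/
noncomputable def sdAt (T : ℕ) (ops : List Op) (v : ℕ → ℝ) (K : ℕ) (s : ℕ × ℕ) : Sd where
  R := Rf T v (s.2 - K)
  Ca := Caf T ops v s.1
  Cb := Cbf T ops v s.1
  D := Df T ops v (s.1 + s.2 - K)
  gx := v (opAt T ops s.1).2.1
  gy := v (opAt T ops s.1).2.2.1
  gt := v (opAt T ops s.1).2.2.2
  code := (opAt T ops s.1).1

theorem opAt_mem {T : ℕ} {ops : List Op} {i : ℕ} (h : i / blk T < ops.length) :
    opAt T ops i ∈ ops := by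
  unfold opAt
  rw [List.getD_eq_getElem _ _ h]
  exact List.getElem_mem h

section

variable {T : ℕ} {ops : List Op} {v : ℕ → ℝ} (hwf : ∀ o ∈ ops, OpWF T o)
  (hv : ∀ a < T, 0 < v a ∧ v a < 3 / 5) (hops : ∀ o ∈ ops, OpHolds v o)

include hv in
theorem Rf_ok (j : ℕ) : 0 < Rf T v j ∧ Rf T v j < 3 / 5 := by
  unfold Rf
  split_ifs with h
  · exact hv _ (by omega)
  · norm_num

include hwf hv in
theorem Df_ok (d : ℕ) : 0 < Df T ops v d ∧ Df T ops v d < 3 / 5 := by
  unfold Df
  split_ifs with h h1 h2 h3 h4 h5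
  · exact hv _ (hwf _ (opAt_mem h)).2.1
  · norm_num
  · exact hv _ (hwf _ (opAt_mem h)).2.1
  · norm_num
  · exact hv _ (hwf _ (opAt_mem h)).2.2.1
  · norm_num
  · norm_num

include hwf hv hops in
theorem Cf_ok (i : ℕ) : 0 < Caf T ops v i ∧ Caf T ops v i < Cbf T ops v i ∧
    Cbf T ops v i < 3 / 5 := by
  unfold Caf Cbf
  by_cases h : i / blk T < ops.length ∧ i % blk T = 2
  · rw [if_pos h, if_pos h]
    have hw := hwf _ (opAt_mem h.1)
    have ho := hops _ (opAt_mem h.1)
    have ha := hv _ hw.2.1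
    have hb := hv _ hw.2.2.1
    have hc := hv _ hw.2.2.2.1
    split_ifs with h1 h2
    · refine ⟨?_, ?_, ?_⟩ <;> linarith
    · refine ⟨?_, ?_, ?_⟩ <;> linarith
    · refine ⟨hc.1, ?_, ha.2⟩
      have h34 : (opAt T ops i).1 = 3 ∨ (opAt T ops i).1 = 4 := by
        have := hw.1
        omega
      rcases h34 with h3 | h4
      · exact (ho.2.2.2.1 h3).2
      · have := ho.2.2.2.2 h4
        nlinarith
  · rw [if_neg h, if_neg h]
    norm_num

include hwf hv hops in
theorem sdAt_ok (K : ℕ) (s : ℕ × ℕ) : (sdAt T ops v K s).OK := by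
  have h1 := Rf_ok hv (s.2 - K)
  have h2 := Cf_ok hwf hv hops s.1
  have h3 := Df_ok hwf hv (s.1 + s.2 - K)
  exact ⟨h1.1, h1.2, h2.1, h2.2.1, h2.2.2, h3.1, h3.2⟩

end

theorem blk_even (T : ℕ) : blk T % 2 = 0 := by unfold blk; omega

theorem mod_parity {i m r : ℕ} (h : i % m = r) (hm : m % 2 = 0) : i % 2 = r % 2 := by
  rw [← h]
  exact (Nat.mod_mod_of_dvd i (Nat.dvd_of_mod_eq_zero hm)).symm

theorem step_mod {i m r : ℕ} (h : i % m = r) {s : ℕ} (hr : r + s < m) :
    (i + s) % m = r + s ∧ (i + s) / m = i / m := by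
  have h1 : i + s = (r + s) + m * (i / m) := by
    have := Nat.mod_add_div i m
    omega
  rw [h1]
  constructor
  · rw [Nat.add_mul_mod_self_left, Nat.mod_eq_of_lt hr]
  · rw [Nat.add_mul_div_left _ _ (by omega), Nat.div_eq_of_lt hr, zero_add]

/-- what is known about a vertex -/
structure Good (T : ℕ) (ops : List Op) (v : ℕ → ℝ) (N M : ℕ) (x : VC) : Prop where
  lam_le : x.2.1 ≤ N + M
  lt44 : x.2.2 < 44
  corner : x.2.1 ≠ 0 → x.2.2 ∈ corners
  p1 : cls x.2.2 = 1 → x.1.2 % 2 = 0
  p2 : cls x.2.2 = 2 → x.1.1 % 2 = 0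
  p3 : cls x.2.2 = 3 → (x.1.1 + x.1.2) % 2 = 0
  p4 : cls x.2.2 = 4 → x.1.1 % 2 = 0 ∧ x.1.2 % 2 = 0
  p5 : cls x.2.2 = 5 → x.1.1 % blk T = 2 ∧ x.1.2 = shiftK N M + (rho T + 1)
  p6 : cls x.2.2 = 6 → x.1.1 % blk T = 3 ∧ x.1.2 = shiftK N M + (rho T + 1)
  rel : Rel (sdAt T ops v (shiftK N M) x.1) x.2.2
  g5 : cls x.2.2 = 5 → (sdAt T ops v (shiftK N M) x.1).Cb = (sdAt T ops v (shiftK N M) x.1).gx ∧
    (sdAt T ops v (shiftK N M) x.1).Ca = (sdAt T ops v (shiftK N M) x.1).gt
  g6 : cls x.2.2 = 6 → (sdAt T ops v (shiftK N M) x.1).D = (sdAt T ops v (shiftK N M) x.1).gy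
  gc : 5 ≤ cls x.2.2 →
    0 < (sdAt T ops v (shiftK N M) x.1).gx ∧ (sdAt T ops v (shiftK N M) x.1).gx < 3 / 5 ∧
    0 < (sdAt T ops v (shiftK N M) x.1).gy ∧ (sdAt T ops v (shiftK N M) x.1).gy < 3 / 5 ∧
    0 < (sdAt T ops v (shiftK N M) x.1).gt ∧
    (x.2.2 ≤ 37 → (sdAt T ops v (shiftK N M) x.1).code = 3) ∧
    (38 ≤ x.2.2 → (sdAt T ops v (shiftK N M) x.1).code = 4) ∧
    ((sdAt T ops v (shiftK N M) x.1).code = 3 →
      (sdAt T ops v (shiftK N M) x.1).gx * (sdAt T ops v (shiftK N M) x.1).gy <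
        (sdAt T ops v (shiftK N M) x.1).gt ∧
      (sdAt T ops v (shiftK N M) x.1).gt < (sdAt T ops v (shiftK N M) x.1).gx) ∧
    ((sdAt T ops v (shiftK N M) x.1).code = 4 →
      (sdAt T ops v (shiftK N M) x.1).gt <
        (sdAt T ops v (shiftK N M) x.1).gx * (sdAt T ops v (shiftK N M) x.1).gy)

/-! ## The vertices are good -/

theorem corner_facts : ∀ c ∈ corners, cls c = 0 ∧ c < 19 := by decide +kernel

theorem small_facts : ∀ l < 27, cls l < 4 := by decide +kernel

theorem frame_facts : ∀ l < 19, cls l = 0 := by decide +kernel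

theorem good_small {T : ℕ} {ops : List Op} {v : ℕ → ℝ} {N M : ℕ} {x : VC} (h1 : x.2.1 ≤ N + M)
    (h2 : x.2.2 < 27) (h3 : x.2.1 ≠ 0 → x.2.2 ∈ corners) (p1 : cls x.2.2 = 1 → x.1.2 % 2 = 0)
    (p2 : cls x.2.2 = 2 → x.1.1 % 2 = 0) (p3 : cls x.2.2 = 3 → (x.1.1 + x.1.2) % 2 = 0) :
    Good T ops v N M x := by
  have hc := small_facts _ h2
  exact
    { lam_le := h1
      lt44 := by omega
      corner := h3
      p1 := p1
      p2 := p2
      p3 := p3
      p4 := fun h => absurd h (by omega)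
      p5 := fun h => absurd h (by omega)
      p6 := fun h => absurd h (by omega)
      rel := ⟨fun h => absurd h (by omega), fun h => absurd h (by omega),
        fun h => absurd h (by omega), fun h => absurd h (by omega), fun h => absurd h (by omega)⟩
      g5 := fun h => absurd h (by omega)
      g6 := fun h => absurd h (by omega)
      gc := fun h => absurd h (by omega) }

theorem good_corner {T : ℕ} {ops : List Op} {v : ℕ → ℝ} {N M : ℕ} {x : VC} (h1 : x.2.1 ≤ N + M)
    (h2 : x.2.2 ∈ corners) : Good T ops v N M x := by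
  have hc := corner_facts _ h2
  exact good_small h1 (by omega) (fun _ => h2) (fun h => absurd h (by omega))
    (fun h => absurd h (by omega)) (fun h => absurd h (by omega))

theorem Rf_rho {T : ℕ} {v : ℕ → ℝ} {a : ℕ} (ha : a < T) : Rf T v (rho a) = v a := by
  unfold Rf rho
  rw [if_pos (by omega)]
  congr 1
  omega

theorem opAt_add {T : ℕ} {ops : List Op} {i j : ℕ} (h : i % blk T + j < blk T) :
    opAt T ops (i + j) = opAt T ops i ∧ (i + j) / blk T = i / blk T ∧
      (i + j) % blk T = i % blk T + j := by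
  have h1 := step_mod (i := i) (m := blk T) (r := i % blk T) rfl h
  refine ⟨?_, h1.2, h1.1⟩
  unfold opAt
  rw [h1.2]

/-- junction labels -/
theorem good_junction {T : ℕ} {ops : List Op} {v : ℕ → ℝ} {N M : ℕ} {i j l : ℕ}
    (hl : 27 ≤ l) (hl' : l ≤ 31) (hi : i % 2 = 0) (hj : j % 2 = 0)
    (hr : Rel (sdAt T ops v (shiftK N M) (i, shiftK N M + j)) l) :
    Good T ops v N M ((i, shiftK N M + j), (0, l)) := by
  have hK : shiftK N M % 2 = 0 := by unfold shiftK; omega
  have hc : cls l = 4 := by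
    revert hl hl'
    clear hr
    revert l
    decide +kernel
  exact
    { lam_le := Nat.zero_le _
      lt44 := by simp only; omega
      corner := fun h => absurd rfl h
      p1 := fun h => absurd h (by simp only [hc]; omega)
      p2 := fun h => absurd h (by simp only [hc]; omega)
      p3 := fun h => absurd h (by simp only [hc]; omega)
      p4 := fun _ => ⟨hi, by simp only; omega⟩
      p5 := fun h => absurd h (by simp only [hc]; omega)
      p6 := fun h => absurd h (by simp only [hc]; omega)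
      rel := hr
      g5 := fun h => absurd h (by simp only [hc]; omega)
      g6 := fun h => absurd h (by simp only [hc]; omega)
      gc := fun h => absurd h (by simp only [hc]; omega) }

section

variable {T : ℕ} {ops : List Op} {v : ℕ → ℝ} (hwf : ∀ o ∈ ops, OpWF T o)
  (hv : ∀ a < T, 0 < v a ∧ v a < 3 / 5) (hops : ∀ o ∈ ops, OpHolds v o)

theorem sdAt_R (K i j : ℕ) : (sdAt T ops v K (i, K + j)).R = Rf T v j := by
  simp [sdAt]

theorem sdAt_D (K i j : ℕ) : (sdAt T ops v K (i, K + j)).D = Df T ops v (i + j) := by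
  simp only [sdAt]
  congr 1
  omega

theorem Cbf_at {i : ℕ} (hi : i / blk T < ops.length) (hm : i % blk T = 2) :
    ((opAt T ops i).1 = 0 → Cbf T ops v i = v (opAt T ops i).2.1) ∧
    ((opAt T ops i).1 = 1 → Cbf T ops v i = v (opAt T ops i).2.2.1) ∧
    ((opAt T ops i).1 = 2 → Cbf T ops v i = v (opAt T ops i).2.2.1) ∧
    (3 ≤ (opAt T ops i).1 → Cbf T ops v i = v (opAt T ops i).2.1 ∧
      Caf T ops v i = v (opAt T ops i).2.2.2) := by
  have h0 : i / blk T < ops.length ∧ i % blk T = 2 := ⟨hi, hm⟩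
  unfold Cbf Caf
  rw [if_pos h0, if_pos h0]
  refine ⟨fun h => ?_, fun h => ?_, fun h => ?_, fun h => ?_⟩
  · rw [if_pos h]
  · rw [if_neg (by omega), if_pos (by omega)]
  · rw [if_neg (by omega), if_pos (by omega)]
  · rw [if_neg (by omega), if_neg (by omega), if_neg (by omega), if_neg (by omega)]
    exact ⟨rfl, rfl⟩

theorem Df_at {i j : ℕ} (hi : i / blk T < ops.length) (hm : i % blk T + j < blk T) :
    ((opAt T ops i).1 = 1 → i % blk T + j = 2 + rho (opAt T ops i).2.2.2 →
      Df T ops v (i + j) = v (opAt T ops i).2.1) ∧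
    ((opAt T ops i).1 = 2 → i % blk T + j = 2 + rho T →
      Df T ops v (i + j) = v (opAt T ops i).2.1) ∧
    (3 ≤ (opAt T ops i).1 → i % blk T + j = 4 + rho T →
      Df T ops v (i + j) = v (opAt T ops i).2.2.1) := by
  obtain ⟨h1, h2, h3⟩ := opAt_add (ops := ops) hm
  unfold Df
  rw [h1, h2, h3, if_pos hi]
  refine ⟨fun h h' => ?_, fun h h' => ?_, fun h h' => ?_⟩
  · rw [if_pos h, if_pos h']
  · rw [if_neg (by omega), if_pos h, if_pos h']
  · rw [if_neg (by omega), if_neg (by omega), if_pos ⟨h', by omega⟩]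

/-- gadget labels -/
theorem good_gadget {N M i j l : ℕ} (hw0 : (opAt T ops i).1 < 5)
    (ha : 0 < v (opAt T ops i).2.1 ∧ v (opAt T ops i).2.1 < 3 / 5)
    (hb : 0 < v (opAt T ops i).2.2.1 ∧ v (opAt T ops i).2.2.1 < 3 / 5)
    (hc : 0 < v (opAt T ops i).2.2.2 ∧ v (opAt T ops i).2.2.2 < 3 / 5)
    (hl : l < 44) (hcl : cls l = 5 ∨ cls l = 6)
    (h5 : cls l = 5 → i % blk T = 2 ∧ Cbf T ops v i = v (opAt T ops i).2.1 ∧
      Caf T ops v i = v (opAt T ops i).2.2.2)
    (h6 : cls l = 6 → i % blk T = 3 ∧ Df T ops v (i + j) = v (opAt T ops i).2.2.1)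
    (h7 : l ≤ 37 → (opAt T ops i).1 = 3) (h8 : 38 ≤ l → (opAt T ops i).1 = 4)
    (hj : j = rho T + 1)
    (o3 : (opAt T ops i).1 = 3 →
      v (opAt T ops i).2.1 * v (opAt T ops i).2.2.1 < v (opAt T ops i).2.2.2 ∧
      v (opAt T ops i).2.2.2 < v (opAt T ops i).2.1)
    (o4 : (opAt T ops i).1 = 4 →
      v (opAt T ops i).2.2.2 < v (opAt T ops i).2.1 * v (opAt T ops i).2.2.1) :
    Good T ops v N M ((i, shiftK N M + j), (0, l)) := by
  have h32 : 32 ≤ l := ((cls_lt l hl).2.1 (by omega)).1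
  exact
    { lam_le := Nat.zero_le _
      lt44 := hl
      corner := fun h => absurd rfl h
      p1 := fun h => absurd h (by simp only; omega)
      p2 := fun h => absurd h (by simp only; omega)
      p3 := fun h => absurd h (by simp only; omega)
      p4 := fun h => absurd h (by simp only; omega)
      p5 := fun h => ⟨(h5 h).1, by simp only; omega⟩
      p6 := fun h => ⟨(h6 h).1, by simp only; omega⟩
      rel := ⟨fun h => absurd h (by simp only; omega), fun h => absurd h (by simp only; omega),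
        fun h => absurd h (by simp only; omega), fun h => absurd h (by simp only; omega),
        fun h => absurd h (by simp only; omega)⟩
      g5 := fun h => (h5 h).2
      g6 := fun h => by rw [sdAt_D]; exact (h6 h).2
      gc := fun _ => ⟨ha.1, ha.2, hb.1, hb.2, hc.1, h7, h8, o3, o4⟩ }

include hwf hv hops in
theorem good_extra {N M i j l : ℕ} (hi : i / blk T < ops.length)
    (h : l ∈ opExtras T (opAt T ops i) (i % blk T) j) :
    Good T ops v N M ((i, shiftK N M + j), (0, l)) := by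
  obtain ⟨hw0, hwa, hwb, hwc, w0, w1, w3, w4⟩ := hwf _ (opAt_mem hi)
  obtain ⟨o0, o1, o2, o3, o4⟩ := hops _ (opAt_mem hi)
  have hpar : i % 2 = (i % blk T) % 2 := mod_parity rfl (blk_even T)
  have hC := fun hm => Cbf_at (T := T) (ops := ops) (v := v) hi hm
  have hD := fun hm => Df_at (T := T) (ops := ops) (v := v) (j := j) hi hm
  have hbT : blk T = 2 * T + 10 := rfl
  have hrT : rho T = 2 * T + 2 := rfl
  set o := opAt T ops i with ho
  have hra : rho o.2.1 = 2 * o.2.1 + 2 := rfl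
  have hrb : rho o.2.2.1 = 2 * o.2.2.1 + 2 := rfl
  have hrc : rho o.2.2.2 = 2 * o.2.2.2 + 2 := rfl
  unfold opExtras at h
  by_cases c0 : o.1 = 0
  · rw [if_pos c0] at h
    split_ifs at h with h1
    · obtain rfl : l = 28 := by simpa using h
      obtain ⟨h1, h2⟩ := h1
      have hCb := (hC h1).1 c0
      have hab := o0 c0
      refine good_junction (by norm_num) (by norm_num) (by omega) (by omega)
        ⟨by norm_num, fun _ => ?_, by norm_num, by norm_num, by norm_num⟩
      rw [sdAt_R]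
      show Rf T v j = Cbf T ops v i
      rw [hCb]
      rcases h2 with rfl | rfl
      · rw [Rf_rho hwa]
      · rw [Rf_rho hwb, hab]
    · simp at h
  rw [if_neg c0] at h
  by_cases c1 : o.1 = 1
  · rw [if_pos c1] at h
    split_ifs at h with h1 h2 h3
    · obtain rfl : l = 28 := by simpa using h
      refine good_junction (by norm_num) (by norm_num) (by omega) (by omega)
        ⟨by norm_num, fun _ => ?_, by norm_num, by norm_num, by norm_num⟩
      rw [sdAt_R]
      show Rf T v j = Cbf T ops v i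
      rw [(hC h1.1).2.1 c1, h1.2, Rf_rho hwb]
    · obtain rfl : l = 29 := by simpa using h
      refine good_junction (by norm_num) (by norm_num) (by omega) (by omega)
        ⟨by norm_num, by norm_num, fun _ => ?_, by norm_num, by norm_num⟩
      rw [sdAt_R, sdAt_D]
      show Cbf T ops v i - Rf T v j = _
      have := o1 c1
      rw [(hC h2.1).2.1 c1, (hD (by omega)).1 c1 (by omega), h2.2, Rf_rho hwc]
      linarith
    · obtain rfl : l = 31 := by simpa using h
      refine good_junction (by norm_num) (by norm_num) (by omega) (by omega)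
        ⟨by norm_num, by norm_num, by norm_num, by norm_num, fun _ => ?_⟩
      rw [sdAt_R, sdAt_D]
      rw [(hD (by omega)).1 c1 (by omega), h3.1, Rf_rho hwa]
    · simp at h
  rw [if_neg c1] at h
  by_cases c2 : o.1 = 2
  · rw [if_pos c2] at h
    split_ifs at h with h1 h2 h3
    · obtain rfl : l = 28 := by simpa using h
      refine good_junction (by norm_num) (by norm_num) (by omega) (by omega)
        ⟨by norm_num, fun _ => ?_, by norm_num, by norm_num, by norm_num⟩
      rw [sdAt_R]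
      show Rf T v j = Cbf T ops v i
      rw [(hC h1.1).2.2.1 c2, h1.2, Rf_rho hwb]
    · obtain rfl : l = 30 := by simpa using h
      refine good_junction (by norm_num) (by norm_num) (by omega) (by omega)
        ⟨by norm_num, by norm_num, by norm_num, fun _ => ?_, by norm_num⟩
      rw [sdAt_D]
      show Cbf T ops v i - 1 = _
      have := o2 c2
      rw [(hC h2.1).2.2.1 c2, (hD (by omega)).2.1 c2 (by omega)]
      linarith
    · obtain rfl : l = 31 := by simpa using h
      refine good_junction (by norm_num) (by norm_num) (by omega) (by omega)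
        ⟨by norm_num, by norm_num, by norm_num, by norm_num, fun _ => ?_⟩
      rw [sdAt_R, sdAt_D]
      rw [(hD (by omega)).2.1 c2 (by omega), h3.1, Rf_rho hwa]
    · simp at h
  rw [if_neg c2] at h
  have c34 : o.1 = 3 ∨ o.1 = 4 := by omega
  have c3 : 3 ≤ o.1 := by omega
  split_ifs at h with h1 h2 h3 h4 h5 h6 h7
  · obtain rfl : l = 28 := by simpa using h
    refine good_junction (by norm_num) (by norm_num) (by omega) (by omega)
      ⟨by norm_num, fun _ => ?_, by norm_num, by norm_num, by norm_num⟩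
    rw [sdAt_R]
    show Rf T v j = Cbf T ops v i
    rw [((hC h1.1).2.2.2 c3).1, h1.2, Rf_rho hwa]
  · obtain rfl : l = 27 := by simpa using h
    refine good_junction (by norm_num) (by norm_num) (by omega) (by omega)
      ⟨fun _ => ?_, by norm_num, by norm_num, by norm_num, by norm_num⟩
    rw [sdAt_R]
    show Rf T v j = Caf T ops v i
    rw [((hC h2.1).2.2.2 c3).2, h2.2, Rf_rho hwc]
  · obtain rfl : l = 31 := by simpa using h
    refine good_junction (by norm_num) (by norm_num) (by omega) (by omega)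
      ⟨by norm_num, by norm_num, by norm_num, by norm_num, fun _ => ?_⟩
    rw [sdAt_R, sdAt_D]
    rw [(hD (by omega)).2.2 c3 (by omega), h3.1, Rf_rho hwb]
  · have hl : l = 32 ∨ l = 33 ∨ l = 34 := by simpa using h
    have hc : cls l = 5 := by rcases hl with rfl | rfl | rfl <;> rfl
    exact good_gadget hw0 (hv _ hwa) (hv _ hwb) (hv _ hwc) (by omega) (Or.inl hc)
      (fun _ => ⟨h4.1, ((hC h4.1).2.2.2 c3).1, ((hC h4.1).2.2.2 c3).2⟩)
      (fun h' => absurd h' (by omega)) (fun _ => h5) (fun h' => absurd h' (by omega)) h4.2 o3 o4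
  · have hl : l = 38 ∨ l = 39 ∨ l = 40 := by simpa using h
    have hc : cls l = 5 := by rcases hl with rfl | rfl | rfl <;> rfl
    exact good_gadget hw0 (hv _ hwa) (hv _ hwb) (hv _ hwc) (by omega) (Or.inl hc)
      (fun _ => ⟨h4.1, ((hC h4.1).2.2.2 c3).1, ((hC h4.1).2.2.2 c3).2⟩)
      (fun h' => absurd h' (by omega)) (fun h' => absurd h' (by omega))
      (fun _ => by rw [← ho]; omega) h4.2 o3 o4
  · have hl : l = 35 ∨ l = 36 ∨ l = 37 := by simpa using h
    have hc : cls l = 6 := by rcases hl with rfl | rfl | rfl <;> rfl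
    exact good_gadget hw0 (hv _ hwa) (hv _ hwb) (hv _ hwc) (by omega) (Or.inr hc)
      (fun h' => absurd h' (by omega)) (fun _ => ⟨h6.1, (hD (by omega)).2.2 c3 (by omega)⟩)
      (fun _ => h7) (fun h' => absurd h' (by omega)) h6.2 o3 o4
  · have hl : l = 41 ∨ l = 42 ∨ l = 43 := by simpa using h
    have hc : cls l = 6 := by rcases hl with rfl | rfl | rfl <;> rfl
    exact good_gadget hw0 (hv _ hwa) (hv _ hwb) (hv _ hwc) (by omega) (Or.inr hc)
      (fun h' => absurd h' (by omega)) (fun _ => ⟨h6.1, (hD (by omega)).2.2 c3 (by omega)⟩)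
      (fun h' => absurd h' (by omega)) (fun _ => by rw [← ho]; omega) h6.2 o3 o4
  · simp at h

include hwf hv hops in
theorem good_of_mem {N M : ℕ} {x : VC} (hx : x ∈ verts T ops N M) : Good T ops v N M x := by
  have hK : shiftK N M % 2 = 0 := by unfold shiftK; omega
  unfold verts at hx
  rcases List.mem_append.1 hx with hx | hx
  · rcases List.mem_append.1 hx with hx | hx
    · unfold regionV at hx
      simp only [List.mem_flatMap, List.mem_range, List.mem_map] at hx
      obtain ⟨i, hi, j, hj, l, hl, rfl⟩ := hx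
      unfold labelsAt at hl
      simp only [List.mem_append, List.mem_range] at hl
      rcases hl with (((hl | hl) | hl) | hl) | hl
      · have := frame_facts l hl
        exact good_small (Nat.zero_le _) (by simp only; omega) (fun h => absurd rfl h)
          (fun h => absurd h (by simp only; omega)) (fun h => absurd h (by simp only; omega))
          (fun h => absurd h (by simp only; omega))
      · split_ifs at hl with h1
        · have hl' : l = 19 ∨ l = 20 := by simpa using hl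
          have hc : cls l = 1 := by rcases hl' with rfl | rfl <;> rfl
          exact good_small (Nat.zero_le _) (by simp only; omega) (fun h => absurd rfl h)
            (fun _ => by simp only; omega) (fun h => absurd h (by simp only; omega))
            (fun h => absurd h (by simp only; omega))
        · simp at hl
      · split_ifs at hl with h1
        · have hl' : l = 21 ∨ l = 22 ∨ l = 23 ∨ l = 24 := by simpa using hl
          have hc : cls l = 2 := by rcases hl' with rfl | rfl | rfl | rfl <;> rfl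
          exact good_small (Nat.zero_le _) (by simp only; omega) (fun h => absurd rfl h)
            (fun h => absurd h (by simp only; omega)) (fun _ => by simp only; omega)
            (fun h => absurd h (by simp only; omega))
        · simp at hl
      · split_ifs at hl with h1
        · have hl' : l = 25 ∨ l = 26 := by simpa using hl
          have hc : cls l = 3 := by rcases hl' with rfl | rfl <;> rfl
          exact good_small (Nat.zero_le _) (by simp only; omega) (fun h => absurd rfl h)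
            (fun h => absurd h (by simp only; omega)) (fun h => absurd h (by simp only; omega))
            (fun _ => by simp only; omega)
        · simp at hl
      · unfold extrasAt at hl
        split_ifs at hl with h1
        · exact good_extra hwf hv hops h1 hl
        · simp at hl
    · unfold towerV at hx
      simp only [List.mem_flatMap, List.mem_range, List.mem_map] at hx
      obtain ⟨m, hm, d, hd, c, hc, rfl⟩ := hx
      exact good_corner (by simp only; omega) hc
  · unfold seedV at hx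
    simp only [List.mem_flatMap, List.mem_range, List.mem_map] at hx
    obtain ⟨m, hm, d, hd, c, hc, rfl⟩ := hx
    exact good_corner (by simp only; omega) hc

end

/-! ## Pairs of points -/

/-- the point of a vertex -/
noncomputable def ptOf (T : ℕ) (ops : List Op) (v : ℕ → ℝ) (N M : ℕ) (x : VC) : Pt where
  site := ((x.1.1 : ℤ), (x.1.2 : ℤ))
  lev := N + M - x.2.1
  X := vec (S0 (sdAt T ops v (shiftK N M) x.1) x.2.2) (S1 (sdAt T ops v (shiftK N M) x.1) x.2.2)
  Y := vec (Y0 (sdAt T ops v (shiftK N M) x.1) x.2.2) (Y1 (sdAt T ops v (shiftK N M) x.1) x.2.2)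

theorem ptOf_hasD (T : ℕ) (ops : List Op) (v : ℕ → ℝ) (N M : ℕ) (x : VC) :
    HasD (ptOf T ops v N M x)
      (S0 (sdAt T ops v (shiftK N M) x.1) x.2.2) (S1 (sdAt T ops v (shiftK N M) x.1) x.2.2)
      (Y0 (sdAt T ops v (shiftK N M) x.1) x.2.2) (Y1 (sdAt T ops v (shiftK N M) x.1) x.2.2) :=
  ⟨rfl, rfl⟩

theorem nb_cases {k : ℕ} {s t : ℕ × ℕ} (h : nb k s t = true) :
    (k = 0 → t.1 = s.1 + 1 ∧ t.2 = s.2) ∧ (k = 1 → t.1 = s.1 ∧ t.2 = s.2 + 1) ∧
    (k ≠ 0 → k ≠ 1 → t.1 + 1 = s.1 ∧ t.2 = s.2 + 1) := by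
  unfold nb at h
  split_ifs at h with h0 h1
  · simp only [Bool.and_eq_true, decide_eq_true_eq] at h
    exact ⟨fun _ => h, fun h' => by omega, fun h' => absurd h0 h'⟩
  · simp only [Bool.and_eq_true, decide_eq_true_eq] at h
    exact ⟨fun h' => absurd h' h0, fun _ => h, fun _ h' => absurd h1 h'⟩
  · simp only [Bool.and_eq_true, decide_eq_true_eq] at h
    exact ⟨fun h' => absurd h' h0, fun h' => absurd h' h1, fun _ _ => h⟩

theorem nb_sdiff {T : ℕ} {ops : List Op} {v : ℕ → ℝ} {N M k : ℕ} {x y : VC}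
    (h : nb k x.1 y.1 = true) : sdiff (ptOf T ops v N M x) (ptOf T ops v N M y) = dk k := by
  obtain ⟨h0, h1, h2⟩ := nb_cases h
  unfold sdiff dk ptOf
  simp only
  split_ifs with k0 k1
  · obtain ⟨a, b⟩ := h0 k0
    rw [a, b]; ext <;> push_cast <;> ring
  · obtain ⟨a, b⟩ := h1 k1
    rw [a, b]; ext <;> push_cast <;> ring
  · obtain ⟨a, b⟩ := h2 k0 k1
    rw [← a, b]; ext <;> push_cast <;> ring

/-- the logic of a pair on the same level -/
theorem same_core {p q : Pt} {k : ℕ} {a b a' b' c d c' d' : ℝ} (hp : HasD p a b a' b')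
    (hq : HasD q c d c' d') (hk : sdiff p q = dk k) (hl : p.lev = q.lev) {lam l l' : ℕ}
    (hA : ky k l' < ky k l → skv k c d < skv k a b)
    (hA' : ky k l < ky k l' → skv k a b < skv k c d)
    (hC : l = l' → a = c ∧ b = d ∧ a' = c' ∧ b' = d')
    (hB : l ≠ l' → ky k l = ky k l' → skv k a b = skv k c d ∧
      (((k = 0 ∧ (l, l') ∈ gadgetPairs) ∧
        4 / 3 * ((c - a) ^ 2 - (c - a) * (d - b) + (d - b) ^ 2) +
          4 * (skv k c' d' - skv k a' b') < 0) ∨
       (¬ (k = 0 ∧ (l, l') ∈ gadgetPairs) ∧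
        0 < 4 / 3 * ((c - a) ^ 2 - (c - a) * (d - b) + (d - b) ^ 2) +
          4 * (skv k c' d' - skv k a' b')))) :
    NoTie p q ∧ (TouchG p q ↔ rule k (lam, l) (lam, l') = true) := by
  obtain ⟨e1, e2⟩ := eff_same hp hq hk hl
  have hrule : rule k (lam, l) (lam, l') = true ↔
      (l = l' ∨ ky k l' < ky k l) ∨ (k = 0 ∧ (l, l') ∈ gadgetPairs) := by
    unfold rule
    simp
  rw [hrule]
  by_cases hll : l = l'
  · obtain ⟨h1, h2, h3, h4⟩ := hC hll
    have hs : SameX p q := by
      refine ⟨hl, ?_, ?_⟩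
      · rw [hp.X, hq.X, h1, h2]
      · rw [hp.Y, hq.Y, h3, h4]
    obtain ⟨h5, h6⟩ := pair_same hk hs
    exact ⟨h5, fun _ => Or.inl (Or.inl hll), fun _ => h6⟩
  have hpair : (k = 0 ∧ (l, l') ∈ gadgetPairs) → ky k l = ky k l' := by
    rintro ⟨rfl, h⟩
    exact (fact_pairs _ h).1
  rcases lt_trichotomy (ky k l') (ky k l) with h | h | h
  · obtain ⟨h5, h6⟩ := pair_lt hk (by rw [e1]; have := hA h; linarith)
    exact ⟨h5, fun _ => Or.inl (Or.inr h), fun _ => h6⟩
  · obtain ⟨h1, h2⟩ := hB hll h.symm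
    have hz : dirDot (sdiff p q) (effD p q) = 0 := by rw [e1]; linarith
    rcases h2 with ⟨h3, h4⟩ | ⟨h3, h4⟩
    · obtain ⟨h5, h6⟩ := pair_tie_neg hk hz (by rw [e2]; exact h4)
      exact ⟨h5, fun _ => Or.inr h3, fun _ => h6⟩
    · obtain ⟨h5, h6⟩ := pair_tie_pos hk hz (by rw [e2]; exact h4)
      refine ⟨h5, fun h' => absurd h' h6, ?_⟩
      rintro ((h' | h') | h')
      · exact absurd h' hll
      · exact absurd h' (by omega)
      · exact absurd h' h3
  · obtain ⟨h5, h6⟩ := pair_gt hk (by rw [e1]; have := hA' h; linarith)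
    refine ⟨h5, fun h' => absurd h' h6, ?_⟩
    rintro ((h' | h') | h')
    · exact absurd h' hll
    · exact absurd h' (by omega)
    · exact absurd (hpair h') (by omega)

/-- `k = 0` -/
theorem same0 {s s' : Sd} (hs : s.OK) (hs' : s'.OK) (hR : s.R = s'.R) {l l' : ℕ} (hl : l < 44)
    (hl' : l' < 44) (hbad : l = l' ∨ cls l = cls l' → bad 0 (cls l) = false)
    (hgad : 5 ≤ cls l → 5 ≤ cls l' → cls l = 5 ∧ cls l' = 6 ∧
      ((l, l') ∈ gadgetPairs → (S1 s' l' - S1 s l) ^ 2 + 3 * (Y0 s' l' - Y0 s l) < 0) ∧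
      ((l, l') ∉ gadgetPairs → 0 < (S1 s' l' - S1 s l) ^ 2 + 3 * (Y0 s' l' - Y0 s l)))
    {p q : Pt} (hp : HasD p (S0 s l) (S1 s l) (Y0 s l) (Y1 s l))
    (hq : HasD q (S0 s' l') (S1 s' l') (Y0 s' l') (Y1 s' l'))
    (hk : sdiff p q = dk 0) (hlev : p.lev = q.lev) (lam : ℕ) :
    NoTie p q ∧ (TouchG p q ↔ rule 0 (lam, l) (lam, l') = true) := by
  have hkb := key_bound l hl
  have hkb' := key_bound l' hl'
  have hS0 : ∀ h : ky 0 l = ky 0 l', S0 s l = S0 s' l' := by
    intro h
    unfold S0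
    rw [h, hR]
  refine same_core hp hq hk hlev (fun h => ?_) (fun h => ?_) (fun h => ?_) (fun h h' => ?_)
  · exact f0_lt hs'.R0 hs'.R1 hs.R0 h hkb.1
  · exact f0_lt hs.R0 hs.R1 hs'.R0 h hkb'.1
  · subst h
    obtain ⟨b1, b2, b3, b4, b5, b6⟩ := (fact3 l hl).1 (hbad (Or.inl rfl))
    refine ⟨hS0 rfl, ?_, ?_, ?_⟩
    · unfold S1
      rw [f1_eq b2 b3 b6, f1_eqD b4 b5]
    · unfold Y0; rw [if_neg (by omega), if_neg (by omega)]
    · unfold Y1; rw [if_neg (by omega), if_neg (by omega)]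
  · refine ⟨hS0 h', ?_⟩
    have e1 : S0 s' l' - S0 s l = 0 := by rw [hS0 h']; ring
    rcases fact0 l hl l' hl' h h' with ⟨h1, h2⟩ | ⟨h1, h2⟩ | ⟨h1, h2, h3⟩
    · rw [hbad (Or.inr h1)] at h2
      exact absurd h2 (by norm_num)
    · obtain ⟨g1, g2, g3, g4⟩ := hgad h1 h2
      rw [e1]
      by_cases hm : (l, l') ∈ gadgetPairs
      · left
        refine ⟨⟨rfl, hm⟩, ?_⟩
        have := g3 hm
        show 4 / 3 * ((0 : ℝ) ^ 2 - 0 * (S1 s' l' - S1 s l) + (S1 s' l' - S1 s l) ^ 2) +
          4 * (Y0 s' l' - Y0 s l) < 0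
        linarith
      · right
        refine ⟨fun h => hm h.2, ?_⟩
        have := g4 hm
        show 0 < 4 / 3 * ((0 : ℝ) ^ 2 - 0 * (S1 s' l' - S1 s l) + (S1 s' l' - S1 s l) ^ 2) +
          4 * (Y0 s' l' - Y0 s l)
        linarith
    · right
      refine ⟨fun h => ?_, ?_⟩
      · have := (fact_pairs _ h.2).2.2.1
        simp only at this
        omega
      · have y1 : Y0 s l = 0 := by unfold Y0; rw [if_neg (by omega)]
        have y2 : Y0 s' l' = 0 := by unfold Y0; rw [if_neg (by omega)]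
        have hne : S1 s' l' - S1 s l ≠ 0 := by
          rcases h3 with ⟨h3, h4⟩ | ⟨h3, h4⟩
          · have := f1_lt hs hs' h3 hkb'.2.1 (fun x y => absurd ⟨x, y⟩ h4)
            unfold S1
            linarith
          · have := f1_lt hs' hs h3 hkb.2.1 (fun x y => absurd ⟨x, y⟩ h4)
            unfold S1
            linarith
        have hpos := nq_pos (a := S0 s' l' - S0 s l) (Or.inr hne)
        have e : skv 0 (Y0 s' l') (Y1 s' l') - skv 0 (Y0 s l) (Y1 s l) = 0 := by
          show Y0 s' l' - Y0 s l = 0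
          rw [y1, y2]; ring
        rw [e]
        linarith

/-- `k = 1` -/
theorem same1 {s s' : Sd} (hs : s.OK) (hs' : s'.OK) (hCa : s.Ca = s'.Ca) (hCb : s.Cb = s'.Cb)
    {l l' : ℕ} (hl : l < 44)
    (hl' : l' < 44) (hbad : l = l' ∨ cls l = cls l' → bad 1 (cls l) = false)
    {p q : Pt} (hp : HasD p (S0 s l) (S1 s l) (Y0 s l) (Y1 s l))
    (hq : HasD q (S0 s' l') (S1 s' l') (Y0 s' l') (Y1 s' l'))
    (hk : sdiff p q = dk 1) (hlev : p.lev = q.lev) (lam : ℕ) :
    NoTie p q ∧ (TouchG p q ↔ rule 1 (lam, l) (lam, l') = true) := by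
  have hkb := key_bound l hl
  have hkb' := key_bound l' hl'
  refine same_core hp hq hk hlev (fun h => ?_) (fun h => ?_) (fun h => ?_) (fun h h' => ?_)
  · exact f1_lt hs' hs h hkb.2.1 (fun _ _ => by rw [← hCa]; exact hs.CaCb)
  · exact f1_lt hs hs' h hkb'.2.1 (fun _ _ => by rw [← hCb]; exact hs.CaCb)
  · subst h
    obtain ⟨b1, b2, b3, b4, b5⟩ := (fact3 l hl).2.1 (hbad (Or.inl rfl))
    refine ⟨?_, ?_, ?_, ?_⟩
    · unfold S0
      rw [f0_eq b2]
    · unfold S1
      rw [f1_eq b3 b4 b5, hCa, hCb]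
    · unfold Y0; rw [if_neg (by omega), if_neg (by omega)]
    · unfold Y1; rw [if_neg (by omega), if_neg (by omega)]
  · rcases fact1 l hl l' hl' h h' with ⟨h1, h2⟩ | ⟨h1, h2, h3, h4, h5, h6⟩
    · rw [hbad (Or.inr h1)] at h2
      exact absurd h2 (by norm_num)
    · constructor
      · show S1 s l = S1 s' l'
        unfold S1
        rw [f1_eq h4 h5 h6, hCa, hCb, h']
      · right
        refine ⟨fun h => absurd h.1 (by norm_num), ?_⟩
        have y1 : Y1 s l = 0 := by unfold Y1; rw [if_neg h1]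
        have y2 : Y1 s' l' = 0 := by unfold Y1; rw [if_neg h2]
        have hne : S0 s' l' - S0 s l ≠ 0 := by
          rcases h3 with h3 | h3
          · have := f0_lt hs.R0 hs.R1 hs'.R0 h3 hkb'.1
            unfold S0
            linarith
          · have := f0_lt hs'.R0 hs'.R1 hs.R0 h3 hkb.1
            unfold S0
            linarith
        have hpos := nq_pos (b := S1 s' l' - S1 s l) (Or.inl hne)
        have e : skv 1 (Y0 s' l') (Y1 s' l') - skv 1 (Y0 s l) (Y1 s l) = 0 := by
          show Y1 s' l' - Y1 s l = 0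
          rw [y1, y2]; ring
        rw [e]
        linarith

/-- order of the values of `s2` -/
theorem S2_lt {s s' : Sd} (hs : s.OK) (hs' : s'.OK) {l l' : ℕ} (hl : l < 44) (hl' : l' < 44)
    (hr : Rel s l) (hr' : Rel s' l') (h : ky 2 l < ky 2 l') :
    S1 s l - S0 s l < S1 s' l' - S0 s' l' := by
  obtain ⟨a1, a2, -⟩ := S2_val hs hl hr
  obtain ⟨b1, b2, -⟩ := S2_val hs' hl' hr'
  rcases Nat.mod_two_eq_zero_or_one (ky 2 l) with h1 | h1 <;>
    rcases Nat.mod_two_eq_zero_or_one (ky 2 l') with h2 | h2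
  · rw [a1 h1, b1 h2]
    have : (ky 2 l : ℝ) < ky 2 l' := by exact_mod_cast h
    linarith
  · rw [a1 h1]
    have h3 := (b2 h2).1
    have : (ky 2 l : ℝ) + 1 ≤ ky 2 l' := by exact_mod_cast h
    linarith
  · rw [b1 h2]
    have h3 := (a2 h1).2
    have : (ky 2 l : ℝ) + 1 ≤ ky 2 l' := by exact_mod_cast h
    linarith
  · have h3 := (a2 h1).2
    have h4 := (b2 h2).1
    have : (ky 2 l : ℝ) + 2 ≤ ky 2 l' := by
      have : ky 2 l + 2 ≤ ky 2 l' := by omega
      exact_mod_cast this
    linarith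

/-- `k = 2` -/
theorem same2 {s s' : Sd} (hs : s.OK) (hs' : s'.OK) (hD : s.D = s'.D)
    {l l' : ℕ} (hl : l < 44) (hl' : l' < 44) (hr : Rel s l) (hr' : Rel s' l')
    (hbad : l = l' ∨ cls l = cls l' → bad 2 (cls l) = false)
    {p q : Pt} (hp : HasD p (S0 s l) (S1 s l) (Y0 s l) (Y1 s l))
    (hq : HasD q (S0 s' l') (S1 s' l') (Y0 s' l') (Y1 s' l'))
    (hk : sdiff p q = dk 2) (hlev : p.lev = q.lev) (lam : ℕ) :
    NoTie p q ∧ (TouchG p q ↔ rule 2 (lam, l) (lam, l') = true) := by
  have hkb := key_bound l hl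
  have hkb' := key_bound l' hl'
  refine same_core hp hq hk hlev (fun h => ?_) (fun h => ?_) (fun h => ?_) (fun h h' => ?_)
  · exact S2_lt hs' hs hl' hl hr' hr h
  · exact S2_lt hs hs' hl hl' hr hr' h
  · subst h
    obtain ⟨b1, b2, b3, b4⟩ := (fact3 l hl).2.2 (hbad (Or.inl rfl))
    refine ⟨?_, ?_, ?_, ?_⟩
    · unfold S0
      rw [f0_eq b2]
    · unfold S1
      rw [← hD, f1_eqD b3 b4]
    · unfold Y0; rw [if_neg (by omega), if_neg (by omega)]
    · unfold Y1; rw [if_neg (by omega), if_neg (by omega)]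
  · rcases fact2 l hl l' hl' h h' with ⟨h1, h2⟩ | ⟨h1, h2, h3, h4⟩
    · rw [hbad (Or.inr h1)] at h2
      exact absurd h2 (by norm_num)
    · have hS : S1 s l - S0 s l = S1 s' l' - S0 s' l' := by
        obtain ⟨a1, -, a3⟩ := S2_val hs hl hr
        obtain ⟨b1, -, b3⟩ := S2_val hs' hl' hr'
        rcases h4 with h4 | h4
        · rw [a1 h4, b1 (by omega), h']
        · rw [a3 h4, b3 (by omega), hD]
      refine ⟨hS, ?_⟩
      right
      refine ⟨fun h => absurd h.1 (by norm_num), ?_⟩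
      have y0 : ∀ (s : Sd) (l : ℕ), l < 44 → cls l ≠ 5 → Y1 s l - Y0 s l = 0 := by
        intro s l hl h1
        have := (cls_lt l hl).1
        unfold Y0 Y1
        by_cases h5 : cls l = 6
        · rw [if_pos h5, if_pos (by omega)]; ring
        · rw [if_neg h5, if_neg (by omega)]; ring
      have hne : S0 s' l' - S0 s l ≠ 0 := by
        rcases h3 with h3 | h3
        · have := f0_lt hs.R0 hs.R1 hs'.R0 h3 hkb'.1
          unfold S0
          linarith
        · have := f0_lt hs'.R0 hs'.R1 hs.R0 h3 hkb.1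
          unfold S0
          linarith
      have hpos := nq_pos (b := S1 s' l' - S1 s l) (Or.inl hne)
      have e : skv 2 (Y0 s' l') (Y1 s' l') - skv 2 (Y0 s l) (Y1 s l) = 0 := by
        show (Y1 s' l' - Y0 s' l') - (Y1 s l - Y0 s l) = 0
        rw [y0 s l hl h1, y0 s' l' hl' h2]; ring
      rw [e]
      linarith

/-- the values of the corners -/
theorem corner_vals (s : Sd) {l : ℕ} (hl : l ∈ corners) :
    (Y0 s l = 0 ∧ Y1 s l = 0) ∧ (S0 s l ≠ 0 ∨ S1 s l ≠ 0) ∧
    ∀ k < 3, (kz k < ky k l ↔ 0 < skv k (S0 s l) (S1 s l)) ∧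
      (ky k l < kz k ↔ skv k (S0 s l) (S1 s l) < 0) := by
  have h : l = 14 ∨ l = 10 ∨ l = 5 ∨ l = 4 ∨ l = 8 ∨ l = 13 := by simpa [corners] using hl
  refine ⟨?_, ?_, ?_⟩
  · rcases h with rfl | rfl | rfl | rfl | rfl | rfl <;> simp [Y0, Y1, cls, clsTab]
  · rcases h with rfl | rfl | rfl | rfl | rfl | rfl <;>
      simp [S0, S1, ky, keyTab0, keyTab1, f0, f1]
  · intro k hk
    interval_cases k <;> rcases h with rfl | rfl | rfl | rfl | rfl | rfl <;>
      norm_num [S0, S1, ky, keyTab0, keyTab1, keyTab2, f0, f1, skv, kz]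

/-- parity contradictions -/
theorem good_bad {T : ℕ} {ops : List Op} {v : ℕ → ℝ} {N M k : ℕ} {x y : VC}
    (hx : Good T ops v N M x) (hy : Good T ops v N M y) (hk : k < 3)
    (hnb : nb k x.1 y.1 = true) (hc : cls x.2.2 = cls y.2.2) : bad k (cls x.2.2) = false := by
  obtain ⟨h0, h1, h2⟩ := nb_cases hnb
  have hK : shiftK N M % 2 = 0 := by unfold shiftK; omega
  have hc7 := (cls_lt _ hx.lt44).1
  have hp : ∀ r : ℕ, ∀ z : VC, z.1.1 % blk T = r → z.1.1 % 2 = r % 2 :=
    fun r z h => mod_parity h (blk_even T)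
  have x1 := hx.p1
  have x2 := hx.p2
  have x3 := hx.p3
  have x4 := hx.p4
  have x5 := hx.p5
  have x6 := hx.p6
  have y1 := hy.p1
  have y2 := hy.p2
  have y3 := hy.p3
  have y4 := hy.p4
  have y5 := hy.p5
  have y6 := hy.p6
  have hx5 : cls x.2.2 = 5 → x.1.1 % 2 = 0 := fun h => hp 2 x (x5 h).1
  have hy5 : cls y.2.2 = 5 → y.1.1 % 2 = 0 := fun h => hp 2 y (y5 h).1
  have hx6 : cls x.2.2 = 6 → x.1.1 % 2 = 1 := fun h => hp 3 x (x6 h).1
  have hy6 : cls y.2.2 = 6 → y.1.1 % 2 = 1 := fun h => hp 3 y (y6 h).1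
  rw [← hc] at y1 y2 y3 y4 y5 y6 hy5 hy6
  generalize cls x.2.2 = c at *
  have hk' : k = 0 ∨ k = 1 ∨ k = 2 := by omega
  have hc' : c = 0 ∨ c = 1 ∨ c = 2 ∨ c = 3 ∨ c = 4 ∨ c = 5 ∨ c = 6 := by omega
  rcases hk' with rfl | rfl | rfl
  · have h0' := h0 rfl
    rcases hc' with rfl | rfl | rfl | rfl | rfl | rfl | rfl <;> first | rfl | skip
    · have := x2 rfl; have := y2 rfl; omega
    · have := x3 rfl; have := y3 rfl; omega
    · have := x4 rfl; have := y4 rfl; omega
    · have := hx5 rfl; have := hy5 rfl; omega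
    · have := hx6 rfl; have := hy6 rfl; omega
  · have h0' := h1 rfl
    rcases hc' with rfl | rfl | rfl | rfl | rfl | rfl | rfl <;> first | rfl | skip
    · have := x1 rfl; have := y1 rfl; omega
    · have := x3 rfl; have := y3 rfl; omega
    · have := x4 rfl; have := y4 rfl; omega
    · have := (x5 rfl).2; have := (y5 rfl).2; omega
    · have := (x6 rfl).2; have := (y6 rfl).2; omega
  · have h0' := h2 (by norm_num) (by norm_num)
    rcases hc' with rfl | rfl | rfl | rfl | rfl | rfl | rfl <;> first | rfl | skip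
    · have := x1 rfl; have := y1 rfl; omega
    · have := x2 rfl; have := y2 rfl; omega
    · have := x4 rfl; have := y4 rfl; omega
    · have := (x5 rfl).2; have := (y5 rfl).2; omega
    · have := (x6 rfl).2; have := (y6 rfl).2; omega

section

variable {T : ℕ} {ops : List Op} {v : ℕ → ℝ} (hwf : ∀ o ∈ ops, OpWF T o)
  (hv : ∀ a < T, 0 < v a ∧ v a < 3 / 5) (hops : ∀ o ∈ ops, OpHolds v o)

/-- gadget pairs -/
theorem good_gad {N M : ℕ} {x y : VC}
    (hx : Good T ops v N M x) (hy : Good T ops v N M y) (hnb : nb 0 x.1 y.1 = true)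
    (h5 : 5 ≤ cls x.2.2) (h5' : 5 ≤ cls y.2.2) :
    cls x.2.2 = 5 ∧ cls y.2.2 = 6 ∧
      ((x.2.2, y.2.2) ∈ gadgetPairs →
        (S1 (sdAt T ops v (shiftK N M) y.1) y.2.2 - S1 (sdAt T ops v (shiftK N M) x.1) x.2.2) ^ 2 +
        3 * (Y0 (sdAt T ops v (shiftK N M) y.1) y.2.2 -
          Y0 (sdAt T ops v (shiftK N M) x.1) x.2.2) < 0) ∧
      ((x.2.2, y.2.2) ∉ gadgetPairs →
        0 < (S1 (sdAt T ops v (shiftK N M) y.1) y.2.2 -
          S1 (sdAt T ops v (shiftK N M) x.1) x.2.2) ^ 2 +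
        3 * (Y0 (sdAt T ops v (shiftK N M) y.1) y.2.2 -
          Y0 (sdAt T ops v (shiftK N M) x.1) x.2.2)) := by
  have h0 := (nb_cases hnb).1 rfl
  have hbT : blk T = 2 * T + 10 := rfl
  have c1 := (cls_lt _ hx.lt44).1
  have c2 := (cls_lt _ hy.lt44).1
  have hx5 : cls x.2.2 = 5 := by
    by_contra hne
    have h6 : cls x.2.2 = 6 := by omega
    have hm := (hx.p6 h6).1
    have hs := (step_mod hm (s := 1) (by omega)).1
    rw [← h0.1] at hs
    rcases (by omega : cls y.2.2 = 5 ∨ cls y.2.2 = 6) with h | h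
    · have := (hy.p5 h).1; omega
    · have := (hy.p6 h).1; omega
  have hm := (hx.p5 hx5).1
  have hs := step_mod hm (s := 1) (by omega)
  rw [← h0.1] at hs
  have hy6 : cls y.2.2 = 6 := by
    by_contra hne
    have := (hy.p5 (by omega)).1
    omega
  have hop : opAt T ops y.1.1 = opAt T ops x.1.1 := by
    unfold opAt
    rw [hs.2]
  refine ⟨hx5, hy6, ?_⟩
  have gx := hx.gc h5
  have gy := hy.gc h5'
  have e1 : (sdAt T ops v (shiftK N M) x.1).gx = (sdAt T ops v (shiftK N M) y.1).gx := by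
    show v (opAt T ops x.1.1).2.1 = v (opAt T ops y.1.1).2.1
    rw [hop]
  have e2 : (sdAt T ops v (shiftK N M) x.1).gy = (sdAt T ops v (shiftK N M) y.1).gy := by
    show v (opAt T ops x.1.1).2.2.1 = v (opAt T ops y.1.1).2.2.1
    rw [hop]
  have e3 : (sdAt T ops v (shiftK N M) x.1).gt = (sdAt T ops v (shiftK N M) y.1).gt := by
    show v (opAt T ops x.1.1).2.2.2 = v (opAt T ops y.1.1).2.2.2
    rw [hop]
  have e4 : (sdAt T ops v (shiftK N M) x.1).code = (sdAt T ops v (shiftK N M) y.1).code := by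
    show (opAt T ops x.1.1).1 = (opAt T ops y.1.1).1
    rw [hop]
  obtain ⟨x1, x2, x3, x4, x5, x6, x7, x8, x9⟩ := gx
  obtain ⟨-, -, -, -, -, y6, y7, -, -⟩ := gy
  have cx := (cls_cases hx.lt44).1 hx5
  have cy := (cls_cases hy.lt44).2 hy6
  refine gadget_tie _ _ e1 e2 e3 (hx.g5 hx5).1 (hx.g5 hx5).2 (hy.g6 hy6) x1 x2 x3 x4 x5
    hx.lt44 hy.lt44 hx5 hy6 (fun h => ?_) (fun h => ?_)
  · have hc := x6 h
    refine ⟨?_, x8 hc⟩
    by_contra hne
    have := y7 (by omega)
    omega
  · have hc := x7 h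
    refine ⟨?_, x9 hc⟩
    by_contra hne
    have := y6 (by omega)
    omega

include hwf hv hops in
/-- pairs on the same level -/
theorem pair_level {N M k : ℕ} {x y : VC}
    (hx : Good T ops v N M x) (hy : Good T ops v N M y) (hk : k < 3)
    (hnb : nb k x.1 y.1 = true) (hlam : x.2.1 = y.2.1) :
    NoTie (ptOf T ops v N M x) (ptOf T ops v N M y) ∧
    (TouchG (ptOf T ops v N M x) (ptOf T ops v N M y) ↔ rule k x.2 y.2 = true) := by
  have hsd := nb_sdiff (T := T) (ops := ops) (v := v) (N := N) (M := M) hnb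
  have hlev : (ptOf T ops v N M x).lev = (ptOf T ops v N M y).lev := by
    unfold ptOf; simp only; rw [hlam]
  have okx := sdAt_ok hwf hv hops (shiftK N M) x.1
  have oky := sdAt_ok hwf hv hops (shiftK N M) y.1
  have hpx := ptOf_hasD T ops v N M x
  have hpy := ptOf_hasD T ops v N M y
  have hbad : x.2.2 = y.2.2 ∨ cls x.2.2 = cls y.2.2 → bad k (cls x.2.2) = false := by
    intro h
    apply good_bad hx hy hk hnb
    rcases h with h | h
    · rw [h]
    · exact h
  have hrule : rule k x.2 y.2 = rule k (x.2.1, x.2.2) (x.2.1, y.2.2) := by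
    rw [show y.2 = (x.2.1, y.2.2) by rw [hlam]]
  rw [hrule]
  obtain ⟨h0, h1, h2⟩ := nb_cases hnb
  have hk' : k = 0 ∨ k = 1 ∨ k = 2 := by omega
  rcases hk' with rfl | rfl | rfl
  · have h0' := h0 rfl
    refine same0 okx oky ?_ hx.lt44 hy.lt44 hbad (good_gad hx hy hnb) hpx hpy hsd hlev _
    show Rf T v (x.1.2 - _) = Rf T v (y.1.2 - _)
    rw [h0'.2]
  · have h0' := h1 rfl
    refine same1 okx oky ?_ ?_ hx.lt44 hy.lt44 hbad hpx hpy hsd hlev _
    · show Caf T ops v x.1.1 = Caf T ops v y.1.1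
      rw [h0'.1]
    · show Cbf T ops v x.1.1 = Cbf T ops v y.1.1
      rw [h0'.1]
  · have h0' := h2 (by norm_num) (by norm_num)
    refine same2 okx oky ?_ hx.lt44 hy.lt44 hx.rel hy.rel hbad hpx hpy hsd hlev _
    show Df T ops v (x.1.1 + x.1.2 - _) = Df T ops v (y.1.1 + y.1.2 - _)
    congr 1
    omega

/-- pairs on different levels -/
theorem pair_levels {N M k : ℕ} {x y : VC}
    (hx : Good T ops v N M x) (hy : Good T ops v N M y) (hk : k < 3)
    (hnb : nb k x.1 y.1 = true) (hlam : x.2.1 ≠ y.2.1) :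
    NoTie (ptOf T ops v N M x) (ptOf T ops v N M y) ∧
    (TouchG (ptOf T ops v N M x) (ptOf T ops v N M y) ↔ rule k x.2 y.2 = true) := by
  have hsd := nb_sdiff (T := T) (ops := ops) (v := v) (N := N) (M := M) hnb
  have hpx := ptOf_hasD T ops v N M x
  have hpy := ptOf_hasD T ops v N M y
  have l1 := hx.lam_le
  have l2 := hy.lam_le
  rcases lt_or_gt_of_ne hlam with h | h
  · -- `y` is coarser
    have hlev : (ptOf T ops v N M y).lev < (ptOf T ops v N M x).lev := by
      unfold ptOf; simp only; omega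
    obtain ⟨e1, e2⟩ := eff_fine hpy hsd hlev
    obtain ⟨⟨c1, c1'⟩, c2, c3⟩ := corner_vals (sdAt T ops v (shiftK N M) y.1)
      (hy.corner (by omega))
    have c4 := (c3 k hk).2
    have hr : rule k x.2 y.2 = true ↔ ky k y.2.2 < kz k := by
      unfold rule
      rw [if_neg hlam, if_neg (by omega)]
      simp
    rw [hr, c4]
    have hsk0 : skv k (0 : ℝ) 0 = 0 := by unfold skv; split_ifs <;> simp
    rcases lt_trichotomy (skv k (S0 (sdAt T ops v (shiftK N M) y.1) y.2.2)
      (S1 (sdAt T ops v (shiftK N M) y.1) y.2.2)) 0 with h1 | h1 | h1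
    · obtain ⟨a, b⟩ := pair_lt hsd (by rw [e1]; linarith)
      exact ⟨a, fun _ => h1, fun _ => b⟩
    · obtain ⟨a, b⟩ := pair_tie_pos hsd (by rw [e1, h1]; ring)
        (by rw [e2, c1, c1', hsk0]; have := nq_pos c2; linarith)
      exact ⟨a, fun h' => absurd h' b, fun h' => absurd h' (by linarith)⟩
    · obtain ⟨a, b⟩ := pair_gt hsd (by rw [e1]; linarith)
      exact ⟨a, fun h' => absurd h' b, fun h' => absurd h' (by linarith)⟩
  · have hlev : (ptOf T ops v N M x).lev < (ptOf T ops v N M y).lev := by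
      unfold ptOf; simp only; omega
    obtain ⟨e1, e2⟩ := eff_coarse hpx hsd hlev
    obtain ⟨⟨c1, c1'⟩, c2, c3⟩ := corner_vals (sdAt T ops v (shiftK N M) x.1)
      (hx.corner (by omega))
    have c4 := (c3 k hk).1
    have hr : rule k x.2 y.2 = true ↔ kz k < ky k x.2.2 := by
      unfold rule
      rw [if_neg hlam, if_pos h]
      simp
    rw [hr, c4]
    have hsk0 : skv k (0 : ℝ) 0 = 0 := by unfold skv; split_ifs <;> simp
    rcases lt_trichotomy (skv k (S0 (sdAt T ops v (shiftK N M) x.1) x.2.2)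
      (S1 (sdAt T ops v (shiftK N M) x.1) x.2.2)) 0 with h1 | h1 | h1
    · obtain ⟨a, b⟩ := pair_gt hsd (by rw [e1]; linarith)
      exact ⟨a, fun h' => absurd h' b, fun h' => absurd h' (by linarith)⟩
    · obtain ⟨a, b⟩ := pair_tie_pos hsd (by rw [e1, h1]; ring)
        (by rw [e2, c1, c1', hsk0]; have := nq_pos c2; linarith)
      exact ⟨a, fun h' => absurd h' b, fun h' => absurd h' (by linarith)⟩
    · obtain ⟨a, b⟩ := pair_lt hsd (by rw [e1]; linarith)
      exact ⟨a, fun _ => h1, fun _ => b⟩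

include hwf hv hops in
theorem pair_nb {N M k : ℕ} {x y : VC}
    (hx : Good T ops v N M x) (hy : Good T ops v N M y) (hk : k < 3)
    (hnb : nb k x.1 y.1 = true) :
    NoTie (ptOf T ops v N M x) (ptOf T ops v N M y) ∧
    (TouchG (ptOf T ops v N M x) (ptOf T ops v N M y) ↔ rule k x.2 y.2 = true) := by
  by_cases h : x.2.1 = y.2.1
  · exact pair_level hwf hv hops hx hy hk hnb h
  · exact pair_levels hx hy hk hnb h

/-- neighbouring sites -/
theorem nbr_nb {N M : ℕ} {x y : VC} (h : Nbr (ptOf T ops v N M x) (ptOf T ops v N M y)) :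
    ∃ k < 3, nb k x.1 y.1 = true ∨ nb k y.1 x.1 = true := by
  unfold Nbr sdiff ptOf at h
  simp only at h
  set a : ℤ := (y.1.1 : ℤ) - x.1.1 with ha
  set b : ℤ := (y.1.2 : ℤ) - x.1.2 with hb
  have hb1 : b < 2 := by nlinarith [sq_nonneg (2 * a + b)]
  have hb2 : -2 < b := by nlinarith [sq_nonneg (2 * a + b)]
  have ha1 : a < 2 := by nlinarith [sq_nonneg (2 * b + a)]
  have ha2 : -2 < a := by nlinarith [sq_nonneg (2 * b + a)]
  have hab : (a = 1 ∧ b = 0) ∨ (a = -1 ∧ b = 0) ∨ (a = 0 ∧ b = 1) ∨ (a = 0 ∧ b = -1) ∨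
      (a = -1 ∧ b = 1) ∨ (a = 1 ∧ b = -1) := by
    have h1 : a = -1 ∨ a = 0 ∨ a = 1 := by omega
    have h2 : b = -1 ∨ b = 0 ∨ b = 1 := by omega
    rcases h1 with h1 | h1 | h1 <;> rcases h2 with h2 | h2 | h2 <;>
      rw [h1, h2] at h <;> simp [h1, h2] at h ⊢
  have n0 : ∀ s t : ℕ × ℕ, nb 0 s t = true ↔ t.1 = s.1 + 1 ∧ t.2 = s.2 := by
    intro s t; simp [nb]
  have n1 : ∀ s t : ℕ × ℕ, nb 1 s t = true ↔ t.1 = s.1 ∧ t.2 = s.2 + 1 := by
    intro s t; simp [nb]
  have n2 : ∀ s t : ℕ × ℕ, nb 2 s t = true ↔ t.1 + 1 = s.1 ∧ t.2 = s.2 + 1 := by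
    intro s t; simp [nb]
  rcases hab with ⟨h1, h2⟩ | ⟨h1, h2⟩ | ⟨h1, h2⟩ | ⟨h1, h2⟩ | ⟨h1, h2⟩ | ⟨h1, h2⟩
  · exact ⟨0, by norm_num, Or.inl ((n0 _ _).2 ⟨by omega, by omega⟩)⟩
  · exact ⟨0, by norm_num, Or.inr ((n0 _ _).2 ⟨by omega, by omega⟩)⟩
  · exact ⟨1, by norm_num, Or.inl ((n1 _ _).2 ⟨by omega, by omega⟩)⟩
  · exact ⟨1, by norm_num, Or.inr ((n1 _ _).2 ⟨by omega, by omega⟩)⟩
  · exact ⟨2, by norm_num, Or.inl ((n2 _ _).2 ⟨by omega, by omega⟩)⟩
  · exact ⟨2, by norm_num, Or.inr ((n2 _ _).2 ⟨by omega, by omega⟩)⟩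

/-- the adjacency when the site of `y` is the neighbour in direction `k` of the site of `x` -/
theorem adj_nb {k : ℕ} {x y : VC} (hk : k < 3) (hnb : nb k x.1 y.1 = true) :
    (adjV x y = true ↔ rule k x.2 y.2 = true) ∧ (adjV y x = true ↔ rule k x.2 y.2 = true) := by
  have n0 : ∀ s t : ℕ × ℕ, nb 0 s t = decide (t.1 = s.1 + 1 ∧ t.2 = s.2) := by
    intro s t; simp [nb]
  have n1 : ∀ s t : ℕ × ℕ, nb 1 s t = decide (t.1 = s.1 ∧ t.2 = s.2 + 1) := by
    intro s t; simp [nb]
  have n2 : ∀ s t : ℕ × ℕ, nb 2 s t = decide (t.1 + 1 = s.1 ∧ t.2 = s.2 + 1) := by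
    intro s t; simp [nb]
  have hne : x.1 ≠ y.1 := by
    intro h
    have hk' : k = 0 ∨ k = 1 ∨ k = 2 := by omega
    rcases hk' with rfl | rfl | rfl
    · rw [n0, h] at hnb; simp at hnb
    · rw [n1, h] at hnb; simp at hnb
    · rw [n2, h] at hnb; simp at hnb
  have h1 : adjDir x y = rule k x.2 y.2 := by
    unfold adjDir
    have hk' : k = 0 ∨ k = 1 ∨ k = 2 := by omega
    rcases hk' with rfl | rfl | rfl
    · rw [hnb]
      rw [n0] at hnb
      have := of_decide_eq_true hnb
      rw [n1, n2, decide_eq_false (by omega), decide_eq_false (by omega)]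
      simp
    · rw [hnb]
      rw [n1] at hnb
      have := of_decide_eq_true hnb
      rw [n0, n2, decide_eq_false (by omega), decide_eq_false (by omega)]
      simp
    · rw [hnb]
      rw [n2] at hnb
      have := of_decide_eq_true hnb
      rw [n0, n1, decide_eq_false (by omega), decide_eq_false (by omega)]
      simp
  have h2 : adjDir y x = false := by
    unfold adjDir
    rw [n0, n1, n2]
    have hk' : k = 0 ∨ k = 1 ∨ k = 2 := by omega
    rcases hk' with rfl | rfl | rfl
    · rw [n0] at hnb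
      have := of_decide_eq_true hnb
      rw [decide_eq_false (by omega), decide_eq_false (by omega), decide_eq_false (by omega)]
      simp
    · rw [n1] at hnb
      have := of_decide_eq_true hnb
      rw [decide_eq_false (by omega), decide_eq_false (by omega), decide_eq_false (by omega)]
      simp
    · rw [n2] at hnb
      have := of_decide_eq_true hnb
      rw [decide_eq_false (by omega), decide_eq_false (by omega), decide_eq_false (by omega)]
      simp
  unfold adjV
  rw [h1, h2, decide_eq_false hne, decide_eq_false (Ne.symm hne)]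
  simp

theorem adj_not_nb {x y : VC} (hne : x.1 ≠ y.1)
    (h : ∀ k < 3, nb k x.1 y.1 = false ∧ nb k y.1 x.1 = false) : adjV x y = false := by
  unfold adjV adjDir
  rw [(h 0 (by norm_num)).1, (h 0 (by norm_num)).2, (h 1 (by norm_num)).1,
    (h 1 (by norm_num)).2, (h 2 (by norm_num)).1, (h 2 (by norm_num)).2, decide_eq_false hne]
  simp

include hwf hv hops in
/-- all pairs -/
theorem pair_all {N M : ℕ} {x y : VC}
    (hx : Good T ops v N M x) (hy : Good T ops v N M y) :
    NoTie (ptOf T ops v N M x) (ptOf T ops v N M y) ∧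
    (TouchG (ptOf T ops v N M x) (ptOf T ops v N M y) ↔ adjV x y = true) := by
  by_cases hs : x.1 = y.1
  · have hsite : (ptOf T ops v N M x).site = (ptOf T ops v N M y).site := by
      unfold ptOf; simp only; rw [hs]
    constructor
    · intro h1
      exfalso
      unfold Nbr sdiff at h1
      rw [hsite] at h1
      simp at h1
    · refine ⟨fun _ => ?_, fun _ => Or.inl hsite⟩
      unfold adjV
      rw [decide_eq_true hs]
      simp
  by_cases hn : ∃ k < 3, nb k x.1 y.1 = true ∨ nb k y.1 x.1 = true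
  · obtain ⟨k, hk, h | h⟩ := hn
    · obtain ⟨h1, h2⟩ := pair_nb hwf hv hops hx hy hk h
      exact ⟨h1, h2.trans (adj_nb hk h).1.symm⟩
    · obtain ⟨h1, h2⟩ := pair_nb hwf hv hops hy hx hk h
      refine ⟨noTie_symm h1, ?_⟩
      rw [(adj_nb hk h).2, ← h2]
      exact ⟨touchG_symm, touchG_symm⟩
  · constructor
    · intro h1
      exact absurd (nbr_nb h1) hn
    · have hf : adjV x y = false := by
        apply adj_not_nb hs
        intro k hk
        constructor
        · by_contra h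
          exact hn ⟨k, hk, Or.inl (by simpa using h)⟩
        · by_contra h
          exact hn ⟨k, hk, Or.inr (by simpa using h)⟩
      rw [hf]
      refine ⟨?_, fun h => absurd h (by simp)⟩
      rintro (h | ⟨h, -⟩)
      · exfalso
        apply hs
        unfold ptOf at h
        simp only [Prod.mk.injEq, Nat.cast_inj] at h
        ext
        · exact h.1
        · exact h.2
      · exact absurd (nbr_nb h) hn

end

/-- **Completeness of the geometric construction.** -/
theorem geoComplete (T : ℕ) (ops : List Op) (v : ℕ → ℝ) (hwf : ∀ o ∈ ops, OpWF T o)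
    (hv : ∀ a < T, 0 < v a ∧ v a < 3 / 5) (hops : ∀ o ∈ ops, OpHolds v o) (N M : ℕ) :
    ∃ p : VC → ℝ × ℝ, RealizesOn (verts T ops N M) adjV p := by
  classical
  obtain ⟨pos, hpos⟩ := touchG_all
    (fun x : {x // x ∈ (verts T ops N M).toFinset} => ptOf T ops v N M x.1)
    (fun x y _ => (pair_all hwf hv hops
      (good_of_mem hwf hv hops (List.mem_toFinset.1 x.2))
      (good_of_mem hwf hv hops (List.mem_toFinset.1 y.2))).1)
  refine ⟨fun x => if h : x ∈ (verts T ops N M).toFinset then pos ⟨x, h⟩ else (0, 0), ?_⟩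
  intro x hx y hy hxy
  have hx' : x ∈ (verts T ops N M).toFinset := List.mem_toFinset.2 hx
  have hy' : y ∈ (verts T ops N M).toFinset := List.mem_toFinset.2 hy
  have h := hpos ⟨x, hx'⟩ ⟨y, hy'⟩ (fun h => hxy (congrArg Subtype.val h))
  have h2 := (pair_all hwf hv hops (good_of_mem hwf hv hops hx)
    (good_of_mem hwf hv hops hy)).2
  simp only [hx', hy', dif_pos]
  rw [h]
  exact h2.symm

end Pool.Agent.MP1cb9f1
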