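import Pool.Agent.Lib.MP_1cb9f1_lc.Iface

/-!
# The geometric construction of `MP_1cb9f1_lc`: vertex codes, adjacency, layout

Vertices are coded by `((i, j), (lam, l))`: the site `(i, j)` of the triangular lattice, the level
`lam` (`0` = the computing region, the finest level; larger = coarser) and the label `l < 44`.

Coordinates of a displacement `X`: `s0 = e0 · X`, `s1 = e1 · X`, `s2 = e2 · X = s1 - s0`, where
`e0, e1, e2` are unit vectors at `0`, `60`, `120` degrees.  The neighbours of a site `(i, j)` in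
these directions are `(i + 1, j)`, `(i, j + 1)`, `(i - 1, j + 1)`.

Labels (`(s0, s1)` is the nominal displacement; `R` is the value of the row `j`, `Ca < Cb` the two
values of the column `i`, `D` the value of the antidiagonal `i + j`, all in `(0, 3/5)`):
* `0 .. 18`: frames `(a, b)`, `|a|, |b|, |b - a| ≤ 2`, in lexicographic order
  (`(-2,-2), (-2,-1), (-2,0), (-1,-2), .., (-1,1), (0,-2), .., (0,2), (1,-1), .., (1,2), (2,0),
  (2,1), (2,2)`);
* `19, 20`: row points `(R, 1)`, `(R, 9/10)` (sites with `j` even);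
* `21, 22, 23, 24`: column points `(-1, Ca)`, `(-13/10, Ca)`, `(-1, Cb)`, `(-13/10, Cb)` (`i` even);
* `25, 26`: antidiagonal points `(0, -D)`, `(-1, -1 - D)` (`i + j` even);
* junctions (`i`, `j` even, at most one per site): `27`: `(R, Ca)` with `R = Ca`; `28`: `(R, Cb)`
  with `R = Cb`; `29`: `(R, Cb)` with `Cb - R = - D`; `30`: `(1, Cb)` with `Cb - 1 = - D`;
  `31`: `(R, 0)` with `R = D`;
* product gadget: at a site with `i` even, `j` odd: `32, 33, 34`: `(9/5, Cb)`, `(9/5, 0)`,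
  `(9/5, Ca)`; at the next site `(i + 1, j)`: `35, 36, 37`: `(9/5, 9/5 - D)`, `(9/5, 4/5)`,
  `(9/5, 9/5)` (pattern forcing `Cb * D < Ca`); `38 .. 43`: the same with the other pattern
  (forcing `Ca < Cb * D`).

Adjacency: points at the same site are adjacent; points at sites which are not neighbours are not
adjacent; for `p` at `v` and `q` at `v + e_k` see `rule`.
-/

set_option autoImplicit false

namespace Pool.Agent.MP1cb9f1

open Pool.Agent.Lib.MP_1cb9f1_lc

/-! ## Labels and keys -/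

/-- The keys of the labels in the three directions: they order the values of `s_k`.
Direction `0`: `-2 ↦ 0, -13/10 ↦ 1, -1 ↦ 2, 0 ↦ 3, R ↦ 4, 1 ↦ 5, 9/5 ↦ 6, 2 ↦ 7`. -/
def keyTab0 : List ℕ :=
  [0, 0, 0, 2, 2, 2, 2, 3, 3, 3, 3, 3, 5, 5, 5, 5, 7, 7, 7, 4, 4, 2, 1, 2, 1, 3, 2, 4, 4, 4, 5, 4,
    6, 6, 6, 6, 6, 6, 6, 6, 6, 6, 6, 6]

/-- Direction `1`: `-2 ↦ 0, -1-D ↦ 1, -1 ↦ 2, -D ↦ 3, 0 ↦ 4, Ca ↦ 5, Cb ↦ 6, 4/5 ↦ 7, 9/10 ↦ 8,
1 ↦ 9, 9/5-D ↦ 10, 9/5 ↦ 11, 2 ↦ 12`. -/
def keyTab1 : List ℕ :=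
  [0, 2, 4, 0, 2, 4, 9, 0, 2, 4, 9, 12, 2, 4, 9, 12, 4, 9, 12, 9, 8, 5, 5, 6, 6, 3, 1, 5, 6, 6, 6,
    4, 6, 4, 5, 10, 7, 11, 6, 4, 5, 10, 7, 11]

/-- Direction `2`: `-2 ↦ 0`, gadget points `C - 9/5 ↦ 1`, `-1 ↦ 2, -D ↦ 3, 0 ↦ 4`, row points
`1-R, 9/10-R ↦ 5`, `1 ↦ 6`, column points `C+1, C+13/10 ↦ 7`, `2 ↦ 8`. -/
def keyTab2 : List ℕ :=
  [4, 6, 8, 2, 4, 6, 8, 0, 2, 4, 6, 8, 0, 2, 4, 6, 0, 2, 4, 5, 5, 7, 7, 7, 7, 3, 3, 4, 4, 3, 3, 3,
    1, 1, 1, 3, 2, 4, 1, 1, 1, 3, 2, 4]

/-- The key of the label `l` in direction `k`. -/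
def ky (k l : ℕ) : ℕ :=
  if k = 0 then keyTab0.getD l 0 else if k = 1 then keyTab1.getD l 0 else keyTab2.getD l 0

/-- The key of the value `0` in direction `k`. -/
def kz (k : ℕ) : ℕ := if k = 0 then 3 else 4

/-- The adjacent pairs of gadget points (in direction `0`). -/
def gadgetPairs : List (ℕ × ℕ) :=
  [(32, 35), (33, 36), (34, 37), (34, 35), (39, 41), (40, 42), (38, 43), (40, 41)]

/-- The six corners `(1,1), (0,1), (-1,0), (-1,-1), (0,-1), (1,0)` (labels of the points of the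
levels `≥ 1`). -/
def corners : List ℕ := [14, 10, 5, 4, 8, 13]

/-! ## Adjacency -/

/-- Vertex codes `((i, j), (lam, l))`. -/
abbrev VC := (ℕ × ℕ) × (ℕ × ℕ)

/-- The adjacency of `p = (lam, l)` at `v` and `q = (lam', l')` at `v + e_k`. -/
def rule (k : ℕ) (p q : ℕ × ℕ) : Bool :=
  if p.1 = q.1 then
    decide (p.2 = q.2) || decide (ky k q.2 < ky k p.2) ||
      (decide (k = 0) && decide ((p.2, q.2) ∈ gadgetPairs))
  else if q.1 < p.1 then decide (kz k < ky k p.2)
  else decide (ky k q.2 < kz k)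

/-- `t` is the neighbour of `s` in direction `k`. -/
def nb (k : ℕ) (s t : ℕ × ℕ) : Bool :=
  if k = 0 then decide (t.1 = s.1 + 1) && decide (t.2 = s.2)
  else if k = 1 then decide (t.1 = s.1) && decide (t.2 = s.2 + 1)
  else decide (t.1 + 1 = s.1) && decide (t.2 = s.2 + 1)

/-- The adjacency of a pair in a given order. -/
def adjDir (x y : VC) : Bool :=
  (nb 0 x.1 y.1 && rule 0 x.2 y.2) || (nb 1 x.1 y.1 && rule 1 x.2 y.2) ||
    (nb 2 x.1 y.1 && rule 2 x.2 y.2)

/-- The adjacency of two vertices. -/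
def adjV (x y : VC) : Bool := decide (x.1 = y.1) || adjDir x y || adjDir y x

/-! ## Operations -/

/-- Operations on the row values `v`, coded by `(code, a, b, c)`:
* `0`: `v a = v b`;
* `1`: `v a + v b = v c`;
* `2`: `v a + v b = 1`;
* `3`: `v a * v b < v c`;
* `4`: `v c < v a * v b`. -/
abbrev Op := ℕ × (ℕ × (ℕ × ℕ))

/-- The exact meaning of an operation (row values in `(0, 3/5)`; in the case of the code `3` also
`v c < v a`, which the layout needs). -/
def OpHolds (v : ℕ → ℝ) (o : Op) : Prop :=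
  (o.1 = 0 → v o.2.1 = v o.2.2.1) ∧ (o.1 = 1 → v o.2.1 + v o.2.2.1 = v o.2.2.2) ∧
    (o.1 = 2 → v o.2.1 + v o.2.2.1 = 1) ∧
    (o.1 = 3 → v o.2.1 * v o.2.2.1 < v o.2.2.2 ∧ v o.2.2.2 < v o.2.1) ∧
    (o.1 = 4 → v o.2.2.2 < v o.2.1 * v o.2.2.1)

/-- The approximate meaning of an operation. -/
def OpApprox (δ : ℝ) (v : ℕ → ℝ) (o : Op) : Prop :=
  (o.1 = 0 → |v o.2.1 - v o.2.2.1| ≤ δ) ∧ (o.1 = 1 → |v o.2.1 + v o.2.2.1 - v o.2.2.2| ≤ δ) ∧
    (o.1 = 2 → |v o.2.1 + v o.2.2.1 - 1| ≤ δ) ∧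
    (o.1 = 3 → v o.2.1 * v o.2.2.1 ≤ v o.2.2.2 + δ) ∧
    (o.1 = 4 → v o.2.2.2 ≤ v o.2.1 * v o.2.2.1 + δ)

/-- Well-formed operations on `T` rows. For the code `0` the row `b` is above `a`, for the code `1`
the row `c` is above `a` and `b`, for the codes `3`, `4` the row `c` is above `a`; this is what the
layout needs. -/
def OpWF (T : ℕ) (o : Op) : Prop :=
  o.1 < 5 ∧ o.2.1 < T ∧ o.2.2.1 < T ∧ o.2.2.2 < T ∧
    (o.1 = 0 → o.2.1 < o.2.2.1) ∧ (o.1 = 1 → o.2.1 < o.2.2.2 ∧ o.2.2.1 < o.2.2.2) ∧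
    (o.1 = 3 → o.2.1 < o.2.2.2) ∧ (o.1 = 4 → o.2.1 < o.2.2.2)

/-- The number of rows. Rows `0 .. n-1` are the quantities (times `1/32`), row `n` is a spare row,
rows `n+1 .. n+4` are `2, 4, 8, 16` times row `0`, row `n+5+e` belongs to the gate number `e`. -/
def rowsT (n : ℕ) (gs : List Gate) : ℕ := n + 5 + gs.length

/-- The operations of a gate, `t` being its own row. -/
def opsGate (t : ℕ) : Gate → List Op
  | .add i j l => [(1, i, j, t), (0, l, t, 0)]
  | .lt x y z u => [(3, x, y, t), (4, z, u, t)]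

/-- The operations of an instance. -/
def opsOf (n : ℕ) (gs : List Gate) : List Op :=
  [(1, 0, 0, n + 1), (1, n + 1, n + 1, n + 2), (1, n + 2, n + 2, n + 3),
    (1, n + 3, n + 3, n + 4), (2, n + 4, n + 4, 0)] ++
    gs.zipIdx.flatMap fun g => opsGate (n + 5 + g.2) g.1

/-! ## Layout -/

/-- The lattice row of the quantity `a`. -/
def rho (a : ℕ) : ℕ := 2 * a + 2

/-- The additional labels of an operation at the site `(x, y)` of its block. -/
def opExtras (T : ℕ) (o : Op) (x y : ℕ) : List ℕ :=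
  if o.1 = 0 then
    if x = 2 ∧ (y = rho o.2.1 ∨ y = rho o.2.2.1) then [28] else []
  else if o.1 = 1 then
    if x = 2 ∧ y = rho o.2.2.1 then [28]
    else if x = 2 ∧ y = rho o.2.2.2 then [29]
    else if y = rho o.2.1 ∧ x + rho o.2.1 = 2 + rho o.2.2.2 then [31] else []
  else if o.1 = 2 then
    if x = 2 ∧ y = rho o.2.2.1 then [28]
    else if x = 2 ∧ y = rho T then [30]
    else if y = rho o.2.1 ∧ x + rho o.2.1 = 2 + rho T then [31] else []
  else
    if x = 2 ∧ y = rho o.2.1 then [28]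
    else if x = 2 ∧ y = rho o.2.2.2 then [27]
    else if y = rho o.2.2.1 ∧ x + rho o.2.2.1 = 4 + rho T then [31]
    else if x = 2 ∧ y = rho T + 1 then (if o.1 = 3 then [32, 33, 34] else [38, 39, 40])
    else if x = 3 ∧ y = rho T + 1 then (if o.1 = 3 then [35, 36, 37] else [41, 42, 43])
    else []

/-- The width of a block of columns. -/
def blk (T : ℕ) : ℕ := 2 * T + 10

/-- The operation of the block containing the column `i`. -/
def opAt (T : ℕ) (ops : List Op) (i : ℕ) : Op := ops.getD (i / blk T) (0, 0, 0, 0)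

/-- The additional labels at the region site `(i, j)`. -/
def extrasAt (T : ℕ) (ops : List Op) (i j : ℕ) : List ℕ :=
  if i / blk T < ops.length then opExtras T (opAt T ops i) (i % blk T) j else []

/-- The labels of the computing points at the region site `(i, j)`. -/
def labelsAt (T : ℕ) (ops : List Op) (i j : ℕ) : List ℕ :=
  List.range 19 ++ (if j % 2 = 0 then [19, 20] else []) ++
    (if i % 2 = 0 then [21, 22, 23, 24] else []) ++
    (if (i + j) % 2 = 0 then [25, 26] else []) ++ extrasAt T ops i j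

/-- The region consists of the sites `(i, j)` with `i ≤ regI`, `j ≤ regJ`. -/
def regI (T : ℕ) (ops : List Op) : ℕ := blk T * ops.length + 2

/-- The region consists of the sites `(i, j)` with `i ≤ regI`, `j ≤ regJ`. -/
def regJ (T : ℕ) : ℕ := 2 * T + 6

/-- The vertical shift of the region, `N` being the length of the tower, `M` the number of seed
levels. -/
def shiftK (N M : ℕ) : ℕ := 2 * (N + M + 3)

/-- The strip site number `g`: `g = 2 h ↦ (0, K + 1 - h)`, `g = 2 h + 1 ↦ (1, K - h)`. -/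
def siteOf (K g : ℕ) : ℕ × ℕ := if g % 2 = 0 then (0, K + 1 - g / 2) else (1, K - g / 2)

/-- The computing points. -/
def regionV (K T : ℕ) (ops : List Op) : List VC :=
  (List.range (regI T ops + 1)).flatMap fun i => (List.range (regJ T + 1)).flatMap fun j =>
    (labelsAt T ops i j).map fun l => ((i, K + j), (0, l))

/-- The tower points: level `lam = m + 1`, `m < N`, at the strip sites `m, .., m + 3`. -/
def towerV (K N : ℕ) : List VC :=
  (List.range N).flatMap fun m => (List.range 4).flatMap fun d =>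
    corners.map fun c => (siteOf K (m + d), (m + 1, c))

/-- The seed points: levels `N + 1 + m`, `m < M`, at the strip sites `N, N + 1, N + 2`. -/
def seedV (K N M : ℕ) : List VC :=
  (List.range M).flatMap fun m => (List.range 3).flatMap fun d =>
    corners.map fun c => (siteOf K (N + d), (N + 1 + m, c))

/-- All vertices. -/
def verts (T : ℕ) (ops : List Op) (N M : ℕ) : List VC :=
  regionV (shiftK N M) T ops ++ towerV (shiftK N M) N ++ seedV (shiftK N M) N M

/-- The length of the tower; `c` is a constant. -/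
def towerN (c n : ℕ) (gs : List Gate) (L : ℕ) : ℕ :=
  L + c * (regI (rowsT n gs) (opsOf n gs) + regJ (rowsT n gs)) + c

/-- The vertex list of the reduction; `M` and `c` are constants. -/
def VLgeo (M c n : ℕ) (gs : List Gate) (L : ℕ) : List VC :=
  verts (rowsT n gs) (opsOf n gs) (towerN c n gs L) M

end Pool.Agent.MP1cb9f1
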