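import Pool.Agent.Lib.MP_1cb9f1_lc.Iface
import Pool.Agent.Lib.CookLevin.Nat
import Pool.Agent.Lib.PolyTime.Lists

/-!
# Graphs given by a list of vertex codes and a Boolean adjacency function
-/

namespace Pool.Agent.Lib.MP_1cb9f1_lc

open Pool.Agent.PolyTime

/-- The word of the graph on the members of the list `VL` (numbered by their positions). -/
def listWord {β : Type} (VL : List β) (adj : β → β → Bool) : List Bool :=
  List.replicate VL.length true ++ false ::
    VL.zipIdx.flatMap fun p => VL.zipIdx.flatMap fun q =>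
      if decide (p.2 + 1 ≤ q.2) && adj p.1 q.1 then
        List.replicate p.2 true ++ false :: List.replicate q.2 true ++ [false] else []

/-- `p` realizes the graph on the members of `VL` as a unit disk graph. -/
def RealizesOn {β : Type} (VL : List β) (adj : β → β → Bool) (p : β → ℝ × ℝ) : Prop :=
  ∀ x ∈ VL, ∀ y ∈ VL, x ≠ y → (adj x y = true ↔ Near (p x) (p y))

theorem near_comm (a b : ℝ × ℝ) : Near a b ↔ Near b a := by
  unfold Near
  rw [show (a.1 - b.1) ^ 2 + (a.2 - b.2) ^ 2 = (b.1 - a.1) ^ 2 + (b.2 - a.2) ^ 2 by ring]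

/-- The graph of a list. -/
def listGraph {β : Type} (VL : List β) (adj : β → β → Bool) : SimpleGraph (Fin VL.length) where
  Adj i j := i ≠ j ∧ (adj (VL.get i) (VL.get j) = true ∧ adj (VL.get j) (VL.get i) = true)
  symm := ⟨fun _ _ h => ⟨h.1.symm, h.2.2, h.2.1⟩⟩
  loopless := ⟨fun _ h => h.1 rfl⟩

theorem zipIdx_eq_finRange {β : Type} (VL : List β) :
    VL.zipIdx = (List.finRange VL.length).map fun i => (VL.get i, (i : ℕ)) := by
  apply List.ext_getElem
  · simp
  · intro n h1 h2
    simp

theorem graphWord_listGraph {β : Type} (VL : List β) (adj : β → β → Bool)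
    (hsymm : ∀ x ∈ VL, ∀ y ∈ VL, adj x y = true → adj y x = true) :
    graphWord VL.length (listGraph VL adj) = listWord VL adj := by
  classical
  unfold graphWord listWord
  congr 2
  rw [zipIdx_eq_finRange, List.flatMap_map]
  congr 1
  funext i
  rw [List.flatMap_map]
  congr 1
  funext j
  have h : (i < j ∧ (listGraph VL adj).Adj i j) ↔
      (decide ((i : ℕ) + 1 ≤ (j : ℕ)) && adj (VL.get i) (VL.get j)) = true := by
    rw [Bool.and_eq_true, decide_eq_true_iff]
    constructor
    · rintro ⟨h1, h2⟩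
      exact ⟨h1, h2.2.1⟩
    · rintro ⟨h1, h2⟩
      exact ⟨h1, (Fin.ne_of_lt h1), h2, hsymm _ (List.get_mem VL i) _ (List.get_mem VL j) h2⟩
  by_cases hc : i < j ∧ (listGraph VL adj).Adj i j
  · rw [if_pos hc, if_pos (h.1 hc)]
  · rw [if_neg hc, if_neg (fun h' => hc (h.2 h'))]

theorem listGraph_udg {β : Type} [DecidableEq β] (VL : List β) (hnd : VL.Nodup)
    (adj : β → β → Bool)
    (hsymm : ∀ x ∈ VL, ∀ y ∈ VL, adj x y = true → adj y x = true) :
    IsUnitDiskGraph (listGraph VL adj) ↔ ∃ p, RealizesOn VL adj p := by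
  rw [isUnitDiskGraph_iff]
  constructor
  · rintro ⟨p, hp⟩
    refine ⟨fun x => if h : x ∈ VL then p ⟨VL.idxOf x, List.idxOf_lt_length_iff.2 h⟩ else (0, 0),
      ?_⟩
    intro x hx y hy hxy
    have hgx : VL.get ⟨VL.idxOf x, List.idxOf_lt_length_iff.2 hx⟩ = x := by simp
    have hgy : VL.get ⟨VL.idxOf y, List.idxOf_lt_length_iff.2 hy⟩ = y := by simp
    have hne : (⟨VL.idxOf x, List.idxOf_lt_length_iff.2 hx⟩ : Fin VL.length) ≠
        ⟨VL.idxOf y, List.idxOf_lt_length_iff.2 hy⟩ := by
      intro h
      apply hxy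
      rw [← hgx, ← hgy, h]
    have h := hp _ _ hne
    simp only [hx, hy, dif_pos]
    rw [← h]
    constructor
    · intro h1
      refine ⟨hne, ?_, ?_⟩
      · rw [hgx, hgy]; exact h1
      · rw [hgx, hgy]; exact hsymm x hx y hy h1
    · intro h1
      have := h1.2.1
      rw [hgx, hgy] at this
      exact this
  · rintro ⟨p, hp⟩
    refine ⟨fun i => p (VL.get i), fun i j hij => ?_⟩
    have hne : VL.get i ≠ VL.get j := fun h => hij (List.nodup_iff_injective_get.1 hnd h)
    have h := hp _ (List.get_mem VL i) _ (List.get_mem VL j) hne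
    rw [← h]
    constructor
    · intro h1
      exact h1.2.1
    · intro h1
      exact ⟨hij, h1, hsymm _ (List.get_mem VL i) _ (List.get_mem VL j) h1⟩

theorem listGraph_degree {β : Type} [DecidableEq β] (VL : List β) (hnd : VL.Nodup)
    (adj : β → β → Bool) (Δ : ℕ)
    (hdeg : ∀ x ∈ VL, (VL.filter fun y => adj x y).length ≤ Δ) :
    MaxDegreeLE (listGraph VL adj) Δ := by
  intro i
  refine le_trans ?_ (hdeg _ (List.get_mem VL i))
  have hinj : Function.Injective VL.get := List.nodup_iff_injective_get.1 hnd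
  have h1 : ((VL.filter fun y => adj (VL.get i) y).toFinset : Finset β).card =
      (VL.filter fun y => adj (VL.get i) y).length :=
    List.toFinset_card_of_nodup (hnd.filter _)
  rw [← h1, ← Set.ncard_image_of_injective _ hinj, ← Set.ncard_coe_finset]
  apply Set.ncard_le_ncard
  · rintro _ ⟨j, hj, rfl⟩
    have h2 : adj (VL.get i) (VL.get j) = true := hj.2.1
    simp only [List.coe_toFinset, Set.mem_ofPred_eq, List.mem_filter]
    exact ⟨List.get_mem VL j, h2⟩
  · exact Finset.finite_toSet _

section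
variable {α β : Type} [Enc α] [Enc β]

theorem ptime_trues {f : α → ℕ} (hf : PTime f) : PTime (fun x => List.replicate (f x) true) :=
  (PTime.map (g := fun (_ : α) (_ : ℕ) => true) (PTime.range hf) (PTime.const true)).of_eq
    fun x => by simp

theorem ptime_listWord {V : α → List β} {adj : α → β → β → Bool} (hV : PTime V)
    (hadj : PTime (fun p : α × (β × β) => adj p.1 p.2.1 p.2.2)) :
    PTime (fun x => listWord (V x) (adj x)) := by
  have hle : ∀ {γ : Type} [Enc γ] {f g : γ → ℕ}, PTime f → PTime g →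
      PTime (fun x => decide (f x + 1 ≤ g x)) := by
    intro γ _ f g hf hg
    have h1 : PTime (fun x => (List.range (g x)).any fun k => decide (k = f x)) :=
      PTime.any (g := fun (x : γ) (k : ℕ) => decide (k = f x)) (PTime.range hg)
        (PTime.eq PTime.snd (hf.comp PTime.fst))
    refine h1.of_eq fun x => ?_
    rw [Bool.eq_iff_iff, List.any_eq_true, decide_eq_true_iff]
    constructor
    · rintro ⟨k, hk, hk2⟩
      rw [List.mem_range] at hk
      rw [decide_eq_true_iff] at hk2
      omega
    · intro h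
      exact ⟨f x, List.mem_range.2 h, by simp⟩
  have hz : PTime (fun x => (V x).zipIdx) := hV.zipIdx
  have h1 : PTime₂ (fun (x : α × (β × ℕ)) (q : β × ℕ) =>
      if decide (x.2.2 + 1 ≤ q.2) && adj x.1 x.2.1 q.1 then
        List.replicate x.2.2 true ++ false :: List.replicate q.2 true ++ [false] else []) := by
    have e1 : PTime (fun p : (α × (β × ℕ)) × (β × ℕ) => p.1.1) := PTime.fst.comp PTime.fst
    have e2 : PTime (fun p : (α × (β × ℕ)) × (β × ℕ) => p.1.2.1) :=
      PTime.fst.comp (PTime.snd.comp PTime.fst)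
    have e3 : PTime (fun p : (α × (β × ℕ)) × (β × ℕ) => p.1.2.2) :=
      PTime.snd.comp (PTime.snd.comp PTime.fst)
    have e4 : PTime (fun p : (α × (β × ℕ)) × (β × ℕ) => p.2.1) := PTime.fst.comp PTime.snd
    have e5 : PTime (fun p : (α × (β × ℕ)) × (β × ℕ) => p.2.2) := PTime.snd.comp PTime.snd
    have ha : PTime (fun p : (α × (β × ℕ)) × (β × ℕ) => adj p.1.1 p.1.2.1 p.2.1) :=
      PTime.comp (f := fun p : α × (β × β) => adj p.1 p.2.1 p.2.2)
        (g := fun p : (α × (β × ℕ)) × (β × ℕ) => (p.1.1, (p.1.2.1, p.2.1))) hadj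
        (e1.pair (e2.pair e4))
    have hc : PTime (fun p : (α × (β × ℕ)) × (β × ℕ) =>
        decide (p.1.2.2 + 1 ≤ p.2.2) && adj p.1.1 p.1.2.1 p.2.1) := (hle e3 e5).and ha
    have hw : PTime (fun p : (α × (β × ℕ)) × (β × ℕ) =>
        List.replicate p.1.2.2 true ++ false :: List.replicate p.2.2 true ++ [false]) :=
      ((ptime_trues e3).append ((PTime.const false).cons (ptime_trues e5))).append
        (PTime.const [false])
    exact PTime.ite hc hw (PTime.const [])
  have h2 : PTime₂ (fun (x : α) (p : β × ℕ) => (V x).zipIdx.flatMap fun q =>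
      if decide (p.2 + 1 ≤ q.2) && adj x p.1 q.1 then
        List.replicate p.2 true ++ false :: List.replicate q.2 true ++ [false] else []) :=
    PTime.flatMap (f := fun x : α × (β × ℕ) => (V x.1).zipIdx)
      (g := fun (x : α × (β × ℕ)) (q : β × ℕ) =>
        if decide (x.2.2 + 1 ≤ q.2) && adj x.1 x.2.1 q.1 then
          List.replicate x.2.2 true ++ false :: List.replicate q.2 true ++ [false] else [])
      (hz.comp PTime.fst) h1
  exact (ptime_trues hV.length).append ((PTime.const false).cons (PTime.flatMap hz h2))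

end

end Pool.Agent.Lib.MP_1cb9f1_lc
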