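import Pool.Agent.Lib.MP_1cb9f1_lc.GenComplete2
import Pool.Agent.Lib.MP_1cb9f1_lc.GeoDefs
import Pool.Agent.Lib.MP_1cb9f1_lc.ListGraph

/-!
# Completeness of the geometric construction (MP_1cb9f1_lc)

Every assignment of row values in `(0, 3/5)` for which the operations hold is realized by a
placement of all the points of `verts` with exactly the prescribed adjacency.
-/

set_option autoImplicit false

namespace Pool.Agent.MP1cb9f1

open Pool.Agent.Lib.MP_1cb9f1_lc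

/-! ## Oblique coordinates -/

/-- the displacement with `s0 = a`, `s1 = b` -/
noncomputable def vec (a b : ℝ) : ℝ × ℝ := (a, (2 * b - a) / Real.sqrt 3)

/-- the coordinate `s_k` of `vec a b` -/
def skv (k : ℕ) (a b : ℝ) : ℝ := if k = 0 then a else if k = 1 then b else b - a

/-- the direction number `k` -/
def dk (k : ℕ) : ℤ × ℤ := if k = 0 then (1, 0) else if k = 1 then (0, 1) else (-1, 1)

theorem sqrt3_pos : (0 : ℝ) < Real.sqrt 3 := Real.sqrt_pos.2 (by norm_num)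

theorem sqrt3_ne : Real.sqrt 3 ≠ 0 := sqrt3_pos.ne'

theorem vec_sub (a b c d : ℝ) :
    ((vec c d).1 - (vec a b).1, (vec c d).2 - (vec a b).2) = vec (c - a) (d - b) := by
  unfold vec
  ext
  · rfl
  · simp only
    rw [← sub_div]
    congr 1
    ring

theorem vec_neg (a b : ℝ) : (0 - (vec a b).1, 0 - (vec a b).2) = vec (-a) (-b) := by
  unfold vec
  ext
  · simp
  · simp only
    rw [zero_sub, ← neg_div]
    congr 1
    ring

theorem vec_zero (a b : ℝ) : ((vec a b).1 - 0, (vec a b).2 - 0) = vec a b := by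
  ext <;> simp

theorem dirDot_vec (k : ℕ) (a b : ℝ) : dirDot (dk k) (vec a b) = 2 * skv k a b := by
  have h := sqrt3_ne
  unfold dirDot dk skv vec
  split_ifs
  · push_cast; ring
  · push_cast
    field_simp
    ring
  · push_cast
    field_simp
    ring

theorem norm_vec (a b : ℝ) :
    (vec a b).1 ^ 2 + (vec a b).2 ^ 2 = 4 / 3 * (a ^ 2 - a * b + b ^ 2) := by
  have h3 : Real.sqrt 3 ^ 2 = 3 := Real.sq_sqrt (by norm_num)
  unfold vec
  simp only
  rw [div_pow, h3]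
  ring

theorem skv_sub (k : ℕ) (a b c d : ℝ) : skv k (c - a) (d - b) = skv k c d - skv k a b := by
  unfold skv; split_ifs <;> ring

theorem skv_neg (k : ℕ) (a b : ℝ) : skv k (-a) (-b) = - skv k a b := by
  unfold skv; split_ifs <;> ring

/-! ## Symmetry -/

theorem dirDot_neg (d : ℤ × ℤ) (D : ℝ × ℝ) :
    dirDot (-d.1, -d.2) (-D.1, -D.2) = dirDot d D := by
  unfold dirDot; push_cast; ring

theorem sdiff_symm (p q : Pt) : sdiff q p = (-(sdiff p q).1, -(sdiff p q).2) := by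
  unfold sdiff; ext <;> simp

theorem effD_symm (p q : Pt) : effD q p = (-(effD p q).1, -(effD p q).2) := by
  unfold effD; ext <;> simp

theorem effE_symm (p q : Pt) : effE q p = (-(effE p q).1, -(effE p q).2) := by
  unfold effE; ext <;> simp

theorem nbr_symm {p q : Pt} (h : Nbr p q) : Nbr q p := by
  unfold Nbr at h ⊢
  rw [sdiff_symm]
  simp only
  linarith

theorem sec_symm (p q : Pt) : sec q p = sec p q := by
  unfold sec
  rw [sdiff_symm, effD_symm, effE_symm, dirDot_neg]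
  simp only
  ring

theorem dot_symm (p q : Pt) :
    dirDot (sdiff q p) (effD q p) = dirDot (sdiff p q) (effD p q) := by
  rw [sdiff_symm, effD_symm, dirDot_neg]

theorem sameX_symm {p q : Pt} (h : SameX p q) : SameX q p := ⟨h.1.symm, h.2.1.symm, h.2.2.symm⟩

theorem touchG_symm {p q : Pt} (h : TouchG p q) : TouchG q p := by
  unfold TouchG at h ⊢
  rw [dot_symm, sec_symm]
  rcases h with h | ⟨h1, h2⟩
  · exact Or.inl h.symm
  · refine Or.inr ⟨nbr_symm h1, ?_⟩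
    rcases h2 with h2 | h2 | h2
    · exact Or.inl h2
    · exact Or.inr (Or.inl h2)
    · exact Or.inr (Or.inr (sameX_symm h2))

theorem noTie_symm {p q : Pt} (h : NoTie p q) : NoTie q p := by
  intro h1 h2 h3
  rw [dot_symm] at h2
  rw [sec_symm] at h3
  exact sameX_symm (h (nbr_symm h1) h2 h3)

/-! ## Pairs in the direction number `k` -/

/-- `p` has the data `(a, b)`, `(a', b')` -/
structure HasD (p : Pt) (a b a' b' : ℝ) : Prop where
  X : p.X = vec a b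
  Y : p.Y = vec a' b'

theorem eff_same {p q : Pt} {k : ℕ} {a b a' b' c d c' d' : ℝ} (hp : HasD p a b a' b')
    (hq : HasD q c d c' d') (hk : sdiff p q = dk k) (hl : p.lev = q.lev) :
    dirDot (sdiff p q) (effD p q) = 2 * (skv k c d - skv k a b) ∧
    sec p q = 4 / 3 * ((c - a) ^ 2 - (c - a) * (d - b) + (d - b) ^ 2) +
      4 * (skv k c' d' - skv k a' b') := by
  have e1 : effD p q = vec (c - a) (d - b) := by
    rw [← vec_sub]
    unfold effD
    rw [if_pos hl.ge, if_pos hl.le, if_pos hl.ge, if_pos hl.le, hp.X, hq.X]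
  have e2 : effE p q = vec (c' - a') (d' - b') := by
    rw [← vec_sub]
    unfold effE
    rw [if_pos hl.ge, if_pos hl.le, if_pos hl.ge, if_pos hl.le, hp.Y, hq.Y]
  unfold sec
  rw [e1, e2, hk, dirDot_vec, dirDot_vec, norm_vec, skv_sub, skv_sub]
  constructor <;> ring

theorem eff_coarse {p q : Pt} {k : ℕ} {a b a' b' : ℝ} (hp : HasD p a b a' b')
    (hk : sdiff p q = dk k) (hl : p.lev < q.lev) :
    dirDot (sdiff p q) (effD p q) = - 2 * skv k a b ∧
    sec p q = 4 / 3 * (a ^ 2 - a * b + b ^ 2) - 4 * skv k a' b' := by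
  have e1 : effD p q = vec (-a) (-b) := by
    rw [← vec_neg]
    unfold effD
    rw [if_neg (not_le.2 hl), if_pos hl.le, if_neg (not_le.2 hl), if_pos hl.le, hp.X]
  have e2 : effE p q = vec (-a') (-b') := by
    rw [← vec_neg]
    unfold effE
    rw [if_neg (not_le.2 hl), if_pos hl.le, if_neg (not_le.2 hl), if_pos hl.le, hp.Y]
  unfold sec
  rw [e1, e2, hk, dirDot_vec, dirDot_vec, norm_vec, skv_neg, skv_neg]
  constructor <;> ring

theorem eff_fine {p q : Pt} {k : ℕ} {c d c' d' : ℝ} (hq : HasD q c d c' d')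
    (hk : sdiff p q = dk k) (hl : q.lev < p.lev) :
    dirDot (sdiff p q) (effD p q) = 2 * skv k c d ∧
    sec p q = 4 / 3 * (c ^ 2 - c * d + d ^ 2) + 4 * skv k c' d' := by
  have e1 : effD p q = vec c d := by
    rw [← vec_zero]
    unfold effD
    rw [if_pos hl.le, if_neg (not_le.2 hl), if_pos hl.le, if_neg (not_le.2 hl), hq.X]
  have e2 : effE p q = vec c' d' := by
    rw [← vec_zero]
    unfold effE
    rw [if_pos hl.le, if_neg (not_le.2 hl), if_pos hl.le, if_neg (not_le.2 hl), hq.Y]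
  unfold sec
  rw [e1, e2, hk, dirDot_vec, dirDot_vec, norm_vec]
  constructor <;> ring

theorem nbr_dk {p q : Pt} {k : ℕ} (hk : sdiff p q = dk k) : Nbr p q := by
  unfold Nbr
  rw [hk]
  unfold dk
  split_ifs <;> norm_num

theorem site_ne_dk {p q : Pt} {k : ℕ} (hk : sdiff p q = dk k) : p.site ≠ q.site := by
  intro h
  have h1 : sdiff p q = (0, 0) := by
    unfold sdiff
    rw [h]
    simp
  rw [h1] at hk
  unfold dk at hk
  split_ifs at hk <;> simp at hk

/-- the three possible outcomes of a pair -/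
theorem pair_lt {p q : Pt} {k : ℕ} (hk : sdiff p q = dk k)
    (h : dirDot (sdiff p q) (effD p q) < 0) : NoTie p q ∧ TouchG p q :=
  ⟨fun _ h1 _ => absurd h1 h.ne, Or.inr ⟨nbr_dk hk, Or.inl h⟩⟩

theorem sameX_dot {p q : Pt} (h : SameX p q) : dirDot (sdiff p q) (effD p q) = 0 := by
  have e : effD p q = (0, 0) := by
    unfold effD
    rw [h.1, h.2.1]
    simp
  rw [e]
  simp [dirDot]

theorem sameX_sec {p q : Pt} (h : SameX p q) : sec p q = 0 := by
  have e : effD p q = (0, 0) := by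
    unfold effD
    rw [h.1, h.2.1]
    simp
  have e2 : effE p q = (0, 0) := by
    unfold effE
    rw [h.1, h.2.2]
    simp
  unfold sec
  rw [e, e2]
  simp [dirDot]

theorem pair_gt {p q : Pt} {k : ℕ} (hk : sdiff p q = dk k)
    (h : 0 < dirDot (sdiff p q) (effD p q)) : NoTie p q ∧ ¬ TouchG p q := by
  refine ⟨fun _ h1 _ => absurd h1 h.ne', ?_⟩
  rintro (h1 | ⟨-, h1 | ⟨h1, -⟩ | h1⟩)
  · exact site_ne_dk hk h1
  · linarith
  · linarith
  · have := sameX_dot h1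
    linarith

theorem pair_tie_neg {p q : Pt} {k : ℕ} (hk : sdiff p q = dk k)
    (h : dirDot (sdiff p q) (effD p q) = 0) (h2 : sec p q < 0) : NoTie p q ∧ TouchG p q :=
  ⟨fun _ _ h3 => absurd h3 h2.ne, Or.inr ⟨nbr_dk hk, Or.inr (Or.inl ⟨h, h2⟩)⟩⟩

theorem pair_tie_pos {p q : Pt} {k : ℕ} (hk : sdiff p q = dk k)
    (h : dirDot (sdiff p q) (effD p q) = 0) (h2 : 0 < sec p q) : NoTie p q ∧ ¬ TouchG p q := by
  refine ⟨fun _ _ h3 => absurd h3 h2.ne', ?_⟩
  rintro (h1 | ⟨-, h1 | ⟨-, h1⟩ | h1⟩)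
  · exact site_ne_dk hk h1
  · linarith
  · linarith
  · have := sameX_sec h1
    linarith

theorem pair_same {p q : Pt} {k : ℕ} (hk : sdiff p q = dk k) (h : SameX p q) :
    NoTie p q ∧ TouchG p q :=
  ⟨fun _ _ _ => h, Or.inr ⟨nbr_dk hk, Or.inr (Or.inr h)⟩⟩

theorem nq_pos {a b : ℝ} (h : a ≠ 0 ∨ b ≠ 0) : 0 < a ^ 2 - a * b + b ^ 2 := by
  rcases h with h | h
  · have := pow_pos (abs_pos.2 h) 2
    rw [sq_abs] at this
    nlinarith [sq_nonneg (a - 2 * b)]
  · have := pow_pos (abs_pos.2 h) 2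
    rw [sq_abs] at this
    nlinarith [sq_nonneg (2 * a - b)]

/-! ## Values -/

/-- the data of a site -/
structure Sd where
  R : ℝ
  Ca : ℝ
  Cb : ℝ
  D : ℝ
  gx : ℝ
  gy : ℝ
  gt : ℝ
  code : ℕ

/-- the values lie in the allowed ranges -/
structure Sd.OK (s : Sd) : Prop where
  R0 : 0 < s.R
  R1 : s.R < 3 / 5
  Ca0 : 0 < s.Ca
  CaCb : s.Ca < s.Cb
  Cb1 : s.Cb < 3 / 5
  D0 : 0 < s.D
  D1 : s.D < 3 / 5

/-- the value of `s0` with a given key -/
noncomputable def f0 (R : ℝ) : ℕ → ℝ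
  | 0 => -2
  | 1 => -13 / 10
  | 2 => -1
  | 3 => 0
  | 4 => R
  | 5 => 1
  | 6 => 9 / 5
  | _ => 2

/-- the value of `s1` with a given key -/
noncomputable def f1 (Ca Cb D : ℝ) : ℕ → ℝ
  | 0 => -2
  | 1 => -1 - D
  | 2 => -1
  | 3 => -D
  | 4 => 0
  | 5 => Ca
  | 6 => Cb
  | 7 => 4 / 5
  | 8 => 9 / 10
  | 9 => 1
  | 10 => 9 / 5 - D
  | 11 => 9 / 5
  | _ => 2

theorem f0_lt {R R' : ℝ} (h0 : 0 < R) (h1 : R < 3 / 5) (h0' : 0 < R')
    {a b : ℕ} (hab : a < b) (hb : b ≤ 7) : f0 R a < f0 R' b := by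
  interval_cases b <;> interval_cases a <;> simp only [f0] <;> linarith

theorem f1_lt {s s' : Sd} (h : s.OK) (h' : s'.OK)
    {a b : ℕ} (hab : a < b) (hb : b ≤ 12) (h56 : a = 5 → b = 6 → s.Ca < s'.Cb) :
    f1 s.Ca s.Cb s.D a < f1 s'.Ca s'.Cb s'.D b := by
  obtain ⟨-, -, c0, cc, c1, d0, d1⟩ := h
  obtain ⟨-, -, c0', cc', c1', d0', d1'⟩ := h'
  interval_cases b <;> interval_cases a <;> simp only [f1] <;>
    first
      | linarith
      | exact h56 rfl rfl

/-- the value of `s0` of the label `l` -/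
noncomputable def S0 (s : Sd) (l : ℕ) : ℝ := f0 s.R (ky 0 l)

/-- the value of `s1` of the label `l` -/
noncomputable def S1 (s : Sd) (l : ℕ) : ℝ := f1 s.Ca s.Cb s.D (ky 1 l)

/-- the relations at the junctions -/
structure Rel (s : Sd) (l : ℕ) : Prop where
  r27 : l = 27 → s.R = s.Ca
  r28 : l = 28 → s.R = s.Cb
  r29 : l = 29 → s.Cb - s.R = - s.D
  r30 : l = 30 → s.Cb - 1 = - s.D
  r31 : l = 31 → s.R = s.D

/-- the values of `s2` -/
theorem S2_val {s : Sd} (h : s.OK) {l : ℕ} (hl : l < 44) (hr : Rel s l) :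
    (ky 2 l % 2 = 0 → S1 s l - S0 s l = (ky 2 l : ℝ) / 2 - 2) ∧
    (ky 2 l % 2 = 1 → (ky 2 l : ℝ) / 2 - 2 - 1 / 2 < S1 s l - S0 s l ∧
      S1 s l - S0 s l < (ky 2 l : ℝ) / 2 - 2 + 1 / 2) ∧
    (ky 2 l = 3 → S1 s l - S0 s l = - s.D) := by
  obtain ⟨r0, r1, c0, cc, c1, d0, d1⟩ := h
  obtain ⟨h27, h28, h29, h30, h31⟩ := hr
  unfold S0 S1
  interval_cases l
  all_goals
    simp [ky, keyTab0, keyTab1, keyTab2, f0, f1] at *
  all_goals
    first
      | linarith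
      | (constructor <;> linarith)
      | (refine ⟨?_, ?_⟩ <;> first | linarith | (constructor <;> linarith))

/-! ## Classes of the labels -/

/-- the classes of the labels -/
def clsTab : List ℕ :=
  [0, 0, 0, 0, 0, 0, 0, 0, 0, 0, 0, 0, 0, 0, 0, 0, 0, 0, 0, 1, 1, 2, 2, 2, 2, 3, 3, 4, 4, 4, 4, 4,
    5, 5, 5, 6, 6, 6, 5, 5, 5, 6, 6, 6]

/-- the class of a label -/
def cls (l : ℕ) : ℕ := clsTab.getD l 0

/-- classes which cannot be at both ends of an edge in direction `k` -/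
def bad (k c : ℕ) : Bool :=
  decide (c = 4) || decide (c = 5) || decide (c = 6) ||
    (decide (k ≠ 0) && decide (c = 1)) || (decide (k ≠ 1) && decide (c = 2)) ||
    (decide (k ≠ 2) && decide (c = 3))

theorem key_bound : ∀ l < 44, ky 0 l ≤ 7 ∧ ky 1 l ≤ 12 ∧ ky 2 l ≤ 8 := by decide +kernel

/-- the alternatives for two labels with the same key in direction `0` -/
def Chk0 (l l' : ℕ) : Prop :=
  (cls l = cls l' ∧ bad 0 (cls l) = true) ∨
    (5 ≤ cls l ∧ 5 ≤ cls l') ∨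
    (cls l < 5 ∧ cls l' < 5 ∧ (
      (ky 1 l < ky 1 l' ∧ ¬ (ky 1 l = 5 ∧ ky 1 l' = 6)) ∨
      (ky 1 l' < ky 1 l ∧ ¬ (ky 1 l' = 5 ∧ ky 1 l = 6))))

instance (l l' : ℕ) : Decidable (Chk0 l l') := by unfold Chk0; infer_instance

theorem fact0 : ∀ l < 44, ∀ l' < 44, l ≠ l' → ky 0 l = ky 0 l' → Chk0 l l' := by decide +kernel

/-- the alternatives for two labels with the same key in direction `1` -/
def Chk1 (l l' : ℕ) : Prop :=
  (cls l = cls l' ∧ bad 1 (cls l) = true) ∨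
    (cls l ≠ 6 ∧ cls l' ≠ 6 ∧ (ky 0 l < ky 0 l' ∨ ky 0 l' < ky 0 l) ∧
      ky 1 l ≠ 1 ∧ ky 1 l ≠ 3 ∧ ky 1 l ≠ 10)

instance (l l' : ℕ) : Decidable (Chk1 l l') := by unfold Chk1; infer_instance

theorem fact1 : ∀ l < 44, ∀ l' < 44, l ≠ l' → ky 1 l = ky 1 l' → Chk1 l l' := by decide +kernel

/-- the alternatives for two labels with the same key in direction `2` -/
def Chk2 (l l' : ℕ) : Prop :=
  (cls l = cls l' ∧ bad 2 (cls l) = true) ∨
    (cls l ≠ 5 ∧ cls l' ≠ 5 ∧ (ky 0 l < ky 0 l' ∨ ky 0 l' < ky 0 l) ∧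
      (ky 2 l % 2 = 0 ∨ ky 2 l = 3))

instance (l l' : ℕ) : Decidable (Chk2 l l') := by unfold Chk2; infer_instance

theorem fact2 : ∀ l < 44, ∀ l' < 44, l ≠ l' → ky 2 l = ky 2 l' → Chk2 l l' := by decide +kernel

/-- the facts about a label which may be at both ends of an edge -/
def Chk3 (l : ℕ) : Prop :=
  (bad 0 (cls l) = false → cls l < 5 ∧
    ky 1 l ≠ 1 ∧ ky 1 l ≠ 3 ∧ ky 1 l ≠ 5 ∧ ky 1 l ≠ 6 ∧ ky 1 l ≠ 10) ∧
  (bad 1 (cls l) = false → cls l < 5 ∧
    ky 0 l ≠ 4 ∧ ky 1 l ≠ 1 ∧ ky 1 l ≠ 3 ∧ ky 1 l ≠ 10) ∧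
  (bad 2 (cls l) = false → cls l < 5 ∧ ky 0 l ≠ 4 ∧ ky 1 l ≠ 5 ∧ ky 1 l ≠ 6)

instance (l : ℕ) : Decidable (Chk3 l) := by unfold Chk3; infer_instance

theorem fact3 : ∀ l < 44, Chk3 l := by decide +kernel

theorem fact_pairs : ∀ pr ∈ gadgetPairs, ky 0 pr.1 = ky 0 pr.2 ∧ pr.1 ≠ pr.2 ∧
    5 ≤ cls pr.1 ∧ 5 ≤ cls pr.2 := by decide +kernel

theorem cls_lt : ∀ l < 44, cls l < 7 ∧ (5 ≤ cls l → 32 ≤ l ∧ ky 0 l = 6) ∧ (cls l < 5 → l < 32) := by
  decide +kernel

theorem cls_cases {l : ℕ} (hl : l < 44) :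
    (cls l = 5 → l = 32 ∨ l = 33 ∨ l = 34 ∨ l = 38 ∨ l = 39 ∨ l = 40) ∧
    (cls l = 6 → l = 35 ∨ l = 36 ∨ l = 37 ∨ l = 41 ∨ l = 42 ∨ l = 43) := by
  revert l
  decide +kernel

theorem f0_eq {R R' : ℝ} {a : ℕ} (ha : a ≠ 4) : f0 R a = f0 R' a := by
  unfold f0
  split <;> first | rfl | exact absurd rfl ha

theorem f1_eq {Ca Cb D D' : ℝ} {a : ℕ} (h1 : a ≠ 1) (h3 : a ≠ 3) (h10 : a ≠ 10) :
    f1 Ca Cb D a = f1 Ca Cb D' a := by
  unfold f1
  split <;> first | rfl | exact absurd rfl h1 | exact absurd rfl h3 | exact absurd rfl h10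

theorem f1_eqD {Ca Cb Ca' Cb' D : ℝ} {a : ℕ} (h5 : a ≠ 5) (h6 : a ≠ 6) :
    f1 Ca Cb D a = f1 Ca' Cb' D a := by
  unfold f1
  split <;> first | rfl | exact absurd rfl h5 | exact absurd rfl h6

/-! ## Second order parts -/

/-- the small number of the first product pattern -/
noncomputable def e3 (x y t : ℝ) : ℝ := min (x * (1 - y) / 2) ((t - x * y) / 5)

/-- the second order parts of the gadget points -/
noncomputable def FG (x y t : ℝ) (l : ℕ) : ℝ :=
  if l = 32 then 2 * x * y + 2 * e3 x y t + x ^ 2 - 18 / 5 * x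
  else if l = 34 then 2 * x * y + 4 * e3 x y t + t ^ 2 - 18 / 5 * t
  else if l = 35 then e3 x y t - (9 / 5 - y) ^ 2
  else if l = 36 then - e3 x y t - (4 / 5) ^ 2
  else if l = 37 then 2 * x * y + 3 * e3 x y t - (9 / 5) ^ 2
  else if l = 38 then 2 * t + 4 * ((x * y - t) / 5) + x ^ 2 - 18 / 5 * x
  else if l = 40 then 2 * t + 2 * ((x * y - t) / 5) + t ^ 2 - 18 / 5 * t
  else if l = 41 then - ((x * y - t) / 5) - (9 / 5 - y) ^ 2
  else if l = 42 then ((x * y - t) / 5) - (4 / 5) ^ 2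
  else if l = 43 then 2 * t + 3 * ((x * y - t) / 5) - (9 / 5) ^ 2
  else 0

/-- the coordinate `s0` of the second order part -/
noncomputable def Y0 (s : Sd) (l : ℕ) : ℝ := if 5 ≤ cls l then FG s.gx s.gy s.gt l / 3 else 0

/-- the coordinate `s1` of the second order part -/
noncomputable def Y1 (s : Sd) (l : ℕ) : ℝ := if cls l = 6 then FG s.gx s.gy s.gt l / 3 else 0

/-- the second order quantity of a gadget tie -/
theorem gadget_tie (s s' : Sd) (hx : s.gx = s'.gx) (hy : s.gy = s'.gy) (ht : s.gt = s'.gt)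
    (hCb : s.Cb = s.gx) (hCa : s.Ca = s.gt) (hD : s'.D = s'.gy)
    (x0 : 0 < s.gx) (x1 : s.gx < 3 / 5) (y0 : 0 < s.gy) (y1 : s.gy < 3 / 5) (t0 : 0 < s.gt)
    {l l' : ℕ} (hl : l < 44) (hl' : l' < 44) (hc : cls l = 5) (hc' : cls l' = 6)
    (h3 : l ≤ 37 → l' ≤ 37 ∧ s.gx * s.gy < s.gt ∧ s.gt < s.gx)
    (h4 : 38 ≤ l → 38 ≤ l' ∧ s.gt < s.gx * s.gy) :
    ((l, l') ∈ gadgetPairs → (S1 s' l' - S1 s l) ^ 2 + 3 * (Y0 s' l' - Y0 s l) < 0) ∧
    ((l, l') ∉ gadgetPairs → 0 < (S1 s' l' - S1 s l) ^ 2 + 3 * (Y0 s' l' - Y0 s l)) := by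
  have b5 := (cls_cases hl).1 hc
  have b6 := (cls_cases hl').2 hc'
  have a32 : S1 s 32 = s.gx := by rw [← hCb]; simp [S1, ky, keyTab1, f1]
  have a33 : S1 s 33 = 0 := by simp [S1, ky, keyTab1, f1]
  have a34 : S1 s 34 = s.gt := by rw [← hCa]; simp [S1, ky, keyTab1, f1]
  have a35 : S1 s' 35 = 9 / 5 - s.gy := by rw [hy, ← hD]; simp [S1, ky, keyTab1, f1]
  have a36 : S1 s' 36 = 4 / 5 := by simp [S1, ky, keyTab1, f1]
  have a37 : S1 s' 37 = 9 / 5 := by simp [S1, ky, keyTab1, f1]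
  have a38 : S1 s 38 = s.gx := by rw [← hCb]; simp [S1, ky, keyTab1, f1]
  have a39 : S1 s 39 = 0 := by simp [S1, ky, keyTab1, f1]
  have a40 : S1 s 40 = s.gt := by rw [← hCa]; simp [S1, ky, keyTab1, f1]
  have a41 : S1 s' 41 = 9 / 5 - s.gy := by rw [hy, ← hD]; simp [S1, ky, keyTab1, f1]
  have a42 : S1 s' 42 = 4 / 5 := by simp [S1, ky, keyTab1, f1]
  have a43 : S1 s' 43 = 9 / 5 := by simp [S1, ky, keyTab1, f1]
  have hY : Y0 s l = FG s.gx s.gy s.gt l / 3 := by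
    unfold Y0; rw [if_pos (by omega)]
  have hY' : Y0 s' l' = FG s.gx s.gy s.gt l' / 3 := by
    unfold Y0; rw [if_pos (by omega), hx, hy, ht]
  rw [hY, hY']
  set x := s.gx
  set y := s.gy
  set t := s.gt
  have hxy : 0 < x * y := mul_pos x0 y0
  have hxy1 : 0 < x * (1 - y) := mul_pos x0 (by linarith)
  by_cases h34 : l ≤ 37
  · obtain ⟨hl1, g1, g2⟩ := h3 h34
    have ep : 0 < e3 x y t := lt_min (by linarith) (by linarith)
    have e1 : e3 x y t ≤ x * (1 - y) / 2 := min_le_left _ _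
    have e2 : e3 x y t ≤ (t - x * y) / 5 := min_le_right _ _
    have hyt : 0 < y * (x - t) := mul_pos y0 (by linarith)
    rcases b5 with rfl | rfl | rfl | rfl | rfl | rfl <;> try omega
    all_goals
      rcases b6 with rfl | rfl | rfl | rfl | rfl | rfl <;> try omega
    all_goals
      simp only [a32, a33, a34, a35, a36, a37, FG]
      norm_num [gadgetPairs]
      linarith
  · obtain ⟨hl1, g1⟩ := h4 (by omega)
    have ep : 0 < (x * y - t) / 5 := by linarith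
    have hyt : 0 < t * (1 - y) := mul_pos t0 (by linarith)
    rcases b5 with rfl | rfl | rfl | rfl | rfl | rfl <;> try omega
    all_goals
      rcases b6 with rfl | rfl | rfl | rfl | rfl | rfl <;> try omega
    all_goals
      simp only [a38, a39, a40, a41, a42, a43, FG]
      norm_num [gadgetPairs]
      linarith
end Pool.Agent.MP1cb9f1
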