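import Pool.Agent.Lib.MP_1cb9f1_lc.Strip

/-!
# The computing region as an abstract structure (MP_1cb9f1_lc)

`X i j l` is the displacement of the computing point with label `l` at the region site `(i, j)` in
the coordinates `(s0, s1) = (e0 · X, e1 · X)`.  The lattice point of the site `(i, j)` has the
coordinates `(2 i + j, i + 2 j)`, and the squared length of a vector is `4/3` times `qf`.
-/

set_option autoImplicit false

namespace Pool.Agent.MP1cb9f1

open Pool.Agent.Lib.MP_1cb9f1_lc

/-- `3/4` of the squared length, in the coordinates `(s0, s1)`. -/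
def qf (x : ℝ × ℝ) : ℝ := x.1 ^ 2 - x.1 * x.2 + x.2 ^ 2

/-- The coordinate in direction `k`. -/
def sk (k : ℕ) (x : ℝ × ℝ) : ℝ := if k = 0 then x.1 else if k = 1 then x.2 else x.2 - x.1

/-- The computing points present in the region. -/
def PresR (T : ℕ) (ops : List Op) (i j l : ℕ) : Prop :=
  i ≤ regI T ops ∧ j ≤ regJ T ∧ l ∈ labelsAt T ops i j

/-- A realization of the region: `Q i j l` is the position of the point. -/
structure RegReal (T : ℕ) (ops : List Op) (Q : ℕ → ℕ → ℕ → ℝ × ℝ) : Prop where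
  same : ∀ i j l l', PresR T ops i j l → PresR T ops i j l' → Near (Q i j l) (Q i j l')
  dir : ∀ k < 3, ∀ i j l i' j' l', PresR T ops i j l → PresR T ops i' j' l' →
    nb k (i, j) (i', j') = true →
    (Near (Q i j l) (Q i' j' l') ↔ rule k (0, l) (0, l') = true)
  far : ∀ i j l i' j' l', PresR T ops i j l → PresR T ops i' j' l' → (i, j) ≠ (i', j') →
    (∀ k < 3, nb k (i, j) (i', j') = false) → (∀ k < 3, nb k (i', j') (i, j) = false) →
    ¬ Near (Q i j l) (Q i' j' l')

/-- The displacements of the points of a realization of the region, in the coordinates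
`(s0, s1)`. -/
structure RegDisp (T : ℕ) (ops : List Op) (X : ℕ → ℕ → ℕ → ℝ × ℝ) : Prop where
  dir : ∀ k < 3, ∀ i j l i' j' l', PresR T ops i j l → PresR T ops i' j' l' →
    nb k (i, j) (i', j') = true →
    (rule k (0, l) (0, l') = true ↔
      qf (X i j l - X i' j' l') ≤ 3 * (sk k (X i j l) - sk k (X i' j' l')))
  far : ∀ i j l i' j' l', PresR T ops i j l → PresR T ops i' j' l' → (i, j) ≠ (i', j') →
    (∀ k < 3, nb k (i, j) (i', j') = false) → (∀ k < 3, nb k (i', j') (i, j) = false) →
    3 < qf ((2 * ((i' : ℝ) - i) + ((j' : ℝ) - j), ((i' : ℝ) - i) + 2 * ((j' : ℝ) - j)) +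
      X i' j' l' - X i j l)

/-- All displacements of the region are bounded by `R`. -/
def BoundR (T : ℕ) (ops : List Op) (X : ℕ → ℕ → ℕ → ℝ × ℝ) (R : ℝ) : Prop :=
  ∀ i j l, PresR T ops i j l → |(X i j l).1| ≤ R ∧ |(X i j l).2| ≤ R

/-- The displacements of the three base sites are bounded by `R`. -/
def BoundB (T : ℕ) (ops : List Op) (X : ℕ → ℕ → ℕ → ℝ × ℝ) (R : ℝ) : Prop :=
  ∀ i j l, i + j ≤ 1 → PresR T ops i j l → |(X i j l).1| ≤ R ∧ |(X i j l).2| ≤ R

/-- The points of the three base sites are close: `s` bounds the distances at each of them. -/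
def BaseClose (T : ℕ) (ops : List Op) (Q : ℕ → ℕ → ℕ → ℝ × ℝ) (s : ℝ) : Prop :=
  ∀ i j l l', i + j ≤ 1 → PresR T ops i j l → PresR T ops i j l' →
    ((Q i j l).1 - (Q i j l').1) ^ 2 + ((Q i j l).2 - (Q i j l').2) ^ 2 ≤ s ^ 2

/-- The size exponent of the region. -/
def regS (T : ℕ) (ops : List Op) : ℕ := regI T ops + regJ T + 1

/-- The nominal coordinate in direction `k` of the frame label `l < 19` (as an integer). -/
def frameA (l : ℕ) : ℤ := ([-2, -2, -2, -1, -1, -1, -1, 0, 0, 0, 0, 0, 1, 1, 1, 1, 2, 2, 2] :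
  List ℤ).getD l 0

/-- The second nominal coordinate of the frame label `l < 19` (as an integer). -/
def frameB (l : ℕ) : ℤ := ([-2, -1, 0, -2, -1, 0, 1, -2, -1, 0, 1, 2, -1, 0, 1, 2, 0, 1, 2] :
  List ℤ).getD l 0

/-- The frames of the whole region are at their nominal places with unit `a`, up to `e`. -/
def FramesOK (T : ℕ) (ops : List Op) (X : ℕ → ℕ → ℕ → ℝ × ℝ) (a e : ℝ) : Prop :=
  ∀ i j l, i ≤ regI T ops → j ≤ regJ T → l < 19 →
    |(X i j l).1 - frameA l * a| ≤ e ∧ |(X i j l).2 - frameB l * a| ≤ e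

/-- The region part of a realization. -/
theorem regReal_of_realizes {T : ℕ} {ops : List Op} {N M : ℕ} {p : VC → ℝ × ℝ}
    (h : RealizesOn (verts T ops N M) adjV p) :
    RegReal T ops (fun i j l => p ((i, shiftK N M + j), (0, l))) := by
  have hm : ∀ {i j l}, PresR T ops i j l → ((i, shiftK N M + j), (0, l)) ∈ verts T ops N M := by
    intro i j l hp
    unfold verts
    rw [List.mem_append, List.mem_append, mem_regionV]
    exact Or.inl (Or.inl ⟨i, j, l, hp.1, hp.2.1, hp.2.2, rfl⟩)
  have hnb : ∀ k i j i' j', nb k (i, shiftK N M + j) (i', shiftK N M + j') =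
      nb k (i, j) (i', j') := by
    intro k i j i' j'
    unfold nb
    rw [Bool.eq_iff_iff]
    split_ifs <;> simp only [Bool.and_eq_true, decide_eq_true_eq] <;> omega
  refine ⟨?_, ?_, ?_⟩
  · intro i j l l' h1 h2
    by_cases e : l = l'
    · subst e
      exact near_self _
    · exact (h _ (hm h1) _ (hm h2) (by simpa using e)).1 (by simp [adjV])
  · intro k hk i j l i' j' l' h1 h2 hn
    have hne : ((i, shiftK N M + j) : ℕ × ℕ) ≠ (i', shiftK N M + j') := by
      intro e
      rw [Prod.mk.injEq] at e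
      obtain ⟨rfl, e2⟩ := e
      have : j = j' := by omega
      subst this
      unfold nb at hn
      split_ifs at hn <;> simp at hn
    rw [realizes_near h (hm h1) (hm h2) hne, adjV_of_nb hk (by rw [hnb]; exact hn)]
  · intro i j l i' j' l' h1 h2 hne hf hf' hN
    have hne' : ((i, shiftK N M + j) : ℕ × ℕ) ≠ (i', shiftK N M + j') := by
      intro e
      rw [Prod.mk.injEq] at e
      apply hne
      rw [Prod.mk.injEq]
      omega
    rw [realizes_near h (hm h1) (hm h2) hne',
      adjV_far hne' (fun k hk => by rw [hnb]; exact hf k hk)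
        (fun k hk => by rw [hnb]; exact hf' k hk)] at hN
    exact absurd hN (by simp)

/-- Base closeness from the closeness of the strip. -/
theorem baseClose_of_cl {T : ℕ} {ops : List Op} {N M : ℕ} {p : VC → ℝ × ℝ} {s : ℝ}
    (h : Cl N M (lab0 T ops) (fun g lam l => p (siteOf (shiftK N M) g, (lam, l))) 1 s) :
    BaseClose T ops (fun i j l => p ((i, shiftK N M + j), (0, l))) s := by
  intro i j l l' hij h1 h2
  have hK : siteOf (shiftK N M) 0 = (0, shiftK N M + 1) := by simp [siteOf]
  have hK1 : siteOf (shiftK N M) 1 = (1, shiftK N M + 0) := by simp [siteOf]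
  have hK2 : siteOf (shiftK N M) 2 = (0, shiftK N M + 0) := by simp [siteOf]
  have hp : ∀ g l, g ≤ 2 → l ∈ labelsAt T ops (if g = 1 then 1 else 0) (if g = 0 then 1 else 0) →
      PresS N M (lab0 T ops) g 0 l := fun g l hg hl => Or.inl ⟨rfl, hg, hl⟩
  have hc : (i = 0 ∧ j = 0) ∨ (i = 1 ∧ j = 0) ∨ (i = 0 ∧ j = 1) := by omega
  rcases hc with ⟨rfl, rfl⟩ | ⟨rfl, rfl⟩ | ⟨rfl, rfl⟩
  · have := h 2 (by norm_num) (by norm_num) 0 l 0 l' (by norm_num) (by norm_num)
      (hp 2 l (by norm_num) (by simpa using h1.2.2)) (hp 2 l' (by norm_num) (by simpa using h2.2.2))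
    simpa only [hK2] using this
  · have := h 1 (by norm_num) (by norm_num) 0 l 0 l' (by norm_num) (by norm_num)
      (hp 1 l (by norm_num) (by simpa using h1.2.2)) (hp 1 l' (by norm_num) (by simpa using h2.2.2))
    simpa only [hK1] using this
  · have := h 0 (by norm_num) (by norm_num) 0 l 0 l' (by norm_num) (by norm_num)
      (hp 0 l (by norm_num) (by simpa using h1.2.2)) (hp 0 l' (by norm_num) (by simpa using h2.2.2))
    simpa only [hK] using this

end Pool.Agent.MP1cb9f1
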