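import Pool.Agent.Lib.MP_1cb9f1_lc.Seed
import Pool.Agent.Lib.MP_1cb9f1_lc.Frames
import Pool.Agent.Lib.MP_1cb9f1_lc.RegDefs

/-!
# From a realization of the graph `verts T ops N M` to the rigid region

The graph of `GeoDefs.lean` satisfies the hypotheses of the seed, the tower, the placement lemma and
the frames.
-/

set_option autoImplicit false

namespace Pool.Agent.Lib.MP_1cb9f1_lc

open Pool.Agent.MP1cb9f1

/-! ## Adjacency of neighbouring sites -/

theorem adjS0 {s t : ℕ × ℕ} (a b : ℕ × ℕ) (h1 : t.1 = s.1 + 1) (h2 : t.2 = s.2) :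
    adjV (s, a) (t, b) = rule 0 a b := by
  have e0 : s ≠ t := by rintro rfl; omega
  have e1 : nb 0 s t = true := by simp [nb, h1, h2]
  have e2 : nb 1 s t = false := by simp [nb, h1]
  have e3 : nb 2 s t = false := by
    simp only [nb]; simp; intro h; omega
  have e4 : nb 0 t s = false := by simp [nb]; intro h; omega
  have e5 : nb 1 t s = false := by simp [nb]; intro h; omega
  have e6 : nb 2 t s = false := by simp [nb, h2]
  simp [adjV, adjDir, e0, e1, e2, e3, e4, e5, e6]

theorem adjS1 {s t : ℕ × ℕ} (a b : ℕ × ℕ) (h1 : t.1 = s.1) (h2 : t.2 = s.2 + 1) :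
    adjV (s, a) (t, b) = rule 1 a b := by
  have e0 : s ≠ t := by rintro rfl; omega
  have e1 : nb 1 s t = true := by simp [nb, h1, h2]
  have e2 : nb 0 s t = false := by simp [nb, h1]
  have e3 : nb 2 s t = false := by
    simp only [nb]; simp; intro h; omega
  have e4 : nb 0 t s = false := by simp [nb]; intro h; omega
  have e5 : nb 1 t s = false := by simp [nb]; intro h; omega
  have e6 : nb 2 t s = false := by simp [nb]; intro h; omega
  simp [adjV, adjDir, e0, e1, e2, e3, e4, e5, e6]

theorem adjS2 {s t : ℕ × ℕ} (a b : ℕ × ℕ) (h1 : t.1 + 1 = s.1) (h2 : t.2 = s.2 + 1) :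
    adjV (s, a) (t, b) = rule 2 a b := by
  have e0 : s ≠ t := by rintro rfl; omega
  have e1 : nb 2 s t = true := by simp [nb, h1, h2]
  have e2 : nb 0 s t = false := by simp [nb]; intro h; omega
  have e3 : nb 1 s t = false := by
    simp only [nb]; simp; intro h; omega
  have e4 : nb 0 t s = false := by simp [nb]; intro h; omega
  have e5 : nb 1 t s = false := by simp [nb]; intro h; omega
  have e6 : nb 2 t s = false := by simp [nb]; intro h; omega
  simp [adjV, adjDir, e0, e1, e2, e3, e4, e5, e6]

theorem adjS_same (s : ℕ × ℕ) (a b : ℕ × ℕ) : adjV (s, a) (s, b) = true := by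
  simp [adjV]

/-! ## The corners -/

/-- The label of the corner of type `t`. -/
def cor (t : Fin 6) : ℕ := corners.getD t 0

theorem cor_mem (t : Fin 6) : cor t ∈ corners := by revert t; decide

theorem cor_inj (t t' : Fin 6) : cor t = cor t' ↔ t = t' := by revert t t'; decide

theorem cor_pair (t t' : Fin 6) : (cor t, cor t') ∉ gadgetPairs := by revert t t'; decide

theorem cor_lt (k : Fin 3) (t t' : Fin 6) :
    ky k (cor t') < ky k (cor t) ↔ cls (Fin.castLE (by norm_num) k) t' <
      cls (Fin.castLE (by norm_num) k) t := by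
  revert k t t'; decide

theorem cor_pos (k : Fin 3) (t : Fin 6) :
    kz k < ky k (cor t) ↔ cls (Fin.castLE (by norm_num) k) t = 1 := by
  revert k t; decide

theorem cor_neg (k : Fin 3) (t : Fin 6) :
    ky k (cor t) < kz k ↔ cls (Fin.castLE (by norm_num) k) t = -1 := by
  revert k t; decide

/-- The rule for corners. The level `l` counts from the coarse levels (`l = A - lam`). -/
theorem rule_cor (k : Fin 3) (t t' : Fin 6) {A lam lam' : ℕ} (h : lam ≤ A) (h' : lam' ≤ A) :
    rule k (lam, cor t) (lam', cor t') = true ↔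
      lvl (Fin.castLE (by norm_num) k) (A - lam) t (A - lam') t' := by
  unfold rule lvl
  rcases Nat.lt_trichotomy lam lam' with h1 | h1 | h1
  · have n1 : ¬ lam = lam' := by omega
    have n2 : ¬ lam' < lam := by omega
    simp only [n1, n2, if_false, decide_eq_true_eq]
    rw [cor_neg]
    constructor
    · intro h2; exact Or.inr (Or.inr ⟨by omega, h2⟩)
    · rintro (⟨h2, -⟩ | ⟨h2, -⟩ | ⟨-, h2⟩)
      · omega
      · omega
      · exact h2
  · subst h1
    simp only [if_true, Bool.or_eq_true, decide_eq_true_eq, Bool.and_eq_true]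
    rw [cor_lt, cor_inj]
    constructor
    · rintro ((h2 | h2) | ⟨-, h2⟩)
      · exact Or.inl ⟨trivial, Or.inl h2⟩
      · exact Or.inl ⟨trivial, Or.inr h2⟩
      · exact absurd h2 (cor_pair t t')
    · rintro (⟨-, h2 | h2⟩ | ⟨h2, -⟩ | ⟨h2, -⟩)
      · exact Or.inl (Or.inl h2)
      · exact Or.inl (Or.inr h2)
      · omega
      · omega
  · have n1 : ¬ lam = lam' := by omega
    simp only [n1, h1, if_false, if_true, decide_eq_true_eq]
    rw [cor_pos]
    constructor
    · intro h2; exact Or.inr (Or.inl ⟨by omega, h2⟩)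
    · rintro (⟨h2, -⟩ | ⟨-, h2⟩ | ⟨h2, -⟩)
      · omega
      · exact h2
      · omega

/-! ## The strip -/

/-- Directions of the strip, in the order of decreasing site number. -/
def sdir (N m m' : ℕ) : Fin 6 := if m' = m + 1 then (if (N + 2 - m) % 2 = 0 then 0 else 2) else 1

theorem sdir_seed (N : ℕ) : SeedDir (sdir N) := by
  unfold SeedDir sdir
  rcases Nat.mod_two_eq_zero_or_one N with h | h
  · left
    simp
    omega
  · right
    simp
    omega

/-- Adjacency of consecutive strip sites. -/
theorem adj_strip1 {K N m : ℕ} (hK : N + 2 ≤ K) (hm : m + 1 ≤ N + 2) (a b : ℕ × ℕ) :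
    adjV (siteOf K (N + 2 - m), a) (siteOf K (N + 2 - (m + 1)), b) =
      rule (if (N + 2 - m) % 2 = 0 then 0 else 2) a b := by
  by_cases h : (N + 2 - m) % 2 = 0
  · rw [if_pos h]
    have h' : ¬ (N + 2 - (m + 1)) % 2 = 0 := by omega
    apply adjS0
    · simp only [siteOf, if_pos h, if_neg h']
    · simp only [siteOf, if_pos h, if_neg h']; omega
  · rw [if_neg h]
    have h' : (N + 2 - (m + 1)) % 2 = 0 := by omega
    apply adjS2
    · simp only [siteOf, if_neg h, if_pos h']
    · simp only [siteOf, if_neg h, if_pos h']; omega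

theorem adj_strip2 {K N m : ℕ} (hK : N + 2 ≤ K) (hm : m + 2 ≤ N + 2) (a b : ℕ × ℕ) :
    adjV (siteOf K (N + 2 - m), a) (siteOf K (N + 2 - (m + 2)), b) = rule 1 a b := by
  by_cases h : (N + 2 - m) % 2 = 0
  · have h' : (N + 2 - (m + 2)) % 2 = 0 := by omega
    apply adjS1
    · simp only [siteOf, if_pos h, if_pos h']
    · simp only [siteOf, if_pos h, if_pos h']; omega
  · have h' : ¬ (N + 2 - (m + 2)) % 2 = 0 := by omega
    apply adjS1
    · simp only [siteOf, if_neg h, if_neg h']
    · simp only [siteOf, if_neg h, if_neg h']; omega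

/-- The vertices of the tower and the seed. -/
theorem strip_mem {T : ℕ} {ops : List Op} {N M' m l : ℕ} (t : Fin 6) (hm : m ≤ N + 2)
    (hv : SValid M' N m l) :
    (siteOf (shiftK N (M' + 1)) (N + 2 - m), (N + (M' + 1) - l, cor t)) ∈
      verts T ops N (M' + 1) := by
  unfold verts
  rw [List.mem_append, List.mem_append]
  rcases hv with ⟨h1, h2⟩ | ⟨h1, h2, h3, h4⟩
  · right
    unfold seedV
    rw [List.mem_flatMap]
    refine ⟨M' - l, by rw [List.mem_range]; omega, ?_⟩
    rw [List.mem_flatMap]
    refine ⟨2 - m, by rw [List.mem_range]; omega, ?_⟩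
    rw [List.mem_map]
    refine ⟨cor t, cor_mem t, ?_⟩
    rw [show N + (2 - m) = N + 2 - m by omega, show N + 1 + (M' - l) = N + (M' + 1) - l by omega]
  · rcases Nat.eq_or_lt_of_le h1 with h5 | h5
    · right
      unfold seedV
      rw [List.mem_flatMap]
      refine ⟨0, by rw [List.mem_range]; omega, ?_⟩
      rw [List.mem_flatMap]
      refine ⟨2 - m, by rw [List.mem_range]; omega, ?_⟩
      rw [List.mem_map]
      refine ⟨cor t, cor_mem t, ?_⟩
      rw [show N + (2 - m) = N + 2 - m by omega, show N + 1 + 0 = N + (M' + 1) - l by omega]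
    · left; right
      unfold towerV
      rw [List.mem_flatMap]
      refine ⟨N + M' - l, by rw [List.mem_range]; omega, ?_⟩
      rw [List.mem_flatMap]
      refine ⟨N + 2 - m - (N + M' - l), by rw [List.mem_range]; omega, ?_⟩
      rw [List.mem_map]
      refine ⟨cor t, cor_mem t, ?_⟩
      rw [show N + M' - l + (N + 2 - m - (N + M' - l)) = N + 2 - m by omega,
        show N + M' - l + 1 = N + (M' + 1) - l by omega]

/-- The points of the strip. -/
def gS (N M' : ℕ) (p : VC → ℝ × ℝ) (m l : ℕ) (t : Fin 6) : ℝ × ℝ :=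
  p (siteOf (shiftK N (M' + 1)) (N + 2 - m), (N + (M' + 1) - l, cor t))

theorem near_iff (x y : ℝ × ℝ) : Near x y ↔ dsq x y ≤ 4 := Iff.rfl

theorem real_adj {T : ℕ} {ops : List Op} {N M : ℕ} {p : VC → ℝ × ℝ}
    (h : RealizesOn (verts T ops N M) adjV p) {x y : VC} (hx : x ∈ verts T ops N M)
    (hy : y ∈ verts T ops N M) (hne : x ≠ y) : dsq (p x) (p y) ≤ 4 ↔ adjV x y = true :=
  (h x hx y hy hne).symm

theorem strip_seedReal {T : ℕ} {ops : List Op} {N M' : ℕ} {p : VC → ℝ × ℝ}
    (h : RealizesOn (verts T ops N (M' + 1)) adjV p) : SeedReal (sdir N) M' N (gS N M' p) where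
  same := by
    intro m l l' t t' hm hv hv'
    unfold gS
    by_cases hxy : ((siteOf (shiftK N (M' + 1)) (N + 2 - m), (N + (M' + 1) - l, cor t)) : VC) =
        (siteOf (shiftK N (M' + 1)) (N + 2 - m), (N + (M' + 1) - l', cor t'))
    · rw [hxy, dsq_self]; norm_num
    · rw [real_adj h (strip_mem t hm hv) (strip_mem t' hm hv') hxy]
      exact adjS_same _ _ _
  link := by
    intro m m' l l' t t' hm' hmm hv hv'
    have hm : m ≤ N + 2 := by omega
    have hK : N + 2 ≤ shiftK N (M' + 1) := by unfold shiftK; omega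
    have hle : ∀ {a b : ℕ}, SValid M' N a b → b ≤ N + (M' + 1) := by
      rintro a b (⟨h1, -⟩ | ⟨-, -, -, h1⟩) <;> omega
    have e1 : ∀ {a b : ℕ}, SValid M' N a b → N + (M' + 1) - (N + (M' + 1) - b) = b := by
      intro a b hab
      have := hle hab
      omega
    have hne : ((siteOf (shiftK N (M' + 1)) (N + 2 - m), (N + (M' + 1) - l, cor t)) : VC) ≠
        (siteOf (shiftK N (M' + 1)) (N + 2 - m'), (N + (M' + 1) - l', cor t')) := by
      intro hc
      have h1 := congrArg Prod.fst hc
      simp only [siteOf] at h1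
      rcases hmm with rfl | rfl
      · split_ifs at h1 with a1 a2 a2
        · omega
        · simp at h1
        · simp at h1
        · omega
      · split_ifs at h1 with a1 a2 a2
        · rw [Prod.mk.injEq] at h1; omega
        · omega
        · omega
        · rw [Prod.mk.injEq] at h1; omega
    unfold gS
    rw [real_adj h (strip_mem t hm hv) (strip_mem t' hm' hv') hne]
    rcases hmm with rfl | rfl
    · rw [adj_strip1 hK hm']
      unfold sdir
      rw [if_pos rfl]
      by_cases hpar : (N + 2 - m) % 2 = 0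
      · rw [if_pos hpar, if_pos hpar]
        have := rule_cor 0 t t' (A := N + (M' + 1)) (lam := N + (M' + 1) - l)
          (lam' := N + (M' + 1) - l') (by omega) (by omega)
        rw [e1 hv, e1 hv'] at this
        exact this
      · rw [if_neg hpar, if_neg hpar]
        have := rule_cor 2 t t' (A := N + (M' + 1)) (lam := N + (M' + 1) - l)
          (lam' := N + (M' + 1) - l') (by omega) (by omega)
        rw [e1 hv, e1 hv'] at this
        exact this
    · rw [adj_strip2 hK hm']
      unfold sdir
      rw [if_neg (by omega)]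
      have := rule_cor 1 t t' (A := N + (M' + 1)) (lam := N + (M' + 1) - l)
        (lam' := N + (M' + 1) - l') (by omega) (by omega)
      rw [e1 hv, e1 hv'] at this
      exact this

end Pool.Agent.Lib.MP_1cb9f1_lc
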