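import Pool.Agent.Lib.MP_1cb9f1_lc.Frames
import Pool.Agent.Lib.MP_1cb9f1_lc.RegDefs

/-!
# The region of `GeoDefs.lean` satisfies the hypotheses of `Frames.lean`
-/

set_option autoImplicit false

namespace Pool.Agent.Lib.MP_1cb9f1_lc

open Pool.Agent.MP1cb9f1

/-- The label of the frame point `(α, β)`. -/
def flab (α β : ℤ) : ℕ :=
  (if α = -2 then β + 2 else if α = -1 then β + 5 else if α = 0 then β + 9 else
    if α = 1 then β + 13 else β + 16).toNat

theorem flab_lt {α β : ℤ} (h : Lab α β) : flab α β < 19 := by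
  unfold Lab at h; unfold flab; split_ifs <;> omega

theorem flab_surj {f : ℕ} (hf : f < 19) : ∃ α β, Lab α β ∧ flab α β = f := by
  have key : ∀ α β : ℤ, Lab α β → flab α β = f → ∃ α β, Lab α β ∧ flab α β = f :=
    fun α β h1 h2 => ⟨α, β, h1, h2⟩
  unfold Lab flab at *
  by_cases h1 : f < 3
  · exact key (-2) (f - 2) (by omega) (by simp)
  by_cases h2 : f < 7
  · exact key (-1) (f - 5) (by omega) (by simp)
  by_cases h3 : f < 12
  · exact key 0 (f - 9) (by omega) (by simp)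
  by_cases h4 : f < 16
  · exact key 1 (f - 13) (by omega) (by simp)
  · exact key 2 (f - 16) (by omega) (by simp)

theorem flab_inj {α β α' β' : ℤ} (h : Lab α β) (h' : Lab α' β') :
    flab α β = flab α' β' ↔ α = α' ∧ β = β' := by
  unfold Lab at *
  constructor
  · intro h1
    unfold flab at h1
    split_ifs at h1 <;> omega
  · rintro ⟨rfl, rfl⟩; rfl

theorem frameA_flab {α β : ℤ} (h : Lab α β) : frameA (flab α β) = α := by
  unfold Lab at h
  obtain ⟨h1, h2, h3, h4, h5, h6⟩ := h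
  have hα : α = -2 ∨ α = -1 ∨ α = 0 ∨ α = 1 ∨ α = 2 := by omega
  have hβ : β = -2 ∨ β = -1 ∨ β = 0 ∨ β = 1 ∨ β = 2 := by omega
  rcases hα with rfl | rfl | rfl | rfl | rfl <;> rcases hβ with rfl | rfl | rfl | rfl | rfl <;>
    first
    | (exfalso; omega)
    | rfl

theorem frameB_flab {α β : ℤ} (h : Lab α β) : frameB (flab α β) = β := by
  unfold Lab at h
  obtain ⟨h1, h2, h3, h4, h5, h6⟩ := h
  have hα : α = -2 ∨ α = -1 ∨ α = 0 ∨ α = 1 ∨ α = 2 := by omega
  have hβ : β = -2 ∨ β = -1 ∨ β = 0 ∨ β = 1 ∨ β = 2 := by omega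
  rcases hα with rfl | rfl | rfl | rfl | rfl <;> rcases hβ with rfl | rfl | rfl | rfl | rfl <;>
    first
    | (exfalso; omega)
    | rfl

/-- The rule for two frame labels. -/
theorem rule_frame0 (f f' : Fin 19) : rule 0 (0, f) (0, f') = true ↔
    (frameA f' < frameA f ∨ (f : ℕ) = f') := by
  revert f f'; decide

theorem rule_frame1 (f f' : Fin 19) : rule 1 (0, f) (0, f') = true ↔
    (frameB f' < frameB f ∨ (f : ℕ) = f') := by
  revert f f'; decide

theorem rule_frame2 (f f' : Fin 19) : rule 2 (0, f) (0, f') = true ↔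
    (frameB f' - frameA f' < frameB f - frameA f ∨ (f : ℕ) = f') := by
  revert f f'; decide

set_option maxRecDepth 100000 in
/-- Every label has a neighbour and a non-neighbour among the frames, in all directions. -/
theorem frame_facts (k : Fin 3) (l : Fin 44) :
    (∃ f : Fin 19, rule k (0, l) (0, f) = true) ∧ (∃ f : Fin 19, rule k (0, l) (0, f) = false) ∧
    (∃ f : Fin 19, rule k (0, f) (0, l) = true) ∧ (∃ f : Fin 19, rule k (0, f) (0, l) = false) := by
  revert k l; decide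

theorem labelsAt_lt {T : ℕ} {ops : List Op} {i j l : ℕ} (h : l ∈ labelsAt T ops i j) : l < 44 := by
  unfold labelsAt extrasAt opExtras at h
  simp only [List.mem_append] at h
  rcases h with (((h | h) | h) | h) | h
  · rw [List.mem_range] at h; omega
  · split_ifs at h <;> simp at h; omega
  · split_ifs at h <;> simp at h; omega
  · split_ifs at h <;> simp at h; omega
  · split_ifs at h <;> simp at h <;> omega

theorem presR_frame {T : ℕ} {ops : List Op} {i j f : ℕ} (hi : i < regI T ops + 1)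
    (hj : j < regJ T + 1) (hf : f < 19) : PresR T ops i j f := by
  refine ⟨by omega, by omega, ?_⟩
  unfold labelsAt
  simp only [List.mem_append, List.mem_range]
  exact Or.inl (Or.inl (Or.inl (Or.inl hf)))

/-- The clusters of the region. -/
def PQ (T : ℕ) (ops : List Op) (Q : ℕ → ℕ → ℕ → ℝ × ℝ) (i j : ℕ) : Set (ℝ × ℝ) :=
  {z | ∃ l, PresR T ops i j l ∧ Q i j l = z}

theorem nbS_nb {i j i' j' : ℕ} (h : NbS i j i' j') :
    (∃ k : Fin 3, nb k (i, j) (i', j') = true) ∨ ∃ k : Fin 3, nb k (i', j') (i, j) = true := by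
  rcases h with h | h | h | h | h | h
  · exact Or.inl ⟨0, by simp [nb, h.1, h.2]⟩
  · exact Or.inr ⟨0, by simp [nb, h.1, h.2]⟩
  · exact Or.inl ⟨1, by simp [nb, h.1, h.2]⟩
  · exact Or.inr ⟨1, by simp [nb, h.1, h.2]⟩
  · exact Or.inr ⟨2, by simp [nb, h.1, h.2]⟩
  · exact Or.inl ⟨2, by simp [nb, h.1, h.2]⟩

section
variable {T : ℕ} {ops : List Op} {Q : ℕ → ℕ → ℕ → ℝ × ℝ}

theorem frame_nbr (h : RegReal T ops Q) {i j i' j' l : ℕ} (hp : PresR T ops i j l)
    (hi' : i' < regI T ops + 1) (hj' : j' < regJ T + 1) (hn : NbS i j i' j') :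
    (∃ α β, Lab α β ∧ dsq (Q i j l) (Q i' j' (flab α β)) ≤ 4) ∧
      ∃ α β, Lab α β ∧ 4 < dsq (Q i j l) (Q i' j' (flab α β)) := by
  have hl := labelsAt_lt hp.2.2
  rcases nbS_nb hn with ⟨k, hk⟩ | ⟨k, hk⟩
  · obtain ⟨⟨f, hf⟩, ⟨f', hf'⟩, -, -⟩ := frame_facts k ⟨l, hl⟩
    constructor
    · obtain ⟨α, β, hL, hα⟩ := flab_surj f.2
      refine ⟨α, β, hL, ?_⟩
      rw [hα]
      exact (h.dir k k.2 i j l i' j' f hp (presR_frame hi' hj' f.2) hk).2 hf
    · obtain ⟨α, β, hL, hα⟩ := flab_surj f'.2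
      refine ⟨α, β, hL, ?_⟩
      rw [hα]
      by_contra hc
      push Not at hc
      have := (h.dir k k.2 i j l i' j' f' hp (presR_frame hi' hj' f'.2) hk).1 hc
      simp only at hf'
      rw [hf'] at this
      exact absurd this (by simp)
  · obtain ⟨-, -, ⟨f, hf⟩, ⟨f', hf'⟩⟩ := frame_facts k ⟨l, hl⟩
    constructor
    · obtain ⟨α, β, hL, hα⟩ := flab_surj f.2
      refine ⟨α, β, hL, ?_⟩
      rw [hα, dsq_comm]
      exact (h.dir k k.2 i' j' f i j l (presR_frame hi' hj' f.2) hp hk).2 hf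
    · obtain ⟨α, β, hL, hα⟩ := flab_surj f'.2
      refine ⟨α, β, hL, ?_⟩
      rw [hα, dsq_comm]
      by_contra hc
      push Not at hc
      have := (h.dir k k.2 i' j' f' i j l (presR_frame hi' hj' f'.2) hp hk).1 hc
      simp only at hf'
      rw [hf'] at this
      exact absurd this (by simp)

theorem far_region (h : RegReal T ops Q) {i j l i' j' l' : ℕ} (hp : PresR T ops i j l)
    (hp' : PresR T ops i' j' l') (hd : (i' = i + 1 ∧ j' = j + 1) ∨ (i' = i + 2 ∧ j' + 1 = j) ∨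
      (i' + 1 = i ∧ j' = j + 2)) : 4 < dsq (Q i j l) (Q i' j' l') := by
  by_contra hc
  push Not at hc
  refine h.far i j l i' j' l' hp hp' ?_ ?_ ?_ hc
  · rw [ne_eq, Prod.mk.injEq]; omega
  · intro k hk
    interval_cases k <;> simp only [nb] <;> simp <;> omega
  · intro k hk
    interval_cases k <;> simp only [nb] <;> simp <;> omega

/-- The region is a region with frames. -/
theorem frameReal_of_regReal (h : RegReal T ops Q) :
    FrameReal (regI T ops + 1) (regJ T + 1) (PQ T ops Q) (fun i j α β => Q i j (flab α β)) where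
  same := by
    rintro i j - - x ⟨l, hl, rfl⟩ y ⟨l', hl', rfl⟩
    exact h.same i j l l' hl hl'
  far1 := by
    rintro i j - - x ⟨l, hl, rfl⟩ y ⟨l', hl', rfl⟩
    exact far_region h hl hl' (Or.inl ⟨rfl, rfl⟩)
  far2 := by
    rintro i j - - x ⟨l, hl, rfl⟩ y ⟨l', hl', rfl⟩
    exact far_region h hl hl' (Or.inr (Or.inl ⟨rfl, rfl⟩))
  far3 := by
    rintro i j - - x ⟨l, hl, rfl⟩ y ⟨l', hl', rfl⟩
    exact far_region h hl hl' (Or.inr (Or.inr ⟨rfl, rfl⟩))
  near := by
    rintro i j i' j' - - hi' hj' hn x ⟨l, hl, rfl⟩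
    obtain ⟨α, β, hL, hd⟩ := (frame_nbr h hl hi' hj' hn).1
    exact ⟨_, ⟨_, presR_frame hi' hj' (flab_lt hL), rfl⟩, hd⟩
  away := by
    rintro i j i' j' - - hi' hj' hn x ⟨l, hl, rfl⟩
    obtain ⟨α, β, hL, hd⟩ := (frame_nbr h hl hi' hj' hn).2
    exact ⟨_, ⟨_, presR_frame hi' hj' (flab_lt hL), rfl⟩, hd⟩
  nonempty := by
    intro i j hi hj
    exact ⟨_, ⟨0, presR_frame hi hj (by norm_num), rfl⟩⟩
  mem := by
    intro i j α β hi hj hL
    exact ⟨_, presR_frame hi hj (flab_lt hL), rfl⟩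
  link0 := by
    intro i j α β α' β' hi hj hL hL'
    have h1 := h.dir 0 (by norm_num) i j (flab α β) (i + 1) j (flab α' β')
      (presR_frame (by omega) hj (flab_lt hL)) (presR_frame hi hj (flab_lt hL')) (by simp [nb])
    have h2 := rule_frame0 ⟨flab α β, flab_lt hL⟩ ⟨flab α' β', flab_lt hL'⟩
    simp only at h2
    rw [frameA_flab hL, frameA_flab hL', flab_inj hL hL'] at h2
    exact h1.trans h2
  link1 := by
    intro i j α β α' β' hi hj hL hL'
    have h1 := h.dir 1 (by norm_num) i j (flab α β) i (j + 1) (flab α' β')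
      (presR_frame hi (by omega) (flab_lt hL)) (presR_frame hi hj (flab_lt hL')) (by simp [nb])
    have h2 := rule_frame1 ⟨flab α β, flab_lt hL⟩ ⟨flab α' β', flab_lt hL'⟩
    simp only at h2
    rw [frameB_flab hL, frameB_flab hL', flab_inj hL hL'] at h2
    exact h1.trans h2
  link2 := by
    intro i j α β α' β' hi hj hL hL'
    have h1 := h.dir 2 (by norm_num) (i + 1) j (flab α β) i (j + 1) (flab α' β')
      (presR_frame hi (by omega) (flab_lt hL)) (presR_frame (by omega) hj (flab_lt hL'))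
      (by simp [nb])
    have h2 := rule_frame2 ⟨flab α β, flab_lt hL⟩ ⟨flab α' β', flab_lt hL'⟩
    simp only at h2
    rw [frameB_flab hL, frameB_flab hL', frameA_flab hL, frameA_flab hL', flab_inj hL hL'] at h2
    exact h1.trans h2
  n00_10 := by
    rintro z ⟨l, hl, rfl⟩
    exact (frame_nbr h hl (by unfold regI; omega) (by omega) (Or.inl ⟨rfl, rfl⟩)).1
  f00_10 := by
    rintro z ⟨l, hl, rfl⟩
    exact (frame_nbr h hl (by unfold regI; omega) (by omega) (Or.inl ⟨rfl, rfl⟩)).2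
  n00_01 := by
    rintro z ⟨l, hl, rfl⟩
    exact (frame_nbr h hl (by omega) (by unfold regJ; omega)
      (Or.inr (Or.inr (Or.inl ⟨rfl, rfl⟩)))).1
  f00_01 := by
    rintro z ⟨l, hl, rfl⟩
    exact (frame_nbr h hl (by omega) (by unfold regJ; omega)
      (Or.inr (Or.inr (Or.inl ⟨rfl, rfl⟩)))).2
  n01_11 := by
    rintro z ⟨l, hl, rfl⟩
    exact (frame_nbr h hl (by unfold regI; omega) (by unfold regJ; omega) (Or.inl ⟨rfl, rfl⟩)).1
  f01_11 := by
    rintro z ⟨l, hl, rfl⟩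
    exact (frame_nbr h hl (by unfold regI; omega) (by unfold regJ; omega) (Or.inl ⟨rfl, rfl⟩)).2
  n01_00 := by
    rintro z ⟨l, hl, rfl⟩
    obtain ⟨α, β, hL, hd⟩ := (frame_nbr h hl (i' := 0) (j' := 0) (by omega) (by omega)
      (Or.inr (Or.inr (Or.inr (Or.inl ⟨rfl, rfl⟩))))).1
    rw [dsq_comm] at hd
    exact ⟨α, β, hL, hd⟩
  f01_00 := by
    rintro z ⟨l, hl, rfl⟩
    obtain ⟨α, β, hL, hd⟩ := (frame_nbr h hl (i' := 0) (j' := 0) (by omega) (by omega)
      (Or.inr (Or.inr (Or.inr (Or.inl ⟨rfl, rfl⟩))))).2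
    rw [dsq_comm] at hd
    exact ⟨α, β, hL, hd⟩

theorem PQ_finite (i j : ℕ) : (PQ T ops Q i j).Finite := by
  have : PQ T ops Q i j ⊆ (fun l => Q i j l) '' {l | l < 44} := by
    rintro z ⟨l, hl, rfl⟩
    exact ⟨l, labelsAt_lt hl.2.2, rfl⟩
  exact Set.Finite.subset (Set.Finite.image _ (Set.finite_lt_nat 44)) this

end

end Pool.Agent.Lib.MP_1cb9f1_lc
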