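import Pool.Agent.Lib.MP_1cb9f1_lc.Glue
import Pool.Agent.Lib.MP_1cb9f1_lc.Glue2

/-!
# The rigid region of a realization

`geo_region`: every realization of the graph contains the computing region with all points within
`R` of an exact lattice, the frames being nominal with unit `a` up to `O(R²)`.
-/

set_option autoImplicit false

namespace Pool.Agent.Lib.MP_1cb9f1_lc

open Pool.Agent.MP1cb9f1

theorem cf1 (k : Fin 3) (t : Fin 6) : (∃ t', rule k (1, cor t') (1, cor t) = true) ∧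
    ∃ t', rule k (1, cor t') (1, cor t) = false := by
  revert k t; decide

theorem cf2 (k : Fin 3) (l : ℕ) : (∃ t', rule k (1, cor t') (0, l) = true) ∧
    ∃ t', rule k (1, cor t') (0, l) = false := by
  have h1 : ∀ k : Fin 3, ∃ t', kz k < ky k (cor t') := by decide
  have h2 : ∀ k : Fin 3, ∃ t', ¬ kz k < ky k (cor t') := by decide
  obtain ⟨t1, ht1⟩ := h1 k
  obtain ⟨t2, ht2⟩ := h2 k
  exact ⟨⟨t1, by simp [rule, ht1]⟩, ⟨t2, by simp [rule, ht2]⟩⟩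

theorem cf3 (k : Fin 3) (l : ℕ) : (∃ t', rule k (0, l) (1, cor t') = true) ∧
    ∃ t', rule k (0, l) (1, cor t') = false := by
  have h1 : ∀ k : Fin 3, ∃ t', ky k (cor t') < kz k := by decide
  have h2 : ∀ k : Fin 3, ∃ t', ¬ ky k (cor t') < kz k := by decide
  obtain ⟨t1, ht1⟩ := h1 k
  obtain ⟨t2, ht2⟩ := h2 k
  exact ⟨⟨t1, by simp [rule, ht1]⟩, ⟨t2, by simp [rule, ht2]⟩⟩

section
variable {T : ℕ} {ops : List Op} {N M' : ℕ} {p : VC → ℝ × ℝ}

/-- The finest tower points are present at the first three strip sites. -/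
theorem mem_one (t : Fin 6) {g : ℕ} (hg : g ≤ 2) :
    (siteOf (shiftK N (M' + 1)) g, (1, cor t)) ∈ verts T ops N (M' + 1) := by
  have := strip_mem (T := T) (ops := ops) (N := N) (M' := M') (m := N + 2 - g) (l := N + M') t
    (by omega) (Or.inr ⟨by omega, by omega, by omega, by omega⟩)
  rw [show N + 2 - (N + 2 - g) = g by omega, show N + (M' + 1) - (N + M') = 1 by omega] at this
  exact this

theorem mem_reg {i j l : ℕ} (h : PresR T ops i j l) :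
    ((i, shiftK N (M' + 1) + j), (0, l)) ∈ verts T ops N (M' + 1) := by
  unfold verts
  rw [List.mem_append, List.mem_append, mem_regionV]
  exact Or.inl (Or.inl ⟨i, j, l, h.1, h.2.1, h.2.2, rfl⟩)

/-- Base closeness of the region. -/
theorem base_close {M' : ℕ} (hM : ∀ κ T g, SeedDir κ → SeedReal κ M' T g →
      ∀ m ≤ 2, TClose T (fun m l t => g m (l + M') t) 0 (1 / 2800) m)
    {T : ℕ} {ops : List Op} {N : ℕ} {p : VC → ℝ × ℝ} (hN : 2 ≤ N)
    (h : RealizesOn (verts T ops N (M' + 1)) adjV p) :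
    (∀ l l', PresR T ops 0 0 l → PresR T ops 0 0 l' →
      dsq (p ((0, shiftK N (M' + 1) + 0), (0, l))) (p ((0, shiftK N (M' + 1) + 0), (0, l'))) ≤
        (100 * ((1 / 2) ^ 2 ^ N / 1400)) ^ 2) ∧
    (∀ l l', PresR T ops 0 1 l → PresR T ops 0 1 l' →
      dsq (p ((0, shiftK N (M' + 1) + 1), (0, l))) (p ((0, shiftK N (M' + 1) + 1), (0, l'))) ≤
        (100 * ((1 / 2) ^ 2 ^ N / 1400)) ^ 2) := by
  have hS := strip_seedReal h
  have h0 := hM (sdir N) N (gS N M' p) (sdir_seed N) hS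
  obtain ⟨tA, tB⟩ := tower_close hS.tower (s := 1 / 2800) (by norm_num) (by norm_num)
    (h0 0 (by norm_num)) (h0 1 (by norm_num)) N le_rfl
  set s : ℝ := (1 / 2) ^ 2 ^ N / 1400 with hs
  have e14 : (1400 * (1 / 2800) : ℝ) = 1 / 2 := by norm_num
  rw [e14, ← hs] at tA tB
  have hs0 : 0 ≤ s := by positivity
  have hs1 : s ≤ 1 / 10000 := by
    have h1 : (1 / 2 : ℝ) ^ 2 ^ N ≤ (1 / 2) ^ 4 := by
      refine pow_le_pow_of_le_one (by norm_num) (by norm_num) ?_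
      calc 4 = 2 ^ 2 := by norm_num
        _ ≤ 2 ^ N := Nat.pow_le_pow_right (by norm_num) hN
    rw [hs]; norm_num at h1 ⊢; linarith
  have k2 : siteOf (shiftK N (M' + 1)) 2 = (0, shiftK N (M' + 1) + 0) := by simp [siteOf]
  have k1 : siteOf (shiftK N (M' + 1)) 1 = (1, shiftK N (M' + 1) + 0) := by simp [siteOf]
  have k0 : siteOf (shiftK N (M' + 1)) 0 = (0, shiftK N (M' + 1) + 1) := by simp [siteOf]
  set K := shiftK N (M' + 1) with hK
  have eA : ∀ t, gS N M' p N (N + M') t = p ((0, K + 0), (1, cor t)) := by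
    intro t
    unfold gS
    rw [show N + 2 - N = 2 by omega, show N + (M' + 1) - (N + M') = 1 by omega, ← hK, k2]
  have eB : ∀ t, gS N M' p (N + 1) (N + M') t = p ((1, K + 0), (1, cor t)) := by
    intro t
    unfold gS
    rw [show N + 2 - (N + 1) = 1 by omega, show N + (M' + 1) - (N + M') = 1 by omega, ← hK, k1]
  -- memberships
  have mA : ∀ t, (((0, K + 0), (1, cor t)) : VC) ∈ verts T ops N (M' + 1) := by
    intro t; rw [← k2]; exact mem_one t (by norm_num)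
  have mB : ∀ t, (((1, K + 0), (1, cor t)) : VC) ∈ verts T ops N (M' + 1) := by
    intro t; rw [← k1]; exact mem_one t (by norm_num)
  have mD : ∀ t, (((0, K + 1), (1, cor t)) : VC) ∈ verts T ops N (M' + 1) := by
    intro t; rw [← k0]; exact mem_one t (by norm_num)
  have mR : ∀ {i j l}, PresR T ops i j l →
      (((i, K + j), (0, l)) : VC) ∈ verts T ops N (M' + 1) := fun hl => mem_reg hl
  -- adjacency
  have aSame : ∀ {x y : VC}, x ∈ verts T ops N (M' + 1) → y ∈ verts T ops N (M' + 1) →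
      x.1 = y.1 → dsq (p x) (p y) ≤ 4 := by
    intro x y hx hy hxy
    by_cases hne : x = y
    · rw [hne, dsq_self]; norm_num
    · rw [real_adj h hx hy hne]
      simp [adjV, hxy]
  have aNb : ∀ {x y : VC}, x ∈ verts T ops N (M' + 1) → y ∈ verts T ops N (M' + 1) →
      ∀ k : Fin 3, nb k x.1 y.1 = true → (dsq (p x) (p y) ≤ 4 ↔ rule k x.2 y.2 = true) := by
    intro x y hx hy k hk
    have hne : x ≠ y := by
      rintro rfl
      revert hk
      unfold nb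
      split_ifs <;> simp
    rw [real_adj h hx hy hne, adjV_of_nb k.2 hk]
  -- the clusters
  set A : Set (ℝ × ℝ) := {z | ∃ t, p ((0, K + 0), (1, cor t)) = z} with hA
  set B : Set (ℝ × ℝ) := {z | ∃ t, p ((1, K + 0), (1, cor t)) = z} with hB
  set C : Set (ℝ × ℝ) := {z | (∃ t, p ((0, K + 1), (1, cor t)) = z) ∨
    ∃ l, PresR T ops 0 1 l ∧ p ((0, K + 1), (0, l)) = z} with hC
  set D : Set (ℝ × ℝ) := {z | ∃ t, p ((0, K + 1), (1, cor t)) = z} with hD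
  set E : Set (ℝ × ℝ) := {z | ∃ l, PresR T ops 0 0 l ∧ p ((0, K + 0), (0, l)) = z} with hE
  have cA : ∀ x ∈ A, ∀ y ∈ A, dsq x y ≤ s ^ 2 := by
    rintro x ⟨t, rfl⟩ y ⟨t', rfl⟩
    have := tA N N t t' le_rfl le_rfl ⟨by omega, by omega, le_rfl⟩ ⟨by omega, by omega, le_rfl⟩
    simp only [eA] at this
    exact this
  have cB : ∀ x ∈ B, ∀ y ∈ B, dsq x y ≤ s ^ 2 := by
    rintro x ⟨t, rfl⟩ y ⟨t', rfl⟩
    have := tB N N t t' le_rfl le_rfl ⟨by omega, by omega, le_rfl⟩ ⟨by omega, by omega, le_rfl⟩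
    simp only [eB] at this
    exact this
  have far_of : ∀ {x y : VC}, x ∈ verts T ops N (M' + 1) → y ∈ verts T ops N (M' + 1) →
      ∀ k : Fin 3, nb k x.1 y.1 = true → rule k x.2 y.2 = false → 4 < dsq (p x) (p y) := by
    intro x y hx hy k hk hr
    by_contra hc
    push Not at hc
    rw [aNb hx hy k hk, hr] at hc
    exact absurd hc (by simp)
  have nbAB : nb (0 : Fin 3) (0, K + 0) (1, K + 0) = true := by simp [nb]
  have nbAC : nb (1 : Fin 3) (0, K + 0) (0, K + 1) = true := by simp [nb]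
  have nbBC : nb (2 : Fin 3) (1, K + 0) (0, K + 1) = true := by simp [nb]
  have CC := cluster_next (A := A) (B := B) (C := C) hs0 (by linarith) cA cB
    (by
      rintro x (⟨t, rfl⟩ | ⟨l, hl, rfl⟩) y (⟨t', rfl⟩ | ⟨l', hl', rfl⟩)
      · exact aSame (mD t) (mD t') rfl
      · exact aSame (mD t) (mR hl') rfl
      · exact aSame (mR hl) (mD t') rfl
      · exact aSame (mR hl) (mR hl') rfl)
    (by
      obtain ⟨t', ht'⟩ := (cf1 0 0).1
      exact ⟨_, ⟨t', rfl⟩, _, ⟨0, rfl⟩, (aNb (mA t') (mB 0) 0 nbAB).2 ht'⟩)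
    (by
      obtain ⟨t', ht'⟩ := (cf1 0 0).2
      exact ⟨_, ⟨t', rfl⟩, _, ⟨0, rfl⟩, far_of (mA t') (mB 0) 0 nbAB ht'⟩)
    (by
      rintro x (⟨t, rfl⟩ | ⟨l, hl, rfl⟩)
      · obtain ⟨t', ht'⟩ := (cf1 1 t).1
        refine ⟨_, ⟨t', rfl⟩, ?_⟩
        rw [dsq_comm]; exact (aNb (mA t') (mD t) 1 nbAC).2 ht'
      · obtain ⟨t', ht'⟩ := (cf2 1 l).1
        refine ⟨_, ⟨t', rfl⟩, ?_⟩
        rw [dsq_comm]; exact (aNb (mA t') (mR hl) 1 nbAC).2 ht')
    (by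
      rintro x (⟨t, rfl⟩ | ⟨l, hl, rfl⟩)
      · obtain ⟨t', ht'⟩ := (cf1 1 t).2
        refine ⟨_, ⟨t', rfl⟩, ?_⟩
        rw [dsq_comm]; exact far_of (mA t') (mD t) 1 nbAC ht'
      · obtain ⟨t', ht'⟩ := (cf2 1 l).2
        refine ⟨_, ⟨t', rfl⟩, ?_⟩
        rw [dsq_comm]; exact far_of (mA t') (mR hl) 1 nbAC ht')
    (by
      rintro x (⟨t, rfl⟩ | ⟨l, hl, rfl⟩)
      · obtain ⟨t', ht'⟩ := (cf1 2 t).1
        refine ⟨_, ⟨t', rfl⟩, ?_⟩
        rw [dsq_comm]; exact (aNb (mB t') (mD t) 2 nbBC).2 ht'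
      · obtain ⟨t', ht'⟩ := (cf2 2 l).1
        refine ⟨_, ⟨t', rfl⟩, ?_⟩
        rw [dsq_comm]; exact (aNb (mB t') (mR hl) 2 nbBC).2 ht')
    (by
      rintro x (⟨t, rfl⟩ | ⟨l, hl, rfl⟩)
      · obtain ⟨t', ht'⟩ := (cf1 2 t).2
        refine ⟨_, ⟨t', rfl⟩, ?_⟩
        rw [dsq_comm]; exact far_of (mB t') (mD t) 2 nbBC ht'
      · obtain ⟨t', ht'⟩ := (cf2 2 l).2
        refine ⟨_, ⟨t', rfl⟩, ?_⟩
        rw [dsq_comm]; exact far_of (mB t') (mR hl) 2 nbBC ht')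
  have cD : ∀ x ∈ D, ∀ y ∈ D, dsq x y ≤ (10 * s) ^ 2 :=
    fun x hx y hy => CC x (Or.inl hx) y (Or.inl hy)
  have cB' : ∀ x ∈ B, ∀ y ∈ B, dsq x y ≤ (10 * s) ^ 2 := fun x hx y hy =>
    le_trans (cB x hx y hy) (pow_le_pow_left₀ hs0 (by linarith) 2)
  have EE := cluster_next (A := B) (B := D) (C := E) (s := 10 * s) (by linarith) (by linarith)
    cB' cD
    (by
      rintro x ⟨l, hl, rfl⟩ y ⟨l', hl', rfl⟩
      exact aSame (mR hl) (mR hl') rfl)
    (by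
      obtain ⟨t', ht'⟩ := (cf1 2 0).1
      exact ⟨_, ⟨t', rfl⟩, _, ⟨0, rfl⟩, (aNb (mB t') (mD 0) 2 nbBC).2 ht'⟩)
    (by
      obtain ⟨t', ht'⟩ := (cf1 2 0).2
      exact ⟨_, ⟨t', rfl⟩, _, ⟨0, rfl⟩, far_of (mB t') (mD 0) 2 nbBC ht'⟩)
    (by
      rintro x ⟨l, hl, rfl⟩
      obtain ⟨t', ht'⟩ := (cf3 0 l).1
      exact ⟨_, ⟨t', rfl⟩, (aNb (mR hl) (mB t') 0 nbAB).2 ht'⟩)
    (by
      rintro x ⟨l, hl, rfl⟩
      obtain ⟨t', ht'⟩ := (cf3 0 l).2
      exact ⟨_, ⟨t', rfl⟩, far_of (mR hl) (mB t') 0 nbAB ht'⟩)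
    (by
      rintro x ⟨l, hl, rfl⟩
      obtain ⟨t', ht'⟩ := (cf3 1 l).1
      exact ⟨_, ⟨t', rfl⟩, (aNb (mR hl) (mD t') 1 nbAC).2 ht'⟩)
    (by
      rintro x ⟨l, hl, rfl⟩
      obtain ⟨t', ht'⟩ := (cf3 1 l).2
      exact ⟨_, ⟨t', rfl⟩, far_of (mR hl) (mD t') 1 nbAC ht'⟩)
  constructor
  · intro l l' hl hl'
    have := EE _ ⟨l, hl, rfl⟩ _ ⟨l', hl', rfl⟩
    refine this.trans (le_of_eq ?_)
    ring
  · intro l l' hl hl'
    have := CC _ (Or.inr ⟨l, hl, rfl⟩) _ (Or.inr ⟨l', hl', rfl⟩)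
    exact this.trans (pow_le_pow_left₀ (by linarith) (by linarith) 2)

end

end Pool.Agent.Lib.MP_1cb9f1_lc
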