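import Pool.Agent.Lib.MP_1cb9f1_lc.Glue3

/-!
# The rigid region of a realization, in the coordinates `(s0, s1)`
-/

set_option autoImplicit false

namespace Pool.Agent.Lib.MP_1cb9f1_lc

open Pool.Agent.MP1cb9f1

/-- `qf` in terms of the scalar product. -/
theorem qf_dot {d0 d1 : ℝ × ℝ} (h0 : dot d0 d0 = 1) (h1 : dot d1 d1 = 1)
    (h01 : dot d0 d1 = 1 / 2) (u : ℝ × ℝ) : qf (dot d0 u, dot d1 u) = 3 / 4 * dot u u := by
  have G := gram u d0 d1
  rw [h0, h1, h01, dot_comm u d0, dot_comm u d1] at G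
  unfold qf
  simp only
  linarith

theorem near_iff_link {A B p q e : ℝ × ℝ} (he : dot e e = 1) (hB1 : B.1 = A.1 + 2 * e.1)
    (hB2 : B.2 = A.2 + 2 * e.2) : dsq p q ≤ 4 ↔
      dot ((p - A) - (q - B)) ((p - A) - (q - B)) ≤ 4 * (dot e (p - A) - dot e (q - B)) := by
  have h1 : dsq p q = 4 * dot e e - 4 * (dot e (p - A) - dot e (q - B)) +
      dot ((p - A) - (q - B)) ((p - A) - (q - B)) := by
    simp only [dsq, dot, Prod.fst_sub, Prod.snd_sub, hB1, hB2]; ring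
  rw [he] at h1
  constructor <;> intro h2 <;> linarith

/-- The displacements of the points in the coordinates `(s0, s1)`. -/
def dispX (O d0 d1 : ℝ × ℝ) (Q : ℕ → ℕ → ℕ → ℝ × ℝ) (i j l : ℕ) : ℝ × ℝ :=
  (dot d0 (Q i j l - lat O d0 d1 i j), dot d1 (Q i j l - lat O d0 d1 i j))

theorem regDisp_of_placed {T : ℕ} {ops : List Op} {Q : ℕ → ℕ → ℕ → ℝ × ℝ} (h : RegReal T ops Q)
    (O : ℝ × ℝ) {d0 d1 : ℝ × ℝ} (h0 : dot d0 d0 = 1) (h1 : dot d1 d1 = 1)
    (h01 : dot d0 d1 = 1 / 2) : RegDisp T ops (dispX O d0 d1 Q) where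
  dir := by
    intro k hk i j l i' j' l' hp hp' hn
    rw [← h.dir k hk i j l i' j' l' hp hp' hn]
    have hq : qf (dispX O d0 d1 Q i j l - dispX O d0 d1 Q i' j' l') = 3 / 4 *
        dot ((Q i j l - lat O d0 d1 i j) - (Q i' j' l' - lat O d0 d1 i' j'))
          ((Q i j l - lat O d0 d1 i j) - (Q i' j' l' - lat O d0 d1 i' j')) := by
      rw [← qf_dot h0 h1 h01]
      congr 1
      simp only [dispX]
      ext
      · simp only [dot, Prod.fst_sub, Prod.snd_sub]; ring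
      · simp only [dot, Prod.fst_sub, Prod.snd_sub]; ring
    rw [hq]
    have h2 : dot (d1 - d0) (d1 - d0) = 1 := by
      have : dot (d1 - d0) (d1 - d0) = dot d1 d1 - 2 * dot d0 d1 + dot d0 d0 := by
        simp only [dot, Prod.fst_sub, Prod.snd_sub]; ring
      rw [this, h0, h1, h01]; norm_num
    have hnear : Near (Q i j l) (Q i' j' l') ↔ dsq (Q i j l) (Q i' j' l') ≤ 4 := Iff.rfl
    rw [hnear]
    interval_cases k
    · simp only [nb, if_true, Bool.and_eq_true, decide_eq_true_eq] at hn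
      obtain ⟨rfl, rfl⟩ := hn
      rw [near_iff_link (A := lat O d0 d1 i j') (B := lat O d0 d1 (i + 1) j') h0
        (by simp only [lat]; push_cast; ring) (by simp only [lat]; push_cast; ring)]
      simp only [sk, dispX, if_true]
      constructor <;> intro h3 <;> linarith
    · simp only [nb, Bool.and_eq_true, decide_eq_true_eq, if_true, if_false, one_ne_zero] at hn
      obtain ⟨rfl, rfl⟩ := hn
      rw [near_iff_link (A := lat O d0 d1 i' j) (B := lat O d0 d1 i' (j + 1)) h1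
        (by simp only [lat]; push_cast; ring) (by simp only [lat]; push_cast; ring)]
      simp only [sk, dispX, if_true, if_false, one_ne_zero]
      constructor <;> intro h3 <;> linarith
    · have hn' : i' + 1 = i ∧ j' = j + 1 := by
        simpa [nb] using hn
      obtain ⟨rfl, rfl⟩ := hn'
      rw [near_iff_link (A := lat O d0 d1 (i' + 1) j) (B := lat O d0 d1 i' (j + 1)) h2
        (by simp only [lat, Prod.fst_sub]; push_cast; ring)
        (by simp only [lat, Prod.snd_sub]; push_cast; ring)]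
      have e : ∀ u : ℝ × ℝ, dot (d1 - d0) u = dot d1 u - dot d0 u := by
        intro u; simp only [dot, Prod.fst_sub, Prod.snd_sub]; ring
      have n20 : ¬ (2 : ℕ) = 0 := by norm_num
      have n21 : ¬ (2 : ℕ) = 1 := by norm_num
      simp only [sk, dispX, n20, n21, if_false, e]
      constructor <;> intro h3 <;> linarith
  far := by
    intro i j l i' j' l' hp hp' hne hf hf'
    have h3 : ¬ dsq (Q i j l) (Q i' j' l') ≤ 4 := h.far i j l i' j' l' hp hp' hne hf hf'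
    have e : (2 * ((i' : ℝ) - i) + ((j' : ℝ) - j), ((i' : ℝ) - i) + 2 * ((j' : ℝ) - j)) +
        dispX O d0 d1 Q i' j' l' - dispX O d0 d1 Q i j l =
        (dot d0 (Q i' j' l' - Q i j l), dot d1 (Q i' j' l' - Q i j l)) := by
      have x1 : dot d0 (lat O d0 d1 i' j' - lat O d0 d1 i j) =
          2 * ((i' : ℝ) - i) * dot d0 d0 + 2 * ((j' : ℝ) - j) * dot d0 d1 := by
        simp only [dot, lat, Prod.fst_sub, Prod.snd_sub]; ring
      have x2 : dot d1 (lat O d0 d1 i' j' - lat O d0 d1 i j) =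
          2 * ((i' : ℝ) - i) * dot d0 d1 + 2 * ((j' : ℝ) - j) * dot d1 d1 := by
        simp only [dot, lat, Prod.fst_sub, Prod.snd_sub]; ring
      rw [h0, h01] at x1
      rw [h1, h01] at x2
      have y : ∀ d : ℝ × ℝ, dot d (Q i' j' l' - Q i j l) =
          dot d (lat O d0 d1 i' j' - lat O d0 d1 i j) + dot d (Q i' j' l' - lat O d0 d1 i' j') -
            dot d (Q i j l - lat O d0 d1 i j) := by
        intro d; simp only [dot, Prod.fst_sub, Prod.snd_sub]; ring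
      rw [y d0, y d1, x1, x2]
      ext
      · simp only [dispX, Prod.fst_sub, Prod.fst_add]; ring
      · simp only [dispX, Prod.snd_sub, Prod.snd_add]; ring
    rw [e, qf_dot h0 h1 h01, ← dsq_eq_dot, dsq_comm]
    linarith

/-- The rigid region, general form. -/
theorem geo_region_gen {M' : ℕ} (hM : ∀ κ T g, SeedDir κ → SeedReal κ M' T g →
      ∀ m ≤ 2, TClose T (fun m l t => g m (l + M') t) 0 (1 / 2800) m)
    {T : ℕ} {ops : List Op} {N L k : ℕ} {p : VC → ℝ × ℝ} (hN2 : 2 ≤ N)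
    (hN : 2 ^ L + (k + 20) * (regI T ops + regJ T + 2) ≤ 2 ^ N)
    (h : RealizesOn (verts T ops N (M' + 1)) adjV p) :
    ∃ X a R, RegDisp T ops X ∧ 0 < a ∧ a ≤ R ∧
      R ≤ 144 * 25 ^ (regI T ops + regJ T + 2) * a ∧
      R ≤ (1 / 2) ^ (2 ^ L + k * (regI T ops + regJ T + 2)) ∧ BoundR T ops X R ∧
      FramesOK T ops X a (10 * (regI T ops + regJ T + 2) ^ 2 * R ^ 2) := by
  set Q : ℕ → ℕ → ℕ → ℝ × ℝ := fun i j l => p ((i, shiftK N (M' + 1) + j), (0, l)) with hQ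
  have hR : RegReal T ops Q := regReal_of_realizes h
  have hF := frameReal_of_regReal hR
  obtain ⟨b0, b1⟩ := base_close hM hN2 h
  set n := regI T ops + regJ T + 2 with hn
  have hWn : (regI T ops + 1) + (regJ T + 1) = n := by omega
  have hn6 : 10 ≤ n := by rw [hn]; unfold regI regJ; omega
  set s : ℝ := 100 * ((1 / 2) ^ 2 ^ N / 1400) with hs
  have hs0 : 0 ≤ s := by positivity
  -- smallness
  have key : ∀ e : ℕ, 2 ^ L + e ≤ 2 ^ N → (1 / 2 : ℝ) ^ 2 ^ N ≤ (1 / 2) ^ (2 ^ L + e) :=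
    fun e he => pow_le_pow_of_le_one (by norm_num) (by norm_num) he
  have pow25 : ∀ e : ℕ, (25 : ℝ) ^ e ≤ 2 ^ (5 * e) := by
    intro e
    rw [pow_mul]
    exact pow_le_pow_left₀ (by norm_num) (by norm_num) e
  have hhalf : ∀ e : ℕ, (2 : ℝ) ^ e * (1 / 2) ^ e = 1 := by
    intro e
    rw [← mul_pow]; norm_num
  have small : 1000 * 25 ^ (3 * ((regI T ops + 1) + (regJ T + 1))) * s ≤ 1 / 4 := by
    rw [hWn]
    have h1 : (1 / 2 : ℝ) ^ 2 ^ N ≤ (1 / 2) ^ (15 * n + 10) := by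
      refine pow_le_pow_of_le_one (by norm_num) (by norm_num) ?_
      have : 20 * n ≤ (k + 20) * n := Nat.mul_le_mul_right n (by omega)
      have h2L : 1 ≤ 2 ^ L := Nat.one_le_two_pow
      omega
    have h2 : (25 : ℝ) ^ (3 * n) ≤ 2 ^ (15 * n) := by
      have := pow25 (3 * n)
      rwa [show 5 * (3 * n) = 15 * n by ring] at this
    have h3 : (25 : ℝ) ^ (3 * n) * (1 / 2) ^ 2 ^ N ≤ (1 / 2) ^ 10 := by
      calc (25 : ℝ) ^ (3 * n) * (1 / 2) ^ 2 ^ N ≤ 2 ^ (15 * n) * (1 / 2) ^ (15 * n + 10) :=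
            mul_le_mul h2 h1 (by positivity) (by positivity)
        _ = (2 ^ (15 * n) * (1 / 2) ^ (15 * n)) * (1 / 2) ^ 10 := by rw [pow_add]; ring
        _ = (1 / 2) ^ 10 := by rw [hhalf, one_mul]
    have h4 : 1000 * 25 ^ (3 * n) * s = 1000 / 14 * (25 ^ (3 * n) * (1 / 2) ^ 2 ^ N) := by
      rw [hs]; ring
    rw [h4]
    norm_num at h3 ⊢
    linarith
  have c00 : ∀ x ∈ PQ T ops Q 0 0, ∀ y ∈ PQ T ops Q 0 0, dsq x y ≤ s ^ 2 := by
    rintro x ⟨l, hl, rfl⟩ y ⟨l', hl', rfl⟩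
    exact b0 l l' hl hl'
  have c01 : ∀ x ∈ PQ T ops Q 0 1, ∀ y ∈ PQ T ops Q 0 1, dsq x y ≤ s ^ 2 := by
    rintro x ⟨l, hl, rfl⟩ y ⟨l', hl', rfl⟩
    exact b1 l l' hl hl'
  obtain ⟨O, d0, d1, a, R, ha, hR0, hRa, hRs, hpl, hfr⟩ := region_frames hF
    (by unfold regI; omega) (by unfold regJ; omega) (PQ_finite 0 0) (PQ_finite 0 1) hs0 small
    c00 c01
  rw [hWn] at hRa hRs
  have hWR : ((regI T ops + 1 : ℕ) : ℝ) + ((regJ T + 1 : ℕ) : ℝ) = n := by
    rw [← hWn]; push_cast; ring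
  have hn0 : (10 : ℝ) ≤ n := by exact_mod_cast hn6
  -- `R` is tiny
  have hRtiny : 3 * R ≤ (1 / 2) ^ (2 ^ L + k * n) * (1 / 2) ^ (2 * n) := by
    have h1 : (1 / 2 : ℝ) ^ 2 ^ N ≤ (1 / 2) ^ (2 ^ L + k * n + 2 * n + 5 * n) := by
      refine pow_le_pow_of_le_one (by norm_num) (by norm_num) ?_
      have : (k + 20) * n = k * n + 20 * n := by ring
      omega
    have h2 := pow25 n
    have h3 : (25 : ℝ) ^ n * (1 / 2) ^ 2 ^ N ≤ (1 / 2) ^ (2 ^ L + k * n) * (1 / 2) ^ (2 * n) := by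
      calc (25 : ℝ) ^ n * (1 / 2) ^ 2 ^ N
          ≤ 2 ^ (5 * n) * (1 / 2) ^ (2 ^ L + k * n + 2 * n + 5 * n) :=
            mul_le_mul h2 h1 (by positivity) (by positivity)
        _ = (2 ^ (5 * n) * (1 / 2) ^ (5 * n)) * ((1 / 2) ^ (2 ^ L + k * n) * (1 / 2) ^ (2 * n)) := by
            rw [pow_add, pow_add]; ring
        _ = _ := by rw [hhalf, one_mul]
    have h4 : 3 * (3 * 25 ^ n * s) = 9 / 14 * (25 ^ n * (1 / 2) ^ 2 ^ N) := by
      rw [hs]; ring
    have h5 : 0 ≤ (25 : ℝ) ^ n * (1 / 2) ^ 2 ^ N := by positivity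
    calc 3 * R ≤ 3 * (3 * 25 ^ n * s) := by linarith
      _ ≤ 25 ^ n * (1 / 2) ^ 2 ^ N := by rw [h4]; linarith
      _ ≤ _ := h3
  have hle1 : ∀ e : ℕ, (1 / 2 : ℝ) ^ e ≤ 1 := fun e => pow_le_one₀ (by norm_num) (by norm_num)
  have hR1 : 3 * R ≤ (1 / 2) ^ (2 ^ L + k * n) := by
    refine hRtiny.trans ?_
    have := hle1 (2 * n)
    have h5 : 0 ≤ (1 / 2 : ℝ) ^ (2 ^ L + k * n) := by positivity
    nlinarith
  have hR2 : 3 * R ≤ (1 / 2) ^ (2 * n) := by
    refine hRtiny.trans ?_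
    have := hle1 (2 ^ L + k * n)
    have h5 : 0 ≤ (1 / 2 : ℝ) ^ (2 * n) := by positivity
    nlinarith
  have hnR : (8 * (n : ℝ) + 60) * R ≤ 1 := by
    have h6 : (n : ℝ) < 2 ^ n := by
      have := Nat.lt_two_pow_self (n := n)
      exact_mod_cast this
    have h7 : (1 / 2 : ℝ) ^ (2 * n) = (1 / 2) ^ n * (1 / 2) ^ n := by rw [two_mul, pow_add]
    have h8 : (n : ℝ) * (1 / 2) ^ n ≤ 1 := by
      have := hhalf n
      have h9 : 0 ≤ (1 / 2 : ℝ) ^ n := by positivity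
      nlinarith
    have h10 : (1 / 2 : ℝ) ^ n ≤ (1 / 2) ^ 10 :=
      pow_le_pow_of_le_one (by norm_num) (by norm_num) hn6
    have h11 : 0 ≤ (1 / 2 : ℝ) ^ n := by positivity
    have h12 : (n : ℝ) * (1 / 2) ^ (2 * n) ≤ (1 / 2) ^ 10 := by
      rw [h7]
      calc (n : ℝ) * ((1 / 2) ^ n * (1 / 2) ^ n) = (n * (1 / 2) ^ n) * (1 / 2) ^ n := by ring
        _ ≤ 1 * (1 / 2) ^ 10 := mul_le_mul h8 h10 h11 (by norm_num)
        _ = _ := one_mul _
    norm_num at h12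
    nlinarith
  refine ⟨dispX O d0 d1 Q, a, 3 * R, regDisp_of_placed hR O hpl.h0 hpl.h1 hpl.h01, ha, ?_, ?_,
    hR1, ?_, ?_⟩
  · -- `a ≤ 3 R`
    have L11 : Lab 1 1 := lab11
    obtain ⟨k1, -⟩ := hfr 0 1 (by omega) (by unfold regJ; omega) 1 1 L11
    rw [hWR] at k1
    have hb1 := hpl.hb 0 1 (by omega) (by unfold regJ; omega) _
      (hF.mem 0 1 1 1 (by omega) (by unfold regJ; omega) L11)
    have hb2 := hpl.hb 0 1 (by omega) (by unfold regJ; omega) _
      (hF.mem 0 1 0 0 (by omega) (by unfold regJ; omega) lab00)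
    rw [dsq_eq_dot] at hb1 hb2
    have m1 := abs_dot_le (a := 1) (b := R) (by norm_num) hR0.le
      (by rw [hpl.h0]; norm_num : dot d0 d0 ≤ 1 ^ 2) hb1
    have m2 := abs_dot_le (a := 1) (b := R) (by norm_num) hR0.le
      (by rw [hpl.h0]; norm_num : dot d0 d0 ≤ 1 ^ 2) hb2
    rw [rel_eq (O := O) (d0 := d0) (d1 := d1)] at k1
    unfold fu at k1
    have k1' := abs_le.mp k1
    have m1' := abs_le.mp m1
    have m2' := abs_le.mp m2
    push_cast at k1'
    have : (8 * (n : ℝ) + 60) * R ^ 2 ≤ R := by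
      have : (8 * (n : ℝ) + 60) * R ^ 2 = ((8 * (n : ℝ) + 60) * R) * R := by ring
      rw [this]; nlinarith
    linarith
  · nlinarith
  · intro i j l hl
    have hb1 := hpl.hb i j (by have := hl.1; omega) (by have := hl.2.1; omega) _ ⟨l, hl, rfl⟩
    rw [dsq_eq_dot] at hb1
    have m1 := abs_dot_le (a := 1) (b := R) (by norm_num) hR0.le
      (by rw [hpl.h0]; norm_num : dot d0 d0 ≤ 1 ^ 2) hb1
    have m2 := abs_dot_le (a := 1) (b := R) (by norm_num) hR0.le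
      (by rw [hpl.h1]; norm_num : dot d1 d1 ≤ 1 ^ 2) hb1
    simp only [dispX]
    exact ⟨by linarith, by linarith⟩
  · intro i j l hi hj hl
    obtain ⟨α, β, hL, rfl⟩ := flab_surj hl
    obtain ⟨k1, k2, k3, k4⟩ := hfr i j (by omega) (by omega) α β hL
    rw [hWR] at k1 k2
    rw [frameA_flab hL, frameB_flab hL]
    rw [rel_eq (O := O) (d0 := d0) (d1 := d1)] at k1 k2
    have hiW : (i : ℝ) ≤ n := by exact_mod_cast (by omega : i ≤ n)
    have hjH : (j : ℝ) ≤ n := by exact_mod_cast (by omega : j ≤ n)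
    have hi0 : (0 : ℝ) ≤ i := Nat.cast_nonneg i
    have hj0 : (0 : ℝ) ≤ j := Nat.cast_nonneg j
    have hRR : 0 ≤ R ^ 2 := by positivity
    have q1 : (8 * (n : ℝ) + 60) + (2 * j ^ 2 + 9 * j + 2 * i) ≤ 10 * n ^ 2 * 9 := by nlinarith
    have q2 : (8 * (n : ℝ) + 60) + (2 * i ^ 2 + 5 * i + 2 * j) ≤ 10 * n ^ 2 * 9 := by nlinarith
    have q1' := mul_le_mul_of_nonneg_right q1 hRR
    have q2' := mul_le_mul_of_nonneg_right q2 hRR
    have e9 : 10 * (n : ℝ) ^ 2 * (3 * R) ^ 2 = 10 * n ^ 2 * 9 * R ^ 2 := by ring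
    have hcast : ((regI T ops : ℝ) + regJ T + 2) = n := by rw [hn]; push_cast; ring
    rw [hcast, e9]
    have k1' := abs_le.mp k1
    have k2' := abs_le.mp k2
    have k3' := abs_le.mp k3
    have k4' := abs_le.mp k4
    unfold fu at k1' k2' k3' k4'
    constructor
    · simp only [dispX]
      rw [abs_le]
      constructor <;> linarith
    · simp only [dispX]
      rw [abs_le]
      constructor <;> linarith

/-- **The rigid region.** -/
theorem geo_region : ∃ M : ℕ, 1 ≤ M ∧ ∀ k : ℕ, ∀ c : ℕ, 2 * k + 40 ≤ c →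
    ∀ (n : ℕ) (gs : List Gate) (L : ℕ) (p : VC → ℝ × ℝ), RealizesOn (VLgeo M c n gs L) adjV p →
    ∃ X a R, RegDisp (rowsT n gs) (opsOf n gs) X ∧ 0 < a ∧ a ≤ R ∧
      R ≤ 144 * 25 ^ (regI (rowsT n gs) (opsOf n gs) + regJ (rowsT n gs) + 2) * a ∧
      R ≤ (1 / 2) ^ (2 ^ L + k * (regI (rowsT n gs) (opsOf n gs) + regJ (rowsT n gs) + 2)) ∧
      BoundR (rowsT n gs) (opsOf n gs) X R ∧
      FramesOK (rowsT n gs) (opsOf n gs) X a
        (10 * (regI (rowsT n gs) (opsOf n gs) + regJ (rowsT n gs) + 2) ^ 2 * R ^ 2) := by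
  obtain ⟨M', hM⟩ := seed_exists
  refine ⟨M' + 1, by omega, fun k c hc n gs L p h => ?_⟩
  unfold VLgeo at h
  refine geo_region_gen hM ?_ ?_ h
  · unfold towerN; omega
  · set m := regI (rowsT n gs) (opsOf n gs) + regJ (rowsT n gs) with hm
    have e : towerN c n gs L = L + c * (m + 1) := by unfold towerN; rw [← hm]; ring
    rw [e, pow_add]
    have h1 : c * (m + 1) + 1 ≤ 2 ^ (c * (m + 1)) := Nat.lt_two_pow_self
    have h2 : (k + 20) * (m + 2) ≤ c * (m + 1) := by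
      calc (k + 20) * (m + 2) ≤ (k + 20) * (2 * (m + 1)) := Nat.mul_le_mul_left _ (by omega)
        _ = (2 * k + 40) * (m + 1) := by ring
        _ ≤ c * (m + 1) := Nat.mul_le_mul_right _ hc
    have h3 : 1 ≤ 2 ^ L := Nat.one_le_two_pow
    calc 2 ^ L + (k + 20) * (m + 2) ≤ 2 ^ L * (1 + c * (m + 1)) := by
          have h4 : c * (m + 1) ≤ 2 ^ L * (c * (m + 1)) := Nat.le_mul_of_pos_left _ h3
          have h5 : 2 ^ L * (1 + c * (m + 1)) = 2 ^ L + 2 ^ L * (c * (m + 1)) := by ring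
          rw [h5]
          omega
      _ ≤ 2 ^ L * 2 ^ (c * (m + 1)) := Nat.mul_le_mul_left _ (by omega)

end Pool.Agent.Lib.MP_1cb9f1_lc
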