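import Pool.Agent.Lib.MP_1cb9f1_lc.Plane

/-!
# Links: two small clusters at distance about `2`
-/

namespace Pool.Agent.Lib.MP_1cb9f1_lc

/-- Expansion of the squared distance of two points of two clusters around `zP`, `zQ`. -/
theorem dsq_expand (zP zQ a b : ℝ × ℝ) :
    dsq a b = dsq zP zQ + 2 * dot (a - zP) (zP - zQ) - 2 * dot (b - zQ) (zP - zQ) +
      dot ((a - zP) - (b - zQ)) ((a - zP) - (b - zQ)) := by
  simp only [dsq, dot, Prod.fst_sub, Prod.snd_sub]; ring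

theorem near_link {zP zQ a b : ℝ × ℝ} (h : dsq a b ≤ 4) :
    dot (a - zP) (zP - zQ) - dot (b - zQ) (zP - zQ) + (dsq zP zQ - 4) / 2 ≤ 0 := by
  have h1 := dsq_expand zP zQ a b
  have h2 := dot_self_nonneg ((a - zP) - (b - zQ))
  linarith

theorem far_link {zP zQ a b : ℝ × ℝ} {s : ℝ} (ha : dsq a zP ≤ s ^ 2) (hb : dsq b zQ ≤ s ^ 2)
    (h : 4 < dsq a b) :
    -2 * s ^ 2 < dot (a - zP) (zP - zQ) - dot (b - zQ) (zP - zQ) + (dsq zP zQ - 4) / 2 := by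
  have h1 := dsq_expand zP zQ a b
  have h2 : dot ((a - zP) - (b - zQ)) ((a - zP) - (b - zQ)) ≤
      2 * dsq a zP + 2 * dsq b zQ := by
    have h3 := dot_self_nonneg ((a - zP) + (b - zQ))
    have h4 : dot ((a - zP) - (b - zQ)) ((a - zP) - (b - zQ)) +
        dot ((a - zP) + (b - zQ)) ((a - zP) + (b - zQ)) = 2 * dsq a zP + 2 * dsq b zQ := by
      simp only [dsq, dot, Prod.fst_sub, Prod.snd_sub, Prod.fst_add, Prod.snd_add]; ring
    linarith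
  linarith

/-- The matching lemma: an induced matching `zP ~ zQ`, `yP ~ yQ` between two clusters of radius
`s`. -/
theorem matching {zP zQ yP yQ : ℝ × ℝ} {s : ℝ} (hP : dsq yP zP ≤ s ^ 2) (hQ : dsq yQ zQ ≤ s ^ 2)
    (h1 : dsq zP zQ ≤ 4) (h2 : dsq yP yQ ≤ 4) (h3 : 4 < dsq zP yQ) (h4 : 4 < dsq yP zQ) :
    |dot (yP - zP) (zP - zQ)| ≤ 2 * s ^ 2 ∧ |dot (yQ - zQ) (zP - zQ)| ≤ 2 * s ^ 2 ∧
      4 - 8 * s ^ 2 ≤ dsq zP zQ := by
  have e0 : dot (zP - zP) (zP - zQ) = 0 := by simp [dot]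
  have e1 : dot (zQ - zQ) (zP - zQ) = 0 := by simp [dot]
  have hs : 0 ≤ s ^ 2 := by positivity
  have a1 := near_link (zP := zP) (zQ := zQ) h2
  have a2 := far_link (zP := zP) (zQ := zQ) (s := s) (by rw [dsq_self]; exact hs) hQ h3
  have a3 := far_link (zP := zP) (zQ := zQ) (s := s) hP (by rw [dsq_self]; exact hs) h4
  rw [e0] at a2
  rw [e1] at a3
  refine ⟨?_, ?_, by linarith⟩ <;> rw [abs_le] <;> constructor <;> linarith

/-- A finer point at the side of `zP`, between two points of the other side. -/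
theorem finer_left {zP zQ x y1 y2 : ℝ × ℝ} {s : ℝ} (hx : dsq x zP ≤ s ^ 2)
    (h2 : dsq y2 zQ ≤ s ^ 2) (hy1 : |dot (y1 - zQ) (zP - zQ)| ≤ 2 * s ^ 2)
    (hy2 : |dot (y2 - zQ) (zP - zQ)| ≤ 2 * s ^ 2) (hz : 4 - 8 * s ^ 2 ≤ dsq zP zQ)
    (hz1 : dsq zP zQ ≤ 4) (hn : dsq x y1 ≤ 4) (hf : 4 < dsq x y2) :
    |dot (x - zP) (zP - zQ)| ≤ 6 * s ^ 2 := by
  have a1 := near_link (zP := zP) (zQ := zQ) hn
  have a2 := far_link (zP := zP) (zQ := zQ) hx h2 hf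
  rw [abs_le] at *
  obtain ⟨h3, h4⟩ := hy1
  obtain ⟨h5, h6⟩ := hy2
  have hs : 0 ≤ s ^ 2 := by positivity
  constructor <;> linarith

/-- A finer point at the side of `zQ`, between two points of the other side. -/
theorem finer_right {zP zQ x y1 y2 : ℝ × ℝ} {s : ℝ} (hx : dsq x zQ ≤ s ^ 2)
    (h2 : dsq y2 zP ≤ s ^ 2) (hy1 : |dot (y1 - zP) (zP - zQ)| ≤ 2 * s ^ 2)
    (hy2 : |dot (y2 - zP) (zP - zQ)| ≤ 2 * s ^ 2) (hz : 4 - 8 * s ^ 2 ≤ dsq zP zQ)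
    (hz1 : dsq zP zQ ≤ 4) (hn : dsq x y1 ≤ 4) (hf : 4 < dsq x y2) :
    |dot (x - zQ) (zP - zQ)| ≤ 6 * s ^ 2 := by
  have a1 := near_link (zP := zP) (zQ := zQ) (a := y1) (b := x) (by rw [dsq_comm]; exact hn)
  have a2 := far_link (zP := zP) (zQ := zQ) (a := y2) (b := x) h2 hx (by rw [dsq_comm]; exact hf)
  rw [abs_le] at *
  obtain ⟨h3, h4⟩ := hy1
  obtain ⟨h5, h6⟩ := hy2
  have hs : 0 ≤ s ^ 2 := by positivity
  constructor <;> linarith

/-- Combination of two directions: `e = zP - zQ` and `e' = zP' - zR`, where the third side of the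
triangle has squared length in `[4 - η, 4]` as well. -/
theorem two_dir {x e e' : ℝ × ℝ} {ε : ℝ} (h1 : |dot x e| ≤ ε) (h2 : |dot x e'| ≤ ε)
    (he : dot e e ≤ 4) (he1 : 39 / 10 ≤ dot e e) (he' : dot e' e' ≤ 4)
    (he1' : 39 / 10 ≤ dot e' e') (hd : |dot e e'| ≤ 22 / 10) : dot x x ≤ (5 / 4) * ε ^ 2 := by
  have hG := gram x e e'
  rw [abs_le] at hd
  have hdet : (103 / 10 : ℝ) ≤ dot e e * dot e' e' - dot e e' ^ 2 := by nlinarith [hd.1, hd.2]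
  have h6 : (4 : ℝ) + 2 * (22 / 10) + 4 ≤ (1204 / 1000) * (103 / 10) := by norm_num
  have := gram_bound (X := dot x x) (μ := dot x e) (ω := dot x e') (M := dot e e)
    (W := dot e' e') (P := dot e e') (ε := ε) (Mb := 4) (Wb := 4) (Pb := 22 / 10)
    (δ := 103 / 10) (K := 1204 / 1000) hG h1 h2 (by linarith) (by linarith) he he'
    (by rw [abs_le]; exact hd) (dot_self_nonneg x) hdet (by norm_num) h6
  nlinarith [sq_nonneg ε]

end Pool.Agent.Lib.MP_1cb9f1_lc
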