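import Pool.Agent.Lib.MP_1cb9f1_lc.RegDefs

/-!
# From the displacements of the region to the approximate operations
-/

set_option autoImplicit false

namespace Pool.Agent.MP1cb9f1

open Pool.Agent.Lib.MP_1cb9f1_lc

namespace RegOps

theorem qf_nonneg (x : ℝ × ℝ) : 0 ≤ qf x := by
  unfold qf
  nlinarith [sq_nonneg (x.1 - x.2), sq_nonneg x.1, sq_nonneg x.2]

theorem qf_sub_le {R : ℝ} {x y : ℝ × ℝ} (hx : |x.1| ≤ R ∧ |x.2| ≤ R)
    (hy : |y.1| ≤ R ∧ |y.2| ≤ R) : qf (x - y) ≤ 12 * R ^ 2 := by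
  obtain ⟨a1, a2⟩ := hx
  obtain ⟨b1, b2⟩ := hy
  rw [abs_le] at a1 a2 b1 b2
  have hR : 0 ≤ R := by linarith
  have c1 : (x.1 - y.1) ^ 2 ≤ (2 * R) ^ 2 := sq_le_sq' (by linarith) (by linarith)
  have c2 : (x.2 - y.2) ^ 2 ≤ (2 * R) ^ 2 := sq_le_sq' (by linarith) (by linarith)
  unfold qf
  simp only [Prod.fst_sub, Prod.snd_sub]
  nlinarith [sq_nonneg ((x.1 - y.1) + (x.2 - y.2))]

theorem rule_self (k l : ℕ) : rule k (0, l) (0, l) = true := by
  simp [rule]

theorem sk0 (x : ℝ × ℝ) : sk 0 x = x.1 := rfl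

theorem sk1 (x : ℝ × ℝ) : sk 1 x = x.2 := rfl

theorem sk2 (x : ℝ × ℝ) : sk 2 x = x.2 - x.1 := rfl

section

variable {T : ℕ} {ops : List Op} {X : ℕ → ℕ → ℕ → ℝ × ℝ} {a R e : ℝ}

/-- Adjacent points. -/
theorem edge (h : RegDisp T ops X) {k : ℕ} (hk : k < 3) {i j l i' j' l' : ℕ}
    (hp : PresR T ops i j l) (hp' : PresR T ops i' j' l') (hn : nb k (i, j) (i', j') = true)
    (hr : rule k (0, l) (0, l') = true) : sk k (X i' j' l') ≤ sk k (X i j l) := by
  have h1 := (h.dir k hk i j l i' j' l' hp hp' hn).1 hr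
  have h2 := qf_nonneg (X i j l - X i' j' l')
  linarith

/-- Non-adjacent points. -/
theorem nonedge (h : RegDisp T ops X) (hB : BoundR T ops X R) {k : ℕ} (hk : k < 3)
    {i j l i' j' l' : ℕ} (hp : PresR T ops i j l) (hp' : PresR T ops i' j' l')
    (hn : nb k (i, j) (i', j') = true) (hr : rule k (0, l) (0, l') = false) :
    sk k (X i j l) ≤ sk k (X i' j' l') + 4 * R ^ 2 := by
  have h1 : ¬ qf (X i j l - X i' j' l') ≤ 3 * (sk k (X i j l) - sk k (X i' j' l')) := fun hc => by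
    rw [(h.dir k hk i j l i' j' l' hp hp' hn).2 hc] at hr
    exact absurd hr (by simp)
  have h2 := qf_sub_le (hB i j l hp) (hB i' j' l' hp')
  linarith

/-- One link of a double rope. -/
theorem link (h : RegDisp T ops X) (hB : BoundR T ops X R) {k : ℕ} (hk : k < 3)
    {i j i' j' l l' : ℕ} (p1 : PresR T ops i j l) (p2 : PresR T ops i j l')
    (q1 : PresR T ops i' j' l) (q2 : PresR T ops i' j' l') (hn : nb k (i, j) (i', j') = true)
    (h1 : rule k (0, l) (0, l') = false) (h2 : rule k (0, l') (0, l) = false) :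
    |sk k (X i j l) - sk k (X i' j' l)| ≤ 8 * R ^ 2 := by
  have a1 := edge h hk p1 q1 hn (rule_self k l)
  have a2 := edge h hk p2 q2 hn (rule_self k l')
  have a3 := nonedge h hB hk p1 q2 hn h1
  have a4 := nonedge h hB hk p2 q1 hn h2
  have hR := sq_nonneg R
  rw [abs_le]
  constructor <;> linarith

/-- A double rope. -/
theorem line (h : RegDisp T ops X) (hB : BoundR T ops X R) {k : ℕ} (hk : k < 3)
    (S : ℕ → ℕ × ℕ) (n l l' : ℕ) (hp : ∀ t ≤ n, PresR T ops (S t).1 (S t).2 l)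
    (hp' : ∀ t ≤ n, PresR T ops (S t).1 (S t).2 l')
    (hn : ∀ t < n, nb k (S t) (S (t + 1)) = true) (h1 : rule k (0, l) (0, l') = false)
    (h2 : rule k (0, l') (0, l) = false) : ∀ t ≤ n,
    |sk k (X (S t).1 (S t).2 l) - sk k (X (S 0).1 (S 0).2 l)| ≤ 8 * t * R ^ 2 := by
  intro t
  induction t with
  | zero =>
    intro _
    simp
  | succ t ih =>
    intro ht
    have a1 := ih (by omega)
    have a2 := link h hB hk (hp t (by omega)) (hp' t (by omega)) (hp (t + 1) ht)
      (hp' (t + 1) ht) (hn t (by omega)) h1 h2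
    rw [abs_le] at a1 a2 ⊢
    push_cast
    constructor <;> linarith

/-- A point tied to a line. -/
theorem tie (h : RegDisp T ops X) (hB : BoundR T ops X R) {k : ℕ} (hk : k < 3)
    {i j p i1 j1 i2 j2 l l' : ℕ} (hp : PresR T ops i j p) (hl : PresR T ops i j l)
    (hl' : PresR T ops i j l') (p1 : PresR T ops i1 j1 l) (p2 : PresR T ops i1 j1 l')
    (q1 : PresR T ops i2 j2 l) (q2 : PresR T ops i2 j2 l')
    (n1 : nb k (i1, j1) (i, j) = true) (n2 : nb k (i, j) (i2, j2) = true)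
    (h1 : rule k (0, l) (0, l') = false) (h2 : rule k (0, l') (0, l) = false)
    (h3 : rule k (0, l) (0, p) = false) (h4 : rule k (0, p) (0, l) = false) :
    |sk k (X i j p) - sk k (X i j l)| ≤ 12 * R ^ 2 := by
  have a1 := abs_le.1 (link h hB hk p1 p2 hl hl' n1 h1 h2)
  have a2 := abs_le.1 (link h hB hk hl hl' q1 q2 n2 h1 h2)
  have a3 := nonedge h hB hk p1 hp n1 h3
  have a4 := nonedge h hB hk hp q1 n2 h4
  rw [abs_le]
  constructor <;> linarith

/-- A point tied to frames. -/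
theorem tieF (h : RegDisp T ops X) (hB : BoundR T ops X R) {k : ℕ} (hk : k < 3)
    {i j p i1 j1 i2 j2 l : ℕ} {c ε : ℝ} (hp : PresR T ops i j p)
    (p1 : PresR T ops i1 j1 l) (q1 : PresR T ops i2 j2 l)
    (n1 : nb k (i1, j1) (i, j) = true) (n2 : nb k (i, j) (i2, j2) = true)
    (h3 : rule k (0, l) (0, p) = false) (h4 : rule k (0, p) (0, l) = false)
    (c1 : |sk k (X i1 j1 l) - c| ≤ ε) (c2 : |sk k (X i2 j2 l) - c| ≤ ε) :
    |sk k (X i j p) - c| ≤ 4 * R ^ 2 + ε := by
  have a3 := nonedge h hB hk p1 hp n1 h3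
  have a4 := nonedge h hB hk hp q1 n2 h4
  rw [abs_le] at c1 c2 ⊢
  constructor <;> linarith

/-! ### Presence -/

theorem pres_frame {i j l : ℕ} (hi : i ≤ regI T ops) (hj : j ≤ regJ T) (hl : l < 19) :
    PresR T ops i j l := by
  refine ⟨hi, hj, ?_⟩
  simp only [labelsAt, List.mem_append, List.mem_range]
  tauto

theorem pres_row {i j l : ℕ} (hi : i ≤ regI T ops) (hj : j ≤ regJ T) (h2 : j % 2 = 0)
    (hl : l = 19 ∨ l = 20) : PresR T ops i j l := by
  refine ⟨hi, hj, ?_⟩
  simp only [labelsAt, List.mem_append, List.mem_range, h2, if_true, List.mem_cons,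
    List.not_mem_nil, or_false]
  tauto

theorem pres_col {i j l : ℕ} (hi : i ≤ regI T ops) (hj : j ≤ regJ T) (h2 : i % 2 = 0)
    (hl : l = 21 ∨ l = 22 ∨ l = 23 ∨ l = 24) : PresR T ops i j l := by
  refine ⟨hi, hj, ?_⟩
  simp only [labelsAt, List.mem_append, List.mem_range, h2, if_true, List.mem_cons,
    List.not_mem_nil, or_false]
  tauto

theorem pres_diag {i j l : ℕ} (hi : i ≤ regI T ops) (hj : j ≤ regJ T) (h2 : (i + j) % 2 = 0)
    (hl : l = 25 ∨ l = 26) : PresR T ops i j l := by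
  refine ⟨hi, hj, ?_⟩
  simp only [labelsAt, List.mem_append, List.mem_range, h2, if_true, List.mem_cons,
    List.not_mem_nil, or_false]
  tauto

theorem pres_extra {i j l : ℕ} (hi : i ≤ regI T ops) (hj : j ≤ regJ T)
    (hl : l ∈ extrasAt T ops i j) : PresR T ops i j l := by
  refine ⟨hi, hj, ?_⟩
  simp only [labelsAt, List.mem_append]
  exact Or.inr hl

/-- The extra labels of the block number `q`. -/
theorem extras_block {q x j l : ℕ} {o : Op} (hq : ops[q]? = some o) (hx : x < blk T)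
    (hl : l ∈ opExtras T o x j) : l ∈ extrasAt T ops (blk T * q + x) j := by
  have hq' : q < ops.length := (List.getElem?_eq_some_iff.1 hq).1
  have hb : 0 < blk T := by unfold blk; omega
  have e1 : (blk T * q + x) / blk T = q := by
    rw [Nat.mul_add_div hb, Nat.div_eq_of_lt hx, add_zero]
  have e2 : (blk T * q + x) % blk T = x := by
    rw [Nat.mul_add_mod, Nat.mod_eq_of_lt hx]
  unfold extrasAt opAt
  rw [e1, e2, if_pos hq']
  have : ops.getD q (0, 0, 0, 0) = o := by
    rw [List.getD_eq_getElem?_getD, hq]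
    rfl
  rw [this]
  exact hl

theorem block_le {q x : ℕ} (hq : q < ops.length) (hx : x ≤ blk T + 2) :
    blk T * q + x ≤ regI T ops := by
  unfold regI
  have : blk T * (q + 1) ≤ blk T * ops.length := Nat.mul_le_mul_left _ hq
  rw [Nat.mul_add, Nat.mul_one] at this
  omega

/-! ### Lines -/

theorem nb0 (i j : ℕ) : nb 0 (i, j) (i + 1, j) = true := by simp [nb]

theorem nb1 (i j : ℕ) : nb 1 (i, j) (i, j + 1) = true := by simp [nb]

theorem nb2 (i j : ℕ) : nb 2 (i + 1, j) (i, j + 1) = true := by simp [nb]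

theorem regS_facts (T : ℕ) (ops : List Op) (R : ℝ) :
    R ^ 2 ≤ (regS T ops : ℝ) * R ^ 2 ∧
      ∀ i : ℕ, i ≤ regI T ops ∨ i ≤ regJ T → (i : ℝ) * R ^ 2 ≤ (regS T ops : ℝ) * R ^ 2 := by
  have hR := sq_nonneg R
  constructor
  · have h1 : (1 : ℝ) ≤ regS T ops := by
      have : 1 ≤ regS T ops := by unfold regS; omega
      exact_mod_cast this
    nlinarith
  · intro i hi
    have h1 : (i : ℝ) ≤ regS T ops := by
      have : i ≤ regS T ops := by unfold regS; omega
      exact_mod_cast this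
    exact mul_le_mul_of_nonneg_right h1 hR

theorem row (h : RegDisp T ops X) (hB : BoundR T ops X R) {i j : ℕ} (hi : i ≤ regI T ops)
    (hj : j ≤ regJ T) (h2 : j % 2 = 0) :
    |(X i j 19).1 - (X 0 j 19).1| ≤ 8 * (regS T ops * R ^ 2) := by
  have key := line h hB (k := 0) (by norm_num) (fun t => (t, j)) i 19 20
    (fun t ht => pres_row (by omega) hj h2 (Or.inl rfl))
    (fun t ht => pres_row (by omega) hj h2 (Or.inr rfl)) (fun t _ => nb0 t j)
    (by decide) (by decide) i le_rfl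
  have := (regS_facts T ops R).2 i (Or.inl hi)
  simp only [sk0] at key
  linarith

theorem colA (h : RegDisp T ops X) (hB : BoundR T ops X R) {i j : ℕ} (hi : i ≤ regI T ops)
    (hj : j ≤ regJ T) (h2 : i % 2 = 0) :
    |(X i j 21).2 - (X i 0 21).2| ≤ 8 * (regS T ops * R ^ 2) := by
  have key := line h hB (k := 1) (by norm_num) (fun t => (i, t)) j 21 22
    (fun t ht => pres_col hi (by omega) h2 (by tauto))
    (fun t ht => pres_col hi (by omega) h2 (by tauto)) (fun t _ => nb1 i t)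
    (by decide) (by decide) j le_rfl
  have := (regS_facts T ops R).2 j (Or.inr hj)
  simp only [sk1] at key
  linarith

theorem colB (h : RegDisp T ops X) (hB : BoundR T ops X R) {i j : ℕ} (hi : i ≤ regI T ops)
    (hj : j ≤ regJ T) (h2 : i % 2 = 0) :
    |(X i j 23).2 - (X i 0 23).2| ≤ 8 * (regS T ops * R ^ 2) := by
  have key := line h hB (k := 1) (by norm_num) (fun t => (i, t)) j 23 24
    (fun t ht => pres_col hi (by omega) h2 (by tauto))
    (fun t ht => pres_col hi (by omega) h2 (by tauto)) (fun t _ => nb1 i t)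
    (by decide) (by decide) j le_rfl
  have := (regS_facts T ops R).2 j (Or.inr hj)
  simp only [sk1] at key
  linarith

theorem diag (h : RegDisp T ops X) (hB : BoundR T ops X R) {i j i' j' : ℕ}
    (hi : i ≤ regI T ops) (hj' : j' ≤ regJ T) (hs : i + j = i' + j') (hjj : j ≤ j')
    (h2 : (i + j) % 2 = 0) :
    |sk 2 (X i' j' 25) - sk 2 (X i j 25)| ≤ 8 * (regS T ops * R ^ 2) := by
  obtain ⟨n, rfl⟩ := Nat.exists_eq_add_of_le hjj
  have hi' : i = i' + n := by omega
  subst hi'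
  have key := line h hB (k := 2) (by norm_num) (fun t => (i' + n - t, j + t)) n 25 26
    (fun t ht => pres_diag (by omega) (by omega) (by omega) (Or.inl rfl))
    (fun t ht => pres_diag (by omega) (by omega) (by omega) (Or.inr rfl))
    (fun t ht => by
      have : i' + n - t = i' + n - (t + 1) + 1 := by omega
      rw [this]
      exact nb2 _ _)
    (by decide) (by decide) n le_rfl
  have h3 := (regS_facts T ops R).2 n (Or.inr (by omega))
  simp only [Nat.add_sub_cancel, Nat.sub_zero, Nat.add_zero] at key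
  linarith

/-! ### Ties -/

/-- A point with the key of the row. -/
theorem tieRow (h : RegDisp T ops X) (hB : BoundR T ops X R) {i j p : ℕ}
    (hi0 : 1 ≤ i) (hi : i + 1 ≤ regI T ops) (hj : j ≤ regJ T) (h2 : j % 2 = 0)
    (hp : PresR T ops i j p)
    (h3 : rule 0 (0, 19) (0, p) = false) (h4 : rule 0 (0, p) (0, 19) = false) :
    |(X i j p).1 - (X 0 j 19).1| ≤ 20 * (regS T ops * R ^ 2) := by
  obtain ⟨i', rfl⟩ : ∃ i', i = i' + 1 := ⟨i - 1, by omega⟩
  have a1 := tie h hB (k := 0) (by norm_num) (l := 19) (l' := 20) hp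
    (pres_row (by omega) hj h2 (Or.inl rfl)) (pres_row (by omega) hj h2 (Or.inr rfl))
    (pres_row (i := i') (by omega) hj h2 (Or.inl rfl))
    (pres_row (i := i') (by omega) hj h2 (Or.inr rfl))
    (pres_row (i := i' + 1 + 1) (by omega) hj h2 (Or.inl rfl))
    (pres_row (i := i' + 1 + 1) (by omega) hj h2 (Or.inr rfl))
    (nb0 i' j) (nb0 (i' + 1) j) (by decide) (by decide) h3 h4
  have a2 := row h hB (i := i' + 1) (by omega) hj h2
  have a3 := (regS_facts T ops R).1
  simp only [sk0] at a1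
  rw [abs_le] at a1 a2 ⊢
  constructor <;> linarith

/-- A point with the key of the first column value. -/
theorem tieColA (h : RegDisp T ops X) (hB : BoundR T ops X R) {i j p : ℕ}
    (hi : i ≤ regI T ops) (hj0 : 1 ≤ j) (hj : j + 1 ≤ regJ T) (h2 : i % 2 = 0)
    (hp : PresR T ops i j p)
    (h3 : rule 1 (0, 21) (0, p) = false) (h4 : rule 1 (0, p) (0, 21) = false) :
    |(X i j p).2 - (X i 0 21).2| ≤ 20 * (regS T ops * R ^ 2) := by
  obtain ⟨j', rfl⟩ : ∃ j', j = j' + 1 := ⟨j - 1, by omega⟩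
  have a1 := tie h hB (k := 1) (by norm_num) (l := 21) (l' := 22) hp
    (pres_col hi (by omega) h2 (by tauto)) (pres_col hi (by omega) h2 (by tauto))
    (pres_col (j := j') hi (by omega) h2 (by tauto))
    (pres_col (j := j') hi (by omega) h2 (by tauto))
    (pres_col (j := j' + 1 + 1) hi (by omega) h2 (by tauto))
    (pres_col (j := j' + 1 + 1) hi (by omega) h2 (by tauto))
    (nb1 i j') (nb1 i (j' + 1)) (by decide) (by decide) h3 h4
  have a2 := colA h hB (j := j' + 1) hi (by omega) h2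
  have a3 := (regS_facts T ops R).1
  simp only [sk1] at a1
  rw [abs_le] at a1 a2 ⊢
  constructor <;> linarith

/-- A point with the key of the second column value. -/
theorem tieColB (h : RegDisp T ops X) (hB : BoundR T ops X R) {i j p : ℕ}
    (hi : i ≤ regI T ops) (hj0 : 1 ≤ j) (hj : j + 1 ≤ regJ T) (h2 : i % 2 = 0)
    (hp : PresR T ops i j p)
    (h3 : rule 1 (0, 23) (0, p) = false) (h4 : rule 1 (0, p) (0, 23) = false) :
    |(X i j p).2 - (X i 0 23).2| ≤ 20 * (regS T ops * R ^ 2) := by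
  obtain ⟨j', rfl⟩ : ∃ j', j = j' + 1 := ⟨j - 1, by omega⟩
  have a1 := tie h hB (k := 1) (by norm_num) (l := 23) (l' := 24) hp
    (pres_col hi (by omega) h2 (by tauto)) (pres_col hi (by omega) h2 (by tauto))
    (pres_col (j := j') hi (by omega) h2 (by tauto))
    (pres_col (j := j') hi (by omega) h2 (by tauto))
    (pres_col (j := j' + 1 + 1) hi (by omega) h2 (by tauto))
    (pres_col (j := j' + 1 + 1) hi (by omega) h2 (by tauto))
    (nb1 i j') (nb1 i (j' + 1)) (by decide) (by decide) h3 h4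
  have a2 := colB h hB (j := j' + 1) hi (by omega) h2
  have a3 := (regS_facts T ops R).1
  simp only [sk1] at a1
  rw [abs_le] at a1 a2 ⊢
  constructor <;> linarith

/-- A point with the key of the antidiagonal. -/
theorem tieDiag (h : RegDisp T ops X) (hB : BoundR T ops X R) {i j p : ℕ}
    (hi0 : 1 ≤ i) (hi : i + 1 ≤ regI T ops) (hj0 : 1 ≤ j) (hj : j + 1 ≤ regJ T)
    (h2 : (i + j) % 2 = 0) (hp : PresR T ops i j p)
    (h3 : rule 2 (0, 25) (0, p) = false) (h4 : rule 2 (0, p) (0, 25) = false) :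
    |sk 2 (X i j p) - sk 2 (X i j 25)| ≤ 12 * (regS T ops * R ^ 2) := by
  obtain ⟨j', rfl⟩ : ∃ j', j = j' + 1 := ⟨j - 1, by omega⟩
  obtain ⟨i', rfl⟩ : ∃ i', i = i' + 1 := ⟨i - 1, by omega⟩
  have a1 := tie h hB (k := 2) (by norm_num) (l := 25) (l' := 26) hp
    (pres_diag (by omega) (by omega) h2 (Or.inl rfl))
    (pres_diag (by omega) (by omega) h2 (Or.inr rfl))
    (pres_diag (i := i' + 1 + 1) (j := j') (by omega) (by omega) (by omega) (Or.inl rfl))
    (pres_diag (i := i' + 1 + 1) (j := j') (by omega) (by omega) (by omega) (Or.inr rfl))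
    (pres_diag (i := i') (j := j' + 1 + 1) (by omega) (by omega) (by omega) (Or.inl rfl))
    (pres_diag (i := i') (j := j' + 1 + 1) (by omega) (by omega) (by omega) (Or.inr rfl))
    (nb2 (i' + 1) j') (nb2 i' (j' + 1)) (by decide) (by decide) h3 h4
  have a3 := (regS_facts T ops R).1
  linarith

/-- A point tied to a frame in direction `0`. -/
theorem tieF0 (h : RegDisp T ops X) (hB : BoundR T ops X R) (hF : FramesOK T ops X a e)
    {i j p : ℕ} (f : ℕ) (hf : f < 19)
    (hi0 : 1 ≤ i) (hi : i + 1 ≤ regI T ops) (hj : j ≤ regJ T)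
    (hp : PresR T ops i j p)
    (h3 : rule 0 (0, f) (0, p) = false) (h4 : rule 0 (0, p) (0, f) = false) :
    |(X i j p).1 - frameA f * a| ≤ 4 * R ^ 2 + e := by
  obtain ⟨i', rfl⟩ : ∃ i', i = i' + 1 := ⟨i - 1, by omega⟩
  exact tieF h hB (k := 0) (by norm_num) hp
    (pres_frame (i := i') (by omega) hj hf) (pres_frame (i := i' + 1 + 1) (by omega) hj hf)
    (nb0 i' j) (nb0 (i' + 1) j) h3 h4 (hF i' j f (by omega) hj hf).1
    (hF (i' + 1 + 1) j f (by omega) hj hf).1

/-- A point tied to a frame in direction `1`. -/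
theorem tieF1 (h : RegDisp T ops X) (hB : BoundR T ops X R) (hF : FramesOK T ops X a e)
    {i j p : ℕ} (f : ℕ) (hf : f < 19)
    (hi : i ≤ regI T ops) (hj0 : 1 ≤ j) (hj : j + 1 ≤ regJ T)
    (hp : PresR T ops i j p)
    (h3 : rule 1 (0, f) (0, p) = false) (h4 : rule 1 (0, p) (0, f) = false) :
    |(X i j p).2 - frameB f * a| ≤ 4 * R ^ 2 + e := by
  obtain ⟨j', rfl⟩ : ∃ j', j = j' + 1 := ⟨j - 1, by omega⟩
  exact tieF h hB (k := 1) (by norm_num) hp
    (pres_frame (j := j') hi (by omega) hf) (pres_frame (j := j' + 1 + 1) hi (by omega) hf)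
    (nb1 i j') (nb1 i (j' + 1)) h3 h4 (hF i j' f hi (by omega) hf).2
    (hF i (j' + 1 + 1) f hi (by omega) hf).2

/-- A point tied to a frame in direction `2`. -/
theorem tieF2 (h : RegDisp T ops X) (hB : BoundR T ops X R) (hF : FramesOK T ops X a e)
    {i j p : ℕ} (f : ℕ) (hf : f < 19)
    (hi0 : 1 ≤ i) (hi : i + 1 ≤ regI T ops) (hj0 : 1 ≤ j) (hj : j + 1 ≤ regJ T)
    (hp : PresR T ops i j p)
    (h3 : rule 2 (0, f) (0, p) = false) (h4 : rule 2 (0, p) (0, f) = false) :
    |sk 2 (X i j p) - (frameB f - frameA f) * a| ≤ 4 * R ^ 2 + 2 * e := by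
  obtain ⟨j', rfl⟩ : ∃ j', j = j' + 1 := ⟨j - 1, by omega⟩
  obtain ⟨i', rfl⟩ : ∃ i', i = i' + 1 := ⟨i - 1, by omega⟩
  have key : ∀ i j, i ≤ regI T ops → j ≤ regJ T →
      |sk 2 (X i j f) - (frameB f - frameA f) * a| ≤ 2 * e := by
    intro i j hi hj
    have := hF i j f hi hj hf
    simp only [sk2]
    have a1 := abs_le.1 this.1
    have a2 := abs_le.1 this.2
    rw [abs_le]
    constructor <;> linarith
  exact tieF h hB (k := 2) (by norm_num) hp
    (pres_frame (i := i' + 1 + 1) (j := j') (by omega) (by omega) hf)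
    (pres_frame (i := i') (j := j' + 1 + 1) (by omega) (by omega) hf)
    (nb2 (i' + 1) j') (nb2 i' (j' + 1)) h3 h4 (key _ _ (by omega) (by omega))
    (key _ _ (by omega) (by omega))

/-! ### The product gadget -/

/-- The six inequalities of the gadget, in the coordinates `(s0, s1)`. -/
theorem hex (p0 p1 p2 r0 r1 r2 : ℝ × ℝ)
    (b0 : |p0.1| ≤ R ∧ |p0.2| ≤ R) (b1 : |p1.1| ≤ R ∧ |p1.2| ≤ R) (b2 : |p2.1| ≤ R ∧ |p2.2| ≤ R)
    (c0 : |r0.1| ≤ R ∧ |r0.2| ≤ R) (c1 : |r1.1| ≤ R ∧ |r1.2| ≤ R) (c2 : |r2.1| ≤ R ∧ |r2.2| ≤ R)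
    (e0 : qf (p0 - r0) ≤ 3 * (p0.1 - r0.1)) (e1 : qf (p1 - r1) ≤ 3 * (p1.1 - r1.1))
    (e2 : qf (p2 - r2) ≤ 3 * (p2.1 - r2.1))
    (n0 : 3 * (p1.1 - r0.1) < qf (p1 - r0)) (n1 : 3 * (p2.1 - r1.1) < qf (p2 - r1))
    (n2 : 3 * (p0.1 - r2.1) < qf (p0 - r2)) :
    -(52 * R ^ 3) ≤ (p0.2 - p1.2) * (r0.2 - r0.1) + (p1.2 - p2.2) * (r1.2 - r1.1) +
      (p2.2 - p0.2) * (r2.2 - r2.1) := by
  have hR : 0 ≤ R := (abs_nonneg _).trans b0.1
  have q0 := qf_nonneg (p0 - r0)
  have q1 := qf_nonneg (p1 - r1)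
  have q2 := qf_nonneg (p2 - r2)
  have s0 := qf_sub_le b1 c0
  have s1 := qf_sub_le b2 c1
  have s2 := qf_sub_le b0 c2
  -- the first coordinates agree
  have f01 : |p0.1 - p1.1| ≤ 8 * R ^ 2 := by rw [abs_le]; constructor <;> linarith
  have f12 : |p1.1 - p2.1| ≤ 8 * R ^ 2 := by rw [abs_le]; constructor <;> linarith
  have f20 : |p2.1 - p0.1| ≤ 8 * R ^ 2 := by rw [abs_le]; constructor <;> linarith
  have g10 : |r1.1 - r0.1| ≤ 8 * R ^ 2 := by rw [abs_le]; constructor <;> linarith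
  have g20 : |r2.1 - r0.1| ≤ 8 * R ^ 2 := by rw [abs_le]; constructor <;> linarith
  -- the sum of the six inequalities
  have hsum : 0 < ((p0.1 - p1.1) * (2 * r0.1 - r0.2) + (p1.1 - p2.1) * (2 * r1.1 - r1.2) +
      (p2.1 - p0.1) * (2 * r2.1 - r2.2)) +
      ((p1.2 - p2.2) * (r1.1 - r0.1) + (p2.2 - p0.2) * (r2.1 - r0.1)) +
      2 * ((p0.2 - p1.2) * (r0.2 - r0.1) + (p1.2 - p2.2) * (r1.2 - r1.1) +
      (p2.2 - p0.2) * (r2.2 - r2.1)) := by
    unfold qf at e0 e1 e2 n0 n1 n2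
    simp only [Prod.fst_sub, Prod.snd_sub] at e0 e1 e2 n0 n1 n2
    nlinarith
  have mul_le : ∀ {x y A B : ℝ}, |x| ≤ A → |y| ≤ B → x * y ≤ A * B := fun {x y A B} hx hy =>
    (le_abs_self _).trans (by
      rw [abs_mul]
      exact mul_le_mul hx hy (abs_nonneg _) ((abs_nonneg _).trans hx))
  have d3 : ∀ {x y : ℝ}, |x| ≤ R → |y| ≤ R → |2 * x - y| ≤ 3 * R := fun {x y} hx hy => by
    rw [abs_le] at hx hy ⊢
    constructor <;> linarith
  have d2 : ∀ {x y : ℝ}, |x| ≤ R → |y| ≤ R → |x - y| ≤ 2 * R := fun {x y} hx hy => by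
    rw [abs_le] at hx hy ⊢
    constructor <;> linarith
  have t1 := mul_le f01 (d3 c0.1 c0.2)
  have t2 := mul_le f12 (d3 c1.1 c1.2)
  have t3 := mul_le f20 (d3 c2.1 c2.2)
  have t4 := mul_le (d2 b1.2 b2.2) g10
  have t5 := mul_le (d2 b2.2 b0.2) g20
  have e3 : R ^ 3 = R ^ 2 * R := by ring
  rw [e3]
  nlinarith

/-- The numerical end of the argument for the product gadget. -/
theorem numeric {P0 P1 P2 Y0 Y1 Y2 ra rb rc B : ℝ} (hR : 0 ≤ R)
    (h : -(52 * R ^ 3) ≤ (P0 - P1) * Y0 + (P1 - P2) * Y1 + (P2 - P0) * Y2) (hRB : R ^ 2 ≤ B)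
    (bP0 : |P0| ≤ R) (bP2 : |P2| ≤ R)
    (bY0 : |Y0| ≤ 2 * R) (bY1 : |Y1| ≤ 2 * R) (bra : |ra| ≤ R) (brc : |rc| ≤ R)
    (hP0 : |P0 - ra| ≤ 64 * B) (hP1 : |P1| ≤ 4 * B) (hP2 : |P2 - rc| ≤ 64 * B)
    (hY0 : |Y0 + rb| ≤ 56 * B) (hY1 : |Y1 + a| ≤ 4 * B) (hY2 : |Y2| ≤ 4 * B) :
    ra * rb ≤ a * rc + 400 * (R * B) := by
  have mul_le : ∀ {x y A C : ℝ}, |x| ≤ A → |y| ≤ C → x * y ≤ A * C := fun {x y A C} hx hy =>
    (le_abs_self _).trans (by
      rw [abs_mul]
      exact mul_le_mul hx hy (abs_nonneg _) ((abs_nonneg _).trans hx))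
  have k1 : |P0 - P1 - ra| ≤ 68 * B := by
    rw [abs_le] at hP0 hP1 ⊢
    constructor <;> linarith
  have k2 : |P1 - P2 + rc| ≤ 68 * B := by
    rw [abs_le] at hP2 hP1 ⊢
    constructor <;> linarith
  have k3 : |P2 - P0| ≤ 2 * R := by
    rw [abs_le] at bP0 bP2 ⊢
    constructor <;> linarith
  have k4 : |(-rc)| ≤ R := by rwa [abs_neg]
  have t1 := mul_le k1 bY0
  have t2 := mul_le bra hY0
  have t3 := mul_le k2 bY1
  have t4 := mul_le k4 hY1
  have t5 := mul_le k3 hY2
  have t6 : R ^ 3 ≤ R * B := by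
    have e3 : R ^ 3 = R * R ^ 2 := by ring
    rw [e3]
    exact mul_le_mul_of_nonneg_left hRB hR
  nlinarith

/-- The numerical end of the argument for the reversed product gadget. -/
theorem numeric2 {P0 P1 P2 Y0 Y1 Y2 ra rb rc B : ℝ} (hR : 0 ≤ R)
    (h : -(52 * R ^ 3) ≤ (P0 - P1) * Y0 + (P1 - P2) * Y1 + (P2 - P0) * Y2) (hRB : R ^ 2 ≤ B)
    (bP1 : |P1| ≤ R) (bP2 : |P2| ≤ R)
    (bY0 : |Y0| ≤ 2 * R) (bY2 : |Y2| ≤ 2 * R) (bra : |ra| ≤ R) (brc : |rc| ≤ R)
    (hP0 : |P0| ≤ 4 * B) (hP1 : |P1 - ra| ≤ 64 * B) (hP2 : |P2 - rc| ≤ 64 * B)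
    (hY0 : |Y0 + rb| ≤ 56 * B) (hY1 : |Y1| ≤ 4 * B) (hY2 : |Y2 + a| ≤ 4 * B) :
    a * rc ≤ ra * rb + 400 * (R * B) := by
  have mul_le : ∀ {x y A C : ℝ}, |x| ≤ A → |y| ≤ C → x * y ≤ A * C := fun {x y A C} hx hy =>
    (le_abs_self _).trans (by
      rw [abs_mul]
      exact mul_le_mul hx hy (abs_nonneg _) ((abs_nonneg _).trans hx))
  have k1 : |P0 - P1 + ra| ≤ 68 * B := by
    rw [abs_le] at hP0 hP1 ⊢
    constructor <;> linarith
  have k2 : |P2 - P0 - rc| ≤ 68 * B := by
    rw [abs_le] at hP2 hP0 ⊢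
    constructor <;> linarith
  have k3 : |P1 - P2| ≤ 2 * R := by
    rw [abs_le] at bP1 bP2 ⊢
    constructor <;> linarith
  have k4 : |(-ra)| ≤ R := by rwa [abs_neg]
  have t1 := mul_le k1 bY0
  have t2 := mul_le k4 hY0
  have t3 := mul_le k2 bY2
  have t4 := mul_le brc hY2
  have t5 := mul_le k3 hY1
  have t6 : R ^ 3 ≤ R * B := by
    have e3 : R ^ 3 = R * R ^ 2 := by ring
    rw [e3]
    exact mul_le_mul_of_nonneg_left hRB hR
  nlinarith

/-! ### Junctions -/

/-- A region with its frames. -/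
structure Setup (T : ℕ) (ops : List Op) (X : ℕ → ℕ → ℕ → ℝ × ℝ) (a R e B : ℝ) : Prop where
  h : RegDisp T ops X
  hB : BoundR T ops X R
  hF : FramesOK T ops X a e
  he : 0 ≤ e
  hBd : B = (regS T ops : ℝ) * R ^ 2 + e

variable {B : ℝ}

theorem Setup.b1 (s : Setup T ops X a R e B) : (regS T ops : ℝ) * R ^ 2 ≤ B := by
  have := s.he
  rw [s.hBd]
  linarith

theorem Setup.b2 (s : Setup T ops X a R e B) : 4 * R ^ 2 + 2 * e ≤ 4 * B := by
  have h1 := s.he
  have h2 := (regS_facts T ops R).1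
  rw [s.hBd]
  linarith

theorem Setup.b3 (s : Setup T ops X a R e B) : R ^ 2 ≤ B :=
  (regS_facts T ops R).1.trans s.b1

theorem Setup.copyB (s : Setup T ops X a R e B) {i y : ℕ} (hi0 : 1 ≤ i)
    (hi : i + 1 ≤ regI T ops) (hi2 : i % 2 = 0) (hy0 : 1 ≤ y) (hy : y + 1 ≤ regJ T)
    (hy2 : y % 2 = 0) (hp : 28 ∈ extrasAt T ops i y) :
    |(X 0 y 19).1 - (X i 0 23).2| ≤ 44 * B := by
  have pp : PresR T ops i y 28 := pres_extra (by omega) (by omega) hp
  have a1 := abs_le.1 (tieRow s.h s.hB hi0 hi (by omega) hy2 pp (by decide) (by decide))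
  have a2 := abs_le.1 (tieColB s.h s.hB (by omega) hy0 hy hi2 pp (by decide) (by decide))
  have a3 := abs_le.1 (tieF2 s.h s.hB s.hF 9 (by norm_num) hi0 hi hy0 hy pp (by decide)
    (by decide))
  have b1 := s.b1
  have b2 := s.b2
  simp only [sk2] at a3
  norm_num [frameA, frameB] at a3
  rw [abs_le]
  constructor <;> linarith

theorem Setup.copyA (s : Setup T ops X a R e B) {i y : ℕ} (hi0 : 1 ≤ i)
    (hi : i + 1 ≤ regI T ops) (hi2 : i % 2 = 0) (hy0 : 1 ≤ y) (hy : y + 1 ≤ regJ T)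
    (hy2 : y % 2 = 0) (hp : 27 ∈ extrasAt T ops i y) :
    |(X 0 y 19).1 - (X i 0 21).2| ≤ 44 * B := by
  have pp : PresR T ops i y 27 := pres_extra (by omega) (by omega) hp
  have a1 := abs_le.1 (tieRow s.h s.hB hi0 hi (by omega) hy2 pp (by decide) (by decide))
  have a2 := abs_le.1 (tieColA s.h s.hB (by omega) hy0 hy hi2 pp (by decide) (by decide))
  have a3 := abs_le.1 (tieF2 s.h s.hB s.hF 9 (by norm_num) hi0 hi hy0 hy pp (by decide)
    (by decide))
  have b1 := s.b1
  have b2 := s.b2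
  simp only [sk2] at a3
  norm_num [frameA, frameB] at a3
  rw [abs_le]
  constructor <;> linarith

theorem Setup.sub (s : Setup T ops X a R e B) {i y : ℕ} (hi0 : 1 ≤ i)
    (hi : i + 1 ≤ regI T ops) (hi2 : i % 2 = 0) (hy0 : 1 ≤ y) (hy : y + 1 ≤ regJ T)
    (hy2 : y % 2 = 0) (hp : 29 ∈ extrasAt T ops i y) :
    |sk 2 (X i y 25) - ((X i 0 23).2 - (X 0 y 19).1)| ≤ 52 * B := by
  have pp : PresR T ops i y 29 := pres_extra (by omega) (by omega) hp
  have a1 := abs_le.1 (tieRow s.h s.hB hi0 hi (by omega) hy2 pp (by decide) (by decide))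
  have a2 := abs_le.1 (tieColB s.h s.hB (by omega) hy0 hy hi2 pp (by decide) (by decide))
  have a3 := abs_le.1 (tieDiag s.h s.hB hi0 hi hy0 hy (by omega) pp (by decide) (by decide))
  have b1 := s.b1
  have b2 := s.b2
  simp only [sk2] at a3 ⊢
  rw [abs_le]
  constructor <;> linarith

theorem Setup.top (s : Setup T ops X a R e B) {i y : ℕ} (hi0 : 1 ≤ i)
    (hi : i + 1 ≤ regI T ops) (hi2 : i % 2 = 0) (hy0 : 1 ≤ y) (hy : y + 1 ≤ regJ T)
    (hy2 : y % 2 = 0) (hp : 30 ∈ extrasAt T ops i y) :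
    |sk 2 (X i y 25) - ((X i 0 23).2 - a)| ≤ 36 * B := by
  have pp : PresR T ops i y 30 := pres_extra (by omega) (by omega) hp
  have a1 := abs_le.1 (tieF0 s.h s.hB s.hF 13 (by norm_num) hi0 hi (by omega) pp (by decide)
    (by decide))
  have a2 := abs_le.1 (tieColB s.h s.hB (by omega) hy0 hy hi2 pp (by decide) (by decide))
  have a3 := abs_le.1 (tieDiag s.h s.hB hi0 hi hy0 hy (by omega) pp (by decide) (by decide))
  have b1 := s.b1
  have b2 := s.b2
  have he := s.he
  norm_num [frameA] at a1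
  simp only [sk2] at a3 ⊢
  rw [abs_le]
  constructor <;> linarith

theorem Setup.diagRow (s : Setup T ops X a R e B) {i y : ℕ} (hi0 : 1 ≤ i)
    (hi : i + 1 ≤ regI T ops) (hy0 : 1 ≤ y) (hy : y + 1 ≤ regJ T)
    (hy2 : y % 2 = 0) (hiy : (i + y) % 2 = 0) (hp : 31 ∈ extrasAt T ops i y) :
    |sk 2 (X i y 25) + (X 0 y 19).1| ≤ 36 * B := by
  have pp : PresR T ops i y 31 := pres_extra (by omega) (by omega) hp
  have a1 := abs_le.1 (tieRow s.h s.hB hi0 hi (by omega) hy2 pp (by decide) (by decide))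
  have a2 := abs_le.1 (tieF1 s.h s.hB s.hF 9 (by norm_num) (by omega) hy0 hy pp (by decide)
    (by decide))
  have a3 := abs_le.1 (tieDiag s.h s.hB hi0 hi hy0 hy hiy pp (by decide) (by decide))
  have b1 := s.b1
  have b2 := s.b2
  have he := s.he
  norm_num [frameB] at a2
  simp only [sk2] at a3 ⊢
  rw [abs_le]
  constructor <;> linarith

theorem Setup.diag' (s : Setup T ops X a R e B) {i j i' j' : ℕ}
    (hi : i ≤ regI T ops) (hj' : j' ≤ regJ T) (hs : i + j = i' + j') (hjj : j ≤ j')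
    (h2 : (i + j) % 2 = 0) :
    |sk 2 (X i' j' 25) - sk 2 (X i j 25)| ≤ 8 * B := by
  have := diag s.h s.hB hi hj' hs hjj h2
  have := s.b1
  linarith

/-- An adjacent pair of the gadget. -/
theorem gedge (h : RegDisp T ops X) {i y p r : ℕ} (hp : PresR T ops i y p)
    (hr : PresR T ops (i + 1) y r) (hrule : rule 0 (0, p) (0, r) = true) :
    qf (X i y p - X (i + 1) y r) ≤ 3 * ((X i y p).1 - (X (i + 1) y r).1) :=
  (h.dir 0 (by norm_num) i y p (i + 1) y r hp hr (nb0 i y)).1 hrule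

/-- A non-adjacent pair of the gadget. -/
theorem gnon (h : RegDisp T ops X) {i y p r : ℕ} (hp : PresR T ops i y p)
    (hr : PresR T ops (i + 1) y r) (hrule : rule 0 (0, p) (0, r) = false) :
    3 * ((X i y p).1 - (X (i + 1) y r).1) < qf (X i y p - X (i + 1) y r) := by
  by_contra hc
  push Not at hc
  have := (h.dir 0 (by norm_num) i y p (i + 1) y r hp hr (nb0 i y)).2 hc
  rw [hrule] at this
  exact absurd this (by simp)

theorem abs_sk2_le {x : ℝ × ℝ} (hx : |x.1| ≤ R ∧ |x.2| ≤ R) : |x.2 - x.1| ≤ 2 * R := by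
  obtain ⟨h1, h2⟩ := hx
  rw [abs_le] at h1 h2 ⊢
  constructor <;> linarith

theorem Setup.gadget3 (s : Setup T ops X a R e B) (hR : 0 ≤ R) {i y : ℕ} (hi0 : 1 ≤ i)
    (hi : i + 2 ≤ regI T ops) (hi2 : i % 2 = 0) (hy0 : 1 ≤ y) (hy : y + 1 ≤ regJ T)
    (hy2 : y % 2 = 1) (hp : ∀ l ∈ [32, 33, 34], l ∈ extrasAt T ops i y)
    (hr : ∀ l ∈ [35, 36, 37], l ∈ extrasAt T ops (i + 1) y) {ra rb rc : ℝ}
    (hra : |(X i 0 23).2 - ra| ≤ 44 * B) (hrc : |(X i 0 21).2 - rc| ≤ 44 * B)
    (hrb : |sk 2 (X (i + 1) y 25) + rb| ≤ 44 * B) (bra : |ra| ≤ R) (brc : |rc| ≤ R) :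
    ra * rb ≤ a * rc + 400 * (R * B) := by
  have p0 : PresR T ops i y 32 := pres_extra (by omega) (by omega) (hp 32 (by simp))
  have p1 : PresR T ops i y 33 := pres_extra (by omega) (by omega) (hp 33 (by simp))
  have p2 : PresR T ops i y 34 := pres_extra (by omega) (by omega) (hp 34 (by simp))
  have r0 : PresR T ops (i + 1) y 35 := pres_extra (by omega) (by omega) (hr 35 (by simp))
  have r1 : PresR T ops (i + 1) y 36 := pres_extra (by omega) (by omega) (hr 36 (by simp))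
  have r2 : PresR T ops (i + 1) y 37 := pres_extra (by omega) (by omega) (hr 37 (by simp))
  have key := hex (R := R) _ _ _ _ _ _ (s.hB _ _ _ p0) (s.hB _ _ _ p1) (s.hB _ _ _ p2)
    (s.hB _ _ _ r0) (s.hB _ _ _ r1) (s.hB _ _ _ r2)
    (gedge s.h p0 r0 (by decide)) (gedge s.h p1 r1 (by decide)) (gedge s.h p2 r2 (by decide))
    (gnon s.h p1 r0 (by decide)) (gnon s.h p2 r1 (by decide)) (gnon s.h p0 r2 (by decide))
  have c1 := s.b1
  have c2 := s.b2
  have he := s.he
  have hra' := abs_le.1 hra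
  have hrc' := abs_le.1 hrc
  have hrb' := abs_le.1 hrb
  have a0 := abs_le.1 (tieColB s.h s.hB (by omega) hy0 hy hi2 p0 (by decide) (by decide))
  have a1 := abs_le.1 (tieF1 s.h s.hB s.hF 9 (by norm_num) (by omega) hy0 hy p1 (by decide)
    (by decide))
  have a2 := abs_le.1 (tieColA s.h s.hB (by omega) hy0 hy hi2 p2 (by decide) (by decide))
  have d0 := abs_le.1 (tieDiag s.h s.hB (by omega) (by omega) hy0 hy (by omega) r0
    (by decide) (by decide))
  have d1 := abs_le.1 (tieF2 s.h s.hB s.hF 8 (by norm_num) (by omega) (by omega) hy0 hy r1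
    (by decide) (by decide))
  have d2 := abs_le.1 (tieF2 s.h s.hB s.hF 9 (by norm_num) (by omega) (by omega) hy0 hy r2
    (by decide) (by decide))
  norm_num [frameA, frameB] at a1 d1 d2
  simp only [sk2] at hrb' d0 d1 d2
  refine numeric hR key s.b3 (s.hB _ _ _ p0).2 (s.hB _ _ _ p2).2 (abs_sk2_le (s.hB _ _ _ r0))
    (abs_sk2_le (s.hB _ _ _ r1)) bra brc ?_ ?_ ?_ ?_ ?_ ?_ <;>
    · rw [abs_le]
      constructor <;> linarith

theorem Setup.gadget4 (s : Setup T ops X a R e B) (hR : 0 ≤ R) {i y : ℕ} (hi0 : 1 ≤ i)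
    (hi : i + 2 ≤ regI T ops) (hi2 : i % 2 = 0) (hy0 : 1 ≤ y) (hy : y + 1 ≤ regJ T)
    (hy2 : y % 2 = 1) (hp : ∀ l ∈ [38, 39, 40], l ∈ extrasAt T ops i y)
    (hr : ∀ l ∈ [41, 42, 43], l ∈ extrasAt T ops (i + 1) y) {ra rb rc : ℝ}
    (hra : |(X i 0 23).2 - ra| ≤ 44 * B) (hrc : |(X i 0 21).2 - rc| ≤ 44 * B)
    (hrb : |sk 2 (X (i + 1) y 25) + rb| ≤ 44 * B) (bra : |ra| ≤ R) (brc : |rc| ≤ R) :
    a * rc ≤ ra * rb + 400 * (R * B) := by
  have p0 : PresR T ops i y 39 := pres_extra (by omega) (by omega) (hp 39 (by simp))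
  have p1 : PresR T ops i y 38 := pres_extra (by omega) (by omega) (hp 38 (by simp))
  have p2 : PresR T ops i y 40 := pres_extra (by omega) (by omega) (hp 40 (by simp))
  have r0 : PresR T ops (i + 1) y 41 := pres_extra (by omega) (by omega) (hr 41 (by simp))
  have r1 : PresR T ops (i + 1) y 43 := pres_extra (by omega) (by omega) (hr 43 (by simp))
  have r2 : PresR T ops (i + 1) y 42 := pres_extra (by omega) (by omega) (hr 42 (by simp))
  have key := hex (R := R) _ _ _ _ _ _ (s.hB _ _ _ p0) (s.hB _ _ _ p1) (s.hB _ _ _ p2)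
    (s.hB _ _ _ r0) (s.hB _ _ _ r1) (s.hB _ _ _ r2)
    (gedge s.h p0 r0 (by decide)) (gedge s.h p1 r1 (by decide)) (gedge s.h p2 r2 (by decide))
    (gnon s.h p1 r0 (by decide)) (gnon s.h p2 r1 (by decide)) (gnon s.h p0 r2 (by decide))
  have c1 := s.b1
  have c2 := s.b2
  have he := s.he
  have hra' := abs_le.1 hra
  have hrc' := abs_le.1 hrc
  have hrb' := abs_le.1 hrb
  have a0 := abs_le.1 (tieF1 s.h s.hB s.hF 9 (by norm_num) (by omega) hy0 hy p0 (by decide)
    (by decide))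
  have a1 := abs_le.1 (tieColB s.h s.hB (by omega) hy0 hy hi2 p1 (by decide) (by decide))
  have a2 := abs_le.1 (tieColA s.h s.hB (by omega) hy0 hy hi2 p2 (by decide) (by decide))
  have d0 := abs_le.1 (tieDiag s.h s.hB (by omega) (by omega) hy0 hy (by omega) r0
    (by decide) (by decide))
  have d1 := abs_le.1 (tieF2 s.h s.hB s.hF 9 (by norm_num) (by omega) (by omega) hy0 hy r1
    (by decide) (by decide))
  have d2 := abs_le.1 (tieF2 s.h s.hB s.hF 8 (by norm_num) (by omega) (by omega) hy0 hy r2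
    (by decide) (by decide))
  norm_num [frameA, frameB] at a0 d1 d2
  simp only [sk2] at hrb' d0 d1 d2
  refine numeric2 hR key s.b3 (s.hB _ _ _ p1).2 (s.hB _ _ _ p2).2 (abs_sk2_le (s.hB _ _ _ r0))
    (abs_sk2_le (s.hB _ _ _ r2)) bra brc ?_ ?_ ?_ ?_ ?_ ?_ <;>
    · rw [abs_le]
      constructor <;> linarith

/-! ### Operations -/

theorem Setup.op0 (s : Setup T ops X a R e B) {q : ℕ} {o : Op} (hq : ops[q]? = some o)
    (hwf : OpWF T o) (h0 : o.1 = 0) :
    |(X 0 (rho o.2.1) 19).1 - (X 0 (rho o.2.2.1) 19).1| ≤ 1000 * B := by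
  obtain ⟨-, w1, w2, w3, -⟩ := hwf
  have hq' : q < ops.length := (List.getElem?_eq_some_iff.1 hq).1
  have hlen := block_le (T := T) (ops := ops) (x := 3) hq' (by unfold blk; omega)
  have hev : (blk T * q + 2) % 2 = 0 := by
    have : blk T * q = 2 * ((T + 5) * q) := by unfold blk; ring
    omega
  have hb2 : 2 < blk T := by unfold blk; omega
  have e1 : 28 ∈ extrasAt T ops (blk T * q + 2) (rho o.2.1) :=
    extras_block hq hb2 (by simp [opExtras, h0])
  have e2 : 28 ∈ extrasAt T ops (blk T * q + 2) (rho o.2.2.1) :=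
    extras_block hq hb2 (by simp [opExtras, h0])
  have a1 := abs_le.1 (s.copyB (by omega) (by omega) hev (by unfold rho; omega)
    (by unfold rho regJ; omega) (by unfold rho; omega) e1)
  have a2 := abs_le.1 (s.copyB (by omega) (by omega) hev (by unfold rho; omega)
    (by unfold rho regJ; omega) (by unfold rho; omega) e2)
  have hB0 := (sq_nonneg R).trans s.b3
  rw [abs_le]
  constructor <;> linarith

theorem Setup.op1 (s : Setup T ops X a R e B) {q : ℕ} {o : Op} (hq : ops[q]? = some o)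
    (hwf : OpWF T o) (h0 : o.1 = 1) :
    |(X 0 (rho o.2.1) 19).1 + (X 0 (rho o.2.2.1) 19).1 - (X 0 (rho o.2.2.2) 19).1| ≤
      1000 * B := by
  obtain ⟨-, w1, w2, w3, -, w4, -⟩ := hwf
  obtain ⟨w5, w6⟩ := w4 h0
  have hq' : q < ops.length := (List.getElem?_eq_some_iff.1 hq).1
  have hev : ∀ x, (blk T * q + x) % 2 = x % 2 := by
    intro x
    have : blk T * q = 2 * ((T + 5) * q) := by unfold blk; ring
    omega
  have hb2 : 2 < blk T := by unfold blk; omega
  set x := 2 + rho o.2.2.2 - rho o.2.1 with hx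
  have hx1 : x + rho o.2.1 = 2 + rho o.2.2.2 := by simp only [hx, rho]; omega
  have hx2 : 2 < x := by simp only [hx, rho]; omega
  have hx3 : x < blk T := by simp only [hx, rho, blk]; omega
  have hxe : x % 2 = 0 := by simp only [hx, rho]; omega
  have hlen := block_le (T := T) (ops := ops) (x := 3) hq' (by omega)
  have hlen2 := block_le (T := T) (ops := ops) (x := x + 1) hq' (by omega)
  have e1 : 28 ∈ extrasAt T ops (blk T * q + 2) (rho o.2.2.1) :=
    extras_block hq hb2 (by simp [opExtras, h0])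
  have hne : rho o.2.2.2 ≠ rho o.2.2.1 := by simp only [rho]; omega
  have e2 : 29 ∈ extrasAt T ops (blk T * q + 2) (rho o.2.2.2) :=
    extras_block hq hb2 (by simp [opExtras, h0, hne])
  have hx4 : x ≠ 2 := by omega
  have e3 : 31 ∈ extrasAt T ops (blk T * q + x) (rho o.2.1) :=
    extras_block hq hx3 (by simp [opExtras, h0, hx4, hx1])
  have a1 := abs_le.1 (s.copyB (by omega) (by omega) (by rw [hev]) (by unfold rho; omega)
    (by unfold rho regJ; omega) (by unfold rho; omega) e1)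
  have a2 := abs_le.1 (s.sub (by omega) (by omega) (by rw [hev]) (by unfold rho; omega)
    (by unfold rho regJ; omega) (by unfold rho; omega) e2)
  have a3 := abs_le.1 (s.diagRow (by omega) (by omega) (by unfold rho; omega)
    (by unfold rho regJ; omega) (by unfold rho; omega)
    (by have := hev x; simp only [rho]; omega) e3)
  have a4 := abs_le.1 (s.diag' (i := blk T * q + x) (j := rho o.2.1) (i' := blk T * q + 2)
    (j' := rho o.2.2.2) (by omega) (by unfold rho regJ; omega) (by omega)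
    (by unfold rho; omega) (by have := hev x; simp only [rho]; omega))
  have hB0 := (sq_nonneg R).trans s.b3
  rw [abs_le]
  constructor <;> linarith

theorem Setup.op2 (s : Setup T ops X a R e B) {q : ℕ} {o : Op} (hq : ops[q]? = some o)
    (hwf : OpWF T o) (h0 : o.1 = 2) :
    |(X 0 (rho o.2.1) 19).1 + (X 0 (rho o.2.2.1) 19).1 - a| ≤ 1000 * B := by
  obtain ⟨-, w1, w2, w3, -⟩ := hwf
  have hq' : q < ops.length := (List.getElem?_eq_some_iff.1 hq).1
  have hev : ∀ x, (blk T * q + x) % 2 = x % 2 := by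
    intro x
    have : blk T * q = 2 * ((T + 5) * q) := by unfold blk; ring
    omega
  have hb2 : 2 < blk T := by unfold blk; omega
  set x := 2 + rho T - rho o.2.1 with hx
  have hx1 : x + rho o.2.1 = 2 + rho T := by simp only [hx, rho]; omega
  have hx2 : 2 < x := by simp only [hx, rho]; omega
  have hx3 : x < blk T := by simp only [hx, rho, blk]; omega
  have hxe : x % 2 = 0 := by simp only [hx, rho]; omega
  have hlen := block_le (T := T) (ops := ops) (x := 3) hq' (by omega)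
  have hlen2 := block_le (T := T) (ops := ops) (x := x + 1) hq' (by omega)
  have e1 : 28 ∈ extrasAt T ops (blk T * q + 2) (rho o.2.2.1) :=
    extras_block hq hb2 (by simp [opExtras, h0])
  have hne : rho T ≠ rho o.2.2.1 := by simp only [rho]; omega
  have e2 : 30 ∈ extrasAt T ops (blk T * q + 2) (rho T) :=
    extras_block hq hb2 (by simp [opExtras, h0, hne])
  have hx4 : x ≠ 2 := by omega
  have e3 : 31 ∈ extrasAt T ops (blk T * q + x) (rho o.2.1) :=
    extras_block hq hx3 (by simp [opExtras, h0, hx4, hx1])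
  have a1 := abs_le.1 (s.copyB (by omega) (by omega) (by rw [hev]) (by unfold rho; omega)
    (by unfold rho regJ; omega) (by unfold rho; omega) e1)
  have a2 := abs_le.1 (s.top (by omega) (by omega) (by rw [hev]) (by unfold rho; omega)
    (by unfold rho regJ; omega) (by unfold rho; omega) e2)
  have a3 := abs_le.1 (s.diagRow (by omega) (by omega) (by unfold rho; omega)
    (by unfold rho regJ; omega) (by unfold rho; omega)
    (by have := hev x; simp only [rho]; omega) e3)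
  have a4 := abs_le.1 (s.diag' (i := blk T * q + x) (j := rho o.2.1) (i' := blk T * q + 2)
    (j' := rho T) (by omega) (by unfold rho regJ; omega) (by omega)
    (by unfold rho; omega) (by have := hev x; simp only [rho]; omega))
  have hB0 := (sq_nonneg R).trans s.b3
  rw [abs_le]
  constructor <;> linarith

/-- Common part of the product operations. -/
theorem Setup.op34 (s : Setup T ops X a R e B) {q : ℕ} {o : Op} (hq : ops[q]? = some o)
    (hwf : OpWF T o) (h0 : o.1 = 3 ∨ o.1 = 4) :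
    |(X (blk T * q + 2) 0 23).2 - (X 0 (rho o.2.1) 19).1| ≤ 44 * B ∧
      |(X (blk T * q + 2) 0 21).2 - (X 0 (rho o.2.2.2) 19).1| ≤ 44 * B ∧
      |sk 2 (X (blk T * q + 2 + 1) (rho T + 1) 25) + (X 0 (rho o.2.2.1) 19).1| ≤ 44 * B := by
  obtain ⟨-, w1, w2, w3, -, -, w4, w5⟩ := hwf
  have w6 : o.2.1 < o.2.2.2 := by
    rcases h0 with h0 | h0
    · exact w4 h0
    · exact w5 h0
  have n0 : o.1 ≠ 0 := by omega
  have n1 : o.1 ≠ 1 := by omega
  have n2 : o.1 ≠ 2 := by omega
  have hq' : q < ops.length := (List.getElem?_eq_some_iff.1 hq).1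
  have hev : ∀ x, (blk T * q + x) % 2 = x % 2 := by
    intro x
    have : blk T * q = 2 * ((T + 5) * q) := by unfold blk; ring
    omega
  have hb2 : 2 < blk T := by unfold blk; omega
  set x := 4 + rho T - rho o.2.2.1 with hx
  have hx1 : x + rho o.2.2.1 = 4 + rho T := by simp only [hx, rho]; omega
  have hx2 : 3 < x := by simp only [hx, rho]; omega
  have hx3 : x < blk T := by simp only [hx, rho, blk]; omega
  have hxe : x % 2 = 0 := by simp only [hx, rho]; omega
  have hlen := block_le (T := T) (ops := ops) (x := 3) hq' (by omega)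
  have hlen2 := block_le (T := T) (ops := ops) (x := x + 1) hq' (by omega)
  have e1 : 28 ∈ extrasAt T ops (blk T * q + 2) (rho o.2.1) :=
    extras_block hq hb2 (by simp [opExtras, n0, n1, n2])
  have hne : rho o.2.2.2 ≠ rho o.2.1 := by simp only [rho]; omega
  have e2 : 27 ∈ extrasAt T ops (blk T * q + 2) (rho o.2.2.2) :=
    extras_block hq hb2 (by simp [opExtras, n0, n1, n2, hne])
  have hx4 : x ≠ 2 := by omega
  have e3 : 31 ∈ extrasAt T ops (blk T * q + x) (rho o.2.2.1) :=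
    extras_block hq hx3 (by simp [opExtras, n0, n1, n2, hx4, hx1])
  have a1 := s.copyB (by omega) (by omega) (by rw [hev]) (by unfold rho; omega)
    (by unfold rho regJ; omega) (by unfold rho; omega) e1
  have a2 := s.copyA (by omega) (by omega) (by rw [hev]) (by unfold rho; omega)
    (by unfold rho regJ; omega) (by unfold rho; omega) e2
  have a3 := abs_le.1 (s.diagRow (by omega) (by omega) (by unfold rho; omega)
    (by unfold rho regJ; omega) (by unfold rho; omega)
    (by have := hev x; simp only [rho]; omega) e3)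
  have a4 := abs_le.1 (s.diag' (i := blk T * q + x) (j := rho o.2.2.1)
    (i' := blk T * q + 2 + 1) (j' := rho T + 1) (by omega) (by unfold rho regJ; omega)
    (by omega) (by unfold rho; omega) (by have := hev x; simp only [rho]; omega))
  refine ⟨by rwa [abs_sub_comm], by rwa [abs_sub_comm], ?_⟩
  rw [abs_le]
  constructor <;> linarith

/-- The rows are bounded. -/
theorem Setup.rowR (s : Setup T ops X a R e B) {b : ℕ} (hb : b < T) :
    |(X 0 (rho b) 19).1| ≤ R :=
  (s.hB 0 (rho b) 19 (pres_row (by omega) (by unfold rho regJ; omega) (by unfold rho; omega)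
    (Or.inl rfl))).1

theorem Setup.op3 (s : Setup T ops X a R e B) (hR : 0 ≤ R) {q : ℕ} {o : Op}
    (hq : ops[q]? = some o) (hwf : OpWF T o) (h0 : o.1 = 3) :
    (X 0 (rho o.2.1) 19).1 * (X 0 (rho o.2.2.1) 19).1 ≤
      a * (X 0 (rho o.2.2.2) 19).1 + 400 * (R * B) := by
  obtain ⟨k1, k2, k3⟩ := s.op34 hq hwf (Or.inl h0)
  obtain ⟨-, w1, w2, w3, -, -, w4, w5⟩ := hwf
  have hq' : q < ops.length := (List.getElem?_eq_some_iff.1 hq).1
  have hev : ∀ x, (blk T * q + x) % 2 = x % 2 := by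
    intro x
    have : blk T * q = 2 * ((T + 5) * q) := by unfold blk; ring
    omega
  have hb2 : 3 < blk T := by unfold blk; omega
  have hlen := block_le (T := T) (ops := ops) (x := 4) hq' (by omega)
  have v1 : rho T + 1 ≠ rho o.2.1 := by simp only [rho]; omega
  have v2 : rho T + 1 ≠ rho o.2.2.2 := by simp only [rho]; omega
  have v3 : rho T + 1 ≠ rho o.2.2.1 := by simp only [rho]; omega
  refine s.gadget3 hR (i := blk T * q + 2) (y := rho T + 1) (by omega) (by omega) (by rw [hev])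
    (by omega) (by unfold rho regJ; omega) (by unfold rho; omega) ?_ ?_ k1 k2 k3
    (s.rowR w1) (s.rowR w3)
  · intro l hl
    exact extras_block hq (by omega) (by simp only [opExtras, h0, v1, v2, v3]; simpa using hl)
  · intro l hl
    exact extras_block (x := 3) hq (by omega)
      (by simp only [opExtras, h0, v1, v2, v3]; simpa using hl)

theorem Setup.op4 (s : Setup T ops X a R e B) (hR : 0 ≤ R) {q : ℕ} {o : Op}
    (hq : ops[q]? = some o) (hwf : OpWF T o) (h0 : o.1 = 4) :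
    a * (X 0 (rho o.2.2.2) 19).1 ≤
      (X 0 (rho o.2.1) 19).1 * (X 0 (rho o.2.2.1) 19).1 + 400 * (R * B) := by
  obtain ⟨k1, k2, k3⟩ := s.op34 hq hwf (Or.inr h0)
  obtain ⟨-, w1, w2, w3, -, -, w4, w5⟩ := hwf
  have hq' : q < ops.length := (List.getElem?_eq_some_iff.1 hq).1
  have hev : ∀ x, (blk T * q + x) % 2 = x % 2 := by
    intro x
    have : blk T * q = 2 * ((T + 5) * q) := by unfold blk; ring
    omega
  have hb2 : 3 < blk T := by unfold blk; omega
  have hlen := block_le (T := T) (ops := ops) (x := 4) hq' (by omega)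
  have v1 : rho T + 1 ≠ rho o.2.1 := by simp only [rho]; omega
  have v2 : rho T + 1 ≠ rho o.2.2.2 := by simp only [rho]; omega
  have v3 : rho T + 1 ≠ rho o.2.2.1 := by simp only [rho]; omega
  refine s.gadget4 hR (i := blk T * q + 2) (y := rho T + 1) (by omega) (by omega) (by rw [hev])
    (by omega) (by unfold rho regJ; omega) (by unfold rho; omega) ?_ ?_ k1 k2 k3
    (s.rowR w1) (s.rowR w3)
  · intro l hl
    exact extras_block hq (by omega) (by simp only [opExtras, h0, v1, v2, v3]; simpa using hl)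
  · intro l hl
    exact extras_block (x := 3) hq (by omega)
      (by simp only [opExtras, h0, v1, v2, v3]; simpa using hl)

/-- The bounds of the rows. -/
theorem Setup.rowBound (s : Setup T ops X a R e B) {b : ℕ} (hb : b < T) :
    -(1000 * B) ≤ (X 0 (rho b) 19).1 ∧ (X 0 (rho b) 19).1 ≤ a + 1000 * B := by
  have hj : rho b ≤ regJ T := by unfold rho regJ; omega
  have hI : 1 ≤ regI T ops := by unfold regI; omega
  have pp : PresR T ops 0 (rho b) 19 :=
    pres_row (by omega) hj (by unfold rho; omega) (Or.inl rfl)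
  have a1 := edge s.h (k := 0) (by norm_num) pp (pres_frame (i := 1) (l := 9) hI hj (by norm_num))
    (nb0 0 _) (by decide)
  have a2 := nonedge s.h s.hB (k := 0) (by norm_num) pp
    (pres_frame (i := 1) (l := 13) hI hj (by norm_num)) (nb0 0 _) (by decide)
  have f1 := abs_le.1 (s.hF 1 (rho b) 9 hI hj (by norm_num)).1
  have f2 := abs_le.1 (s.hF 1 (rho b) 13 hI hj (by norm_num)).1
  norm_num [frameA] at f1 f2
  simp only [sk0] at a1 a2
  have c2 := s.b2
  have c3 := (sq_nonneg R).trans s.b3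
  have he := s.he
  have hR := sq_nonneg R
  constructor <;> linarith

end

end RegOps

open RegOps in
/-- **The operations.** -/
theorem reg_ops (T : ℕ) (ops : List Op) (X : ℕ → ℕ → ℕ → ℝ × ℝ) (a R e : ℝ)
    (hwf : ∀ o ∈ ops, OpWF T o) (h : RegDisp T ops X) (ha : 0 < a) (haR : a ≤ R) (he : 0 ≤ e)
    (hB : BoundR T ops X R) (hF : FramesOK T ops X a e) :
    ∃ v : ℕ → ℝ, (∀ b < T,
      -(1000 * (regS T ops * R ^ 2 + e) * R / a ^ 2) ≤ v b ∧
        v b ≤ 1 + 1000 * (regS T ops * R ^ 2 + e) * R / a ^ 2) ∧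
      ∀ o ∈ ops, OpApprox (1000 * (regS T ops * R ^ 2 + e) * R / a ^ 2) v o := by
  obtain ⟨B, hBd⟩ : ∃ B : ℝ, B = (regS T ops : ℝ) * R ^ 2 + e := ⟨_, rfl⟩
  have s : Setup T ops X a R e B := ⟨h, hB, hF, he, hBd⟩
  rw [← hBd]
  have hR : 0 ≤ R := by linarith
  have hB0 : 0 ≤ B := (sq_nonneg R).trans s.b3
  have ha2 : 0 < a ^ 2 := by positivity
  -- division by `a`
  have key : ∀ t : ℝ, t ≤ 1000 * B → t / a ≤ 1000 * B * R / a ^ 2 := by
    intro t ht
    rw [div_le_div_iff₀ ha ha2]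
    have h1 : t * a ^ 2 ≤ 1000 * B * a ^ 2 := mul_le_mul_of_nonneg_right ht ha2.le
    have h2 : 1000 * B * a * a ≤ 1000 * B * R * a := by
      have : 1000 * B * a ≤ 1000 * B * R := mul_le_mul_of_nonneg_left haR (by linarith)
      exact mul_le_mul_of_nonneg_right this ha.le
    nlinarith
  have keyabs : ∀ t : ℝ, |t| ≤ 1000 * B → |t / a| ≤ 1000 * B * R / a ^ 2 := by
    intro t ht
    rw [abs_div, abs_of_pos ha]
    exact key _ ht
  refine ⟨fun b => (X 0 (rho b) 19).1 / a, fun b hb => ?_, fun o ho => ?_⟩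
  · obtain ⟨b1, b2⟩ := s.rowBound hb
    constructor
    · have := key (-(X 0 (rho b) 19).1) (by linarith)
      rw [neg_div] at this
      linarith
    · have := key ((X 0 (rho b) 19).1 - a) (by linarith)
      rw [sub_div, div_self ha.ne'] at this
      linarith
  · obtain ⟨q, hq⟩ := List.mem_iff_getElem?.1 ho
    have hw := hwf o ho
    have h400 : 400 * (R * B) / a ^ 2 ≤ 1000 * B * R / a ^ 2 := by
      apply div_le_div_of_nonneg_right _ ha2.le
      nlinarith [mul_nonneg hR hB0]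
    refine ⟨fun h0 => ?_, fun h0 => ?_, fun h0 => ?_, fun h0 => ?_, fun h0 => ?_⟩
    · have := keyabs _ (s.op0 hq hw h0)
      rwa [sub_div] at this
    · have := keyabs _ (s.op1 hq hw h0)
      rwa [sub_div, add_div] at this
    · have := keyabs _ (s.op2 hq hw h0)
      rwa [sub_div, add_div, div_self ha.ne'] at this
    · have h1 := s.op3 hR hq hw h0
      have h2 := div_le_div_of_nonneg_right h1 ha2.le
      rw [add_div] at h2
      have e1 : (X 0 (rho o.2.1) 19).1 * (X 0 (rho o.2.2.1) 19).1 / a ^ 2 =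
          (X 0 (rho o.2.1) 19).1 / a * ((X 0 (rho o.2.2.1) 19).1 / a) := by
        field_simp
      have e2 : a * (X 0 (rho o.2.2.2) 19).1 / a ^ 2 = (X 0 (rho o.2.2.2) 19).1 / a := by
        field_simp
      rw [e1, e2] at h2
      linarith
    · have h1 := s.op4 hR hq hw h0
      have h2 := div_le_div_of_nonneg_right h1 ha2.le
      rw [add_div] at h2
      have e1 : (X 0 (rho o.2.1) 19).1 * (X 0 (rho o.2.2.1) 19).1 / a ^ 2 =
          (X 0 (rho o.2.1) 19).1 / a * ((X 0 (rho o.2.2.1) 19).1 / a) := by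
        field_simp
      have e2 : a * (X 0 (rho o.2.2.2) 19).1 / a ^ 2 = (X 0 (rho o.2.2.2) 19).1 / a := by
        field_simp
      rw [e1, e2] at h2
      linarith

end Pool.Agent.MP1cb9f1
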