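import Pool.Agent.Lib.MP_1cb9f1_lc.MainOf
import Pool.Agent.Lib.MP_1cb9f1_lc.RegOps
import Pool.Agent.Lib.MP_1cb9f1_lc.GeoComplete

/-!
# Unit disk graph recognition is `∃ℝ`-hard for graphs of bounded degree
-/

namespace Pool.Agent.MP1cb9f1

open Pool.Agent.Lib.MP_1cb9f1_lc

theorem udg_hard : ∃ Δ, UDGHard Δ :=
  main_of (fun T ops X a R e hwf h ha haR he hB hF => reg_ops T ops X a R e hwf h ha haR he hB hF)
    geoComplete

end Pool.Agent.MP1cb9f1
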