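import Pool.Agent.Lib.MP_1cb9f1_lc.HardOf
import Pool.Agent.Lib.MP_1cb9f1_lc.Final

/-!
# The main theorem from the last two modules
-/

namespace Pool.Agent.MP1cb9f1

open Pool.Agent.Lib.MP_1cb9f1_lc Pool.Agent.Lib.MP_612bca_lc Pool.Agent.PolyTime

theorem main_of (hops : RegOps)
    (geoComplete : ∀ (T : ℕ) (ops : List Op) (v : ℕ → ℝ), (∀ o ∈ ops, OpWF T o) →
      (∀ a < T, 0 < v a ∧ v a < 3 / 5) → (∀ o ∈ ops, OpHolds v o) →
      ∀ N M, ∃ p : VC → ℝ × ℝ, RealizesOn (verts T ops N M) adjV p) :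
    ∃ Δ, UDGHard Δ := by
  obtain ⟨M, _, hM⟩ := construction_sound hops
  exact ⟨42 * M + 476, hard_of_construction M 80 hM geoComplete⟩

end Pool.Agent.MP1cb9f1
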