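import Pool.Agent.Lib.MP_1cb9f1_lc.Plane

/-!
# The placement lemma

A `W × H` region of sites of the triangular lattice, the points of the site `(i, j)` form the set
`P i j`. If the two base clusters `P 0 0`, `P 0 1` are small, then all clusters are close to the
points `O + 2 i d0 + 2 j d1` of an exact lattice.
-/

namespace Pool.Agent.Lib.MP_1cb9f1_lc

/-- Exact lattice points. -/
def lat (O d0 d1 : ℝ × ℝ) (i j : ℕ) : ℝ × ℝ :=
  (O.1 + 2 * i * d0.1 + 2 * j * d1.1, O.2 + 2 * i * d0.2 + 2 * j * d1.2)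

/-- Neighbouring sites. -/
def NbS (i j i' j' : ℕ) : Prop :=
  (i' = i + 1 ∧ j' = j) ∨ (i = i' + 1 ∧ j' = j) ∨ (i' = i ∧ j' = j + 1) ∨ (i' = i ∧ j = j' + 1) ∨
    (i' = i + 1 ∧ j = j' + 1) ∨ (i = i' + 1 ∧ j' = j + 1)

/-- The hypotheses on the clusters. -/
structure RegionReal (W H : ℕ) (P : ℕ → ℕ → Set (ℝ × ℝ)) : Prop where
  same : ∀ i j, i < W → j < H → ∀ x ∈ P i j, ∀ y ∈ P i j, dsq x y ≤ 4
  far1 : ∀ i j, i + 1 < W → j + 1 < H → ∀ x ∈ P i j, ∀ y ∈ P (i + 1) (j + 1), 4 < dsq x y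
  far2 : ∀ i j, i + 2 < W → j + 1 < H → ∀ x ∈ P i (j + 1), ∀ y ∈ P (i + 2) j, 4 < dsq x y
  far3 : ∀ i j, i + 1 < W → j + 2 < H → ∀ x ∈ P (i + 1) j, ∀ y ∈ P i (j + 2), 4 < dsq x y
  near : ∀ i j i' j', i < W → j < H → i' < W → j' < H → NbS i j i' j' → ∀ x ∈ P i j,
    ∃ y ∈ P i' j', dsq x y ≤ 4
  away : ∀ i j i' j', i < W → j < H → i' < W → j' < H → NbS i j i' j' → ∀ x ∈ P i j,
    ∃ y ∈ P i' j', 4 < dsq x y
  nonempty : ∀ i j, i < W → j < H → (P i j).Nonempty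

/-- Two circles of radius about `2` around two points at distance `2`. -/
theorem apex {a b c d x : ℝ × ℝ} {ε : ℝ} (hab : dsq a b = 4) (hca : dsq c a = 4)
    (hcb : dsq c b = 4) (hd1 : c.1 + d.1 = a.1 + b.1) (hd2 : c.2 + d.2 = a.2 + b.2)
    (hε : ε ≤ 1) (h1 : |dsq x a - 4| ≤ ε) (h2 : |dsq x b - 4| ≤ ε) :
    dsq x c ≤ ε ^ 2 ∨ dsq x d ≤ ε ^ 2 := by
  have hε0 : 0 ≤ ε := le_trans (abs_nonneg _) h1
  obtain ⟨h11, h12⟩ := abs_le.mp h1
  obtain ⟨h21, h22⟩ := abs_le.mp h2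
  set y : ℝ × ℝ := (x.1 - (a.1 + b.1) / 2, x.2 - (a.2 + b.2) / 2) with hy
  set e : ℝ × ℝ := (b.1 - a.1, b.2 - a.2) with he
  set h : ℝ × ℝ := (c.1 - (a.1 + b.1) / 2, c.2 - (a.2 + b.2) / 2) with hh
  have ee : dot e e = 4 := by rw [← hab]; simp only [he, dot, dsq]; ring
  have eh : dot e h = 0 := by
    have : dot e h = (dsq c a - dsq c b) / 2 := by simp only [he, hh, dot, dsq]; ring
    rw [this, hca, hcb]; norm_num
  have hhh : dot h h = 3 := by
    have : dot h h = (dsq c a + dsq c b) / 2 - dsq a b / 4 := by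
      simp only [hh, dot, dsq]; ring
    rw [this, hca, hcb, hab]; norm_num
  have G := gram y e h
  rw [ee, eh, hhh] at G
  set u := dot y e with hu
  set v := dot y h with hv
  have e1 : dsq x a = dot y y + u + 1 := by
    have : dsq x a = dot y y + dot y e + dot e e / 4 := by
      simp only [hy, he, dot, dsq]; ring
    rw [this, ee]; ring
  have e2 : dsq x b = dot y y - u + 1 := by
    have : dsq x b = dot y y - dot y e + dot e e / 4 := by
      simp only [hy, he, dot, dsq]; ring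
    rw [this, ee]; ring
  have e3 : dsq x c = dot y y - 2 * v + 3 := by
    have : dsq x c = dot y y - 2 * dot y h + dot h h := by
      simp only [hy, hh, dot, dsq]; ring
    rw [this, hhh]
  have e4 : dsq x d = dot y y + 2 * v + 3 := by
    have e5 : d.1 = a.1 + b.1 - c.1 := by linarith
    have e6 : d.2 = a.2 + b.2 - c.2 := by linarith
    have : dsq x d = dot y y + 2 * dot y h + dot h h := by
      simp only [hy, hh, dot, dsq, e5, e6]; ring
    rw [this, hhh]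
  have hyy : dot y y = u ^ 2 / 4 + v ^ 2 / 3 := by linarith
  have hu1 : u ^ 2 ≤ ε ^ 2 := by
    have h3 : u ≤ ε := by linarith
    have h4 : -ε ≤ u := by linarith
    exact sq_le_sq' h4 h3
  have hv1 : v ^ 2 ≤ 9 + 3 * ε := by nlinarith [sq_nonneg u]
  have hv2 : 9 - 3 * ε - 3 / 4 * ε ^ 2 ≤ v ^ 2 := by nlinarith
  have key : ∀ w : ℝ, 0 ≤ w → w ^ 2 = v ^ 2 → (w - 3) ^ 2 ≤ (5 / 4 * ε) ^ 2 := by
    intro w hw hwv
    rw [← hwv] at hv1 hv2
    have h5 : w ^ 2 ≤ (3 + 5 / 4 * ε) ^ 2 := by nlinarith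
    have h6 : (3 - 5 / 4 * ε) ^ 2 ≤ w ^ 2 := by nlinarith
    have h7 : w ≤ 3 + 5 / 4 * ε := abs_le_of_sq_le_sq' h5 (by linarith) |>.2
    have h8 : 3 - 5 / 4 * ε ≤ w := abs_le_of_sq_le_sq' h6 hw |>.2
    exact sq_le_sq' (by linarith) (by linarith)
  rcases le_total 0 v with hv0 | hv0
  · left
    have := key v hv0 rfl
    rw [e3, hyy]
    nlinarith
  · right
    have := key (-v) (by linarith) (by ring)
    rw [e4, hyy]
    nlinarith

theorem dsq_lat {O d0 d1 : ℝ × ℝ} (h0 : dot d0 d0 = 1) (h1 : dot d1 d1 = 1)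
    (h01 : dot d0 d1 = 1 / 2) (i j i' j' : ℕ) :
    dsq (lat O d0 d1 i j) (lat O d0 d1 i' j') =
      4 * (((i : ℝ) - i') ^ 2 + ((i : ℝ) - i') * (j - j') + ((j : ℝ) - j') ^ 2) := by
  have : dsq (lat O d0 d1 i j) (lat O d0 d1 i' j') =
      4 * (((i : ℝ) - i') ^ 2 * dot d0 d0 + 2 * ((i : ℝ) - i') * (j - j') * dot d0 d1 +
        ((j : ℝ) - j') ^ 2 * dot d1 d1) := by
    simp only [dsq, lat, dot]; ring
  rw [this, h0, h1, h01]; ring

section
variable {W H : ℕ} {P : ℕ → ℕ → Set (ℝ × ℝ)} {O d0 d1 : ℝ × ℝ}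

/-- One placement step. -/
theorem place_step {A B C : Set (ℝ × ℝ)} {a b c d : ℝ × ℝ} {r : ℝ} (hr : 0 ≤ r)
    (hr1 : r ≤ 1 / 100) (hab : dsq a b = 4) (hca : dsq c a = 4) (hcb : dsq c b = 4)
    (hd1 : c.1 + d.1 = a.1 + b.1) (hd2 : c.2 + d.2 = a.2 + b.2)
    (hA : ∀ y ∈ A, dsq y a ≤ r ^ 2) (hB : ∀ y ∈ B, dsq y b ≤ r ^ 2)
    (hD : ∀ x ∈ C, ∃ y, dsq y d ≤ 1 / 25 ∧ 4 < dsq x y)
    (nA : ∀ x ∈ C, ∃ y ∈ A, dsq x y ≤ 4) (fA : ∀ x ∈ C, ∃ y ∈ A, 4 < dsq x y)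
    (nB : ∀ x ∈ C, ∃ y ∈ B, dsq x y ≤ 4) (fB : ∀ x ∈ C, ∃ y ∈ B, 4 < dsq x y) :
    ∀ x ∈ C, dsq x c ≤ (5 * r) ^ 2 := by
  intro x hx
  obtain ⟨y1, hy1, hy1'⟩ := nA x hx
  obtain ⟨y2, hy2, hy2'⟩ := fA x hx
  obtain ⟨y3, hy3, hy3'⟩ := nB x hx
  obtain ⟨y4, hy4, hy4'⟩ := fB x hx
  have s1 := shell hr (by linarith) (hA y1 hy1) (hA y2 hy2) hy1' hy2'
  have s2 := shell hr (by linarith) (hB y3 hy3) (hB y4 hy4) hy3' hy4'
  rcases apex hab hca hcb hd1 hd2 (by linarith) s1 s2 with h | h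
  · exact h
  · exfalso
    obtain ⟨y, hy, hxy⟩ := hD x hx
    have h1 : dsq d y ≤ (1 / 5) ^ 2 := by rw [dsq_comm]; linarith
    have := dsq_triangle (by linarith) (by norm_num) h h1
    nlinarith

/-- The placement bound, for a given lattice. -/
theorem place_bound (h : RegionReal W H P) (h0 : dot d0 d0 = 1) (h1 : dot d1 d1 = 1)
    (h01 : dot d0 d1 = 1 / 2) {r : ℝ} (hr : 0 ≤ r) (hr1 : 25 ^ (W + H) * r ≤ 1 / 100)
    (hW : 2 ≤ W) (hH : 2 ≤ H)
    (b00 : ∀ x ∈ P 0 0, dsq x (lat O d0 d1 0 0) ≤ r ^ 2)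
    (b01 : ∀ x ∈ P 0 1, dsq x (lat O d0 d1 0 1) ≤ r ^ 2)
    (b10 : ∀ x ∈ P 1 0, dsq x (lat O d0 d1 1 0) ≤ (5 * r) ^ 2) :
    ∀ i j, i < W → j < H → ∀ x ∈ P i j,
      dsq x (lat O d0 d1 i j) ≤ (25 ^ (W + H) * r) ^ 2 := by
  have main : ∀ t, 1 ≤ t → t ≤ W + H → ∀ i j, i < W → j < H → i + j ≤ t → ∀ x ∈ P i j,
      dsq x (lat O d0 d1 i j) ≤ (25 ^ t * r) ^ 2 := by
    intro t ht
    induction t, ht using Nat.le_induction with
    | base =>
      intro _ i j hi hj hij x hx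
      have e : (25 : ℝ) ^ 1 * r = 25 * r := by ring
      rw [e]
      have m1 : r ^ 2 ≤ (25 * r) ^ 2 := pow_le_pow_left₀ hr (by linarith) 2
      have m2 : (5 * r) ^ 2 ≤ (25 * r) ^ 2 := pow_le_pow_left₀ (by linarith) (by linarith) 2
      have hc : (i = 0 ∧ j = 0) ∨ (i = 0 ∧ j = 1) ∨ (i = 1 ∧ j = 0) := by omega
      rcases hc with ⟨rfl, rfl⟩ | ⟨rfl, rfl⟩ | ⟨rfl, rfl⟩
      · exact le_trans (b00 x hx) m1
      · exact le_trans (b01 x hx) m1
      · exact le_trans (b10 x hx) m2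
    | succ t ht ih =>
      intro htW
      have ih := ih (by omega)
      set q := 25 ^ t * r with hq
      have hq0 : 0 ≤ q := by positivity
      have e : (25 : ℝ) ^ (t + 1) * r = 25 * q := by rw [hq]; ring
      have hq1 : 25 * q ≤ 1 / 100 := by
        rw [← e]
        refine le_trans ?_ hr1
        exact mul_le_mul_of_nonneg_right (pow_le_pow_right₀ (by norm_num) htW) hr
      -- interior sites
      have inter : ∀ i j, i + 1 < W → j + 1 < H → i + 1 + (j + 1) = t + 1 →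
          ∀ x ∈ P (i + 1) (j + 1), dsq x (lat O d0 d1 (i + 1) (j + 1)) ≤ (5 * q) ^ 2 := by
        intro i j hi hj hij
        refine place_step (a := lat O d0 d1 i (j + 1)) (b := lat O d0 d1 (i + 1) j)
          (d := lat O d0 d1 i j) hq0 (by linarith)
          (by rw [dsq_lat h0 h1 h01]; push_cast; ring) (by rw [dsq_lat h0 h1 h01]; push_cast; ring)
          (by rw [dsq_lat h0 h1 h01]; push_cast; ring) (by simp only [lat]; push_cast; ring)
          (by simp only [lat]; push_cast; ring)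
          (ih i (j + 1) (by omega) (by omega) (by omega))
          (ih (i + 1) j (by omega) (by omega) (by omega)) ?_
          (h.near _ _ _ _ hi hj (by omega) (by omega) (Or.inr (Or.inl ⟨rfl, rfl⟩)))
          (h.away _ _ _ _ hi hj (by omega) (by omega) (Or.inr (Or.inl ⟨rfl, rfl⟩)))
          (h.near _ _ _ _ hi hj (by omega) (by omega) (Or.inr (Or.inr (Or.inr (Or.inl ⟨rfl, rfl⟩)))))
          (h.away _ _ _ _ hi hj (by omega) (by omega) (Or.inr (Or.inr (Or.inr (Or.inl ⟨rfl, rfl⟩)))))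
        intro x hx
        obtain ⟨y, hy⟩ := h.nonempty i j (by omega) (by omega)
        refine ⟨y, le_trans (ih i j (by omega) (by omega) (by omega) y hy) (by nlinarith), ?_⟩
        rw [dsq_comm]
        exact h.far1 i j hi hj y hy x hx
      intro i j hi hj hij x hx
      rw [e]
      have m0 : q ^ 2 ≤ (25 * q) ^ 2 := pow_le_pow_left₀ hq0 (by linarith) 2
      have m1 : (5 * q) ^ 2 ≤ (25 * q) ^ 2 := pow_le_pow_left₀ (by linarith) (by linarith) 2
      rcases Nat.lt_or_ge (i + j) (t + 1) with hlt | hge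
      · exact le_trans (ih i j hi hj (by omega) x hx) m0
      have hsum : i + j = t + 1 := by omega
      rcases Nat.eq_zero_or_pos j with hj0 | hj0
      · -- bottom row
        subst hj0
        obtain ⟨t', rfl⟩ : ∃ t', t = t' + 1 := ⟨t - 1, by omega⟩
        have hi2 : i = t' + 2 := by omega
        subst hi2
        have e5 : (25 * q) ^ 2 = (5 * (5 * q)) ^ 2 := by ring
        rw [e5]
        refine place_step (a := lat O d0 d1 (t' + 1) 0) (b := lat O d0 d1 (t' + 1) 1)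
          (A := P (t' + 1) 0) (B := P (t' + 1) 1) (C := P (t' + 2) 0)
          (d := lat O d0 d1 t' 1) (by linarith) (by linarith)
          (by rw [dsq_lat h0 h1 h01]; push_cast; ring) (by rw [dsq_lat h0 h1 h01]; push_cast; ring)
          (by rw [dsq_lat h0 h1 h01]; push_cast; ring) (by simp only [lat]; push_cast; ring)
          (by simp only [lat]; push_cast; ring)
          (fun y hy => le_trans (ih (t' + 1) 0 (by omega) (by omega) (by omega) y hy)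
            (pow_le_pow_left₀ hq0 (by linarith) 2))
          (inter t' 0 (by omega) (by omega) (by omega)) ?_
          (h.near _ _ _ _ hi hj (by omega) (by omega) (Or.inr (Or.inl ⟨rfl, rfl⟩)))
          (h.away _ _ _ _ hi hj (by omega) (by omega) (Or.inr (Or.inl ⟨rfl, rfl⟩)))
          (h.near _ _ _ _ hi hj (by omega) (by omega)
            (Or.inr (Or.inr (Or.inr (Or.inr (Or.inr ⟨rfl, rfl⟩))))))
          (h.away _ _ _ _ hi hj (by omega) (by omega)
            (Or.inr (Or.inr (Or.inr (Or.inr (Or.inr ⟨rfl, rfl⟩)))))) x hx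
        intro x hx
        obtain ⟨y, hy⟩ := h.nonempty t' 1 (by omega) (by omega)
        refine ⟨y, le_trans (ih t' 1 (by omega) (by omega) (by omega) y hy) (by nlinarith), ?_⟩
        rw [dsq_comm]
        exact h.far2 t' 0 hi (by omega) y hy x hx
      rcases Nat.eq_zero_or_pos i with hi0 | hi0
      · -- left column
        subst hi0
        obtain ⟨t', rfl⟩ : ∃ t', t = t' + 1 := ⟨t - 1, by omega⟩
        have hj2 : j = t' + 2 := by omega
        subst hj2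
        have e5 : (25 * q) ^ 2 = (5 * (5 * q)) ^ 2 := by ring
        rw [e5]
        refine place_step (a := lat O d0 d1 0 (t' + 1)) (b := lat O d0 d1 1 (t' + 1))
          (A := P 0 (t' + 1)) (B := P 1 (t' + 1)) (C := P 0 (t' + 2))
          (d := lat O d0 d1 1 t') (by linarith) (by linarith)
          (by rw [dsq_lat h0 h1 h01]; push_cast; ring) (by rw [dsq_lat h0 h1 h01]; push_cast; ring)
          (by rw [dsq_lat h0 h1 h01]; push_cast; ring) (by simp only [lat]; push_cast; ring)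
          (by simp only [lat]; push_cast; ring)
          (fun y hy => le_trans (ih 0 (t' + 1) (by omega) (by omega) (by omega) y hy)
            (pow_le_pow_left₀ hq0 (by linarith) 2))
          (inter 0 t' (by omega) (by omega) (by omega)) ?_
          (h.near _ _ _ _ hi hj (by omega) (by omega)
            (Or.inr (Or.inr (Or.inr (Or.inl ⟨rfl, rfl⟩)))))
          (h.away _ _ _ _ hi hj (by omega) (by omega)
            (Or.inr (Or.inr (Or.inr (Or.inl ⟨rfl, rfl⟩)))))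
          (h.near _ _ _ _ hi hj (by omega) (by omega)
            (Or.inr (Or.inr (Or.inr (Or.inr (Or.inl ⟨rfl, rfl⟩))))))
          (h.away _ _ _ _ hi hj (by omega) (by omega)
            (Or.inr (Or.inr (Or.inr (Or.inr (Or.inl ⟨rfl, rfl⟩)))))) x hx
        intro x hx
        obtain ⟨y, hy⟩ := h.nonempty 1 t' (by omega) (by omega)
        refine ⟨y, le_trans (ih 1 t' (by omega) (by omega) (by omega) y hy) (by nlinarith), ?_⟩
        rw [dsq_comm]
        exact h.far3 0 t' (by omega) hj y hy x hx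
      · obtain ⟨i', rfl⟩ : ∃ i', i = i' + 1 := ⟨i - 1, by omega⟩
        obtain ⟨j', rfl⟩ : ∃ j', j = j' + 1 := ⟨j - 1, by omega⟩
        exact le_trans (inter i' j' hi hj hsum x hx) m1
  intro i j hi hj x hx
  exact main (W + H) (by omega) le_rfl i j hi hj (by omega) x hx

/-- The third base site. -/
theorem place_third (h : RegionReal W H P) (h0 : dot d0 d0 = 1) (h1 : dot d1 d1 = 1)
    (h01 : dot d0 d1 = 1 / 2) {r : ℝ} (hr : 0 ≤ r) (hr1 : r ≤ 1 / 1000)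
    (hW : 2 ≤ W) (hH : 2 ≤ H)
    (b00 : ∀ x ∈ P 0 0, dsq x (lat O d0 d1 0 0) ≤ r ^ 2)
    (b01 : ∀ x ∈ P 0 1, dsq x (lat O d0 d1 0 1) ≤ r ^ 2) (x : ℝ × ℝ) (hx : x ∈ P 1 0) :
    dsq x (lat O d0 d1 1 0) ≤ (5 * r) ^ 2 ∨
      dsq x (O.1 + 2 * d1.1 - 2 * d0.1, O.2 + 2 * d1.2 - 2 * d0.2) ≤ (5 * r) ^ 2 := by
  have n1 : NbS 1 0 0 0 := Or.inr (Or.inl ⟨rfl, rfl⟩)
  have n2 : NbS 1 0 0 1 := Or.inr (Or.inr (Or.inr (Or.inr (Or.inr ⟨rfl, rfl⟩))))
  obtain ⟨y1, hy1, hy1'⟩ := h.near 1 0 0 0 (by omega) (by omega) (by omega) (by omega) n1 x hx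
  obtain ⟨y2, hy2, hy2'⟩ := h.away 1 0 0 0 (by omega) (by omega) (by omega) (by omega) n1 x hx
  obtain ⟨y3, hy3, hy3'⟩ := h.near 1 0 0 1 (by omega) (by omega) (by omega) (by omega) n2 x hx
  obtain ⟨y4, hy4, hy4'⟩ := h.away 1 0 0 1 (by omega) (by omega) (by omega) (by omega) n2 x hx
  have s1 := shell hr (by linarith) (b00 y1 hy1) (b00 y2 hy2) hy1' hy2'
  have s2 := shell hr (by linarith) (b01 y3 hy3) (b01 y4 hy4) hy3' hy4'
  exact apex (by rw [dsq_lat h0 h1 h01]; push_cast; ring) (by rw [dsq_lat h0 h1 h01]; push_cast; ring)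
    (by rw [dsq_lat h0 h1 h01]; push_cast; ring) (by simp only [lat]; push_cast; ring)
    (by simp only [lat]; push_cast; ring) (by linarith) s1 s2

/-- **The placement lemma.** If the two base clusters are small, there is an exact lattice, with
origin `o` and the point `o'` on its axis of direction `d1`, such that all clusters are close to it,
at every scale. -/
theorem place_exists (h : RegionReal W H P) (hW : 2 ≤ W) (hH : 2 ≤ H) {s : ℝ} (hs : 0 ≤ s)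
    (small : 25 ^ (W + H) * (3 * s) ≤ 1 / 100) (c00 : ∀ x ∈ P 0 0, ∀ y ∈ P 0 0, dsq x y ≤ s ^ 2)
    (c01 : ∀ x ∈ P 0 1, ∀ y ∈ P 0 1, dsq x y ≤ s ^ 2) {o o' : ℝ × ℝ} (ho : o ∈ P 0 0)
    (ho' : o' ∈ P 0 1) : ∃ d0 d1 : ℝ × ℝ, ∃ ℓ : ℝ, dot d0 d0 = 1 ∧ dot d1 d1 = 1 ∧
      dot d0 d1 = 1 / 2 ∧ 1 < ℓ ∧ o' = (o.1 + ℓ * d1.1, o.2 + ℓ * d1.2) ∧
      ∀ s', 0 ≤ s' → s' ≤ s → (∀ x ∈ P 0 0, ∀ y ∈ P 0 0, dsq x y ≤ s' ^ 2) →
        (∀ x ∈ P 0 1, ∀ y ∈ P 0 1, dsq x y ≤ s' ^ 2) →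
        ∀ i j, i < W → j < H → ∀ x ∈ P i j,
          dsq x (lat o d0 d1 i j) ≤ (25 ^ (W + H) * (3 * s')) ^ 2 := by
  have hbig : (1000 : ℝ) ≤ 25 ^ (W + H) := by
    have : (25 : ℝ) ^ 4 ≤ 25 ^ (W + H) := pow_le_pow_right₀ (by norm_num) (by omega)
    exact le_trans (by norm_num) this
  have hs1 : s ≤ 1 / 100000 := by nlinarith
  -- the base edge
  have shell0 : ∀ s', 0 ≤ s' → s' ≤ s → (∀ x ∈ P 0 1, ∀ y ∈ P 0 1, dsq x y ≤ s' ^ 2) →
      |dsq o o' - 4| ≤ 5 * s' := by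
    intro s' hs' hss c
    have n1 : NbS 0 0 0 1 := Or.inr (Or.inr (Or.inl ⟨rfl, rfl⟩))
    obtain ⟨y1, hy1, hy1'⟩ := h.near 0 0 0 1 (by omega) (by omega) (by omega) (by omega) n1 o ho
    obtain ⟨y2, hy2, hy2'⟩ := h.away 0 0 0 1 (by omega) (by omega) (by omega) (by omega) n1 o ho
    exact shell hs' (by linarith) (c y1 hy1 o' ho') (c y2 hy2 o' ho') hy1' hy2'
  have sh := abs_le.mp (shell0 s hs le_rfl c01)
  set ℓ := Real.sqrt (dsq o o') with hℓ
  have hℓ2 : ℓ ^ 2 = dsq o o' := Real.sq_sqrt (dsq_nonneg _ _)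
  have hℓ0 : 0 ≤ ℓ := Real.sqrt_nonneg _
  have hℓ1 : 1 < ℓ := by nlinarith [sh.1]
  have hℓpos : 0 < ℓ := by linarith
  set d1 : ℝ × ℝ := ((o'.1 - o.1) / ℓ, (o'.2 - o.2) / ℓ) with hd1
  have m1 : ℓ * d1.1 = o'.1 - o.1 := by simp only [hd1]; field_simp
  have m2 : ℓ * d1.2 = o'.2 - o.2 := by simp only [hd1]; field_simp
  have h1 : dot d1 d1 = 1 := by
    have : ℓ ^ 2 * dot d1 d1 = ℓ ^ 2 := by
      have e : ℓ ^ 2 * dot d1 d1 = (ℓ * d1.1) ^ 2 + (ℓ * d1.2) ^ 2 := by simp only [dot]; ring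
      rw [e, m1, m2, hℓ2]; simp only [dsq]; ring
    have h2 : ℓ ^ 2 ≠ 0 := by positivity
    exact mul_left_cancel₀ h2 (by rw [this, mul_one])
  have h1' : d1.1 ^ 2 + d1.2 ^ 2 = 1 := by rw [← h1]; simp only [dot]; ring
  have h3 : Real.sqrt 3 ^ 2 = 3 := Real.sq_sqrt (by norm_num)
  -- both candidates for `d0`
  have key : ∀ d0 : ℝ × ℝ, dot d0 d0 = 1 → dot d0 d1 = 1 / 2 →
      (∃ o2 ∈ P 1 0, dsq o2 (lat o d0 d1 1 0) ≤ (5 * (3 * s)) ^ 2) →
      ∃ d0 d1 : ℝ × ℝ, ∃ ℓ : ℝ, dot d0 d0 = 1 ∧ dot d1 d1 = 1 ∧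
      dot d0 d1 = 1 / 2 ∧ 1 < ℓ ∧ o' = (o.1 + ℓ * d1.1, o.2 + ℓ * d1.2) ∧
      ∀ s', 0 ≤ s' → s' ≤ s → (∀ x ∈ P 0 0, ∀ y ∈ P 0 0, dsq x y ≤ s' ^ 2) →
        (∀ x ∈ P 0 1, ∀ y ∈ P 0 1, dsq x y ≤ s' ^ 2) →
        ∀ i j, i < W → j < H → ∀ x ∈ P i j,
          dsq x (lat o d0 d1 i j) ≤ (25 ^ (W + H) * (3 * s')) ^ 2 := by
    intro d0 h0 h01 ⟨o2, ho2, hd⟩
    refine ⟨d0, d1, ℓ, h0, h1, h01, hℓ1, ?_, ?_⟩
    · ext
      · simp only [m1]; ring
      · simp only [m2]; ring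
    intro s' hs' hss c0 c1
    have b00 : ∀ x ∈ P 0 0, dsq x (lat o d0 d1 0 0) ≤ (3 * s') ^ 2 := by
      intro x hx
      have e : lat o d0 d1 0 0 = o := by ext <;> simp [lat]
      rw [e]
      exact le_trans (c0 x hx o ho) (pow_le_pow_left₀ hs' (by linarith) 2)
    have b01 : ∀ x ∈ P 0 1, dsq x (lat o d0 d1 0 1) ≤ (3 * s') ^ 2 := by
      intro x hx
      have a1 := c1 x hx o' ho'
      have sh' := abs_le.mp (shell0 s' hs' hss c1)
      have a2 : dsq o' (lat o d0 d1 0 1) = (ℓ - 2) ^ 2 := by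
        have e1 : o'.1 = o.1 + ℓ * d1.1 := by rw [m1]; ring
        have e2 : o'.2 = o.2 + ℓ * d1.2 := by rw [m2]; ring
        simp only [dsq, lat, e1, e2]
        push_cast
        linear_combination (ℓ - 2) ^ 2 * h1'
      have a3 : (ℓ - 2) ^ 2 ≤ (2 * s') ^ 2 := by
        have u1 : (ℓ - 2) * (ℓ + 2) ≤ 5 * s' := by nlinarith [sh'.2]
        have u2 : -(5 * s') ≤ (ℓ - 2) * (ℓ + 2) := by nlinarith [sh'.1]
        have u3 : ℓ - 2 ≤ 2 * s' := by
          by_contra hc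
          push Not at hc
          nlinarith
        have u4 : -(2 * s') ≤ ℓ - 2 := by
          by_contra hc
          push Not at hc
          nlinarith
        exact sq_le_sq' u4 u3
      have := dsq_triangle hs' (by linarith) a1 (a2.le.trans a3)
      calc _ ≤ (s' + 2 * s') ^ 2 := this
        _ = (3 * s') ^ 2 := by ring
    refine place_bound h h0 h1 h01 (by positivity) ?_ hW hH b00 b01 ?_
    · refine le_trans ?_ small
      exact mul_le_mul_of_nonneg_left (by linarith) (by positivity)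
    · intro x hx
      rcases place_third h h0 h1 h01 (by positivity) (by linarith) hW hH b00 b01 x hx with k | k
      · exact k
      · exfalso
        have k1 : dsq (o.1 + 2 * d1.1 - 2 * d0.1, o.2 + 2 * d1.2 - 2 * d0.2) x ≤ (1 / 10) ^ 2 := by
          rw [dsq_comm]
          refine le_trans k (pow_le_pow_left₀ (by positivity) (by linarith) 2)
        have k2 : dsq x o2 ≤ 2 ^ 2 := by
          have := h.same 1 0 (by omega) (by omega) x hx o2 ho2
          linarith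
        have k3 : dsq o2 (lat o d0 d1 1 0) ≤ (1 / 10) ^ 2 :=
          le_trans hd (pow_le_pow_left₀ (by positivity) (by linarith) 2)
        have k4 := dsq_triangle (by norm_num) (by norm_num)
          (dsq_triangle (by norm_num) (by norm_num) k1 k2) k3
        have k5 : dsq (o.1 + 2 * d1.1 - 2 * d0.1, o.2 + 2 * d1.2 - 2 * d0.2)
            (lat o d0 d1 1 0) = 4 * dot d1 d1 - 16 * dot d0 d1 + 16 * dot d0 d0 := by
          simp only [dsq, lat, dot]; push_cast; ring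
        rw [k5, h0, h1, h01] at k4
        norm_num at k4
  set c : ℝ := Real.sqrt 3 / 2 with hc
  have hc2 : c ^ 2 = 3 / 4 := by rw [hc, div_pow, h3]; norm_num
  set dp : ℝ × ℝ := (1 / 2 * d1.1 - c * d1.2, 1 / 2 * d1.2 + c * d1.1) with hdp
  have p0 : dot dp dp = 1 := by
    simp only [hdp, dot]
    linear_combination (1 / 4 + c ^ 2) * h1' + hc2
  have p01 : dot dp d1 = 1 / 2 := by
    simp only [hdp, dot]
    linear_combination (1 / 2) * h1'
  obtain ⟨o2, ho2⟩ := h.nonempty 1 0 (by omega) (by omega)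
  -- placement of `o2` relative to `dp`
  have b00 : ∀ x ∈ P 0 0, dsq x (lat o dp d1 0 0) ≤ (3 * s) ^ 2 := by
    intro x hx
    have e : lat o dp d1 0 0 = o := by ext <;> simp [lat]
    rw [e]
    exact le_trans (c00 x hx o ho) (pow_le_pow_left₀ hs (by linarith) 2)
  have b01 : ∀ x ∈ P 0 1, dsq x (lat o dp d1 0 1) ≤ (3 * s) ^ 2 := by
    intro x hx
    have a1 := c01 x hx o' ho'
    have a2 : dsq o' (lat o dp d1 0 1) = (ℓ - 2) ^ 2 := by
      have e1 : o'.1 = o.1 + ℓ * d1.1 := by rw [m1]; ring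
      have e2 : o'.2 = o.2 + ℓ * d1.2 := by rw [m2]; ring
      simp only [dsq, lat, e1, e2]
      push_cast
      linear_combination (ℓ - 2) ^ 2 * h1'
    have a3 : (ℓ - 2) ^ 2 ≤ (2 * s) ^ 2 := by
      have u1 : (ℓ - 2) * (ℓ + 2) ≤ 5 * s := by nlinarith [sh.2]
      have u2 : -(5 * s) ≤ (ℓ - 2) * (ℓ + 2) := by nlinarith [sh.1]
      have u3 : ℓ - 2 ≤ 2 * s := by
        by_contra hc
        push Not at hc
        nlinarith
      have u4 : -(2 * s) ≤ ℓ - 2 := by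
        by_contra hc
        push Not at hc
        nlinarith
      exact sq_le_sq' u4 u3
    have := dsq_triangle hs (by linarith) a1 (a2.le.trans a3)
    calc _ ≤ (s + 2 * s) ^ 2 := this
      _ = (3 * s) ^ 2 := by ring
  rcases place_third h p0 h1 p01 (by positivity) (by linarith) hW hH b00 b01 o2 ho2 with k | k
  · exact key dp p0 p01 ⟨o2, ho2, k⟩
  · refine key (d1.1 - dp.1, d1.2 - dp.2) ?_ ?_ ⟨o2, ho2, ?_⟩
    · have : dot (d1.1 - dp.1, d1.2 - dp.2) (d1.1 - dp.1, d1.2 - dp.2) =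
          dot d1 d1 - 2 * dot dp d1 + dot dp dp := by simp only [dot]; ring
      rw [this, h1, p0, p01]; norm_num
    · have : dot (d1.1 - dp.1, d1.2 - dp.2) d1 = dot d1 d1 - dot dp d1 := by
        simp only [dot]; ring
      rw [this, h1, p01]; norm_num
    · have : lat o (d1.1 - dp.1, d1.2 - dp.2) d1 1 0 =
          (o.1 + 2 * d1.1 - 2 * dp.1, o.2 + 2 * d1.2 - 2 * dp.2) := by
        ext <;> simp only [lat] <;> push_cast <;> ring
      rw [this]
      exact k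

end

/-- A new site from two known clusters: its points are pairwise near and each of them has a
neighbour and a non-neighbour in both clusters. -/
theorem cluster_next {A B C : Set (ℝ × ℝ)} {s : ℝ} (hs : 0 ≤ s) (hs1 : s ≤ 1 / 1000)
    (cA : ∀ x ∈ A, ∀ y ∈ A, dsq x y ≤ s ^ 2) (cB : ∀ x ∈ B, ∀ y ∈ B, dsq x y ≤ s ^ 2)
    (cC : ∀ x ∈ C, ∀ y ∈ C, dsq x y ≤ 4) (nAB : ∃ x ∈ A, ∃ y ∈ B, dsq x y ≤ 4)
    (fAB : ∃ x ∈ A, ∃ y ∈ B, 4 < dsq x y)
    (nA : ∀ x ∈ C, ∃ y ∈ A, dsq x y ≤ 4) (fA : ∀ x ∈ C, ∃ y ∈ A, 4 < dsq x y)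
    (nB : ∀ x ∈ C, ∃ y ∈ B, dsq x y ≤ 4) (fB : ∀ x ∈ C, ∃ y ∈ B, 4 < dsq x y) :
    ∀ x ∈ C, ∀ y ∈ C, dsq x y ≤ (10 * s) ^ 2 := by
  obtain ⟨a, ha, b, hb, hab⟩ := nAB
  obtain ⟨a', ha', b', hb', hab'⟩ := fAB
  have h0 : |dsq a b - 4| ≤ 2 * (5 * s) := by
    have n1 : dsq a b ≤ 4 := hab
    have n2 : (2 - 2 * s) ^ 2 ≤ dsq a b := by
      by_contra hc
      push Not at hc
      have t1 := dsq_triangle hs (by linarith) (cA a' ha' a ha) hc.le
      have t2 := dsq_triangle (by linarith) hs t1 (cB b hb b' hb')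
      have : (s + (2 - 2 * s) + s) ^ 2 = 4 := by ring
      linarith
    rw [abs_le]
    constructor <;> nlinarith
  intro x hx y hy
  have key : ∀ x ∈ C, |dsq x a - 4| ≤ 5 * s ∧ |dsq x b - 4| ≤ 5 * s := by
    intro x hx
    obtain ⟨y1, hy1, hy1'⟩ := nA x hx
    obtain ⟨y2, hy2, hy2'⟩ := fA x hx
    obtain ⟨y3, hy3, hy3'⟩ := nB x hx
    obtain ⟨y4, hy4, hy4'⟩ := fB x hx
    exact ⟨shell hs (by linarith) (cA y1 hy1 a ha) (cA y2 hy2 a ha) hy1' hy2',
      shell hs (by linarith) (cB y3 hy3 b hb) (cB y4 hy4 b hb) hy3' hy4'⟩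
  have := two_nbr (ε := 5 * s) (by linarith) h0 (key x hx).1 (key x hx).2 (key y hy).1
    (key y hy).2 (cC x hx y hy)
  calc _ ≤ (2 * (5 * s)) ^ 2 := this
    _ = (10 * s) ^ 2 := by ring

end Pool.Agent.Lib.MP_1cb9f1_lc
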