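import Mathlib

/-!
# Plane geometry for unit disk graphs (soundness side), threshold `2`

Everything is in coordinates. `dsq p q ≤ 4` is adjacency.
-/

namespace Pool.Agent.Lib.MP_1cb9f1_lc

/-- Squared distance of two points of the plane. -/
def dsq (p q : ℝ × ℝ) : ℝ := (p.1 - q.1) ^ 2 + (p.2 - q.2) ^ 2

/-- Scalar product. -/
def dot (u v : ℝ × ℝ) : ℝ := u.1 * v.1 + u.2 * v.2

theorem dsq_nonneg (p q : ℝ × ℝ) : 0 ≤ dsq p q := by unfold dsq; positivity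

theorem dsq_comm (p q : ℝ × ℝ) : dsq p q = dsq q p := by unfold dsq; ring

theorem dsq_self (p : ℝ × ℝ) : dsq p p = 0 := by unfold dsq; ring

theorem dot_comm (u v : ℝ × ℝ) : dot u v = dot v u := by unfold dot; ring

theorem dot_self_nonneg (u : ℝ × ℝ) : 0 ≤ dot u u := by
  unfold dot; nlinarith [sq_nonneg u.1, sq_nonneg u.2]

theorem dsq_eq_dot (p q : ℝ × ℝ) : dsq p q = dot (p - q) (p - q) := by
  simp only [dsq, dot, Prod.fst_sub, Prod.snd_sub]; ring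

/-- Cauchy–Schwarz. -/
theorem dot_sq_le (u v : ℝ × ℝ) : dot u v ^ 2 ≤ dot u u * dot v v := by
  unfold dot; nlinarith [sq_nonneg (u.1 * v.2 - u.2 * v.1)]

theorem abs_dot_le {u v : ℝ × ℝ} {a b : ℝ} (ha : 0 ≤ a) (hb : 0 ≤ b)
    (hu : dot u u ≤ a ^ 2) (hv : dot v v ≤ b ^ 2) : |dot u v| ≤ a * b := by
  apply abs_le_of_sq_le_sq _ (by positivity)
  calc dot u v ^ 2 ≤ dot u u * dot v v := dot_sq_le u v
    _ ≤ a ^ 2 * b ^ 2 := mul_le_mul hu hv (dot_self_nonneg v) (by positivity)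
    _ = (a * b) ^ 2 := by ring

/-- The Gram identity of three vectors of the plane. -/
theorem gram (x e h : ℝ × ℝ) :
    dot x x * (dot e e * dot h h - dot e h ^ 2) =
      dot x e ^ 2 * dot h h - 2 * dot x e * dot x h * dot e h + dot x h ^ 2 * dot e e := by
  unfold dot; ring

/-- Triangle inequality for squared distances. -/
theorem dsq_triangle {p q r : ℝ × ℝ} {a b : ℝ} (ha : 0 ≤ a) (hb : 0 ≤ b)
    (h1 : dsq p q ≤ a ^ 2) (h2 : dsq q r ≤ b ^ 2) : dsq p r ≤ (a + b) ^ 2 := by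
  rw [dsq_eq_dot] at h1 h2
  have h3 := abs_dot_le ha hb h1 h2
  have h4 : dsq p r = dot (p - q) (p - q) + 2 * dot (p - q) (q - r) + dot (q - r) (q - r) := by
    simp only [dsq, dot, Prod.fst_sub, Prod.snd_sub]; ring
  rw [h4]
  have h5 := (abs_le.mp h3).2
  nlinarith

/-- Shell lemma: if `x` is within `2` of a point of the `r`-ball of `a` and not within `2` of another
one, then its distance from `a` is within `r` of `2`. -/
theorem shell {x a a1 a2 : ℝ × ℝ} {r : ℝ} (hr : 0 ≤ r) (hr1 : r ≤ 1)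
    (h1 : dsq a1 a ≤ r ^ 2) (h2 : dsq a2 a ≤ r ^ 2) (hn : dsq x a1 ≤ 4) (hf : 4 < dsq x a2) :
    |dsq x a - 4| ≤ 5 * r := by
  have hn' : dsq x a1 ≤ 2 ^ 2 := by linarith
  have h3 := dsq_triangle (by norm_num) hr hn' h1
  have h4 : dsq x a ≤ 4 + 5 * r := by nlinarith
  have h5 : 4 - 5 * r ≤ dsq x a := by
    by_contra hc
    push Not at hc
    have h6 : dsq x a ≤ (2 - r) ^ 2 := by nlinarith
    have h7 := dsq_triangle (by linarith) hr h6 (by rw [dsq_comm]; exact h2)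
    have h8 : (2 - r + r) ^ 2 = 4 := by ring
    linarith
  rw [abs_le]; constructor <;> linarith

/-- A planar vector with small scalar products with two independent vectors is small. -/
theorem gram_bound {X μ ω M W P ε Mb Wb Pb δ K : ℝ}
    (hG : X * (M * W - P ^ 2) = μ ^ 2 * W - 2 * μ * ω * P + ω ^ 2 * M)
    (hμ : |μ| ≤ ε) (hω : |ω| ≤ ε) (hM : 0 ≤ M) (hW : 0 ≤ W) (hMb : M ≤ Mb) (hWb : W ≤ Wb)
    (hP : |P| ≤ Pb) (hX : 0 ≤ X) (hδ : δ ≤ M * W - P ^ 2) (hδ0 : 0 < δ)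
    (hK : Wb + 2 * Pb + Mb ≤ K * δ) : X ≤ K * ε ^ 2 := by
  have hε : 0 ≤ ε := le_trans (abs_nonneg _) hμ
  have h1 : μ ^ 2 * W ≤ ε ^ 2 * Wb := by
    have : μ ^ 2 ≤ ε ^ 2 := by rw [← sq_abs μ]; exact pow_le_pow_left₀ (abs_nonneg _) hμ 2
    exact mul_le_mul this hWb hW (by positivity)
  have h2 : ω ^ 2 * M ≤ ε ^ 2 * Mb := by
    have : ω ^ 2 ≤ ε ^ 2 := by rw [← sq_abs ω]; exact pow_le_pow_left₀ (abs_nonneg _) hω 2
    exact mul_le_mul this hMb hM (by positivity)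
  have h3 : - (2 * μ * ω * P) ≤ 2 * ε ^ 2 * Pb := by
    have h4 : |μ * ω * P| ≤ ε * ε * Pb := by
      rw [abs_mul, abs_mul]
      have := mul_le_mul hμ hω (abs_nonneg _) hε
      exact mul_le_mul this hP (abs_nonneg _) (by positivity)
    have h5 := (abs_le.mp h4).1
    nlinarith
  have h6 : X * δ ≤ X * (M * W - P ^ 2) := mul_le_mul_of_nonneg_left hδ hX
  have h7 : X * δ ≤ ε ^ 2 * (Wb + 2 * Pb + Mb) := by nlinarith
  have h8 : ε ^ 2 * (Wb + 2 * Pb + Mb) ≤ ε ^ 2 * (K * δ) :=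
    mul_le_mul_of_nonneg_left hK (by positivity)
  have h9 : X * δ ≤ (K * ε ^ 2) * δ := by nlinarith
  exact le_of_mul_le_mul_right h9 hδ0

/-- Two-neighbour rule, intrinsic form. -/
theorem two_nbr {a b c c' : ℝ × ℝ} {ε : ℝ} (hε1 : ε ≤ 1 / 50)
    (hab : |dsq a b - 4| ≤ 2 * ε) (h1 : |dsq c a - 4| ≤ ε) (h2 : |dsq c b - 4| ≤ ε)
    (h1' : |dsq c' a - 4| ≤ ε) (h2' : |dsq c' b - 4| ≤ ε) (hcc : dsq c c' ≤ 4) :
    dsq c c' ≤ (2 * ε) ^ 2 := by
  have hε : 0 ≤ ε := le_trans (abs_nonneg _) h1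
  rw [abs_le] at hab h1 h2 h1' h2'
  obtain ⟨hab1, hab2⟩ := hab
  obtain ⟨h11, h12⟩ := h1
  obtain ⟨h21, h22⟩ := h2
  obtain ⟨h11', h12'⟩ := h1'
  obtain ⟨h21', h22'⟩ := h2'
  set x : ℝ × ℝ := c - c' with hx
  set m : ℝ × ℝ := (c.1 + c'.1 - 2 * a.1, c.2 + c'.2 - 2 * a.2) with hm
  set w : ℝ × ℝ := b - a with hw
  have eX : dot x x = dsq c c' := by rw [hx, ← dsq_eq_dot]
  have eμ : dot x m = dsq c a - dsq c' a := by
    simp only [hx, hm, dsq, dot, Prod.fst_sub, Prod.snd_sub]; ring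
  have eω : dot x w = (dsq c a - dsq c' a - dsq c b + dsq c' b) / 2 := by
    simp only [hx, hw, dsq, dot, Prod.fst_sub, Prod.snd_sub]; ring
  have eM : dot m m = 2 * dsq c a + 2 * dsq c' a - dsq c c' := by
    simp only [hm, dsq, dot]; ring
  have eW : dot w w = dsq a b := by
    simp only [hw, dsq, dot, Prod.fst_sub, Prod.snd_sub]; ring
  have eP : dot m w = (dsq c a + dsq c' a - dsq c b - dsq c' b) / 2 + dsq a b := by
    simp only [hm, hw, dsq, dot, Prod.fst_sub, Prod.snd_sub]; ring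
  have hG := gram x m w
  rw [← eX]
  have hM1 : 12 - 4 * ε ≤ dot m m := by rw [eM]; linarith
  have hM2 : dot m m ≤ 16 + 4 * ε := by rw [eM]; linarith [dsq_nonneg c c']
  have hW1 : 4 - 2 * ε ≤ dot w w := by rw [eW]; linarith
  have hW2 : dot w w ≤ 4 + 2 * ε := by rw [eW]; linarith
  have hP1 : 4 - 4 * ε ≤ dot m w := by rw [eP]; linarith
  have hP2 : dot m w ≤ 4 + 4 * ε := by rw [eP]; linarith
  have hdet : 30 ≤ dot m m * dot w w - dot m w ^ 2 := by nlinarith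
  have := gram_bound (X := dot x x) (μ := dot x m) (ω := dot x w) (M := dot m m) (W := dot w w)
    (P := dot m w) (ε := 2 * ε) (Mb := 16 + 4 * ε) (Wb := 4 + 2 * ε) (Pb := 4 + 4 * ε)
    (δ := 30) (K := 1) hG (by rw [eμ, abs_le]; constructor <;> linarith)
    (by rw [eω, abs_le]; constructor <;> linarith) (by linarith) (by linarith) hM2 hW2
    (by rw [abs_le]; constructor <;> linarith) (dot_self_nonneg x) hdet (by norm_num)
    (by linarith)
  linarith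

end Pool.Agent.Lib.MP_1cb9f1_lc
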