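import Pool.Agent.Lib.MP_1cb9f1_lc.RegDefs

/-!
# Displacement coordinates of the computing region exist (MP_1cb9f1_lc, module REG1)
-/

set_option autoImplicit false

namespace Pool.Agent.MP1cb9f1

open Pool.Agent.Lib.MP_1cb9f1_lc

/-- A triangle inequality in squared form. -/
theorem reg1_tri {a b c d s : ℝ} (h0 : 0 ≤ s) (h2 : s ≤ 2) (h : 4 < (a + c) ^ 2 + (b + d) ^ 2)
    (hw : c ^ 2 + d ^ 2 ≤ s ^ 2) : (2 - s) ^ 2 < a ^ 2 + b ^ 2 := by
  by_contra hc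
  push Not at hc
  have h1 : (a * c + b * d) ^ 2 ≤ ((2 - s) * s) ^ 2 := by
    have e : (a * c + b * d) ^ 2 + (a * d - b * c) ^ 2 = (a ^ 2 + b ^ 2) * (c ^ 2 + d ^ 2) := by
      ring
    have e2 : (a ^ 2 + b ^ 2) * (c ^ 2 + d ^ 2) ≤ (2 - s) ^ 2 * s ^ 2 :=
      mul_le_mul hc hw (by positivity) (by positivity)
    nlinarith [sq_nonneg (a * d - b * c)]
  have h3 : a * c + b * d ≤ (2 - s) * s :=
    (abs_le_of_sq_le_sq' h1 (mul_nonneg (by linarith) h0)).2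
  nlinarith

/-- Bounds for the coordinates from the form `qf`. -/
theorem reg1_qf {v : ℝ × ℝ} {D s : ℝ} (hs : 0 ≤ s) (hD : D ≤ s ^ 2) (h : qf v = 3 / 4 * D) :
    |v.1| ≤ s ∧ |v.2| ≤ s := by
  unfold qf at h
  refine ⟨abs_le_of_sq_le_sq ?_ hs, abs_le_of_sq_le_sq ?_ hs⟩
  · nlinarith [sq_nonneg (v.1 / 2 - v.2)]
  · nlinarith [sq_nonneg (v.2 / 2 - v.1)]

/-- The position of the third base point. -/
theorem reg1_third {a b d s r0 r1 r3 : ℝ} (hs : 0 ≤ s) (hs1 : s ≤ 1) (hd : 2 - s ≤ d)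
    (hd2 : d ≤ 2) (h3 : r3 ^ 2 = 3) (h3p : 0 ≤ r3) (hb : 0 ≤ b) (e0 : a ^ 2 + b ^ 2 = r0)
    (e1 : (a - d) ^ 2 + b ^ 2 = r1) (h0 : (2 - s) ^ 2 ≤ r0) (h0' : r0 ≤ 4)
    (h1 : (2 - s) ^ 2 ≤ r1) (h1' : r1 ≤ 4) :
    |a - 1| ≤ 3 * s ∧ |a / 2 + r3 / 2 * b - 2| ≤ 13 * s := by
  have hr3 : 17 / 10 ≤ r3 := by
    by_contra hc
    push Not at hc
    nlinarith
  have hr3' : r3 ≤ 18 / 10 := by
    by_contra hc
    push Not at hc
    nlinarith
  have hδ : |r0 - r1| ≤ 4 * s := by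
    rw [abs_le]
    constructor <;> nlinarith
  rw [abs_le] at hδ
  have ha : 2 * d * (a - 1) = d * (d - 2) + (r0 - r1) := by
    rw [← e0, ← e1]; ring
  have hd1 : 1 ≤ d := by linarith
  have ha1 : |a - 1| ≤ 3 * s := by
    rw [abs_le]
    constructor
    · by_contra hc
      push Not at hc
      have : 2 * d * (a - 1) < 2 * d * (-(3 * s)) := by
        apply mul_lt_mul_of_pos_left hc; linarith
      nlinarith [mul_nonneg hs (sub_nonneg.2 hd1), mul_nonneg (sub_nonneg.2 hd2)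
        (by linarith : (0 : ℝ) ≤ d)]
    · by_contra hc
      push Not at hc
      have : 2 * d * (3 * s) < 2 * d * (a - 1) := by
        apply mul_lt_mul_of_pos_left hc; linarith
      nlinarith [mul_nonneg hs (sub_nonneg.2 hd1), mul_nonneg (sub_nonneg.2 hd2)
        (by linarith : (0 : ℝ) ≤ d)]
  refine ⟨ha1, ?_⟩
  rw [abs_le] at ha1
  have hb2 : |b ^ 2 - 3| ≤ 19 * s := by
    have : b ^ 2 - 3 = (r0 - 4) - (a - 1) * (a - 1) - 2 * (a - 1) := by rw [← e0]; ring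
    rw [this, abs_le]
    have hsq : (a - 1) * (a - 1) ≤ 9 * s := by
      have : (a - 1) * (a - 1) ≤ (3 * s) * (3 * s) := by
        have := abs_le.2 ha1
        calc (a - 1) * (a - 1) = |a - 1| * |a - 1| := (abs_mul_abs_self _).symm
          _ ≤ (3 * s) * (3 * s) := mul_le_mul this this (abs_nonneg _) (by linarith)
      nlinarith
    have hsq0 : 0 ≤ (a - 1) * (a - 1) := mul_self_nonneg _
    constructor <;> nlinarith
  rw [abs_le] at hb2
  have hb3 : |b - r3| ≤ 12 * s := by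
    have e : (b - r3) * (b + r3) = b ^ 2 - 3 := by rw [← h3]; ring
    rw [abs_le]
    constructor
    · by_contra hc
      push Not at hc
      have h5 : (r3 - b) * (17 / 10) ≤ (r3 - b) * (b + r3) :=
        mul_le_mul_of_nonneg_left (by linarith) (by linarith)
      have h6 : (r3 - b) * (b + r3) = -(b ^ 2 - 3) := by rw [← e]; ring
      rw [h6] at h5
      linarith
    · by_contra hc
      push Not at hc
      have h5 : (b - r3) * (17 / 10) ≤ (b - r3) * (b + r3) :=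
        mul_le_mul_of_nonneg_left (by linarith) (by linarith)
      rw [e] at h5
      linarith
  have e : a / 2 + r3 / 2 * b - 2 = (a - 1) / 2 + r3 / 2 * (b - r3) := by
    linear_combination (1 / 2) * h3
  rw [e]
  rw [abs_le] at hb3 ⊢
  have h6 : 0 ≤ r3 / 2 := by linarith
  have h7 := mul_le_mul_of_nonneg_left hb3.2 h6
  have h8 := mul_le_mul_of_nonneg_left hb3.1 h6
  have h9 := mul_le_mul_of_nonneg_right hr3' hs
  constructor <;> linarith

/-- The conversion of closeness in direction `0`. -/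
theorem reg1_dir0 (p q x y : ℝ × ℝ) {D : ℝ} (hq : qf (p - q) = 3 / 4 * D)
    (h1 : y.1 - x.1 = 2) (h2 : y.2 - x.2 = 1) :
    D ≤ 4 ↔ qf (p - x - (q - y)) ≤ 3 * (sk 0 (p - x) - sk 0 (q - y)) := by
  have e : p - x - (q - y) = ((p - q).1 + 2, (p - q).2 + 1) := by
    ext
    · simp only [Prod.fst_sub]; linarith
    · simp only [Prod.snd_sub]; linarith
  have e2 : sk 0 (p - x) - sk 0 (q - y) = (p - q).1 + 2 := by
    simp only [sk, if_true, Prod.fst_sub]; linarith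
  rw [e, e2]
  generalize p - q = v at hq ⊢
  simp only [qf] at hq ⊢
  constructor <;> intro h <;> linarith

/-- The conversion of closeness in direction `1`. -/
theorem reg1_dir1 (p q x y : ℝ × ℝ) {D : ℝ} (hq : qf (p - q) = 3 / 4 * D)
    (h1 : y.1 - x.1 = 1) (h2 : y.2 - x.2 = 2) :
    D ≤ 4 ↔ qf (p - x - (q - y)) ≤ 3 * (sk 1 (p - x) - sk 1 (q - y)) := by
  have e : p - x - (q - y) = ((p - q).1 + 1, (p - q).2 + 2) := by
    ext
    · simp only [Prod.fst_sub]; linarith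
    · simp only [Prod.snd_sub]; linarith
  have e2 : sk 1 (p - x) - sk 1 (q - y) = (p - q).2 + 2 := by
    simp only [sk, one_ne_zero, if_false, if_true, Prod.snd_sub]; linarith
  rw [e, e2]
  generalize p - q = v at hq ⊢
  simp only [qf] at hq ⊢
  constructor <;> intro h <;> linarith

/-- The conversion of closeness in direction `2`. -/
theorem reg1_dir2 (p q x y : ℝ × ℝ) {D : ℝ} (hq : qf (p - q) = 3 / 4 * D)
    (h1 : y.1 - x.1 = -1) (h2 : y.2 - x.2 = 1) :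
    D ≤ 4 ↔ qf (p - x - (q - y)) ≤ 3 * (sk 2 (p - x) - sk 2 (q - y)) := by
  have e : p - x - (q - y) = ((p - q).1 - 1, (p - q).2 + 1) := by
    ext
    · simp only [Prod.fst_sub]; linarith
    · simp only [Prod.snd_sub]; linarith
  have e2 : sk 2 (p - x) - sk 2 (q - y) = (p - q).2 - (p - q).1 + 2 := by
    simp only [sk, OfNat.ofNat_ne_zero, OfNat.ofNat_ne_one, if_false, Prod.snd_sub,
      Prod.fst_sub]; linarith
  rw [e, e2]
  generalize p - q = v at hq ⊢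
  simp only [qf] at hq ⊢
  constructor <;> intro h <;> linarith

theorem reg1_pres {T : ℕ} {ops : List Op} {i j l : ℕ} (hij : i + j ≤ 1) (hl : l < 19) :
    PresR T ops i j l := by
  refine ⟨?_, ?_, ?_⟩
  · unfold regI; omega
  · unfold regJ; omega
  · unfold labelsAt
    simp only [List.mem_append, List.mem_range]
    exact Or.inl (Or.inl (Or.inl (Or.inl hl)))

theorem regDisp_exists : ∃ C s0 : ℝ, 0 < C ∧ 0 < s0 ∧ ∀ (T : ℕ) (ops : List Op)
    (Q : ℕ → ℕ → ℕ → ℝ × ℝ) (s : ℝ), RegReal T ops Q → BaseClose T ops Q s → 0 ≤ s → s ≤ s0 →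
    ∃ X, RegDisp T ops X ∧ BoundB T ops X (C * s) := by
  refine ⟨20, 1, by norm_num, by norm_num, ?_⟩
  intro T ops Q s hR hB hs hs1
  -- distances of the three base tails
  have hd01 : 4 < ((Q 0 0 9).1 - (Q 1 0 10).1) ^ 2 + ((Q 0 0 9).2 - (Q 1 0 10).2) ^ 2 := by
    by_contra hc
    push Not at hc
    have := (hR.dir 0 (by norm_num) 0 0 9 1 0 10 (reg1_pres (by norm_num) (by norm_num))
      (reg1_pres (by norm_num) (by norm_num)) (by decide)).1 hc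
    revert this
    decide
  have hd02 : 4 < ((Q 0 0 9).1 - (Q 0 1 5).1) ^ 2 + ((Q 0 0 9).2 - (Q 0 1 5).2) ^ 2 := by
    by_contra hc
    push Not at hc
    have := (hR.dir 1 (by norm_num) 0 0 9 0 1 5 (reg1_pres (by norm_num) (by norm_num))
      (reg1_pres (by norm_num) (by norm_num)) (by decide)).1 hc
    revert this
    decide
  have hd12 : 4 < ((Q 1 0 9).1 - (Q 0 1 4).1) ^ 2 + ((Q 1 0 9).2 - (Q 0 1 4).2) ^ 2 := by
    by_contra hc
    push Not at hc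
    have := (hR.dir 2 (by norm_num) 1 0 9 0 1 4 (reg1_pres (by norm_num) (by norm_num))
      (reg1_pres (by norm_num) (by norm_num)) (by decide)).1 hc
    revert this
    decide
  have n01 : ((Q 0 0 9).1 - (Q 1 0 9).1) ^ 2 + ((Q 0 0 9).2 - (Q 1 0 9).2) ^ 2 ≤ 4 :=
    (hR.dir 0 (by norm_num) 0 0 9 1 0 9 (reg1_pres (by norm_num) (by norm_num))
      (reg1_pres (by norm_num) (by norm_num)) (by decide)).2 (by decide)
  have n02 : ((Q 0 0 9).1 - (Q 0 1 9).1) ^ 2 + ((Q 0 0 9).2 - (Q 0 1 9).2) ^ 2 ≤ 4 :=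
    (hR.dir 1 (by norm_num) 0 0 9 0 1 9 (reg1_pres (by norm_num) (by norm_num))
      (reg1_pres (by norm_num) (by norm_num)) (by decide)).2 (by decide)
  have n12 : ((Q 1 0 9).1 - (Q 0 1 9).1) ^ 2 + ((Q 1 0 9).2 - (Q 0 1 9).2) ^ 2 ≤ 4 :=
    (hR.dir 2 (by norm_num) 1 0 9 0 1 9 (reg1_pres (by norm_num) (by norm_num))
      (reg1_pres (by norm_num) (by norm_num)) (by decide)).2 (by decide)
  have c1 := hB 1 0 9 10 (by norm_num) (reg1_pres (by norm_num) (by norm_num))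
    (reg1_pres (by norm_num) (by norm_num))
  have c2 := hB 0 1 9 5 (by norm_num) (reg1_pres (by norm_num) (by norm_num))
    (reg1_pres (by norm_num) (by norm_num))
  have c3 := hB 0 1 9 4 (by norm_num) (reg1_pres (by norm_num) (by norm_num))
    (reg1_pres (by norm_num) (by norm_num))
  have f01 : (2 - s) ^ 2 < ((Q 0 0 9).1 - (Q 1 0 9).1) ^ 2 + ((Q 0 0 9).2 - (Q 1 0 9).2) ^ 2 :=
    reg1_tri hs (by linarith) (c := (Q 1 0 9).1 - (Q 1 0 10).1) (d := (Q 1 0 9).2 - (Q 1 0 10).2)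
      (by convert hd01 using 3 <;> ring) c1
  have f02 : (2 - s) ^ 2 < ((Q 0 0 9).1 - (Q 0 1 9).1) ^ 2 + ((Q 0 0 9).2 - (Q 0 1 9).2) ^ 2 :=
    reg1_tri hs (by linarith) (c := (Q 0 1 9).1 - (Q 0 1 5).1) (d := (Q 0 1 9).2 - (Q 0 1 5).2)
      (by convert hd02 using 3 <;> ring) c2
  have f12 : (2 - s) ^ 2 < ((Q 1 0 9).1 - (Q 0 1 9).1) ^ 2 + ((Q 1 0 9).2 - (Q 0 1 9).2) ^ 2 :=
    reg1_tri hs (by linarith) (c := (Q 0 1 9).1 - (Q 0 1 4).1) (d := (Q 0 1 9).2 - (Q 0 1 4).2)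
      (by convert hd12 using 3 <;> ring) c3
  clear hd01 hd02 hd12 c1 c2 c3
  -- the frame
  obtain ⟨d, hd, hdp⟩ : ∃ d : ℝ, d ^ 2 = ((Q 1 0 9).1 - (Q 0 0 9).1) ^ 2 +
      ((Q 1 0 9).2 - (Q 0 0 9).2) ^ 2 ∧ 0 ≤ d :=
    ⟨Real.sqrt (((Q 1 0 9).1 - (Q 0 0 9).1) ^ 2 + ((Q 1 0 9).2 - (Q 0 0 9).2) ^ 2),
      Real.sq_sqrt (by positivity), Real.sqrt_nonneg _⟩
  have hdl : 2 - s < d := by
    apply lt_of_pow_lt_pow_left₀ 2 hdp
    nlinarith
  have hdu : d ≤ 2 := by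
    apply le_of_sq_le_sq _ (by norm_num)
    nlinarith
  have hd0 : 0 < d := by linarith
  obtain ⟨c, hc⟩ : ∃ c, c = ((Q 1 0 9).1 - (Q 0 0 9).1) / d := ⟨_, rfl⟩
  obtain ⟨w, hw⟩ : ∃ w, w = ((Q 1 0 9).2 - (Q 0 0 9).2) / d := ⟨_, rfl⟩
  have hc' : (Q 1 0 9).1 - (Q 0 0 9).1 = d * c := by rw [hc]; field_simp
  have hw' : (Q 1 0 9).2 - (Q 0 0 9).2 = d * w := by rw [hw]; field_simp
  have hcw : c ^ 2 + w ^ 2 = 1 := by
    have : d ^ 2 * (c ^ 2 + w ^ 2) = d ^ 2 * 1 := by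
      rw [mul_one]
      nth_rewrite 2 [hd]
      rw [hc', hw']
      ring
    exact mul_left_cancel₀ (by positivity) this
  obtain ⟨e, he, hep⟩ : ∃ e : ℝ, e ^ 2 = 1 ∧
      0 ≤ e * (-w * ((Q 0 1 9).1 - (Q 0 0 9).1) + c * ((Q 0 1 9).2 - (Q 0 0 9).2)) := by
    rcases le_total 0 (-w * ((Q 0 1 9).1 - (Q 0 0 9).1) + c * ((Q 0 1 9).2 - (Q 0 0 9).2))
      with h | h
    · exact ⟨1, by norm_num, by linarith⟩
    · exact ⟨-1, by norm_num, by linarith⟩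
  obtain ⟨r3, h3, h3p⟩ : ∃ r3 : ℝ, r3 ^ 2 = 3 ∧ 0 ≤ r3 :=
    ⟨Real.sqrt 3, Real.sq_sqrt (by norm_num), Real.sqrt_nonneg _⟩
  obtain ⟨S, hSd⟩ : ∃ S : ℝ × ℝ → ℝ × ℝ, ∀ p, S p =
      (c * (p.1 - (Q 0 0 9).1) + w * (p.2 - (Q 0 0 9).2),
        (c * (p.1 - (Q 0 0 9).1) + w * (p.2 - (Q 0 0 9).2)) / 2 +
          r3 / 2 * (e * (-w * (p.1 - (Q 0 0 9).1) + c * (p.2 - (Q 0 0 9).2)))) :=
    ⟨_, fun p => rfl⟩
  have hS : ∀ p q : ℝ × ℝ, qf (S p - S q) = 3 / 4 * ((p.1 - q.1) ^ 2 + (p.2 - q.2) ^ 2) := by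
    intro p q
    rw [hSd, hSd]
    simp only [qf, Prod.fst_sub, Prod.snd_sub]
    linear_combination (e ^ 2 * (-w * (p.1 - q.1) + c * (p.2 - q.2)) ^ 2 / 4) * h3 +
      (3 / 4 * (-w * (p.1 - q.1) + c * (p.2 - q.2)) ^ 2) * he +
      (3 / 4 * ((p.1 - q.1) ^ 2 + (p.2 - q.2) ^ 2)) * hcw
  have hS0 : S (Q 0 0 9) = (0, 0) := by
    rw [hSd]; simp
  have hS1 : S (Q 1 0 9) = (d, d / 2) := by
    rw [hSd, hc', hw', Prod.mk.injEq]
    constructor
    · linear_combination d * hcw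
    · linear_combination (d / 2) * hcw
  have hS2 : |(S (Q 0 1 9)).1 - 1| ≤ 3 * s ∧ |(S (Q 0 1 9)).2 - 2| ≤ 13 * s := by
    rw [hSd]
    have := reg1_third (a := c * ((Q 0 1 9).1 - (Q 0 0 9).1) + w * ((Q 0 1 9).2 - (Q 0 0 9).2))
      (b := e * (-w * ((Q 0 1 9).1 - (Q 0 0 9).1) + c * ((Q 0 1 9).2 - (Q 0 0 9).2)))
      (r0 := ((Q 0 0 9).1 - (Q 0 1 9).1) ^ 2 + ((Q 0 0 9).2 - (Q 0 1 9).2) ^ 2)
      (r1 := ((Q 1 0 9).1 - (Q 0 1 9).1) ^ 2 + ((Q 1 0 9).2 - (Q 0 1 9).2) ^ 2)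
      hs hs1 hdl.le hdu h3 h3p hep ?_ ?_ f02.le n02 f12.le n12
    · exact this
    · linear_combination (-w * ((Q 0 1 9).1 - (Q 0 0 9).1) + c * ((Q 0 1 9).2 - (Q 0 0 9).2)) ^ 2
        * he + (((Q 0 1 9).1 - (Q 0 0 9).1) ^ 2 + ((Q 0 1 9).2 - (Q 0 0 9).2) ^ 2) * hcw
    · have e1 : (Q 1 0 9).1 - (Q 0 1 9).1 = d * c - ((Q 0 1 9).1 - (Q 0 0 9).1) := by
        rw [← hc']; ring
      have e2 : (Q 1 0 9).2 - (Q 0 1 9).2 = d * w - ((Q 0 1 9).2 - (Q 0 0 9).2) := by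
        rw [← hw']; ring
      rw [e1, e2]
      linear_combination (-w * ((Q 0 1 9).1 - (Q 0 0 9).1) + c * ((Q 0 1 9).2 - (Q 0 0 9).2)) ^ 2
        * he + (((Q 0 1 9).1 - (Q 0 0 9).1) ^ 2 + ((Q 0 1 9).2 - (Q 0 0 9).2) ^ 2 - d ^ 2) * hcw
  refine ⟨fun i j l => S (Q i j l) - (2 * (i : ℝ) + j, (i : ℝ) + 2 * j), ?_, ?_⟩
  · refine ⟨?_, ?_, ?_, ?_⟩
    · intro k hk i j l i' j' l' h1 h2 hn
      rw [← hR.dir k hk i j l i' j' l' h1 h2 hn]
      have hq := hS (Q i j l) (Q i' j' l')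
      unfold Near
      interval_cases k
      · simp only [nb, if_true, Bool.and_eq_true, decide_eq_true_eq] at hn
        obtain ⟨rfl, rfl⟩ := hn
        exact reg1_dir0 _ _ _ _ hq (by push_cast; ring) (by push_cast; ring)
      · simp only [nb, one_ne_zero, if_false, if_true, Bool.and_eq_true, decide_eq_true_eq] at hn
        obtain ⟨rfl, rfl⟩ := hn
        exact reg1_dir1 _ _ _ _ hq (by push_cast; ring) (by push_cast; ring)
      · simp only [nb, OfNat.ofNat_ne_zero, OfNat.ofNat_ne_one, if_false, Bool.and_eq_true,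
          decide_eq_true_eq] at hn
        obtain ⟨rfl, rfl⟩ := hn
        exact reg1_dir2 _ _ _ _ hq (by push_cast; ring) (by push_cast; ring)
    · intro i j l i' j' l' h1 h2 hne hf hf'
      have hnn := hR.far i j l i' j' l' h1 h2 hne hf hf'
      have hq := hS (Q i' j' l') (Q i j l)
      unfold Near at hnn
      push Not at hnn
      have : ((2 * ((i' : ℝ) - i) + ((j' : ℝ) - j), ((i' : ℝ) - i) + 2 * ((j' : ℝ) - j)) +
          (S (Q i' j' l') - (2 * (i' : ℝ) + j', (i' : ℝ) + 2 * j')) -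
          (S (Q i j l) - (2 * (i : ℝ) + j, (i : ℝ) + 2 * j)) : ℝ × ℝ) =
          S (Q i' j' l') - S (Q i j l) := by
        ext <;> simp only [Prod.fst_sub, Prod.snd_sub, Prod.fst_add, Prod.snd_add] <;> ring
      rw [this, hq]
      nlinarith
    · simp only [hS0]
      ext <;> simp
    · simp only [hS1, Prod.fst_sub, Prod.snd_sub]
      push_cast
      ring
  · intro i j l hij hp
    have key : ∀ o : ℝ × ℝ, o = Q i j 9 →
        |(S (Q i j l)).1 - (S o).1| ≤ s ∧ |(S (Q i j l)).2 - (S o).2| ≤ s := by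
      rintro o rfl
      have := reg1_qf hs (hB i j l 9 hij hp (reg1_pres hij (by norm_num)))
        (hS (Q i j l) (Q i j 9))
      simpa only [Prod.fst_sub, Prod.snd_sub] using this
    have hcs : (i = 0 ∧ j = 0) ∨ (i = 1 ∧ j = 0) ∨ (i = 0 ∧ j = 1) := by omega
    simp only [Prod.fst_sub, Prod.snd_sub]
    rcases hcs with ⟨rfl, rfl⟩ | ⟨rfl, rfl⟩ | ⟨rfl, rfl⟩
    · have h := key _ rfl
      rw [hS0] at h
      simp only [abs_le] at h ⊢
      push_cast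
      refine ⟨⟨?_, ?_⟩, ?_, ?_⟩ <;> linarith [h.1.1, h.1.2, h.2.1, h.2.2]
    · have h := key _ rfl
      rw [hS1] at h
      simp only [abs_le] at h ⊢
      push_cast
      refine ⟨⟨?_, ?_⟩, ?_, ?_⟩ <;> linarith [h.1.1, h.1.2, h.2.1, h.2.2]
    · have h := key _ rfl
      simp only [abs_le] at h hS2 ⊢
      push_cast
      refine ⟨⟨?_, ?_⟩, ?_, ?_⟩ <;>
        linarith [h.1.1, h.1.2, h.2.1, h.2.2, hS2.1.1, hS2.1.2, hS2.2.1, hS2.2.2]

end Pool.Agent.MP1cb9f1
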