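import Pool.Agent.Lib.MP_1cb9f1_lc.RegDefs

/-!
# Growth of the displacements in the computing region (MP_1cb9f1_lc)

The displacements of the three base sites propagate over the region with an exponential factor:
`reg_growth`.
-/

set_option autoImplicit false

namespace Pool.Agent.MP1cb9f1

open Pool.Agent.Lib.MP_1cb9f1_lc

/-! ### Labels -/

theorem reg2_opExtras (T : ℕ) (o : Op) (x y : ℕ) : ∀ l ∈ opExtras T o x y, l < 44 := by
  unfold opExtras
  split_ifs <;> simp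

theorem reg2_extrasAt (T : ℕ) (ops : List Op) (i j : ℕ) : ∀ l ∈ extrasAt T ops i j, l < 44 := by
  unfold extrasAt
  split_ifs
  · exact reg2_opExtras _ _ _ _
  · simp

theorem reg2_labelsAt_lt (T : ℕ) (ops : List Op) (i j : ℕ) : ∀ l ∈ labelsAt T ops i j, l < 44 := by
  intro l hl
  unfold labelsAt at hl
  rw [List.mem_append] at hl
  rcases hl with hl | hl
  · revert hl
    split_ifs <;> simp only [List.mem_append, List.mem_range, List.mem_cons, List.not_mem_nil,
        or_false] <;> omega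
  · exact reg2_extrasAt T ops i j l hl

/-! ### Tables -/

/-- Every label has a neighbouring frame one step back. -/
theorem reg2_tab1 : ∀ k < 3, ∀ l < 44, ∃ f < 19, rule k (0, f) (0, l) = true := by decide +kernel

/-- Every label has a non-neighbouring frame one step back. -/
theorem reg2_tab2 : ∀ k < 3, ∀ l < 44, ∃ f < 19, rule k (0, f) (0, l) = false := by
  decide +kernel

/-- Every label has a neighbouring frame one step ahead. -/
theorem reg2_tab3 : ∀ k < 3, ∀ l < 44, ∃ f < 19, rule k (0, l) (0, f) = true := by decide +kernel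

/-- Every label has a non-neighbouring frame one step ahead. -/
theorem reg2_tab4 : ∀ k < 3, ∀ l < 44, ∃ f < 19, rule k (0, l) (0, f) = false := by
  decide +kernel

/-! ### Algebra -/

theorem reg2_qf_symm (x y : ℝ × ℝ) : qf (x - y) = qf (y - x) := by
  simp only [qf, Prod.fst_sub, Prod.snd_sub]
  ring

/-- The expansion of `qf (x - y)` for small `y`. -/
theorem reg2_qf_sub {x y : ℝ × ℝ} {N r : ℝ} (hx1 : |x.1| ≤ N) (hx2 : |x.2| ≤ N)
    (hy1 : |y.1| ≤ r) (hy2 : |y.2| ≤ r) :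
    |qf (x - y) - qf x| ≤ 6 * N * r + 3 * r ^ 2 := by
  have hN : 0 ≤ N := le_trans (abs_nonneg _) hx1
  have hr : 0 ≤ r := le_trans (abs_nonneg _) hy1
  have e : qf (x - y) - qf x = -(2 * (x.1 * y.1)) + x.1 * y.2 + x.2 * y.1 - 2 * (x.2 * y.2) +
      (y.1 * y.1 - y.1 * y.2 + y.2 * y.2) := by
    simp only [qf, Prod.fst_sub, Prod.snd_sub]
    ring
  have b11 : |x.1 * y.1| ≤ N * r := by
    rw [abs_mul]; exact mul_le_mul hx1 hy1 (abs_nonneg _) hN
  have b12 : |x.1 * y.2| ≤ N * r := by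
    rw [abs_mul]; exact mul_le_mul hx1 hy2 (abs_nonneg _) hN
  have b21 : |x.2 * y.1| ≤ N * r := by
    rw [abs_mul]; exact mul_le_mul hx2 hy1 (abs_nonneg _) hN
  have b22 : |x.2 * y.2| ≤ N * r := by
    rw [abs_mul]; exact mul_le_mul hx2 hy2 (abs_nonneg _) hN
  have c11 : |y.1 * y.1| ≤ r * r := by
    rw [abs_mul]; exact mul_le_mul hy1 hy1 (abs_nonneg _) hr
  have c12 : |y.1 * y.2| ≤ r * r := by
    rw [abs_mul]; exact mul_le_mul hy1 hy2 (abs_nonneg _) hr
  have c22 : |y.2 * y.2| ≤ r * r := by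
    rw [abs_mul]; exact mul_le_mul hy2 hy2 (abs_nonneg _) hr
  rw [e]
  rw [abs_le] at *
  constructor <;> nlinarith [b11.1, b11.2]

/-- The linear coordinate of a small vector. -/
theorem reg2_sk {k : ℕ} {y : ℝ × ℝ} {r : ℝ} (hy1 : |y.1| ≤ r) (hy2 : |y.2| ≤ r) :
    |sk k y| ≤ 2 * r := by
  have hr : 0 ≤ r := le_trans (abs_nonneg _) hy1
  unfold sk
  rw [abs_le] at *
  split_ifs <;> constructor <;> linarith [hy1.1, hy1.2, hy2.1, hy2.2]

/-- The core: `u = q + 3 A` and `v = q + 3 B` small, and the third site is far. -/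
theorem reg2_core {A B N r : ℝ} (hr0 : 0 ≤ r) (hr : r ≤ 1 / 100) (hN0 : 0 ≤ N)
    (hN : 3 / 4 * N ^ 2 ≤ A ^ 2 - A * B + B ^ 2) (hA : |A| ≤ N)
    (hu : |A ^ 2 - A * B + B ^ 2 + 3 * A| ≤ (6 * N + 9) * r)
    (hv : |A ^ 2 - A * B + B ^ 2 + 3 * B| ≤ (6 * N + 9) * r)
    (hf : 3 < 9 + 3 * A + 3 * B + (A ^ 2 - A * B + B ^ 2) + (6 * (3 + N) * r + 3 * r ^ 2)) :
    |A| ≤ 69 * r ∧ |B| ≤ 69 * r := by
  set q := A ^ 2 - A * B + B ^ 2 with hq
  have hN10 : N ≤ 10 := by
    have h1 := (abs_le.1 hu).2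
    have h2 := (abs_le.1 hA).1
    by_contra hc
    push Not at hc
    nlinarith [mul_nonneg hN0 hr0]
  have hε : (6 * N + 9) * r ≤ 69 * r := by nlinarith
  set ε := 69 * r with hεd
  have hε0 : 0 ≤ ε := by positivity
  have hε1 : ε ≤ 1 := by rw [hεd]; linarith
  set u := q + 3 * A with hud
  set v := q + 3 * B with hvd
  have hu' : |u| ≤ ε := hu.trans hε
  have hv' : |v| ≤ ε := hv.trans hε
  have hq0 : 0 ≤ q := by nlinarith [sq_nonneg N]
  have hfac : 2 ≤ 9 + u + v - q := by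
    have h3 : 6 * (3 + N) * r + 3 * r ^ 2 ≤ 81 * r := by nlinarith
    have : 9 + u + v - q = 9 + 3 * A + 3 * B + q := by rw [hud, hvd]; ring
    rw [this]
    linarith
  have hid : q * (9 + u + v - q) = u ^ 2 - u * v + v ^ 2 := by
    rw [hud, hvd]
    have : 9 * q = 9 * (A ^ 2 - A * B + B ^ 2) := by rw [hq]
    linear_combination this
  have hu2 : u ^ 2 ≤ ε ^ 2 := sq_le_sq' (abs_le.1 hu').1 (abs_le.1 hu').2
  have hv2 : v ^ 2 ≤ ε ^ 2 := sq_le_sq' (abs_le.1 hv').1 (abs_le.1 hv').2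
  have huv : -(u * v) ≤ ε ^ 2 := by nlinarith [sq_nonneg (u + v)]
  have hq2 : q ≤ 3 / 2 * ε ^ 2 := by nlinarith
  have hq3 : q ≤ 3 / 2 * ε := by nlinarith
  have hA' : A = (u - q) / 3 := by rw [hud]; ring
  have hB' : B = (v - q) / 3 := by rw [hvd]; ring
  have hu1 := abs_le.1 hu'
  have hv1 := abs_le.1 hv'
  constructor
  · rw [hA', abs_le]
    constructor <;> linarith [hu1.1, hu1.2]
  · rw [hB', abs_le]
    constructor <;> linarith [hv1.1, hv1.2]

/-- `qf` controls the coordinates. -/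
theorem reg2_qf_lower (x : ℝ × ℝ) : 3 / 4 * (max |x.1| |x.2|) ^ 2 ≤ qf x := by
  unfold qf
  rcases le_total |x.1| |x.2| with h | h
  · rw [max_eq_right h, sq_abs]
    nlinarith [sq_nonneg (x.1 - x.2 / 2)]
  · rw [max_eq_left h, sq_abs]
    nlinarith [sq_nonneg (x.2 - x.1 / 2)]

/-- The two inequalities of a direction, the site of `y` being one step back. -/
theorem reg2_back {k : ℕ} {x y y' : ℝ × ℝ} {r : ℝ} (hr1 : r ≤ 1)
    (h1 : qf (y - x) ≤ 3 * (sk k y - sk k x)) (h2 : 3 * (sk k y' - sk k x) < qf (y' - x))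
    (hy1 : |y.1| ≤ r) (hy2 : |y.2| ≤ r) (hy1' : |y'.1| ≤ r) (hy2' : |y'.2| ≤ r) :
    |qf x + 3 * sk k x| ≤ (6 * max |x.1| |x.2| + 9) * r := by
  have hr : 0 ≤ r := le_trans (abs_nonneg _) hy1
  have hx1 : |x.1| ≤ max |x.1| |x.2| := le_max_left _ _
  have hx2 : |x.2| ≤ max |x.1| |x.2| := le_max_right _ _
  have e1 := abs_le.1 (reg2_qf_sub hx1 hx2 hy1 hy2)
  have e2 := abs_le.1 (reg2_qf_sub hx1 hx2 hy1' hy2')
  have s1 := abs_le.1 (reg2_sk (k := k) hy1 hy2)
  have s2 := abs_le.1 (reg2_sk (k := k) hy1' hy2')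
  rw [reg2_qf_symm] at h1 h2
  have hrr : r ^ 2 ≤ r := by nlinarith
  rw [abs_le]
  constructor
  · linarith [e2.1, e2.2, s2.1, s2.2]
  · linarith [e1.1, e1.2, s1.1, s1.2]

/-- The two inequalities of a direction, the site of `y` being one step ahead. -/
theorem reg2_ahead {k : ℕ} {x y y' : ℝ × ℝ} {r : ℝ} (hr1 : r ≤ 1)
    (h1 : qf (x - y) ≤ 3 * (sk k x - sk k y)) (h2 : 3 * (sk k x - sk k y') < qf (x - y'))
    (hy1 : |y.1| ≤ r) (hy2 : |y.2| ≤ r) (hy1' : |y'.1| ≤ r) (hy2' : |y'.2| ≤ r) :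
    |qf x + 3 * -sk k x| ≤ (6 * max |x.1| |x.2| + 9) * r := by
  have hr : 0 ≤ r := le_trans (abs_nonneg _) hy1
  have hx1 : |x.1| ≤ max |x.1| |x.2| := le_max_left _ _
  have hx2 : |x.2| ≤ max |x.1| |x.2| := le_max_right _ _
  have e1 := abs_le.1 (reg2_qf_sub hx1 hx2 hy1 hy2)
  have e2 := abs_le.1 (reg2_qf_sub hx1 hx2 hy1' hy2')
  have s1 := abs_le.1 (reg2_sk (k := k) hy1 hy2)
  have s2 := abs_le.1 (reg2_sk (k := k) hy1' hy2')
  have hrr : r ^ 2 ≤ r := by nlinarith
  rw [abs_le]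
  constructor
  · linarith [e2.1, e2.2, s2.1, s2.2]
  · linarith [e1.1, e1.2, s1.1, s1.2]

/-- The inequality of the far site. -/
theorem reg2_far {L x y : ℝ × ℝ} {r : ℝ} (hL1 : |L.1| ≤ 3) (hL2 : |L.2| ≤ 3)
    (h : 3 < qf (L + x - y)) (hy1 : |y.1| ≤ r) (hy2 : |y.2| ≤ r) :
    3 < qf (L + x) + (6 * (3 + max |x.1| |x.2|) * r + 3 * r ^ 2) := by
  have hx1 : |(L + x).1| ≤ 3 + max |x.1| |x.2| := by
    rw [Prod.fst_add]
    exact (abs_add_le _ _).trans (add_le_add hL1 (le_max_left _ _))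
  have hx2 : |(L + x).2| ≤ 3 + max |x.1| |x.2| := by
    rw [Prod.snd_add]
    exact (abs_add_le _ _).trans (add_le_add hL2 (le_max_right _ _))
  have e1 := abs_le.1 (reg2_qf_sub hx1 hx2 hy1 hy2)
  linarith [e1.1, e1.2]

theorem reg2_nb_false {k i j i' j' : ℕ} (h0 : ¬ (i' = i + 1 ∧ j' = j))
    (h1 : ¬ (i' = i ∧ j' = j + 1)) (h2 : ¬ (i' + 1 = i ∧ j' = j + 1)) :
    nb k (i, j) (i', j') = false := by
  unfold nb
  split_ifs <;> rw [← Bool.not_eq_true, Bool.and_eq_true, decide_eq_true_iff,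
    decide_eq_true_iff] <;> assumption

/-! ### The region -/

section
variable {T : ℕ} {ops : List Op} {X : ℕ → ℕ → ℕ → ℝ × ℝ}

/-- The frames are present. -/
theorem reg2_pres {i j f : ℕ} (hi : i ≤ regI T ops) (hj : j ≤ regJ T) (hf : f < 19) :
    PresR T ops i j f := by
  refine ⟨hi, hj, ?_⟩
  unfold labelsAt
  simp only [List.mem_append, List.mem_range]
  exact Or.inl (Or.inl (Or.inl (Or.inl hf)))

/-- All points of a site are bounded. -/
def Reg2B (T : ℕ) (ops : List Op) (X : ℕ → ℕ → ℕ → ℝ × ℝ) (i j : ℕ) (r : ℝ) : Prop :=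
  ∀ l, PresR T ops i j l → |(X i j l).1| ≤ r ∧ |(X i j l).2| ≤ r

theorem Reg2B.mono {i j : ℕ} {r r' : ℝ} (h : Reg2B T ops X i j r) (hr : r ≤ r') :
    Reg2B T ops X i j r' := fun l hl => ⟨(h l hl).1.trans hr, (h l hl).2.trans hr⟩

/-- The direction inequality towards a site one step back. -/
theorem reg2_dir_back (hX : RegDisp T ops X) {k i j i' j' l : ℕ} {r : ℝ} (hk : k < 3)
    (hr1 : r ≤ 1) (hi : i' ≤ regI T ops) (hj : j' ≤ regJ T) (hnb : nb k (i', j') (i, j) = true)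
    (hl : PresR T ops i j l) (hB : Reg2B T ops X i' j' r) :
    |qf (X i j l) + 3 * sk k (X i j l)| ≤ (6 * max |(X i j l).1| |(X i j l).2| + 9) * r := by
  have hl44 := reg2_labelsAt_lt _ _ _ _ l hl.2.2
  obtain ⟨f, hf, hft⟩ := reg2_tab1 k hk l hl44
  obtain ⟨g, hg, hgt⟩ := reg2_tab2 k hk l hl44
  have pf := reg2_pres (T := T) (ops := ops) hi hj hf
  have pg := reg2_pres (T := T) (ops := ops) hi hj hg
  have h1 := (hX.dir k hk _ _ _ _ _ _ pf hl hnb).1 hft
  have h2 := mt (hX.dir k hk _ _ _ _ _ _ pg hl hnb).2 (by rw [hgt]; simp)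
  push Not at h2
  exact reg2_back hr1 h1 h2 (hB f pf).1 (hB f pf).2 (hB g pg).1 (hB g pg).2

/-- The direction inequality towards a site one step ahead. -/
theorem reg2_dir_ahead (hX : RegDisp T ops X) {k i j i' j' l : ℕ} {r : ℝ} (hk : k < 3)
    (hr1 : r ≤ 1) (hi : i' ≤ regI T ops) (hj : j' ≤ regJ T) (hnb : nb k (i, j) (i', j') = true)
    (hl : PresR T ops i j l) (hB : Reg2B T ops X i' j' r) :
    |qf (X i j l) + 3 * -sk k (X i j l)| ≤ (6 * max |(X i j l).1| |(X i j l).2| + 9) * r := by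
  have hl44 := reg2_labelsAt_lt _ _ _ _ l hl.2.2
  obtain ⟨f, hf, hft⟩ := reg2_tab3 k hk l hl44
  obtain ⟨g, hg, hgt⟩ := reg2_tab4 k hk l hl44
  have pf := reg2_pres (T := T) (ops := ops) hi hj hf
  have pg := reg2_pres (T := T) (ops := ops) hi hj hg
  have h1 := (hX.dir k hk _ _ _ _ _ _ hl pf hnb).1 hft
  have h2 := mt (hX.dir k hk _ _ _ _ _ _ hl pg hnb).2 (by rw [hgt]; simp)
  push Not at h2
  exact reg2_ahead hr1 h1 h2 (hB f pf).1 (hB f pf).2 (hB g pg).1 (hB g pg).2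

/-- Interior sites. -/
theorem reg2_stepI (hX : RegDisp T ops X) {i j : ℕ} {r : ℝ} (hr0 : 0 ≤ r) (hr : r ≤ 1 / 100)
    (hi : i + 1 ≤ regI T ops) (hj : j + 1 ≤ regJ T)
    (h0 : Reg2B T ops X i j r) (h1 : Reg2B T ops X (i + 1) j r)
    (h2 : Reg2B T ops X i (j + 1) r) : Reg2B T ops X (i + 1) (j + 1) (138 * r) := by
  intro l hl
  have hA := reg2_dir_back hX (k := 1) (i' := i + 1) (j' := j) (by norm_num) (by linarith)
    (by omega) (by omega) (by simp [nb]) hl h1
  have hB := reg2_dir_back hX (k := 0) (i' := i) (j' := j + 1) (by norm_num) (by linarith)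
    (by omega) (by omega) (by simp [nb]) hl h2
  have p0 := reg2_pres (T := T) (ops := ops) (i := i) (j := j) (f := 0) (by omega) (by omega)
    (by norm_num)
  have hF := hX.far _ _ _ _ _ _ p0 hl (by simp)
    (by intro k hk; exact reg2_nb_false (by omega) (by omega) (by omega))
    (by intro k hk; exact reg2_nb_false (by omega) (by omega) (by omega))
  have hF2 := reg2_far (r := r) (by simp; norm_num) (by simp; norm_num) hF (h0 0 p0).1 (h0 0 p0).2
  have hN := reg2_qf_lower (X (i + 1) (j + 1) l)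
  set x := X (i + 1) (j + 1) l with hx
  have hq : qf x = x.2 ^ 2 - x.2 * x.1 + x.1 ^ 2 := by unfold qf; ring
  have hc := reg2_core (A := x.2) (B := x.1) (N := max |x.1| |x.2|) hr0 hr
    (le_trans (abs_nonneg _) (le_max_left _ _)) (by rw [← hq]; exact hN) (le_max_right _ _)
    (by rw [← hq]; simpa [sk] using hA) (by rw [← hq]; simpa [sk] using hB) (by
      refine hF2.trans_le (le_of_eq ?_)
      simp only [qf, Prod.fst_add, Prod.snd_add]
      push_cast
      ring)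
  exact ⟨by linarith [hc.2], by linarith [hc.1]⟩

/-- The sites of the lower side. -/
theorem reg2_stepII (hX : RegDisp T ops X) {i : ℕ} {r : ℝ} (hr0 : 0 ≤ r) (hr : r ≤ 1 / 100)
    (hi : i + 2 ≤ regI T ops) (hj : 1 ≤ regJ T)
    (h0 : Reg2B T ops X i 1 r) (h1 : Reg2B T ops X (i + 1) 0 r)
    (h2 : Reg2B T ops X (i + 1) 1 r) : Reg2B T ops X (i + 2) 0 (138 * r) := by
  intro l hl
  have hA := reg2_dir_back hX (k := 0) (i' := i + 1) (j' := 0) (by norm_num) (by linarith)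
    (by omega) (by omega) (by simp [nb]) hl h1
  have hB := reg2_dir_ahead hX (k := 2) (i' := i + 1) (j' := 1) (by norm_num) (by linarith)
    (by omega) (by omega) (by simp [nb]) hl h2
  have p0 := reg2_pres (T := T) (ops := ops) (i := i) (j := 1) (f := 0) (by omega) (by omega)
    (by norm_num)
  have hF := hX.far _ _ _ _ _ _ p0 hl (by simp)
    (by intro k hk; exact reg2_nb_false (by omega) (by omega) (by omega))
    (by intro k hk; exact reg2_nb_false (by omega) (by omega) (by omega))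
  have hF2 := reg2_far (r := r) (by simp; norm_num) (by simp) hF (h0 0 p0).1 (h0 0 p0).2
  have hN := reg2_qf_lower (X (i + 2) 0 l)
  set x := X (i + 2) 0 l with hx
  have hq : qf x = x.1 ^ 2 - x.1 * (x.1 - x.2) + (x.1 - x.2) ^ 2 := by unfold qf; ring
  have hc := reg2_core (A := x.1) (B := x.1 - x.2) (N := max |x.1| |x.2|) hr0 hr
    (le_trans (abs_nonneg _) (le_max_left _ _)) (by rw [← hq]; exact hN) (le_max_left _ _)
    (by rw [← hq]; simpa [sk] using hA) (by rw [← hq]; simpa [sk] using hB) (by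
      refine hF2.trans_le (le_of_eq ?_)
      simp only [qf, Prod.fst_add, Prod.snd_add]
      push_cast
      ring)
  refine ⟨by linarith [hc.1], ?_⟩
  have e : x.2 = x.1 - (x.1 - x.2) := by ring
  rw [e]
  refine (abs_sub _ _).trans ?_
  linarith [hc.1, hc.2]

/-- The sites of the left side. -/
theorem reg2_stepIII (hX : RegDisp T ops X) {j : ℕ} {r : ℝ} (hr0 : 0 ≤ r) (hr : r ≤ 1 / 100)
    (hi : 1 ≤ regI T ops) (hj : j + 2 ≤ regJ T)
    (h0 : Reg2B T ops X 1 j r) (h1 : Reg2B T ops X 0 (j + 1) r)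
    (h2 : Reg2B T ops X 1 (j + 1) r) : Reg2B T ops X 0 (j + 2) (138 * r) := by
  intro l hl
  have hA := reg2_dir_back hX (k := 1) (i' := 0) (j' := j + 1) (by norm_num) (by linarith)
    (by omega) (by omega) (by simp [nb]) hl h1
  have hB := reg2_dir_back hX (k := 2) (i' := 1) (j' := j + 1) (by norm_num) (by linarith)
    (by omega) (by omega) (by simp [nb]) hl h2
  have p0 := reg2_pres (T := T) (ops := ops) (i := 1) (j := j) (f := 0) (by omega) (by omega)
    (by norm_num)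
  have hF := hX.far _ _ _ _ _ _ p0 hl (by simp)
    (by intro k hk; exact reg2_nb_false (by omega) (by omega) (by omega))
    (by intro k hk; exact reg2_nb_false (by omega) (by omega) (by omega))
  have hF2 := reg2_far (r := r) (by simp) (by simp; norm_num) hF (h0 0 p0).1 (h0 0 p0).2
  have hN := reg2_qf_lower (X 0 (j + 2) l)
  set x := X 0 (j + 2) l with hx
  have hq : qf x = x.2 ^ 2 - x.2 * (x.2 - x.1) + (x.2 - x.1) ^ 2 := by unfold qf; ring
  have hc := reg2_core (A := x.2) (B := x.2 - x.1) (N := max |x.1| |x.2|) hr0 hr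
    (le_trans (abs_nonneg _) (le_max_left _ _)) (by rw [← hq]; exact hN) (le_max_right _ _)
    (by rw [← hq]; simpa [sk] using hA) (by rw [← hq]; simpa [sk] using hB) (by
      refine hF2.trans_le (le_of_eq ?_)
      simp only [qf, Prod.fst_add, Prod.snd_add]
      push_cast
      ring)
  refine ⟨?_, by linarith [hc.1]⟩
  have e : x.1 = x.2 - (x.2 - x.1) := by ring
  rw [e]
  refine (abs_sub _ _).trans ?_
  linarith [hc.1, hc.2]

/-- The induction over the sites. -/
theorem reg2_ind (hX : RegDisp T ops X) {ρ : ℝ} (hB : BoundB T ops X ρ) (h0 : 0 ≤ ρ) {M : ℕ}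
    (hM : (138 : ℝ) ^ (2 * M) * ρ ≤ 1 / 100) :
    ∀ n ≤ M, ∀ i j, i + j = n → i ≤ regI T ops → j ≤ regJ T →
      Reg2B T ops X i j (138 ^ (2 * n) * ρ) := by
  have hI : 2 ≤ regI T ops := by unfold regI; omega
  have hJ : 1 ≤ regJ T := by unfold regJ; omega
  have hmono : ∀ {m m' : ℕ}, m ≤ m' → (138 : ℝ) ^ m * ρ ≤ 138 ^ m' * ρ := fun h =>
    mul_le_mul_of_nonneg_right (pow_le_pow_right₀ (by norm_num) h) h0
  intro n
  induction n using Nat.strong_induction_on with
  | _ n ih =>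
    intro hn i j hij hi hj
    rcases Nat.lt_or_ge n 2 with h2 | h2
    · intro l hl
      have h := hB i j l (by omega) hl
      have h' : ρ ≤ 138 ^ (2 * n) * ρ := by simpa using hmono (Nat.zero_le (2 * n))
      exact ⟨h.1.trans h', h.2.trans h'⟩
    -- the bound at the sites of smaller sum
    have hlow : ∀ i' j', i' + j' < n → i' ≤ regI T ops → j' ≤ regJ T →
        Reg2B T ops X i' j' (138 ^ (2 * n - 2) * ρ) := fun i' j' h hi' hj' =>
      (ih (i' + j') h (by omega) i' j' rfl hi' hj').mono (hmono (by omega))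
    have hint : ∀ i' j', i' + 1 + (j' + 1) = n → i' + 1 ≤ regI T ops → j' + 1 ≤ regJ T →
        Reg2B T ops X (i' + 1) (j' + 1) (138 ^ (2 * n - 1) * ρ) := by
      intro i' j' h hi' hj'
      have e : (138 : ℝ) ^ (2 * n - 1) * ρ = 138 * (138 ^ (2 * n - 2) * ρ) := by
        rw [show 2 * n - 1 = (2 * n - 2) + 1 by omega, pow_succ]
        ring
      rw [e]
      exact reg2_stepI hX (by positivity) ((hmono (by omega)).trans hM) hi' hj'
        (hlow _ _ (by omega) (by omega) (by omega)) (hlow _ _ (by omega) (by omega) (by omega))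
        (hlow _ _ (by omega) (by omega) (by omega))
    have e : (138 : ℝ) ^ (2 * n) * ρ = 138 * (138 ^ (2 * n - 1) * ρ) := by
      rw [show 2 * n = (2 * n - 1) + 1 by omega, pow_succ, show 2 * n - 1 + 1 - 1 = 2 * n - 1 by
        omega]
      ring
    have hsm : (138 : ℝ) ^ (2 * n - 1) * ρ ≤ 1 / 100 := (hmono (by omega)).trans hM
    have hlow' : ∀ i' j', i' + j' < n → i' ≤ regI T ops → j' ≤ regJ T →
        Reg2B T ops X i' j' (138 ^ (2 * n - 1) * ρ) := fun i' j' h hi' hj' =>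
      (hlow i' j' h hi' hj').mono (hmono (by omega))
    rcases Nat.eq_zero_or_pos j with hj0 | hj0
    · subst hj0
      obtain ⟨i, rfl⟩ : ∃ i', i = i' + 2 := ⟨i - 2, by omega⟩
      rw [e]
      exact reg2_stepII hX (by positivity) hsm hi hJ (hlow' _ _ (by omega) (by omega) hJ)
        (hlow' _ _ (by omega) (by omega) (by omega)) (hint i 0 (by omega) (by omega) hJ)
    rcases Nat.eq_zero_or_pos i with hi0 | hi0
    · subst hi0
      obtain ⟨j, rfl⟩ : ∃ j', j = j' + 2 := ⟨j - 2, by omega⟩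
      rw [e]
      exact reg2_stepIII hX (by positivity) hsm (by omega) hj
        (hlow' _ _ (by omega) (by omega) (by omega)) (hlow' _ _ (by omega) (by omega) (by omega))
        (hint 0 j (by omega) (by omega) (by omega))
    · obtain ⟨i, rfl⟩ : ∃ i', i = i' + 1 := ⟨i - 1, by omega⟩
      obtain ⟨j, rfl⟩ : ∃ j', j = j' + 1 := ⟨j - 1, by omega⟩
      exact (hint i j hij hi hj).mono (hmono (by omega))

end

/-- The displacements of the base sites propagate with an exponential factor. -/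
theorem reg_growth : ∃ C ρ0 : ℝ, 1 ≤ C ∧ 0 < ρ0 ∧ ∀ (T : ℕ) (ops : List Op)
    (X : ℕ → ℕ → ℕ → ℝ × ℝ) (ρ : ℝ), RegDisp T ops X → BoundB T ops X ρ → 0 ≤ ρ →
    C ^ regS T ops * ρ ≤ ρ0 → ∀ i j l, PresR T ops i j l →
    |(X i j l).1| ≤ C ^ (i + j) * ρ ∧ |(X i j l).2| ≤ C ^ (i + j) * ρ := by
  refine ⟨138 ^ 2, 1 / 100, by norm_num, by norm_num, ?_⟩
  intro T ops X ρ hX hB h0 hs i j l hl
  have hM : (138 : ℝ) ^ (2 * (i + j)) * ρ ≤ 1 / 100 := by
    refine le_trans ?_ hs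
    rw [← pow_mul]
    refine mul_le_mul_of_nonneg_right (pow_le_pow_right₀ (by norm_num) ?_) h0
    have h1 := hl.1
    have h2 := hl.2.1
    unfold regS
    omega
  have h := reg2_ind hX hB h0 hM (i + j) le_rfl i j rfl hl.1 hl.2.1 l hl
  rw [← pow_mul]
  exact h

end Pool.Agent.MP1cb9f1
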