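import Pool.Agent.Lib.MP_1cb9f1_lc.RegDefs

/-!
# Module REG3 (MP_1cb9f1_lc): the unit and the frames of the computing region
-/

set_option autoImplicit false

namespace Pool.Agent.MP1cb9f1

open Pool.Agent.Lib.MP_1cb9f1_lc

/-- Module REG2 (`reg_growth`) as a statement about the constants. -/
def RegGrowth (C ρ0 : ℝ) : Prop := ∀ (T : ℕ) (ops : List Op) (X : ℕ → ℕ → ℕ → ℝ × ℝ) (ρ : ℝ),
  RegDisp T ops X → BoundB T ops X ρ → 0 ≤ ρ → C ^ regS T ops * ρ ≤ ρ0 →
    ∀ i j l, PresR T ops i j l → |(X i j l).1| ≤ C ^ (i + j) * ρ ∧ |(X i j l).2| ≤ C ^ (i + j) * ρ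

theorem reg3_qf_nonneg (x : ℝ × ℝ) : 0 ≤ qf x := by
  unfold qf
  nlinarith [sq_nonneg (x.1 - x.2), sq_nonneg x.1, sq_nonneg x.2, sq_nonneg (x.1 + x.2)]

theorem reg3_qf_le {x y : ℝ × ℝ} {R : ℝ} (h1 : |x.1| ≤ R) (h2 : |x.2| ≤ R) (h3 : |y.1| ≤ R)
    (h4 : |y.2| ≤ R) : qf (x - y) ≤ 12 * R ^ 2 := by
  rw [abs_le] at h1 h2 h3 h4
  unfold qf
  simp only [Prod.fst_sub, Prod.snd_sub]
  have a1 : -(2 * R) ≤ x.1 - y.1 := by linarith
  have a2 : x.1 - y.1 ≤ 2 * R := by linarith
  have b1 : -(2 * R) ≤ x.2 - y.2 := by linarith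
  have b2 : x.2 - y.2 ≤ 2 * R := by linarith
  have c1 : (x.1 - y.1) ^ 2 ≤ (2 * R) ^ 2 := sq_le_sq' a1 a2
  have c2 : (x.2 - y.2) ^ 2 ≤ (2 * R) ^ 2 := sq_le_sq' b1 b2
  nlinarith [sq_nonneg ((x.1 - y.1) + (x.2 - y.2))]

section link

variable {T : ℕ} {ops : List Op} {X : ℕ → ℕ → ℕ → ℝ × ℝ}

theorem reg3_true (h : RegDisp T ops X) {k i j l i' j' l' : ℕ} (hk : k < 3)
    (hp : PresR T ops i j l) (hq : PresR T ops i' j' l') (hn : nb k (i, j) (i', j') = true)
    (hr : rule k (0, l) (0, l') = true) : sk k (X i' j' l') ≤ sk k (X i j l) := by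
  have h1 := (h.dir k hk i j l i' j' l' hp hq hn).mp hr
  have h2 := reg3_qf_nonneg (X i j l - X i' j' l')
  linarith

theorem reg3_false (h : RegDisp T ops X) {k i j l i' j' l' : ℕ} (hk : k < 3)
    (hp : PresR T ops i j l) (hq : PresR T ops i' j' l') (hn : nb k (i, j) (i', j') = true)
    (hr : rule k (0, l) (0, l') = false) {R : ℝ}
    (b1 : |(X i j l).1| ≤ R ∧ |(X i j l).2| ≤ R) (b2 : |(X i' j' l').1| ≤ R ∧ |(X i' j' l').2| ≤ R) :
    sk k (X i j l) ≤ sk k (X i' j' l') + 4 * R ^ 2 := by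
  have h1 : ¬ (qf (X i j l - X i' j' l') ≤ 3 * (sk k (X i j l) - sk k (X i' j' l'))) := by
    intro hc
    have := (h.dir k hk i j l i' j' l' hp hq hn).mpr hc
    rw [hr] at this
    exact absurd this (by simp)
  have h2 := reg3_qf_le b1.1 b1.2 b2.1 b2.2
  push Not at h1
  linarith

/-- The nominal coordinate in direction `k`. -/
def reg3_fr (k l : ℕ) : ℤ := if k = 0 then frameA l else if k = 1 then frameB l
  else frameB l - frameA l

theorem reg3_rule_same : ∀ k < 3, ∀ l < 19, rule k (0, l) (0, l) = true := by decide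

theorem reg3_rule_tie' : ∀ k < 3, ∀ l < 19, ∀ l' < 19,
    (reg3_fr k l ≠ reg3_fr k l' ∨ l = l') ∨ rule k (0, l) (0, l') = false := by decide

theorem reg3_rule_tie : ∀ k < 3, ∀ l < 19, ∀ l' < 19, reg3_fr k l = reg3_fr k l' → l ≠ l' →
    rule k (0, l) (0, l') = false := by
  intro k hk l hl l' hl' hf hne
  rcases reg3_rule_tie' k hk l hl l' hl' with (h | h) | h
  · exact absurd hf h
  · exact absurd h hne
  · exact h

theorem reg3_other : ∀ k < 3, ∀ l < 19, ∃ l' < 19, l ≠ l' ∧ reg3_fr k l = reg3_fr k l' := by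
  decide

theorem reg3_pres {i j l : ℕ} (hi : i ≤ regI T ops) (hj : j ≤ regJ T) (hl : l < 19) :
    PresR T ops i j l := by
  refine ⟨hi, hj, ?_⟩
  simp only [labelsAt, List.mem_append, List.mem_range]
  exact Or.inl (Or.inl (Or.inl (Or.inl hl)))

/-- All displacements at the site `(i, j)` are bounded by `R`. -/
def Reg3Bd (T : ℕ) (ops : List Op) (X : ℕ → ℕ → ℕ → ℝ × ℝ) (i j : ℕ) (R : ℝ) : Prop :=
  ∀ l, PresR T ops i j l → |(X i j l).1| ≤ R ∧ |(X i j l).2| ≤ R

theorem reg3_tie (h : RegDisp T ops X) {k i j i' j' : ℕ} (hk : k < 3)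
    (hi : i ≤ regI T ops) (hj : j ≤ regJ T) (hi' : i' ≤ regI T ops) (hj' : j' ≤ regJ T)
    (hn : nb k (i, j) (i', j') = true) {R : ℝ} (b1 : Reg3Bd T ops X i j R)
    (b2 : Reg3Bd T ops X i' j' R) {l l' : ℕ} (hl : l < 19) (hl' : l' < 19)
    (hf : reg3_fr k l = reg3_fr k l') :
    |sk k (X i j l) - sk k (X i' j' l')| ≤ 8 * R ^ 2 ∧
      |sk k (X i j l) - sk k (X i j l')| ≤ 8 * R ^ 2 ∧
      |sk k (X i' j' l) - sk k (X i' j' l')| ≤ 8 * R ^ 2 := by
  have hR : 0 ≤ R ^ 2 := sq_nonneg R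
  have key : ∀ m m', m < 19 → m' < 19 → reg3_fr k m = reg3_fr k m' → m ≠ m' →
      sk k (X i j m) ≤ sk k (X i' j' m') + 4 * R ^ 2 := by
    intro m m' hm hm' hmm hne
    exact reg3_false h hk (reg3_pres hi hj hm) (reg3_pres hi' hj' hm') hn
      (reg3_rule_tie k hk m hm m' hm' hmm hne) (b1 m (reg3_pres hi hj hm))
      (b2 m' (reg3_pres hi' hj' hm'))
  have key2 : ∀ m, m < 19 → sk k (X i' j' m) ≤ sk k (X i j m) := by
    intro m hm
    exact reg3_true h hk (reg3_pres hi hj hm) (reg3_pres hi' hj' hm) hn (reg3_rule_same k hk m hm)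
  by_cases hll : l = l'
  · subst hll
    obtain ⟨m, hm, hne, hfm⟩ := reg3_other k hk l hl
    have e1 := key2 l hl
    have e2 := key l m hl hm hfm hne
    have e3 := key2 m hm
    have e4 := key m l hm hl hfm.symm hne.symm
    refine ⟨?_, ?_, ?_⟩
    · rw [abs_le]
      constructor <;> linarith
    · rw [sub_self, abs_zero]
      linarith
    · rw [sub_self, abs_zero]
      linarith
  · have e1 := key2 l hl
    have e2 := key l l' hl hl' hf hll
    have e3 := key2 l' hl'
    have e4 := key l' l hl' hl hf.symm (Ne.symm hll)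
    refine ⟨?_, ?_, ?_⟩ <;> rw [abs_le] <;> constructor <;> linarith

end link

/-- Additivity at a site: the frames form an affine image of the nominal ones. -/
theorem reg3_site (V : ℕ → ℝ × ℝ) {E : ℝ} (hE : 0 ≤ E)
    (h : ∀ k < 3, ∀ l < 19, ∀ l' < 19, reg3_fr k l = reg3_fr k l' →
      |sk k (V l) - sk k (V l')| ≤ E) :
    ∀ l < 19, |(V l).1 - (V 9).1 - frameA l * ((V 13).1 - (V 9).1)| ≤ 17 * E ∧
      |(V l).2 - (V 9).2 - frameB l * ((V 13).1 - (V 9).1)| ≤ 9 * E := by
  have h0 : ∀ l < 19, ∀ l' < 19, frameA l = frameA l' →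
      -E ≤ (V l).1 - (V l').1 ∧ (V l).1 - (V l').1 ≤ E := by
    intro l hl l' hl' hf
    have := h 0 (by norm_num) l hl l' hl' (by simpa [reg3_fr] using hf)
    rw [abs_le] at this
    simpa [sk] using this
  have h1 : ∀ l < 19, ∀ l' < 19, frameB l = frameB l' →
      -E ≤ (V l).2 - (V l').2 ∧ (V l).2 - (V l').2 ≤ E := by
    intro l hl l' hl' hf
    have := h 1 (by norm_num) l hl l' hl' (by simpa [reg3_fr] using hf)
    rw [abs_le] at this
    simpa [sk] using this
  have h2 : ∀ l < 19, ∀ l' < 19, frameB l - frameA l = frameB l' - frameA l' →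
      -E ≤ ((V l).2 - (V l).1) - ((V l').2 - (V l').1) ∧
        ((V l).2 - (V l).1) - ((V l').2 - (V l').1) ≤ E := by
    intro l hl l' hl' hf
    have := h 2 (by norm_num) l hl l' hl' (by simpa [reg3_fr] using hf)
    rw [abs_le] at this
    simpa [sk] using this
  set z0 := (V 9).1 with hz0
  set z1 := (V 9).2 with hz1
  set u := (V 13).1 - z0 with hu
  -- representatives in direction 1
  have s10 : -(4 * E) ≤ (V 10).2 - (z1 + u) ∧ (V 10).2 - (z1 + u) ≤ 4 * E := by
    have c1 := h2 9 (by norm_num) 14 (by norm_num) (by decide)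
    have c2 := h0 14 (by norm_num) 13 (by norm_num) (by decide)
    have c3 := h1 14 (by norm_num) 10 (by norm_num) (by decide)
    constructor <;> linarith [c1.1, c1.2, c2.1, c2.2, c3.1, c3.2]
  have s11 : -(8 * E) ≤ (V 11).2 - (z1 + 2 * u) ∧ (V 11).2 - (z1 + 2 * u) ≤ 8 * E := by
    have c1 := h2 10 (by norm_num) 15 (by norm_num) (by decide)
    have c2 := h0 15 (by norm_num) 13 (by norm_num) (by decide)
    have c3 := h1 15 (by norm_num) 11 (by norm_num) (by decide)
    have c4 := h0 10 (by norm_num) 9 (by norm_num) (by decide)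
    constructor <;> linarith [c1.1, c1.2, c2.1, c2.2, c3.1, c3.2, c4.1, c4.2, s10.1, s10.2]
  have s8 : -(4 * E) ≤ (V 8).2 - (z1 - u) ∧ (V 8).2 - (z1 - u) ≤ 4 * E := by
    have c1 := h2 8 (by norm_num) 13 (by norm_num) (by decide)
    have c3 := h1 13 (by norm_num) 9 (by norm_num) (by decide)
    have c4 := h0 8 (by norm_num) 9 (by norm_num) (by decide)
    constructor <;> linarith [c1.1, c1.2, c3.1, c3.2, c4.1, c4.2]
  have s7 : -(8 * E) ≤ (V 7).2 - (z1 - 2 * u) ∧ (V 7).2 - (z1 - 2 * u) ≤ 8 * E := by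
    have c1 := h2 7 (by norm_num) 12 (by norm_num) (by decide)
    have c2 := h0 12 (by norm_num) 13 (by norm_num) (by decide)
    have c3 := h1 12 (by norm_num) 8 (by norm_num) (by decide)
    have c4 := h0 7 (by norm_num) 9 (by norm_num) (by decide)
    constructor <;> linarith [c1.1, c1.2, c2.1, c2.2, c3.1, c3.2, c4.1, c4.2, s8.1, s8.2]
  -- representatives in direction 0
  have t16 : -(16 * E) ≤ (V 16).1 - (z0 + 2 * u) ∧ (V 16).1 - (z0 + 2 * u) ≤ 16 * E := by
    have c1 := h2 13 (by norm_num) 17 (by norm_num) (by decide)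
    have c2 := h1 13 (by norm_num) 9 (by norm_num) (by decide)
    have c3 := h1 17 (by norm_num) 10 (by norm_num) (by decide)
    have c4 := h0 17 (by norm_num) 16 (by norm_num) (by decide)
    constructor <;> linarith [c1.1, c1.2, c2.1, c2.2, c3.1, c3.2, c4.1, c4.2, s10.1, s10.2]
  have t5 : -(8 * E) ≤ (V 5).1 - (z0 - u) ∧ (V 5).1 - (z0 - u) ≤ 8 * E := by
    have c1 := h2 5 (by norm_num) 10 (by norm_num) (by decide)
    have c2 := h1 5 (by norm_num) 9 (by norm_num) (by decide)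
    have c4 := h0 10 (by norm_num) 9 (by norm_num) (by decide)
    constructor <;> linarith [c1.1, c1.2, c2.1, c2.2, c4.1, c4.2, s10.1, s10.2]
  have t2 : -(16 * E) ≤ (V 2).1 - (z0 - 2 * u) ∧ (V 2).1 - (z0 - 2 * u) ≤ 16 * E := by
    have c1 := h2 2 (by norm_num) 6 (by norm_num) (by decide)
    have c2 := h1 2 (by norm_num) 9 (by norm_num) (by decide)
    have c3 := h1 6 (by norm_num) 10 (by norm_num) (by decide)
    have c4 := h0 6 (by norm_num) 5 (by norm_num) (by decide)
    constructor <;> linarith [c1.1, c1.2, c2.1, c2.2, c3.1, c3.2, c4.1, c4.2, s10.1, s10.2,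
      t5.1, t5.2]
  have rep0 : ∀ l < 19, ∃ m < 19, frameA l = frameA m ∧
      (-(16 * E) ≤ (V m).1 - z0 - frameA m * u ∧ (V m).1 - z0 - frameA m * u ≤ 16 * E) := by
    intro l hl
    have e : frameA l = frameA 2 ∨ frameA l = frameA 5 ∨ frameA l = frameA 9 ∨
        frameA l = frameA 13 ∨ frameA l = frameA 16 := by
      revert l
      decide
    rcases e with e | e | e | e | e
    · refine ⟨2, by norm_num, e, ?_⟩
      have : ((frameA 2 : ℤ) : ℝ) = -2 := by norm_num [frameA]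
      rw [this]
      constructor <;> linarith [t2.1, t2.2]
    · refine ⟨5, by norm_num, e, ?_⟩
      have : ((frameA 5 : ℤ) : ℝ) = -1 := by norm_num [frameA]
      rw [this]
      constructor <;> linarith [t5.1, t5.2]
    · refine ⟨9, by norm_num, e, ?_⟩
      have : ((frameA 9 : ℤ) : ℝ) = 0 := by norm_num [frameA]
      rw [this]
      constructor <;> linarith
    · refine ⟨13, by norm_num, e, ?_⟩
      have : ((frameA 13 : ℤ) : ℝ) = 1 := by norm_num [frameA]
      rw [this]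
      constructor <;> linarith
    · refine ⟨16, by norm_num, e, ?_⟩
      have : ((frameA 16 : ℤ) : ℝ) = 2 := by norm_num [frameA]
      rw [this]
      constructor <;> linarith [t16.1, t16.2]
  have rep1 : ∀ l < 19, ∃ m < 19, frameB l = frameB m ∧
      (-(8 * E) ≤ (V m).2 - z1 - frameB m * u ∧ (V m).2 - z1 - frameB m * u ≤ 8 * E) := by
    intro l hl
    have e : frameB l = frameB 7 ∨ frameB l = frameB 8 ∨ frameB l = frameB 9 ∨
        frameB l = frameB 10 ∨ frameB l = frameB 11 := by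
      revert l
      decide
    rcases e with e | e | e | e | e
    · refine ⟨7, by norm_num, e, ?_⟩
      have : ((frameB 7 : ℤ) : ℝ) = -2 := by norm_num [frameB]
      rw [this]
      constructor <;> linarith [s7.1, s7.2]
    · refine ⟨8, by norm_num, e, ?_⟩
      have : ((frameB 8 : ℤ) : ℝ) = -1 := by norm_num [frameB]
      rw [this]
      constructor <;> linarith [s8.1, s8.2]
    · refine ⟨9, by norm_num, e, ?_⟩
      have : ((frameB 9 : ℤ) : ℝ) = 0 := by norm_num [frameB]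
      rw [this]
      constructor <;> linarith
    · refine ⟨10, by norm_num, e, ?_⟩
      have : ((frameB 10 : ℤ) : ℝ) = 1 := by norm_num [frameB]
      rw [this]
      constructor <;> linarith [s10.1, s10.2]
    · refine ⟨11, by norm_num, e, ?_⟩
      have : ((frameB 11 : ℤ) : ℝ) = 2 := by norm_num [frameB]
      rw [this]
      constructor <;> linarith [s11.1, s11.2]
  intro l hl
  constructor
  · obtain ⟨m, hm, hlm, hb⟩ := rep0 l hl
    have c := h0 l hl m hm hlm
    rw [hlm, abs_le]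
    constructor <;> linarith [hb.1, hb.2, c.1, c.2]
  · obtain ⟨m, hm, hlm, hb⟩ := rep1 l hl
    have c := h1 l hl m hm hlm
    rw [hlm, abs_le]
    constructor <;> linarith [hb.1, hb.2, c.1, c.2]

theorem reg3_label_lt (T : ℕ) (ops : List Op) (i j : ℕ) : ∀ l ∈ labelsAt T ops i j, l < 44 := by
  intro l hl
  have h : ∀ l ∈ extrasAt T ops i j, l < 44 := by
    unfold extrasAt
    split_ifs
    · unfold opExtras
      split_ifs <;> simp
    · simp
  unfold labelsAt at hl
  rw [List.mem_append] at hl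
  rcases hl with hl | hl
  · revert hl
    split_ifs <;> simp only [List.mem_append, List.mem_range, List.mem_cons, List.not_mem_nil,
        or_false] <;> omega
  · exact h l hl

theorem reg3_rules : ∀ k < 2, ∀ l < 44, 19 ≤ l →
    rule k (0, l) (0, 0) = true ∧ rule k (0, l) (0, 18) = false ∧
      rule k (0, 18) (0, l) = true ∧ rule k (0, 0) (0, l) = false := by
  decide

theorem reg3_frame_abs : ∀ l < 19, |frameA l| ≤ 2 ∧ |frameB l| ≤ 2 := by decide

theorem reg3_mul_le {z : ℤ} (hz : |z| ≤ 2) (a : ℝ) : |(z : ℝ) * a| ≤ 2 * |a| := by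
  rw [abs_mul]
  have : |(z : ℝ)| ≤ 2 := by exact_mod_cast hz
  exact mul_le_mul_of_nonneg_right this (abs_nonneg a)

section base

variable {T : ℕ} {ops : List Op} {X : ℕ → ℕ → ℕ → ℝ × ℝ}

theorem reg3_regI (T : ℕ) (ops : List Op) : 2 ≤ regI T ops := by unfold regI; omega

theorem reg3_regJ (T : ℕ) : 6 ≤ regJ T := by unfold regJ; omega

theorem reg3_src (h : RegDisp T ops X) {k i j i' j' : ℕ} (hk : k < 2)
    (hi' : i' ≤ regI T ops) (hj' : j' ≤ regJ T)
    (hn : nb k (i, j) (i', j') = true) {R : ℝ} (b1 : Reg3Bd T ops X i j R)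
    (b2 : Reg3Bd T ops X i' j' R) {l : ℕ} (hl : PresR T ops i j l) (h19 : 19 ≤ l) :
    sk k (X i' j' 0) ≤ sk k (X i j l) ∧ sk k (X i j l) ≤ sk k (X i' j' 18) + 4 * R ^ 2 := by
  obtain ⟨r1, r2, -, -⟩ := reg3_rules k hk l (reg3_label_lt _ _ _ _ l hl.2.2) h19
  have p0 : PresR T ops i' j' 0 := reg3_pres hi' hj' (by norm_num)
  have p18 : PresR T ops i' j' 18 := reg3_pres hi' hj' (by norm_num)
  exact ⟨reg3_true h (by omega) hl p0 hn r1,
    reg3_false h (by omega) hl p18 hn r2 (b1 l hl) (b2 18 p18)⟩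

theorem reg3_tgt (h : RegDisp T ops X) {k i j i' j' : ℕ} (hk : k < 2)
    (hi : i ≤ regI T ops) (hj : j ≤ regJ T)
    (hn : nb k (i, j) (i', j') = true) {R : ℝ} (b1 : Reg3Bd T ops X i j R)
    (b2 : Reg3Bd T ops X i' j' R) {l : ℕ} (hl : PresR T ops i' j' l) (h19 : 19 ≤ l) :
    sk k (X i j 0) ≤ sk k (X i' j' l) + 4 * R ^ 2 ∧ sk k (X i' j' l) ≤ sk k (X i j 18) := by
  obtain ⟨-, -, r3, r4⟩ := reg3_rules k hk l (reg3_label_lt _ _ _ _ l hl.2.2) h19
  have p0 : PresR T ops i j 0 := reg3_pres hi hj (by norm_num)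
  have p18 : PresR T ops i j 18 := reg3_pres hi hj (by norm_num)
  exact ⟨reg3_false h (by omega) p0 hl hn r4 (b1 0 p0) (b2 l hl),
    reg3_true h (by omega) p18 hl hn r3⟩

theorem reg3_base (h : RegDisp T ops X) {R a E : ℝ} (b00 : Reg3Bd T ops X 0 0 R)
    (b10 : Reg3Bd T ops X 1 0 R) (b01 : Reg3Bd T ops X 0 1 R) (b11 : Reg3Bd T ops X 1 1 R)
    (hE : E = 8 * R ^ 2) (ha : a = (X 1 0 13).1 - (X 1 0 9).1) :
    (∀ i j, i + j ≤ 1 → ∀ l < 19, |(X i j l).1 - frameA l * a| ≤ 128 * E ∧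
      |(X i j l).2 - frameB l * a| ≤ 128 * E) ∧
    (∀ i j l, i + j ≤ 1 → PresR T ops i j l → |(X i j l).1| ≤ 2 * |a| + 130 * E ∧
      |(X i j l).2| ≤ 2 * |a| + 130 * E) ∧ -E ≤ a := by
  have hI := reg3_regI T ops
  have hJ := reg3_regJ T
  have hE0 : 0 ≤ E := by rw [hE]; positivity
  have hR4 : 4 * R ^ 2 ≤ E := by rw [hE]; nlinarith [sq_nonneg R]
  -- the links
  have t0 := fun l (hl : l < 19) l' (hl' : l' < 19) (hf : reg3_fr 0 l = reg3_fr 0 l') =>
    reg3_tie (i := 0) (j := 0) (i' := 1) (j' := 0) h (by norm_num) (by omega) (by omega) (by omega)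
      (by omega) (by decide) b00 b10 hl hl' hf
  have t1 := fun l (hl : l < 19) l' (hl' : l' < 19) (hf : reg3_fr 1 l = reg3_fr 1 l') =>
    reg3_tie (i := 1) (j := 0) (i' := 1) (j' := 1) h (by norm_num) (by omega) (by omega) (by omega)
      (by omega) (by decide) b10 b11 hl hl' hf
  have t2 := fun l (hl : l < 19) l' (hl' : l' < 19) (hf : reg3_fr 2 l = reg3_fr 2 l') =>
    reg3_tie (i := 1) (j := 0) (i' := 0) (j' := 1) h (by norm_num) (by omega) (by omega) (by omega)
      (by omega) (by decide) b10 b01 hl hl' hf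
  have t3 := fun l (hl : l < 19) l' (hl' : l' < 19) (hf : reg3_fr 0 l = reg3_fr 0 l') =>
    reg3_tie (i := 0) (j := 1) (i' := 1) (j' := 1) h (by norm_num) (by omega) (by omega) (by omega)
      (by omega) (by decide) b01 b11 hl hl' hf
  have t4 := fun l (hl : l < 19) l' (hl' : l' < 19) (hf : reg3_fr 1 l = reg3_fr 1 l') =>
    reg3_tie (i := 0) (j := 0) (i' := 0) (j' := 1) h (by norm_num) (by omega) (by omega) (by omega)
      (by omega) (by decide) b00 b01 hl hl' hf
  rw [← hE] at t0 t1 t2 t3 t4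
  have S10 := reg3_site (X 1 0) hE0 (by
    intro k hk l hl l' hl' hf
    have hk' : k = 0 ∨ k = 1 ∨ k = 2 := by omega
    rcases hk' with rfl | rfl | rfl
    · exact (t0 l hl l' hl' hf).2.2
    · exact (t1 l hl l' hl' hf).2.1
    · exact (t2 l hl l' hl' hf).2.1)
  have S01 := reg3_site (X 0 1) hE0 (by
    intro k hk l hl l' hl' hf
    have hk' : k = 0 ∨ k = 1 ∨ k = 2 := by omega
    rcases hk' with rfl | rfl | rfl
    · exact (t3 l hl l' hl' hf).2.1
    · exact (t4 l hl l' hl' hf).2.2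
    · exact (t2 l hl l' hl' hf).2.2)
  rw [← ha] at S10
  set a' := (X 0 1 13).1 - (X 0 1 9).1 with ha'
  have g0 := h.gauge0
  have g1 := h.gauge1
  have g00 : (X 0 0 9).1 = 0 := by rw [g0]
  have g01 : (X 0 0 9).2 = 0 := by rw [g0]
  have x1 := abs_le.mp (t0 9 (by norm_num) 9 (by norm_num) rfl).1
  have x2 := abs_le.mp (t4 9 (by norm_num) 9 (by norm_num) rfl).1
  have x3 := abs_le.mp (t2 9 (by norm_num) 9 (by norm_num) rfl).1
  have x4 := abs_le.mp (t2 10 (by norm_num) 10 (by norm_num) rfl).1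
  simp only [sk, if_true, if_false, OfNat.ofNat_ne_zero, OfNat.ofNat_ne_one, one_ne_zero]
    at x1 x2 x3 x4
  have y1 := abs_le.mp (S10 10 (by norm_num)).1
  have y2 := abs_le.mp (S10 10 (by norm_num)).2
  have y3 := abs_le.mp (S01 10 (by norm_num)).1
  have y4 := abs_le.mp (S01 10 (by norm_num)).2
  have f1 : ((frameA 10 : ℤ) : ℝ) = 0 := by norm_num [frameA]
  have f2 : ((frameB 10 : ℤ) : ℝ) = 1 := by norm_num [frameB]
  rw [f1] at y1 y3
  rw [f2] at y2 y4
  have haa : |a - a'| ≤ 54 * E := by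
    rw [abs_le]
    constructor <;> linarith [x3.1, x3.2, x4.1, x4.2, y1.1, y1.2, y2.1, y2.2, y3.1, y3.2, y4.1,
      y4.2]
  have w10 : ∀ l < 19, |(X 1 0 l).1 - frameA l * a| ≤ 18 * E ∧
      |(X 1 0 l).2 - frameB l * a| ≤ 10 * E := by
    intro l hl
    have z1 := abs_le.mp (S10 l hl).1
    have z2 := abs_le.mp (S10 l hl).2
    constructor <;> rw [abs_le] <;> constructor <;> linarith [z1.1, z1.2, z2.1, z2.2, x1.1, x1.2]
  have w01 : ∀ l < 19, |(X 0 1 l).1 - frameA l * a| ≤ 128 * E ∧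
      |(X 0 1 l).2 - frameB l * a| ≤ 118 * E := by
    intro l hl
    have z1 := abs_le.mp (S01 l hl).1
    have z2 := abs_le.mp (S01 l hl).2
    have f3 := reg3_mul_le (reg3_frame_abs l hl).1 (a - a')
    have f4 := reg3_mul_le (reg3_frame_abs l hl).2 (a - a')
    have f5 := abs_le.mp (f3.trans (mul_le_mul_of_nonneg_left haa (by norm_num)))
    have f6 := abs_le.mp (f4.trans (mul_le_mul_of_nonneg_left haa (by norm_num)))
    rw [mul_sub] at f5 f6
    constructor <;> rw [abs_le] <;> constructor <;> linarith [z1.1, z1.2, z2.1, z2.2, x1.1, x1.2,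
      x2.1, x2.2, x3.1, x3.2, f5.1, f5.2, f6.1, f6.2]
  have w00 : ∀ l < 19, |(X 0 0 l).1 - frameA l * a| ≤ 19 * E ∧
      |(X 0 0 l).2 - frameB l * a| ≤ 119 * E := by
    intro l hl
    have z1 := abs_le.mp (w10 l hl).1
    have z2 := abs_le.mp (w01 l hl).2
    have z3 := abs_le.mp (t0 l hl l hl rfl).1
    have z4 := abs_le.mp (t4 l hl l hl rfl).1
    simp only [sk, if_true, if_false, one_ne_zero] at z3 z4
    constructor <;> rw [abs_le] <;> constructor <;> linarith [z1.1, z1.2, z2.1, z2.2, z3.1, z3.2,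
      z4.1, z4.2]
  have w11 : ∀ l < 19, |(X 1 1 l).1 - frameA l * a| ≤ 129 * E ∧
      |(X 1 1 l).2 - frameB l * a| ≤ 11 * E := by
    intro l hl
    have z1 := abs_le.mp (w01 l hl).1
    have z2 := abs_le.mp (w10 l hl).2
    have z3 := abs_le.mp (t3 l hl l hl rfl).1
    have z4 := abs_le.mp (t1 l hl l hl rfl).1
    simp only [sk, if_true, if_false, one_ne_zero] at z3 z4
    constructor <;> rw [abs_le] <;> constructor <;> linarith [z1.1, z1.2, z2.1, z2.2, z3.1, z3.2,
      z4.1, z4.2]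
  have big : ∀ i j, i + j ≤ 1 → ∀ l < 19, |(X i j l).1 - frameA l * a| ≤ 128 * E ∧
      |(X i j l).2 - frameB l * a| ≤ 128 * E := by
    intro i j hij l hl
    have hc : (i = 0 ∧ j = 0) ∨ (i = 1 ∧ j = 0) ∨ (i = 0 ∧ j = 1) := by omega
    rcases hc with ⟨rfl, rfl⟩ | ⟨rfl, rfl⟩ | ⟨rfl, rfl⟩
    · exact ⟨(w00 l hl).1.trans (by linarith), (w00 l hl).2.trans (by linarith)⟩
    · exact ⟨(w10 l hl).1.trans (by linarith), (w10 l hl).2.trans (by linarith)⟩
    · exact ⟨(w01 l hl).1.trans (by linarith), (w01 l hl).2.trans (by linarith)⟩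
  refine ⟨big, ?_, ?_⟩
  · intro i j l hij hp
    rcases Nat.lt_or_ge l 19 with h19 | h19
    · obtain ⟨z1, z2⟩ := big i j hij l h19
      have f3 := reg3_mul_le (reg3_frame_abs l h19).1 a
      have f4 := reg3_mul_le (reg3_frame_abs l h19).2 a
      rw [abs_le] at z1 z2 f3 f4
      constructor <;> rw [abs_le] <;> constructor <;> linarith [z1.1, z1.2, z2.1, z2.2, f3.1,
        f3.2, f4.1, f4.2]
    · have A0 : ((frameA 0 : ℤ) : ℝ) = -2 := by norm_num [frameA]
      have B0 : ((frameB 0 : ℤ) : ℝ) = -2 := by norm_num [frameB]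
      have A18 : ((frameA 18 : ℤ) : ℝ) = 2 := by norm_num [frameA]
      have B18 : ((frameB 18 : ℤ) : ℝ) = 2 := by norm_num [frameB]
      have c1 := le_abs_self a
      have c2 := neg_abs_le a
      have u00 := w00 0 (by norm_num)
      have u10 := w10 0 (by norm_num)
      have u01 := w01 0 (by norm_num)
      have u11 := w11 0 (by norm_num)
      have v00 := w00 18 (by norm_num)
      have v10 := w10 18 (by norm_num)
      have v01 := w01 18 (by norm_num)
      have v11 := w11 18 (by norm_num)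
      rw [A0, B0, abs_le, abs_le] at u00 u10 u01 u11
      rw [A18, B18, abs_le, abs_le] at v00 v10 v01 v11
      have hc : (i = 0 ∧ j = 0) ∨ (i = 1 ∧ j = 0) ∨ (i = 0 ∧ j = 1) := by omega
      rcases hc with ⟨rfl, rfl⟩ | ⟨rfl, rfl⟩ | ⟨rfl, rfl⟩
      · have r1 := reg3_src (k := 0) (i' := 1) (j' := 0) h (by norm_num) (by omega) (by omega)
          (by decide) b00 b10 hp h19
        have r2 := reg3_src (k := 1) (i' := 0) (j' := 1) h (by norm_num) (by omega) (by omega)
          (by decide) b00 b01 hp h19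
        simp only [sk, if_true, if_false, one_ne_zero] at r1 r2
        constructor <;> rw [abs_le] <;> constructor <;> linarith [r1.1, r1.2, r2.1, r2.2,
          u10.1.1, u10.1.2, v10.1.1, v10.1.2, u01.2.1, u01.2.2, v01.2.1, v01.2.2]
      · have r1 := reg3_tgt (k := 0) (i := 0) (j := 0) h (by norm_num) (by omega) (by omega)
          (by decide) b00 b10 hp h19
        have r2 := reg3_src (k := 1) (i' := 1) (j' := 1) h (by norm_num) (by omega) (by omega)
          (by decide) b10 b11 hp h19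
        simp only [sk, if_true, if_false, one_ne_zero] at r1 r2
        constructor <;> rw [abs_le] <;> constructor <;> linarith [r1.1, r1.2, r2.1, r2.2,
          u00.1.1, u00.1.2, v00.1.1, v00.1.2, u11.2.1, u11.2.2, v11.2.1, v11.2.2]
      · have r1 := reg3_src (k := 0) (i' := 1) (j' := 1) h (by norm_num) (by omega) (by omega)
          (by decide) b01 b11 hp h19
        have r2 := reg3_tgt (k := 1) (i := 0) (j := 0) h (by norm_num) (by omega) (by omega)
          (by decide) b00 b01 hp h19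
        simp only [sk, if_true, if_false, one_ne_zero] at r1 r2
        constructor <;> rw [abs_le] <;> constructor <;> linarith [r1.1, r1.2, r2.1, r2.2,
          u11.1.1, u11.1.2, v11.1.1, v11.1.2, u00.2.1, u00.2.2, v00.2.1, v00.2.2]
  · have p13 : PresR T ops 0 0 13 := reg3_pres (by omega) (by omega) (by norm_num)
    have p9 : PresR T ops 1 0 9 := reg3_pres (by omega) (by omega) (by norm_num)
    have r := reg3_true (k := 0) h (by norm_num) p13 p9 (by decide) (by decide)
    have z := abs_le.mp (t0 13 (by norm_num) 13 (by norm_num) rfl).1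
    simp only [sk, if_true] at r z
    linarith [z.1, z.2]

theorem reg3_prop (h : RegDisp T ops X) {R a e : ℝ} (hb : BoundR T ops X R)
    (he : 8 * R ^ 2 ≤ e)
    (base : ∀ i j, i + j ≤ 1 → ∀ l < 19, |(X i j l).1 - frameA l * a| ≤ e ∧
      |(X i j l).2 - frameB l * a| ≤ e) :
    ∀ n, ∀ i j, i + j = n → i ≤ regI T ops → j ≤ regJ T → ∀ l < 19,
      |(X i j l).1 - frameA l * a| ≤ 7 ^ n * e ∧ |(X i j l).2 - frameB l * a| ≤ 7 ^ n * e := by
  have hI := reg3_regI T ops
  have hJ := reg3_regJ T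
  have he0 : 0 ≤ e := le_trans (by positivity) he
  have hbd : ∀ i j, Reg3Bd T ops X i j R := fun i j l hl => hb i j l hl
  have lk : ∀ k < 3, ∀ i j i' j', i ≤ regI T ops → j ≤ regJ T → i' ≤ regI T ops → j' ≤ regJ T →
      nb k (i, j) (i', j') = true → ∀ l < 19, |sk k (X i j l) - sk k (X i' j' l)| ≤ e := by
    intro k hk i j i' j' hi hj hi' hj' hn l hl
    exact (reg3_tie h hk hi hj hi' hj' hn (hbd i j) (hbd i' j') hl hl rfl).1.trans he
  intro n
  induction n with
  | zero =>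
    intro i j hij _ _ l hl
    rw [pow_zero, one_mul]
    exact base i j (by omega) l hl
  | succ n ih =>
    intro i j hij hi hj l hl
    rcases Nat.eq_zero_or_pos n with hn0 | hn0
    · subst hn0
      have := base i j (by omega) l hl
      rw [zero_add, pow_one]
      constructor
      · exact this.1.trans (by linarith)
      · exact this.2.trans (by linarith)
    set q := 7 ^ n * e with hq
    have hqe : e ≤ q := by
      have : (1 : ℝ) ≤ 7 ^ n := one_le_pow₀ (by norm_num)
      nlinarith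
    have hq7 : (7 : ℝ) ^ (n + 1) * e = 7 * q := by rw [hq]; ring
    rw [hq7]
    -- interior sites
    have inter : ∀ i j, i + 1 + (j + 1) = n + 1 → i + 1 ≤ regI T ops → j + 1 ≤ regJ T →
        ∀ l < 19, |(X (i + 1) (j + 1) l).1 - frameA l * a| ≤ 2 * q ∧
          |(X (i + 1) (j + 1) l).2 - frameB l * a| ≤ 2 * q := by
      intro i j hij hi hj l hl
      have a1 := abs_le.mp (ih i (j + 1) (by omega) (by omega) hj l hl).1
      have a2 := abs_le.mp (ih (i + 1) j (by omega) hi (by omega) l hl).2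
      have a3 := abs_le.mp (lk 0 (by norm_num) i (j + 1) (i + 1) (j + 1) (by omega) hj hi hj
        (by simp [nb]) l hl)
      have a4 := abs_le.mp (lk 1 (by norm_num) (i + 1) j (i + 1) (j + 1) hi (by omega) hi hj
        (by simp [nb]) l hl)
      simp only [sk, if_true, if_false, one_ne_zero] at a3 a4
      constructor <;> rw [abs_le] <;> constructor <;> linarith [a1.1, a1.2, a2.1, a2.2, a3.1,
        a3.2, a4.1, a4.2]
    rcases Nat.eq_zero_or_pos j with hj0 | hj0
    · subst hj0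
      have hin : i = n + 1 := by omega
      subst hin
      obtain ⟨m, rfl⟩ : ∃ m, n = m + 1 := ⟨n - 1, by omega⟩
      have a1 := abs_le.mp (ih (m + 1) 0 (by omega) (by omega) (by omega) l hl).1
      have a2 := abs_le.mp (lk 0 (by norm_num) (m + 1) 0 (m + 1 + 1) 0 (by omega) (by omega)
        (by omega) (by omega) (by simp [nb]) l hl)
      have a3 := inter m 0 (by omega) (by omega) (by omega) l hl
      have a4 := abs_le.mp a3.1
      have a5 := abs_le.mp a3.2
      have a6 := abs_le.mp (lk 2 (by norm_num) (m + 1 + 1) 0 (m + 1) (0 + 1) (by omega) (by omega)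
        (by omega) (by omega) (by simp [nb]) l hl)
      simp only [sk, if_true, if_false, OfNat.ofNat_ne_zero, OfNat.ofNat_ne_one]
        at a2 a6
      constructor <;> rw [abs_le] <;> constructor <;> linarith [a1.1, a1.2, a2.1, a2.2, a4.1,
        a4.2, a5.1, a5.2, a6.1, a6.2]
    rcases Nat.eq_zero_or_pos i with hi0 | hi0
    · subst hi0
      have hjn : j = n + 1 := by omega
      subst hjn
      obtain ⟨m, rfl⟩ : ∃ m, n = m + 1 := ⟨n - 1, by omega⟩
      have a1 := abs_le.mp (ih 0 (m + 1) (by omega) (by omega) (by omega) l hl).2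
      have a2 := abs_le.mp (lk 1 (by norm_num) 0 (m + 1) 0 (m + 1 + 1) (by omega) (by omega)
        (by omega) (by omega) (by simp [nb]) l hl)
      have a3 := inter 0 m (by omega) (by omega) (by omega) l hl
      have a4 := abs_le.mp a3.1
      have a5 := abs_le.mp a3.2
      have a6 := abs_le.mp (lk 2 (by norm_num) (0 + 1) (m + 1) 0 (m + 1 + 1) (by omega) (by omega)
        (by omega) (by omega) (by simp [nb]) l hl)
      simp only [sk, if_true, if_false, OfNat.ofNat_ne_zero, OfNat.ofNat_ne_one, one_ne_zero]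
        at a2 a6
      constructor <;> rw [abs_le] <;> constructor <;> linarith [a1.1, a1.2, a2.1, a2.2, a4.1,
        a4.2, a5.1, a5.2, a6.1, a6.2]
    · obtain ⟨i', rfl⟩ : ∃ i', i = i' + 1 := ⟨i - 1, by omega⟩
      obtain ⟨j', rfl⟩ : ∃ j', j = j' + 1 := ⟨j - 1, by omega⟩
      have := inter i' j' hij hi hj l hl
      constructor
      · exact this.1.trans (by linarith)
      · exact this.2.trans (by linarith)

end base

/-- The actual maximum of the displacements over the three base sites. -/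
theorem reg3_max {T : ℕ} {ops : List Op} {X : ℕ → ℕ → ℕ → ℝ × ℝ} :
    ∃ r : ℝ, BoundB T ops X r ∧ (∃ i j l, i + j ≤ 1 ∧ PresR T ops i j l ∧
      (r = |(X i j l).1| ∨ r = |(X i j l).2|)) := by
  classical
  have hI := reg3_regI T ops
  have hJ := reg3_regJ T
  let S : Finset (ℕ × ℕ × ℕ) := (Finset.range 2 ×ˢ (Finset.range 2 ×ˢ Finset.range 44)).filter
    (fun x => x.1 + x.2.1 ≤ 1 ∧ PresR T ops x.1 x.2.1 x.2.2)
  have hS : S.Nonempty := by
    refine ⟨(0, 0, 9), ?_⟩
    simp only [S, Finset.mem_filter, Finset.mem_product, Finset.mem_range]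
    exact ⟨⟨by norm_num, by norm_num, by norm_num⟩, by norm_num,
      reg3_pres (by omega) (by omega) (by norm_num)⟩
  obtain ⟨x, hx, hmax⟩ := Finset.exists_max_image S
    (fun x => max |(X x.1 x.2.1 x.2.2).1| |(X x.1 x.2.1 x.2.2).2|) hS
  have hx' := (Finset.mem_filter.mp hx).2
  refine ⟨max |(X x.1 x.2.1 x.2.2).1| |(X x.1 x.2.1 x.2.2).2|, ?_, x.1, x.2.1, x.2.2, hx'.1,
    hx'.2, max_choice _ _⟩
  intro i j l hij hp
  have hm : (i, j, l) ∈ S := by
    simp only [S, Finset.mem_filter, Finset.mem_product, Finset.mem_range]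
    exact ⟨⟨by omega, by omega, reg3_label_lt _ _ _ _ l hp.2.2⟩, hij, hp⟩
  have := hmax _ hm
  exact ⟨(le_max_left _ _).trans this, (le_max_right _ _).trans this⟩

theorem reg_unit (hg : ∃ C ρ0 : ℝ, 1 ≤ C ∧ 0 < ρ0 ∧ RegGrowth C ρ0) :
    ∃ C ρ0 : ℝ, 1 ≤ C ∧ 0 < ρ0 ∧ ∀ (T : ℕ) (ops : List Op) (X : ℕ → ℕ → ℕ → ℝ × ℝ) (ρ : ℝ),
      RegDisp T ops X → BoundB T ops X ρ → 0 ≤ ρ → C ^ regS T ops * ρ ≤ ρ0 →
        ∃ a, 0 < a ∧ a ≤ C * ρ ∧ BoundR T ops X (C ^ regS T ops * a) ∧
          FramesOK T ops X a (C ^ regS T ops * a ^ 2) := by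
  obtain ⟨C, ρ0, hC, hρ0, hG⟩ := hg
  have hC2 : 1 ≤ C ^ 2 := one_le_pow₀ hC
  set K := 114688 * C ^ 2 with hK
  have hK1 : 1 ≤ K := by rw [hK]; nlinarith
  have hCK : C ≤ K := by rw [hK]; nlinarith
  refine ⟨K, min ρ0 (1 / 8320), hK1, lt_min hρ0 (by norm_num), ?_⟩
  intro T ops X ρ h hB hρ hsmall
  have hI := reg3_regI T ops
  have hJ := reg3_regJ T
  set s := regS T ops with hs
  have hs2 : 2 ≤ s := by rw [hs]; unfold regS; omega
  obtain ⟨r, hr, i0, j0, l0, hij0, hp0, hr0⟩ := reg3_max (T := T) (ops := ops) (X := X)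
  have hrρ : r ≤ ρ := by
    rcases hr0 with e | e
    · rw [e]; exact (hB i0 j0 l0 hij0 hp0).1
    · rw [e]; exact (hB i0 j0 l0 hij0 hp0).2
  have hr1 : 0 ≤ r := by
    rcases hr0 with e | e
    · rw [e]; exact abs_nonneg _
    · rw [e]; exact abs_nonneg _
  have hCs : C ^ s ≤ K ^ s := pow_le_pow_left₀ (by linarith) hCK s
  have hgr : ∀ i j l, PresR T ops i j l →
      |(X i j l).1| ≤ C ^ (i + j) * r ∧ |(X i j l).2| ≤ C ^ (i + j) * r := by
    apply hG T ops X r h hr hr1
    calc C ^ s * r ≤ K ^ s * ρ := mul_le_mul hCs hrρ hr1 (by positivity)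
      _ ≤ min ρ0 (1 / 8320) := hsmall
      _ ≤ ρ0 := min_le_left _ _
  -- positivity of r
  have hrpos : 0 < r := by
    rcases hr1.lt_or_eq with hlt | heq
    · exact hlt
    exfalso
    have p9 : PresR T ops 0 0 9 := reg3_pres (by omega) (by omega) (by norm_num)
    have p13 : PresR T ops 1 0 13 := reg3_pres (by omega) (by omega) (by norm_num)
    have z1 := hr 0 0 9 (by norm_num) p9
    have z2 := hr 1 0 13 (by norm_num) p13
    rw [← heq] at z1 z2
    have y1 : (X 0 0 9).1 = 0 := abs_eq_zero.mp (le_antisymm z1.1 (abs_nonneg _))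
    have y2 : (X 0 0 9).2 = 0 := abs_eq_zero.mp (le_antisymm z1.2 (abs_nonneg _))
    have y3 : (X 1 0 13).1 = 0 := abs_eq_zero.mp (le_antisymm z2.1 (abs_nonneg _))
    have y4 : (X 1 0 13).2 = 0 := abs_eq_zero.mp (le_antisymm z2.2 (abs_nonneg _))
    have hd := (h.dir 0 (by norm_num) 0 0 9 1 0 13 p9 p13 (by decide)).mpr (by
      simp only [qf, sk, if_true, Prod.fst_sub, Prod.snd_sub, y1, y2, y3, y4]
      norm_num)
    exact absurd hd (by decide)
  -- the rhombus
  set R2 := C ^ 2 * r with hR2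
  have hbd : ∀ i j, i + j ≤ 2 → Reg3Bd T ops X i j R2 := by
    intro i j hij l hl
    have := hgr i j l hl
    have hle : C ^ (i + j) * r ≤ R2 := by
      rw [hR2]
      exact mul_le_mul_of_nonneg_right (pow_le_pow_right₀ hC hij) hr1
    exact ⟨this.1.trans hle, this.2.trans hle⟩
  set a := (X 1 0 13).1 - (X 1 0 9).1 with ha
  set E := 8 * R2 ^ 2 with hE
  obtain ⟨base, sq, hEa⟩ := reg3_base h (hbd 0 0 (by norm_num)) (hbd 1 0 (by norm_num))
    (hbd 0 1 (by norm_num)) (hbd 1 1 (by norm_num)) hE ha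
  have hr130 : r ≤ 2 * |a| + 130 * E := by
    have := sq i0 j0 l0 hij0 hp0
    rcases hr0 with e | e
    · calc r = _ := e
        _ ≤ _ := this.1
    · calc r = _ := e
        _ ≤ _ := this.2
  have hsm : 8320 * (C ^ 4 * r) ≤ 1 := by
    have h1 : C ^ 4 * r ≤ 1 / 8320 := by
      have e1 : C ^ 4 ≤ K ^ 2 := by
        have e2 : C ^ 4 = (C ^ 2) ^ 2 := by ring
        rw [e2]
        apply pow_le_pow_left₀ (by positivity)
        rw [hK]; nlinarith
      have e3 : K ^ 2 ≤ K ^ s := pow_le_pow_right₀ hK1 hs2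
      calc C ^ 4 * r ≤ K ^ s * ρ := mul_le_mul (e1.trans e3) hrρ hr1 (by positivity)
        _ ≤ min ρ0 (1 / 8320) := hsmall
        _ ≤ 1 / 8320 := min_le_right _ _
    linarith
  have hEr : 130 * E ≤ r / 8 := by
    have e1 : 130 * E = (8320 * (C ^ 4 * r)) * (r / 8) := by
      rw [hE, hR2]; ring
    rw [e1]
    calc (8320 * (C ^ 4 * r)) * (r / 8) ≤ 1 * (r / 8) :=
          mul_le_mul_of_nonneg_right hsm (by positivity)
      _ = r / 8 := one_mul _
  have hE0 : 0 ≤ E := by rw [hE]; positivity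
  have hapos : 0 < a := by
    by_contra hneg
    push Not at hneg
    have e1 : |a| = -a := abs_of_nonpos hneg
    rw [e1] at hr130
    linarith
  have hra : r ≤ 4 * a := by
    rw [abs_of_pos hapos] at hr130
    linarith
  have hRR : ∀ i j l, PresR T ops i j l → |(X i j l).1| ≤ C ^ s * r ∧ |(X i j l).2| ≤ C ^ s * r := by
    intro i j l hp
    have := hgr i j l hp
    have hle : C ^ (i + j) * r ≤ C ^ s * r := by
      apply mul_le_mul_of_nonneg_right (pow_le_pow_right₀ hC ?_) hr1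
      have h1 := hp.1
      have h2 := hp.2.1
      rw [hs]; unfold regS; omega
    exact ⟨this.1.trans hle, this.2.trans hle⟩
  have hs0 : s ≠ 0 := by omega
  refine ⟨a, hapos, ?_, ?_, ?_⟩
  · -- a ≤ K ρ
    have z1 := (hr 1 0 13 (by norm_num) (reg3_pres (by omega) (by omega) (by norm_num))).1
    have z2 := (hr 1 0 9 (by norm_num) (reg3_pres (by omega) (by omega) (by norm_num))).1
    rw [abs_le] at z1 z2
    have z3 : a ≤ 2 * r := by rw [ha]; linarith [z1.2, z2.1]
    have z4 : 2 * ρ ≤ K * ρ := by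
      apply mul_le_mul_of_nonneg_right _ hρ
      rw [hK]; nlinarith
    linarith
  · intro i j l hp
    have hle : C ^ s * r ≤ K ^ s * a := by
      calc C ^ s * r ≤ C ^ s * (4 * a) := mul_le_mul_of_nonneg_left hra (by positivity)
        _ = (4 * C ^ s) * a := by ring
        _ ≤ K ^ s * a := by
          apply mul_le_mul_of_nonneg_right _ hapos.le
          have e1 : (4 : ℝ) ≤ 4 ^ s := le_self_pow₀ (by norm_num) hs0
          calc 4 * C ^ s ≤ 4 ^ s * C ^ s := mul_le_mul_of_nonneg_right e1 (by positivity)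
            _ = (4 * C) ^ s := by rw [mul_pow]
            _ ≤ K ^ s := by
              apply pow_le_pow_left₀ (by positivity)
              rw [hK]; nlinarith
    exact ⟨(hRR i j l hp).1.trans hle, (hRR i j l hp).2.trans hle⟩
  · intro i j l hi hj hl
    set R := C ^ s * r with hRdef
    set e := 128 * (8 * R ^ 2) with he
    have hR2R : R2 ≤ R := by
      rw [hR2, hRdef]
      exact mul_le_mul_of_nonneg_right (pow_le_pow_right₀ hC hs2) hr1
    have hR2nn : 0 ≤ R2 := by rw [hR2]; positivity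
    have hR2sq : R2 ^ 2 ≤ R ^ 2 := pow_le_pow_left₀ hR2nn hR2R 2
    have hbase' : ∀ i j, i + j ≤ 1 → ∀ l < 19, |(X i j l).1 - frameA l * a| ≤ e ∧
        |(X i j l).2 - frameB l * a| ≤ e := by
      intro i j hij l hl
      have := base i j hij l hl
      have hle : 128 * E ≤ e := by rw [hE, he]; linarith
      exact ⟨this.1.trans hle, this.2.trans hle⟩
    have he8 : 8 * R ^ 2 ≤ e := by rw [he]; nlinarith [sq_nonneg R]
    have hfin := reg3_prop h (fun i j l hp => hRR i j l hp) he8 hbase' (i + j) i j rfl hi hj l hl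
    have hij : i + j ≤ s := by rw [hs]; unfold regS; omega
    have he0 : 0 ≤ e := le_trans (by positivity) he8
    have hle : (7 : ℝ) ^ (i + j) * e ≤ K ^ s * a ^ 2 := by
      have e1 : (7 : ℝ) ^ (i + j) ≤ 7 ^ s := pow_le_pow_right₀ (by norm_num) hij
      have e2 : e ≤ 16384 * (C ^ 2) ^ s * a ^ 2 := by
        have e3 : R ≤ C ^ s * (4 * a) := by
          rw [hRdef]
          exact mul_le_mul_of_nonneg_left hra (by positivity)
        have e4 : R ^ 2 ≤ (C ^ s * (4 * a)) ^ 2 :=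
          pow_le_pow_left₀ (by rw [hRdef]; positivity) e3 2
        have e5 : (C ^ s * (4 * a)) ^ 2 = 16 * (C ^ 2) ^ s * a ^ 2 := by
          rw [mul_pow, mul_pow, ← pow_mul, ← pow_mul, mul_comm s 2]; ring
        rw [he]
        rw [e5] at e4
        linarith
      have e6 : (16384 : ℝ) ≤ 16384 ^ s := le_self_pow₀ (by norm_num) hs0
      calc (7 : ℝ) ^ (i + j) * e ≤ 7 ^ s * (16384 * (C ^ 2) ^ s * a ^ 2) :=
            mul_le_mul e1 e2 he0 (by positivity)
        _ ≤ 7 ^ s * (16384 ^ s * (C ^ 2) ^ s * a ^ 2) := by gcongr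
        _ = K ^ s * a ^ 2 := by
          have e7 : K = 7 * (16384 * C ^ 2) := by rw [hK]; ring
          rw [e7, mul_pow, mul_pow]
          ring
    exact ⟨hfin.1.trans hle, hfin.2.trans hle⟩

end Pool.Agent.MP1cb9f1
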