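import Pool.Agent.Lib.MP_1cb9f1_lc.Tower

/-!
# The seed

The first triangle of the strip carries `M` additional coarse levels. By the pigeonhole principle
two of them are close to each other; then the coarser one collapses.
-/

namespace Pool.Agent.Lib.MP_1cb9f1_lc

/-- The levels present at the site `q m` of the strip, with `M` additional coarse levels on the
first triangle. -/
def SValid (M T m l : ℕ) : Prop := (l < M ∧ m ≤ 2) ∨ (M ≤ l ∧ TValid T m (l - M))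

/-- The hypotheses on a realization of the tower with the seed. -/
structure SeedReal (κ : ℕ → ℕ → Fin 6) (M T : ℕ) (g : ℕ → ℕ → Fin 6 → ℝ × ℝ) : Prop where
  same : ∀ m l l' t t', m ≤ T + 2 → SValid M T m l → SValid M T m l' →
    dsq (g m l t) (g m l' t') ≤ 4
  link : ∀ m m' l l' t t', m' ≤ T + 2 → (m' = m + 1 ∨ m' = m + 2) → SValid M T m l →
    SValid M T m' l' → (dsq (g m l t) (g m' l' t') ≤ 4 ↔ lvl (κ m m') l t l' t')

theorem SeedReal.tower {κ : ℕ → ℕ → Fin 6} {M T : ℕ} {g : ℕ → ℕ → Fin 6 → ℝ × ℝ} (h : SeedReal κ M T g) :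
    TowerReal κ T (fun m l t => g m (l + M) t) where
  same := by
    intro m l l' t t' hm hv hv'
    refine h.same m (l + M) (l' + M) t t' hm (Or.inr ⟨by omega, ?_⟩) (Or.inr ⟨by omega, ?_⟩)
    · rwa [Nat.add_sub_cancel]
    · rwa [Nat.add_sub_cancel]
  link := by
    intro m m' l l' t t' hm hmm hv hv'
    rw [h.link m m' (l + M) (l' + M) t t' hm hmm (Or.inr ⟨by omega, by rwa [Nat.add_sub_cancel]⟩)
      (Or.inr ⟨by omega, by rwa [Nat.add_sub_cancel]⟩)]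
    simp only [lvl, add_left_inj, add_lt_add_iff_right]

/-- Two-sided shell. -/
theorem shell2 {x x1 x2 a a1 a2 : ℝ × ℝ} {r : ℝ} (hr : 0 ≤ r) (hr1 : r ≤ 1 / 2)
    (h1 : dsq a1 a ≤ r ^ 2) (h2 : dsq a2 a ≤ r ^ 2) (h3 : dsq x1 x ≤ r ^ 2)
    (h4 : dsq x2 x ≤ r ^ 2) (hn : dsq x1 a1 ≤ 4) (hf : 4 < dsq x2 a2) :
    |dsq x a - 4| ≤ 10 * r := by
  have hn' : dsq x1 a1 ≤ 2 ^ 2 := by linarith
  have u1 := dsq_triangle (by norm_num) hr hn' h1
  have u2 := dsq_triangle hr (by linarith) (by rw [dsq_comm]; exact h3) u1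
  have h5 : dsq x a ≤ 4 + 10 * r := by nlinarith
  have h6 : 4 - 10 * r ≤ dsq x a := by
    by_contra hc
    push Not at hc
    have h7 : dsq x a ≤ (2 - 2 * r) ^ 2 := by nlinarith
    have h8 := dsq_triangle (by linarith) hr h7 (by rw [dsq_comm]; exact h2)
    have h9 := dsq_triangle hr (by linarith) h4 h8
    have h10 : (r + (2 - 2 * r + r)) ^ 2 = 4 := by ring
    linarith
  rw [abs_le]; constructor <;> linarith

/-- Every point of level `≥ l` at the tail has a neighbour and a non-neighbour of level `l` at the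
head. -/
theorem lvl_tail {k : Fin 6} {l l' : ℕ} (h : l ≤ l') (t : Fin 6) :
    (∃ t', lvl k l' t l t') ∧ ∃ t', ¬ lvl k l' t l t' := by
  rcases Nat.lt_or_ge l l' with h1 | h1
  · obtain ⟨t1, ht1⟩ := exists_pos k
    obtain ⟨t2, ht2⟩ := exists_neg k
    refine ⟨⟨t2, Or.inr (Or.inr ⟨h1, ht2⟩)⟩, t1, ?_⟩
    rintro (⟨h2, -⟩ | ⟨h2, -⟩ | ⟨-, h2⟩)
    · omega
    · omega
    · omega
  · have h2 : l = l' := le_antisymm h h1
    subst h2
    refine ⟨⟨t, Or.inl ⟨rfl, Or.inl rfl⟩⟩, ?_⟩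
    obtain ⟨t', ht, hc⟩ := exists_other k t
    refine ⟨t', ?_⟩
    rintro (⟨-, h2 | h2⟩ | ⟨h2, -⟩ | ⟨h2, -⟩)
    · exact ht h2
    · omega
    · omega
    · omega

/-- The pairs of types which are at distance almost `2` if two levels are close. -/
def tight (k d d' : Fin 6) : Prop :=
  (cls k d = 1 ∧ 0 ≤ cls k d') ∨ (cls k d ≤ 0 ∧ cls k d' = -1) ∨ d = d'

instance (k d d' : Fin 6) : Decidable (tight k d d') := by unfold tight; infer_instance

theorem cls_cases (k t : Fin 6) : cls k t = 1 ∨ cls k t = 0 ∨ cls k t = -1 := by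
  revert k t; decide

/-- For a tight pair and levels `l < l'` there are an adjacent and a non-adjacent pair of levels
in `{l, l'}`. -/
theorem tight_pairs {k d d' : Fin 6} (h : tight k d d') {l l' : ℕ} (hl : l < l') :
    (∃ a b, (a = l ∨ a = l') ∧ (b = l ∨ b = l') ∧ lvl k a d b d') ∧
    ∃ a b, (a = l ∨ a = l') ∧ (b = l ∨ b = l') ∧ ¬ lvl k a d b d' := by
  have e1 : lvl k l d l' d' ↔ cls k d = 1 := by
    unfold lvl
    constructor
    · rintro (⟨h2, -⟩ | ⟨-, h2⟩ | ⟨h2, -⟩)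
      · omega
      · exact h2
      · omega
    · exact fun h2 => Or.inr (Or.inl ⟨hl, h2⟩)
  have e2 : lvl k l' d l d' ↔ cls k d' = -1 := by
    unfold lvl
    constructor
    · rintro (⟨h2, -⟩ | ⟨h2, -⟩ | ⟨-, h2⟩)
      · omega
      · omega
      · exact h2
    · exact fun h2 => Or.inr (Or.inr ⟨hl, h2⟩)
  have A1 : lvl k l d l' d' → (∃ a b, (a = l ∨ a = l') ∧ (b = l ∨ b = l') ∧ lvl k a d b d') :=
    fun h => ⟨l, l', Or.inl rfl, Or.inr rfl, h⟩
  have A2 : lvl k l' d l d' → (∃ a b, (a = l ∨ a = l') ∧ (b = l ∨ b = l') ∧ lvl k a d b d') :=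
    fun h => ⟨l', l, Or.inr rfl, Or.inl rfl, h⟩
  have B1 : ¬ lvl k l d l' d' →
      (∃ a b, (a = l ∨ a = l') ∧ (b = l ∨ b = l') ∧ ¬ lvl k a d b d') :=
    fun h => ⟨l, l', Or.inl rfl, Or.inr rfl, h⟩
  have B2 : ¬ lvl k l' d l d' →
      (∃ a b, (a = l ∨ a = l') ∧ (b = l ∨ b = l') ∧ ¬ lvl k a d b d') :=
    fun h => ⟨l', l, Or.inr rfl, Or.inl rfl, h⟩
  rcases h with ⟨h1, h2⟩ | ⟨h1, h2⟩ | h1
  · exact ⟨A1 (e1.2 h1), B2 (by rw [e2]; omega)⟩
  · exact ⟨A2 (e2.2 h2), B1 (by rw [e1]; omega)⟩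
  · subst h1
    refine ⟨⟨l, l, Or.inl rfl, Or.inl rfl, Or.inl ⟨rfl, Or.inl rfl⟩⟩, ?_⟩
    rcases cls_cases k d with h3 | h3 | h3
    · exact B2 (by rw [e2]; omega)
    · exact B1 (by rw [e1]; omega)
    · exact B1 (by rw [e1]; omega)

/-- The directions of the three links of the first triangle. -/
def SeedDir (κ : ℕ → ℕ → Fin 6) : Prop :=
  (κ 0 1 = 0 ∧ κ 1 2 = 2 ∧ κ 0 2 = 1) ∨ (κ 0 1 = 2 ∧ κ 1 2 = 0 ∧ κ 0 2 = 1)

theorem tight0a (d : Fin 6) : ∃ y z, tight 0 d y ∧ tight 0 (d + 1) y ∧ tight 1 d z ∧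
    tight 1 (d + 1) z ∧ tight 2 y z := by
  revert d; decide

theorem tight0b (d : Fin 6) : ∃ y z, tight 2 d y ∧ tight 2 (d + 1) y ∧ tight 1 d z ∧
    tight 1 (d + 1) z ∧ tight 0 y z := by
  revert d; decide

theorem tight1a (d : Fin 6) : ∃ y z, tight 0 y d ∧ tight 0 y (d + 1) ∧ tight 2 d z ∧
    tight 2 (d + 1) z ∧ tight 1 y z := by
  revert d; decide

theorem tight1b (d : Fin 6) : ∃ y z, tight 2 y d ∧ tight 2 y (d + 1) ∧ tight 0 d z ∧
    tight 0 (d + 1) z ∧ tight 1 y z := by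
  revert d; decide

theorem tight2a (d : Fin 6) : ∃ y z, tight 1 y d ∧ tight 1 y (d + 1) ∧ tight 2 z d ∧
    tight 2 z (d + 1) ∧ tight 0 y z := by
  revert d; decide

theorem tight2b (d : Fin 6) : ∃ y z, tight 1 y d ∧ tight 1 y (d + 1) ∧ tight 0 z d ∧
    tight 0 z (d + 1) ∧ tight 2 y z := by
  revert d; decide

/-- Site `0`: consecutive corners have common tight partners. -/
theorem tight0 {κ : ℕ → ℕ → Fin 6} (hκ : SeedDir κ) (d : Fin 6) : ∃ y z, tight (κ 0 1) d y ∧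
    tight (κ 0 1) (d + 1) y ∧ tight (κ 0 2) d z ∧ tight (κ 0 2) (d + 1) z ∧ tight (κ 1 2) y z := by
  rcases hκ with ⟨h1, h2, h3⟩ | ⟨h1, h2, h3⟩ <;> rw [h1, h2, h3]
  · exact tight0a d
  · exact tight0b d

/-- Site `1`. -/
theorem tight1 {κ : ℕ → ℕ → Fin 6} (hκ : SeedDir κ) (d : Fin 6) : ∃ y z, tight (κ 0 1) y d ∧
    tight (κ 0 1) y (d + 1) ∧ tight (κ 1 2) d z ∧ tight (κ 1 2) (d + 1) z ∧ tight (κ 0 2) y z := by
  rcases hκ with ⟨h1, h2, h3⟩ | ⟨h1, h2, h3⟩ <;> rw [h1, h2, h3]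
  · exact tight1a d
  · exact tight1b d

/-- Site `2`. -/
theorem tight2 {κ : ℕ → ℕ → Fin 6} (hκ : SeedDir κ) (d : Fin 6) : ∃ y z, tight (κ 0 2) y d ∧
    tight (κ 0 2) y (d + 1) ∧ tight (κ 1 2) z d ∧ tight (κ 1 2) z (d + 1) ∧ tight (κ 0 1) y z := by
  rcases hκ with ⟨h1, h2, h3⟩ | ⟨h1, h2, h3⟩ <;> rw [h1, h2, h3]
  · exact tight2a d
  · exact tight2b d

section
variable {κ : ℕ → ℕ → Fin 6} {M T : ℕ} {g : ℕ → ℕ → Fin 6 → ℝ × ℝ}

theorem seed_tight (h : SeedReal κ M T g) {l l' : ℕ} (hl : l < l') (hl' : l' < M) {ε : ℝ}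
    (hε : 0 ≤ ε) (hε1 : ε ≤ 1 / 2) (hc : ∀ m ≤ 2, ∀ t, dsq (g m l' t) (g m l t) ≤ ε ^ 2)
    {m m' : ℕ} (hm : m' ≤ 2) (hmm : m' = m + 1 ∨ m' = m + 2) {d d' : Fin 6}
    (ht : tight (κ m m') d d') : |dsq (g m l d) (g m' l d') - 4| ≤ 10 * ε := by
  obtain ⟨⟨a, b, ha, hb, hab⟩, a', b', ha', hb', hab'⟩ := tight_pairs ht hl
  have hm2 : m ≤ 2 := by omega
  have cl : ∀ m ≤ 2, ∀ a, (a = l ∨ a = l') → ∀ t, dsq (g m a t) (g m l t) ≤ ε ^ 2 := by
    intro m hm a ha t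
    rcases ha with rfl | rfl
    · rw [dsq_self]; positivity
    · exact hc m hm t
  have vl : ∀ m ≤ 2, ∀ a, (a = l ∨ a = l') → SValid M T m a := by
    intro m hm a ha
    left
    constructor <;> omega
  refine shell2 hε hε1 (cl m' hm b hb d') (cl m' hm b' hb' d') (cl m hm2 a ha d)
    (cl m hm2 a' ha' d) ?_ ?_
  · exact (h.link m m' a b d d' (by omega) hmm (vl m hm2 a ha) (vl m' hm b hb)).2 hab
  · by_contra hcon
    push Not at hcon
    exact hab' ((h.link m m' a' b' d d' (by omega) hmm (vl m hm2 a' ha') (vl m' hm b' hb')).1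
      hcon)

theorem seed_consec (hκ : SeedDir κ) (h : SeedReal κ M T g) {l l' : ℕ} (hl : l < l') (hl' : l' < M) {ε : ℝ}
    (hε : 0 ≤ ε) (hε1 : ε ≤ 1 / 1000) (hc : ∀ m ≤ 2, ∀ t, dsq (g m l' t) (g m l t) ≤ ε ^ 2)
    {m : ℕ} (hm : m ≤ 2) (d : Fin 6) : dsq (g m l d) (g m l (d + 1)) ≤ (20 * ε) ^ 2 := by
  have hV : ∀ m ≤ 2, SValid M T m l := fun m hm => Or.inl ⟨by omega, hm⟩
  have S := h.same m l l d (d + 1) (by omega) (hV m hm) (hV m hm)
  have e : (2 * (10 * ε)) ^ 2 = (20 * ε) ^ 2 := by ring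
  rw [← e]
  have t1 : ∀ {m m' : ℕ} {d d' : Fin 6}, m' ≤ 2 → (m' = m + 1 ∨ m' = m + 2) →
      tight (κ m m') d d' → |dsq (g m l d) (g m' l d') - 4| ≤ 10 * ε :=
    fun hm hmm ht => seed_tight h hl hl' hε (by linarith) hc hm hmm ht
  have t2 : ∀ {m m' : ℕ} {d d' : Fin 6}, m' ≤ 2 → (m' = m + 1 ∨ m' = m + 2) →
      tight (κ m m') d d' → |dsq (g m' l d') (g m l d) - 4| ≤ 10 * ε := by
    intro m m' d d' hm hmm ht
    rw [dsq_comm]; exact t1 hm hmm ht
  have hm3 : m = 0 ∨ m = 1 ∨ m = 2 := by omega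
  rcases hm3 with rfl | rfl | rfl
  · obtain ⟨y, z, h1, h2, h3, h4, h5⟩ := tight0 hκ d
    exact two_nbr (a := g 1 l y) (b := g 2 l z) (by linarith)
      (le_trans (t1 (by norm_num) (Or.inl rfl) h5) (by linarith))
      (t1 (by norm_num) (Or.inl rfl) h1) (t1 (by norm_num) (Or.inr rfl) h3)
      (t1 (by norm_num) (Or.inl rfl) h2) (t1 (by norm_num) (Or.inr rfl) h4) S
  · obtain ⟨y, z, h1, h2, h3, h4, h5⟩ := tight1 hκ d
    exact two_nbr (a := g 0 l y) (b := g 2 l z) (by linarith)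
      (le_trans (t1 (by norm_num) (Or.inr rfl) h5) (by linarith))
      (t2 (by norm_num) (Or.inl rfl) h1) (t1 (by norm_num) (Or.inl rfl) h3)
      (t2 (by norm_num) (Or.inl rfl) h2) (t1 (by norm_num) (Or.inl rfl) h4) S
  · obtain ⟨y, z, h1, h2, h3, h4, h5⟩ := tight2 hκ d
    exact two_nbr (a := g 0 l y) (b := g 1 l z) (by linarith)
      (le_trans (t1 (by norm_num) (Or.inl rfl) h5) (by linarith))
      (t2 (by norm_num) (Or.inr rfl) h1) (t2 (by norm_num) (Or.inl rfl) h3)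
      (t2 (by norm_num) (Or.inr rfl) h2) (t2 (by norm_num) (Or.inl rfl) h4) S

theorem seed_cluster (hκ : SeedDir κ) (h : SeedReal κ M T g) {l l' : ℕ} (hl : l < l') (hl' : l' < M) {ε : ℝ}
    (hε : 0 ≤ ε) (hε1 : ε ≤ 1 / 1000) (hc : ∀ m ≤ 2, ∀ t, dsq (g m l' t) (g m l t) ≤ ε ^ 2)
    {m : ℕ} (hm : m ≤ 2) (d d' : Fin 6) : dsq (g m l d) (g m l d') ≤ (200 * ε) ^ 2 := by
  have c := fun d => seed_consec hκ h hl hl' hε hε1 hc hm d
  have e0 : dsq (g m l 0) (g m l 0) ≤ (100 * ε) ^ 2 := by rw [dsq_self]; positivity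
  have e1 : dsq (g m l 0) (g m l 1) ≤ (20 * ε) ^ 2 := c 0
  have e2 := dsq_triangle (by positivity) (by positivity) e1 (c 1)
  have e3 := dsq_triangle (by positivity) (by positivity) e2 (c 2)
  have e4 := dsq_triangle (by positivity) (by positivity) e3 (c 3)
  have e5 := dsq_triangle (by positivity) (by positivity) e4 (c 4)
  have key : ∀ d, dsq (g m l 0) (g m l d) ≤ (100 * ε) ^ 2 := by
    intro d
    fin_cases d
    · exact e0
    · exact le_trans e1 (pow_le_pow_left₀ (by positivity) (by linarith) 2)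
    · exact le_trans e2 (pow_le_pow_left₀ (by positivity) (by linarith) 2)
    · exact le_trans e3 (pow_le_pow_left₀ (by positivity) (by linarith) 2)
    · exact le_trans e4 (pow_le_pow_left₀ (by positivity) (by linarith) 2)
    · exact le_trans e5 (pow_le_pow_left₀ (by positivity) (by linarith) 2)
  have kd : dsq (g m l d) (g m l 0) ≤ (100 * ε) ^ 2 := by rw [dsq_comm]; exact key d
  have := dsq_triangle (by positivity) (by positivity) kd (key d')
  exact le_trans this (pow_le_pow_left₀ (by positivity) (by linarith) 2)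

/-- All points of level `≥ l` of the first three sites. -/
theorem seed_finer (hκ : SeedDir κ) (h : SeedReal κ M T g) {l l' : ℕ} (hl : l < l') (hl' : l' < M) {ε : ℝ}
    (hε : 0 ≤ ε) (hε1 : ε ≤ 1 / 100000) (hc : ∀ m ≤ 2, ∀ t, dsq (g m l' t) (g m l t) ≤ ε ^ 2)
    {m : ℕ} (hm : m ≤ 2) {a b : ℕ} (ha : l ≤ a) (hb : l ≤ b) (va : SValid M T m a)
    (vb : SValid M T m b) (t t' : Fin 6) : dsq (g m a t) (g m b t') ≤ (2000 * ε) ^ 2 := by
  have hV : ∀ m ≤ 2, SValid M T m l := fun m hm => Or.inl ⟨by omega, hm⟩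
  have C : ∀ m ≤ 2, ∀ d d', dsq (g m l d) (g m l d') ≤ (200 * ε) ^ 2 :=
    fun m hm d d' => seed_cluster hκ h hl hl' hε (by linarith) hc hm d d'
  -- head at `m'`
  have H : ∀ m m', m' ≤ 2 → (m' = m + 1 ∨ m' = m + 2) → ∀ a t, l ≤ a → SValid M T m' a →
      |dsq (g m' a t) (g m l 0) - 4| ≤ 1000 * ε := by
    intro m m' hm' hmm a t ha va
    have hm2 : m ≤ 2 := by omega
    obtain ⟨⟨t1, ht1⟩, t2, ht2⟩ := lvl_head (k := κ m m') ha t
    have := shell (x := g m' a t) (a := g m l 0) (a1 := g m l t1) (a2 := g m l t2) (r := 200 * ε)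
      (by positivity) (by linarith) (C m hm2 t1 0) (C m hm2 t2 0)
      (by rw [dsq_comm]
          exact (h.link m m' l a t1 t (by omega) hmm (hV m hm2) va).2 ht1)
      (by rw [dsq_comm]
          by_contra hcon
          push Not at hcon
          exact ht2 ((h.link m m' l a t2 t (by omega) hmm (hV m hm2) va).1 hcon))
    linarith
  -- tail at `m`
  have K : ∀ m m', m' ≤ 2 → (m' = m + 1 ∨ m' = m + 2) → ∀ a t, l ≤ a → SValid M T m a →
      |dsq (g m a t) (g m' l 0) - 4| ≤ 1000 * ε := by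
    intro m m' hm' hmm a t ha va
    have hm2 : m ≤ 2 := by omega
    obtain ⟨⟨t1, ht1⟩, t2, ht2⟩ := lvl_tail (k := κ m m') ha t
    have := shell (x := g m a t) (a := g m' l 0) (a1 := g m' l t1) (a2 := g m' l t2)
      (r := 200 * ε) (by positivity) (by linarith) (C m' hm' t1 0) (C m' hm' t2 0)
      ((h.link m m' a l t t1 (by omega) hmm va (hV m' hm')).2 ht1)
      (by by_contra hcon
          push Not at hcon
          exact ht2 ((h.link m m' a l t t2 (by omega) hmm va (hV m' hm')).1 hcon))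
    linarith
  have e : (2 * (1000 * ε)) ^ 2 = (2000 * ε) ^ 2 := by ring
  rw [← e]
  have S := h.same m a b t t' (by omega) va vb
  have hm3 : m = 0 ∨ m = 1 ∨ m = 2 := by omega
  rcases hm3 with rfl | rfl | rfl
  · exact two_nbr (a := g 1 l 0) (b := g 2 l 0) (by linarith)
      (le_trans (K 1 2 (by norm_num) (Or.inl rfl) l 0 le_rfl (hV 1 (by norm_num)))
        (by linarith))
      (K 0 1 (by norm_num) (Or.inl rfl) a t ha va) (K 0 2 (by norm_num) (Or.inr rfl) a t ha va)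
      (K 0 1 (by norm_num) (Or.inl rfl) b t' hb vb)
      (K 0 2 (by norm_num) (Or.inr rfl) b t' hb vb) S
  · exact two_nbr (a := g 0 l 0) (b := g 2 l 0) (by linarith)
      (le_trans (K 0 2 (by norm_num) (Or.inr rfl) l 0 le_rfl (hV 0 (by norm_num)))
        (by linarith))
      (H 0 1 (by norm_num) (Or.inl rfl) a t ha va) (K 1 2 (by norm_num) (Or.inl rfl) a t ha va)
      (H 0 1 (by norm_num) (Or.inl rfl) b t' hb vb)
      (K 1 2 (by norm_num) (Or.inl rfl) b t' hb vb) S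
  · exact two_nbr (a := g 0 l 0) (b := g 1 l 0) (by linarith)
      (le_trans (K 0 1 (by norm_num) (Or.inl rfl) l 0 le_rfl (hV 0 (by norm_num)))
        (by linarith))
      (H 0 2 (by norm_num) (Or.inr rfl) a t ha va) (H 1 2 (by norm_num) (Or.inl rfl) a t ha va)
      (H 0 2 (by norm_num) (Or.inr rfl) b t' hb vb)
      (H 1 2 (by norm_num) (Or.inl rfl) b t' hb vb) S

end

/-- All points of the first triangle are within `4` of the point `g 0 0 0`. -/
theorem seed_bounded {κ : ℕ → ℕ → Fin 6} {M T : ℕ} {g : ℕ → ℕ → Fin 6 → ℝ × ℝ} (h : SeedReal κ M T g) {m l : ℕ}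
    (hm : m ≤ 2) (hl : l < M) (t : Fin 6) : dsq (g m l t) (g 0 0 0) ≤ 4 ^ 2 := by
  have hV : ∀ m ≤ 2, ∀ l < M, SValid M T m l := fun m hm l hl => Or.inl ⟨hl, hm⟩
  have h0 : dsq (g 0 l t) (g 0 0 0) ≤ 2 ^ 2 := by
    have := h.same 0 l 0 t 0 (by omega) (hV 0 (by norm_num) l hl) (hV 0 (by norm_num) 0 (by omega))
    linarith
  have hm3 : m = 0 ∨ m = 1 ∨ m = 2 := by omega
  rcases hm3 with rfl | rfl | rfl
  · exact le_trans h0 (by norm_num)
  · have h1 : dsq (g 0 l t) (g 1 l t) ≤ 4 :=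
      (h.link 0 1 l l t t (by omega) (Or.inl rfl) (hV 0 (by norm_num) l hl)
        (hV 1 (by norm_num) l hl)).2 (Or.inl ⟨rfl, Or.inl rfl⟩)
    have := dsq_triangle (a := 2) (b := 2) (by norm_num) (by norm_num)
      (by rw [dsq_comm]; linarith) h0
    exact le_trans this (by norm_num)
  · have h1 : dsq (g 0 l t) (g 2 l t) ≤ 4 :=
      (h.link 0 2 l l t t (by omega) (Or.inr rfl) (hV 0 (by norm_num) l hl)
        (hV 2 (by norm_num) l hl)).2 (Or.inl ⟨rfl, Or.inl rfl⟩)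
    have := dsq_triangle (a := 2) (b := 2) (by norm_num) (by norm_num)
      (by rw [dsq_comm]; linarith) h0
    exact le_trans this (by norm_num)

/-- Pigeonhole principle for configurations of `18` points with coordinates in `[-4, 4]`. -/
theorem pigeon (D : ℕ) (hD : 0 < D) : ∃ M : ℕ, ∀ c : ℕ → Fin 3 → Fin 6 → ℝ × ℝ,
    (∀ l < M, ∀ m t, |(c l m t).1| ≤ 4 ∧ |(c l m t).2| ≤ 4) →
    ∃ l l', l < l' ∧ l' < M ∧ ∀ m t, |(c l' m t).1 - (c l m t).1| ≤ 1 / D ∧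
      |(c l' m t).2 - (c l m t).2| ≤ 1 / D := by
  let β := Fin 3 → Fin 6 → Fin (8 * D + 1) × Fin (8 * D + 1)
  refine ⟨Fintype.card β + 1, fun c hc => ?_⟩
  have hDR : (0 : ℝ) < D := by exact_mod_cast hD
  have hb : ∀ x : ℝ, |x| ≤ 4 → ⌊(x + 4) * D⌋₊ < 8 * D + 1 := by
    intro x hx
    have h1 : (x + 4) * D ≤ ((8 * D : ℕ) : ℝ) := by
      push_cast
      nlinarith [(abs_le.mp hx).2]
    have := Nat.floor_le_floor h1
    rw [Nat.floor_natCast] at this
    omega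
  let F : Fin (Fintype.card β + 1) → β := fun l m t =>
    (⟨⌊((c l m t).1 + 4) * D⌋₊, hb _ (hc l l.2 m t).1⟩,
      ⟨⌊((c l m t).2 + 4) * D⌋₊, hb _ (hc l l.2 m t).2⟩)
  obtain ⟨x, y, hxy, hF⟩ := Fintype.exists_ne_map_eq_of_card_lt F (by simp)
  have close : ∀ u v : ℝ, |u| ≤ 4 → |v| ≤ 4 → ⌊(u + 4) * D⌋₊ = ⌊(v + 4) * D⌋₊ →
      |u - v| ≤ 1 / D := by
    intro u v hu hv h
    have u0 : 0 ≤ (u + 4) * D := mul_nonneg (by linarith [(abs_le.mp hu).1]) hDR.le
    have v0 : 0 ≤ (v + 4) * D := mul_nonneg (by linarith [(abs_le.mp hv).1]) hDR.le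
    have a1 := Nat.floor_le u0
    have a2 := Nat.lt_floor_add_one ((u + 4) * (D : ℝ))
    have a3 := Nat.floor_le v0
    have a4 := Nat.lt_floor_add_one ((v + 4) * (D : ℝ))
    rw [h] at a1 a2
    have e : (1 / D : ℝ) * D = 1 := by field_simp
    rw [abs_le]
    constructor
    · have : (-(1 / D) : ℝ) * D ≤ (u - v) * D := by nlinarith
      exact le_of_mul_le_mul_right this hDR
    · have : (u - v) * D ≤ (1 / D : ℝ) * D := by nlinarith
      exact le_of_mul_le_mul_right this hDR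
  have main : ∀ a b : Fin (Fintype.card β + 1), F a = F b → ∀ m t,
      |(c b m t).1 - (c a m t).1| ≤ 1 / D ∧ |(c b m t).2 - (c a m t).2| ≤ 1 / D := by
    intro a b hab m t
    have h1 := congrFun (congrFun hab m) t
    simp only [F, Prod.mk.injEq, Fin.mk.injEq] at h1
    exact ⟨close _ _ (hc b b.2 m t).1 (hc a a.2 m t).1 h1.1.symm,
      close _ _ (hc b b.2 m t).2 (hc a a.2 m t).2 h1.2.symm⟩
  rcases lt_or_gt_of_ne (fun h => hxy (Fin.ext h) : (x : ℕ) ≠ y) with h1 | h1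
  · exact ⟨x, y, h1, y.2, main x y hF⟩
  · exact ⟨y, x, h1, x.2, main y x hF.symm⟩

/-- **The seed.** There is an absolute constant `M` such that with `M` coarse levels on the first
triangle all finer points of each of the first three sites are within `1 / 2800` of each other. -/
theorem seed_exists : ∃ M : ℕ, ∀ κ T g, SeedDir κ → SeedReal κ M T g →
    ∀ m ≤ 2, TClose T (fun m l t => g m (l + M) t) 0 (1 / 2800) m := by
  obtain ⟨M, hM⟩ := pigeon 20000000 (by norm_num)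
  refine ⟨M, fun κ T g hκ h m hm => ?_⟩
  obtain ⟨l, l', hl, hl', hc⟩ := hM (fun l m t => g m l t - g 0 0 0) (by
    intro l hl m t
    have h1 := seed_bounded h (m := m) (l := l) (by omega) hl t
    have h2 : ((g m l t).1 - (g 0 0 0).1) ^ 2 ≤ 4 ^ 2 := by
      unfold dsq at h1
      nlinarith [sq_nonneg ((g m l t).2 - (g 0 0 0).2)]
    have h3 : ((g m l t).2 - (g 0 0 0).2) ^ 2 ≤ 4 ^ 2 := by
      unfold dsq at h1
      nlinarith [sq_nonneg ((g m l t).1 - (g 0 0 0).1)]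
    exact ⟨abs_le_of_sq_le_sq h2 (by norm_num), abs_le_of_sq_le_sq h3 (by norm_num)⟩)
  have hc' : ∀ m ≤ 2, ∀ t, dsq (g m l' t) (g m l t) ≤ (1 / 10000000 : ℝ) ^ 2 := by
    intro m hm t
    have h1 := hc ⟨m, by omega⟩ t
    simp only [Prod.fst_sub, Prod.snd_sub, sub_sub_sub_cancel_right] at h1
    obtain ⟨h2, h3⟩ := h1
    unfold dsq
    have h4 : ((g m l' t).1 - (g m l t).1) ^ 2 ≤ (1 / ((20000000 : ℕ) : ℝ)) ^ 2 :=
      sq_le_sq' (abs_le.mp h2).1 (abs_le.mp h2).2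
    have h5 : ((g m l' t).2 - (g m l t).2) ^ 2 ≤ (1 / ((20000000 : ℕ) : ℝ)) ^ 2 :=
      sq_le_sq' (abs_le.mp h3).1 (abs_le.mp h3).2
    push_cast at h4 h5
    nlinarith
  intro a b t t' _ _ va vb
  have va' : SValid M T m (a + M) := Or.inr ⟨by omega, by rwa [Nat.add_sub_cancel]⟩
  have vb' : SValid M T m (b + M) := Or.inr ⟨by omega, by rwa [Nat.add_sub_cancel]⟩
  have := seed_finer hκ h hl hl' (ε := 1 / 10000000) (by norm_num) (by norm_num) hc' hm
    (a := a + M) (b := b + M) (by omega) (by omega) va' vb' t t'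
  exact le_trans this (by norm_num)

end Pool.Agent.Lib.MP_1cb9f1_lc
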