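import Pool.Agent.Lib.MP_1cb9f1_lc.Glue4
import Pool.Agent.Lib.MP_1cb9f1_lc.Ops
import Pool.Agent.Lib.MP_1cb9f1_lc.GeoOps

/-!
# Soundness: assembly (MP_1cb9f1_lc)
-/

set_option autoImplicit false

namespace Pool.Agent.MP1cb9f1

open Pool.Agent.Lib.MP_1cb9f1_lc

/-- The statement of `reg_ops`: from the displacements of the computing region to the approximate
validity of the operations. -/
def RegOps : Prop :=
  ∀ (T : ℕ) (ops : List Op) (X : ℕ → ℕ → ℕ → ℝ × ℝ) (a R e : ℝ), (∀ o ∈ ops, OpWF T o) →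
    RegDisp T ops X → 0 < a → a ≤ R → 0 ≤ e → BoundR T ops X R → FramesOK T ops X a e →
    ∃ v : ℕ → ℝ, (∀ b < T, -(1000 * ((regS T ops : ℝ) * R ^ 2 + e) * R / a ^ 2) ≤ v b ∧
        v b ≤ 1 + 1000 * ((regS T ops : ℝ) * R ^ 2 + e) * R / a ^ 2) ∧
      ∀ o ∈ ops, OpApprox (1000 * ((regS T ops : ℝ) * R ^ 2 + e) * R / a ^ 2) v o

theorem delta_small {S s L k : ℕ} {a R : ℝ} (hS : 10 ≤ S) (hs : s ≤ S) (ha : 0 < a)
    (haR : a ≤ R) (h1 : R ≤ 144 * 25 ^ S * a) (h2 : R ≤ (1 / 2) ^ (2 ^ L + (k + 15) * S)) :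
    1000 * ((s : ℝ) * R ^ 2 + 10 * (S : ℝ) ^ 2 * R ^ 2) * R / a ^ 2 ≤
      (1 / 2) ^ (2 ^ L + k * S) := by
  have hR : 0 < R := ha.trans_le haR
  have hS1 : (1 : ℝ) ≤ S := by exact_mod_cast (by omega : 1 ≤ S)
  have hsS : (s : ℝ) ≤ (S : ℝ) ^ 2 := by
    have : (s : ℝ) ≤ S := by exact_mod_cast hs
    nlinarith
  set q : ℝ := R / a with hq
  have hq0 : 0 ≤ q := by positivity
  have hq1 : q ≤ 144 * 25 ^ S := by
    rw [hq, div_le_iff₀ ha]
    exact h1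
  have hq2 : q ^ 2 ≤ 20736 * 625 ^ S := by
    have := pow_le_pow_left₀ hq0 hq1 2
    refine this.trans (le_of_eq ?_)
    rw [mul_pow, ← pow_mul, mul_comm S 2, pow_mul]
    norm_num
  have e1 : 1000 * ((s : ℝ) * R ^ 2 + 10 * (S : ℝ) ^ 2 * R ^ 2) * R / a ^ 2 =
      1000 * ((s : ℝ) + 10 * (S : ℝ) ^ 2) * R * q ^ 2 := by
    rw [hq]
    field_simp
  rw [e1]
  have hSp : (S : ℝ) ^ 2 ≤ 4 ^ S := by
    have h3 : S ≤ 2 ^ S := Nat.lt_two_pow_self.le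
    have h4 : (S : ℝ) ≤ 2 ^ S := by exact_mod_cast h3
    have h5 := pow_le_pow_left₀ (by linarith) h4 2
    rwa [← pow_mul, mul_comm S 2, pow_mul, show (2 : ℝ) ^ 2 = 4 by norm_num] at h5
  have h8 : (228096000 : ℝ) ≤ 8 ^ S := by
    calc (228096000 : ℝ) ≤ 8 ^ 10 := by norm_num
      _ ≤ 8 ^ S := pow_le_pow_right₀ (by norm_num) hS
  have h625 : (625 : ℝ) ^ S ≤ 1024 ^ S := pow_le_pow_left₀ (by norm_num) (by norm_num) S
  calc 1000 * ((s : ℝ) + 10 * (S : ℝ) ^ 2) * R * q ^ 2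
      ≤ 1000 * ((S : ℝ) ^ 2 + 10 * (S : ℝ) ^ 2) * R * (20736 * 625 ^ S) := by gcongr
    _ = 228096000 * (S : ℝ) ^ 2 * 625 ^ S * R := by ring
    _ ≤ 8 ^ S * 4 ^ S * 1024 ^ S * R := by gcongr
    _ = 2 ^ (15 * S) * R := by
        rw [← mul_pow, ← mul_pow, pow_mul]
        norm_num
    _ ≤ 2 ^ (15 * S) * (1 / 2) ^ (2 ^ L + (k + 15) * S) := by gcongr
    _ = (1 / 2) ^ (2 ^ L + k * S) := by
        rw [show 2 ^ L + (k + 15) * S = 15 * S + (2 ^ L + k * S) by ring, pow_add, ← mul_assoc,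
          ← mul_pow]
        norm_num

/-- **Soundness of the construction.** -/
theorem soundness (hops : RegOps) : ∃ M : ℕ, ∀ (n : ℕ) (gs : List Gate) (L : ℕ),
    (∀ g ∈ gs, g.Below n) → (∃ p, RealizesOn (VLgeo M 100 n gs L) adjV p) →
    ∃ r, ApproxSat (1 / 2 ^ 2 ^ L) n gs r := by
  obtain ⟨M, -, hM⟩ := geo_region
  refine ⟨M, fun n gs L hgs ⟨p, hp⟩ => ?_⟩
  obtain ⟨X, a, R, hX, ha, haR, h1, h2, hB, hF⟩ := hM (15 + 15) 100 (by norm_num) n gs L p hp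
  have hS10 : 10 ≤ regI (rowsT n gs) (opsOf n gs) + regJ (rowsT n gs) + 2 := by
    unfold regI regJ; omega
  set S := regI (rowsT n gs) (opsOf n gs) + regJ (rowsT n gs) + 2 with hS
  have hcast : ((regI (rowsT n gs) (opsOf n gs) : ℝ) + regJ (rowsT n gs) + 2) = (S : ℝ) := by
    rw [hS]; push_cast; ring
  obtain ⟨v, hv, ho⟩ := hops _ _ X a R _ (opsWF n gs hgs) hX ha haR (by positivity) hB hF
  have hd := delta_small (s := regS (rowsT n gs) (opsOf n gs)) (k := 15) hS10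
    (by unfold regS; omega) ha haR h1 h2
  rw [hcast] at hv ho
  set d : ℝ := 1000 * ((regS (rowsT n gs) (opsOf n gs) : ℝ) * R ^ 2 + 10 * (S : ℝ) ^ 2 * R ^ 2) * R
    / a ^ 2 with hdd
  have hR : 0 < R := ha.trans_le haR
  have hd0 : 0 ≤ d := by positivity
  have h150 : (1 / 2 : ℝ) ^ (15 * S) ≤ 1 / 100000 := by
    calc (1 / 2 : ℝ) ^ (15 * S) ≤ (1 / 2) ^ 150 :=
          pow_le_pow_of_le_one (by norm_num) (by norm_num) (by omega)
      _ ≤ 1 / 100000 := by norm_num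
  have hL1 : (1 / 2 : ℝ) ^ 2 ^ L ≤ 1 := pow_le_one₀ (by norm_num) (by norm_num)
  have hL0 : (0 : ℝ) < (1 / 2) ^ 2 ^ L := by positivity
  rw [pow_add] at hd
  have hd1 : d ≤ (1 / 2) ^ 2 ^ L * (1 / 100000) :=
    hd.trans (mul_le_mul_of_nonneg_left h150 hL0.le)
  have hd2 : d ≤ 1 / 100 := by nlinarith
  obtain ⟨r, hr⟩ := opsSound' n gs v d hd0 hd2 (fun b hb => (hv b hb).1) ho
  refine ⟨r, hr.1, fun i hi => ?_, fun g hg => ?_⟩
  · have := hr.2.1 i hi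
    have h5 : 5000 * d ≤ 1 / 2 ^ 2 ^ L := by
      rw [← one_div_pow]
      nlinarith
    linarith
  · have h5 : 5000 * d ≤ 1 / 2 ^ 2 ^ L := by
      rw [← one_div_pow]
      nlinarith
    have := hr.2.2 g hg
    cases g with
    | add i j l => exact le_trans this h5
    | lt x y z u =>
      simp only [Gate.Approx] at this ⊢
      linarith

end Pool.Agent.MP1cb9f1
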