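import Pool.Agent.Lib.MP_1cb9f1_lc.GeoDefs
import Pool.Agent.Lib.MP_1cb9f1_lc.ListGraph

/-!
# The strip (tower and seed) as an abstract structure (MP_1cb9f1_lc)

`P g lam l` is the position of the point with label `l` and level `lam` at the strip site `g`.
-/

set_option autoImplicit false

namespace Pool.Agent.MP1cb9f1

open Pool.Agent.Lib.MP_1cb9f1_lc

/-- The direction of the step from the strip site `g` to the strip site `g - 1`. -/
def dirOf (g : ℕ) : ℕ := if g % 2 = 0 then 0 else 2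

/-- The points present in the strip. -/
def PresS (N M : ℕ) (lab0 : ℕ → ℕ → Prop) (g lam l : ℕ) : Prop :=
  (lam = 0 ∧ g ≤ 2 ∧ lab0 g l) ∨
    (1 ≤ lam ∧ lam ≤ N ∧ lam ≤ g + 1 ∧ g ≤ lam + 2 ∧ l ∈ corners) ∨
    (N < lam ∧ lam ≤ N + M ∧ N ≤ g ∧ g ≤ N + 2 ∧ l ∈ corners)

/-- A realization of the strip. -/
structure StripReal (N M : ℕ) (lab0 : ℕ → ℕ → Prop) (P : ℕ → ℕ → ℕ → ℝ × ℝ) : Prop where
  same : ∀ g lam l lam' l', PresS N M lab0 g lam l → PresS N M lab0 g lam' l' →
    Near (P g lam l) (P g lam' l')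
  one : ∀ g lam l lam' l', PresS N M lab0 (g + 1) lam l → PresS N M lab0 g lam' l' →
    (Near (P (g + 1) lam l) (P g lam' l') ↔ rule (dirOf (g + 1)) (lam, l) (lam', l') = true)
  two : ∀ g lam l lam' l', PresS N M lab0 (g + 2) lam l → PresS N M lab0 g lam' l' →
    (Near (P (g + 2) lam l) (P g lam' l') ↔ rule 1 (lam, l) (lam', l') = true)
  three : ∀ g lam l lam' l', PresS N M lab0 (g + 3) lam l → PresS N M lab0 g lam' l' →
    ¬ Near (P (g + 3) lam l) (P g lam' l')

/-- Closeness: at the strip sites `lam - 1, lam, lam + 1` (`lam ≥ 1`) any two points of levels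
`≤ lam` are at distance at most `s`. -/
def Cl (N M : ℕ) (lab0 : ℕ → ℕ → Prop) (P : ℕ → ℕ → ℕ → ℝ × ℝ) (lam : ℕ) (s : ℝ) : Prop :=
  ∀ g, lam ≤ g + 1 → g ≤ lam + 1 → ∀ m l m' l', m ≤ lam → m' ≤ lam →
    PresS N M lab0 g m l → PresS N M lab0 g m' l' →
    ((P g m l).1 - (P g m' l').1) ^ 2 + ((P g m l).2 - (P g m' l').2) ^ 2 ≤ s ^ 2

/-- The labels of the computing points at the strip sites `0, 1, 2`, that is the region sites
`(0, 1)`, `(1, 0)`, `(0, 0)`. -/
def lab0 (T : ℕ) (ops : List Op) (g l : ℕ) : Prop :=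
  l ∈ labelsAt T ops (if g = 1 then 1 else 0) (if g = 0 then 1 else 0)

theorem mem_regionV {K T : ℕ} {ops : List Op} {x : VC} :
    x ∈ regionV K T ops ↔ ∃ i j l, i ≤ regI T ops ∧ j ≤ regJ T ∧ l ∈ labelsAt T ops i j ∧
      x = ((i, K + j), (0, l)) := by
  unfold regionV
  simp only [List.mem_flatMap, List.mem_range, List.mem_map]
  constructor
  · rintro ⟨i, hi, j, hj, l, hl, rfl⟩
    exact ⟨i, j, l, by omega, by omega, hl, rfl⟩
  · rintro ⟨i, j, l, hi, hj, hl, rfl⟩
    exact ⟨i, by omega, j, by omega, l, hl, rfl⟩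

theorem mem_towerV {K N : ℕ} {x : VC} :
    x ∈ towerV K N ↔ ∃ g lam l, 1 ≤ lam ∧ lam ≤ N ∧ lam ≤ g + 1 ∧ g ≤ lam + 2 ∧ l ∈ corners ∧
      x = (siteOf K g, (lam, l)) := by
  unfold towerV
  simp only [List.mem_flatMap, List.mem_range, List.mem_map]
  constructor
  · rintro ⟨m, hm, d, hd, l, hl, rfl⟩
    exact ⟨m + d, m + 1, l, by omega, by omega, by omega, by omega, hl, rfl⟩
  · rintro ⟨g, lam, l, h1, h2, h3, h4, hl, rfl⟩
    refine ⟨lam - 1, by omega, g - (lam - 1), by omega, l, hl, ?_⟩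
    rw [show lam - 1 + (g - (lam - 1)) = g by omega, show lam - 1 + 1 = lam by omega]

theorem mem_seedV {K N M : ℕ} {x : VC} :
    x ∈ seedV K N M ↔ ∃ g lam l, N < lam ∧ lam ≤ N + M ∧ N ≤ g ∧ g ≤ N + 2 ∧ l ∈ corners ∧
      x = (siteOf K g, (lam, l)) := by
  unfold seedV
  simp only [List.mem_flatMap, List.mem_range, List.mem_map]
  constructor
  · rintro ⟨m, hm, d, hd, l, hl, rfl⟩
    exact ⟨N + d, N + 1 + m, l, by omega, by omega, by omega, by omega, hl, rfl⟩
  · rintro ⟨g, lam, l, h1, h2, h3, h4, hl, rfl⟩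
    refine ⟨lam - (N + 1), by omega, g - N, by omega, l, hl, ?_⟩
    rw [show N + (g - N) = g by omega, show N + 1 + (lam - (N + 1)) = lam by omega]

theorem mem_verts_of_presS {T : ℕ} {ops : List Op} {N M g lam l : ℕ}
    (h : PresS N M (lab0 T ops) g lam l) :
    (siteOf (shiftK N M) g, (lam, l)) ∈ verts T ops N M := by
  unfold verts
  rw [List.mem_append, List.mem_append]
  rcases h with ⟨rfl, hg, hl⟩ | ⟨h1, h2, h3, h4, h5⟩ | ⟨h1, h2, h3, h4, h5⟩
  · left; left
    rw [mem_regionV]
    have hI : 2 ≤ regI T ops := by unfold regI; omega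
    have hJ : 6 ≤ regJ T := by unfold regJ; omega
    unfold lab0 at hl
    interval_cases g
    · exact ⟨0, 1, l, by omega, by omega, by simpa using hl, by simp [siteOf]⟩
    · exact ⟨1, 0, l, by omega, by omega, by simpa using hl, by simp [siteOf]⟩
    · exact ⟨0, 0, l, by omega, by omega, by simpa using hl, by simp [siteOf]⟩
  · left; right
    rw [mem_towerV]
    exact ⟨g, lam, l, h1, h2, h3, h4, h5, rfl⟩
  · right
    rw [mem_seedV]
    exact ⟨g, lam, l, h1, h2, h3, h4, h5, rfl⟩

theorem presS_le {N M g lam l : ℕ} {lb : ℕ → ℕ → Prop} (h : PresS N M lb g lam l) : g ≤ N + 2 := by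
  rcases h with ⟨-, hg, -⟩ | ⟨h1, h2, h3, h4, h5⟩ | ⟨h1, h2, h3, h4, h5⟩ <;> omega

theorem near_self (a : ℝ × ℝ) : Near a a := by unfold Near; norm_num

theorem realizes_near {VL : List VC} {p : VC → ℝ × ℝ} (h : RealizesOn VL adjV p) {x y : VC}
    (hx : x ∈ VL) (hy : y ∈ VL) (hxy : x.1 ≠ y.1) : Near (p x) (p y) ↔ adjV x y = true :=
  (h x hx y hy fun e => hxy (by rw [e])).symm

theorem siteOf_even {K g : ℕ} (h : g % 2 = 0) : siteOf K g = (0, K + 1 - g / 2) := by
  unfold siteOf; rw [if_pos h]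

theorem siteOf_odd {K g : ℕ} (h : g % 2 = 1) : siteOf K g = (1, K - g / 2) := by
  unfold siteOf; rw [if_neg (by omega)]

theorem adjV_of_nb {x y : VC} {k : ℕ} (hk : k < 3) (h : nb k x.1 y.1 = true) :
    adjV x y = rule k x.2 y.2 := by
  obtain ⟨⟨x1, x2⟩, xl⟩ := x
  obtain ⟨⟨y1, y2⟩, yl⟩ := y
  unfold adjV adjDir
  rw [Bool.eq_iff_iff]
  interval_cases k <;> simp only [nb, Bool.and_eq_true, decide_eq_true_eq, if_true, if_false,
    Bool.or_eq_true, Nat.one_ne_zero, Nat.reduceEqDiff, OfNat.ofNat_ne_zero,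
    OfNat.ofNat_ne_one, Prod.mk.injEq] at h ⊢
  · constructor
    · rintro ((h1 | h1) | h1)
      · omega
      · rcases h1 with (h1 | h1) | h1
        · exact h1.2
        · omega
        · omega
      · rcases h1 with (h1 | h1) | h1 <;> omega
    · intro h1
      exact Or.inl (Or.inr (Or.inl (Or.inl ⟨h, h1⟩)))
  · constructor
    · rintro ((h1 | h1) | h1)
      · omega
      · rcases h1 with (h1 | h1) | h1
        · omega
        · exact h1.2
        · omega
      · rcases h1 with (h1 | h1) | h1 <;> omega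
    · intro h1
      exact Or.inl (Or.inr (Or.inl (Or.inr ⟨h, h1⟩)))
  · constructor
    · rintro ((h1 | h1) | h1)
      · omega
      · rcases h1 with (h1 | h1) | h1
        · omega
        · omega
        · exact h1.2
      · rcases h1 with (h1 | h1) | h1 <;> omega
    · intro h1
      exact Or.inl (Or.inr (Or.inr ⟨h, h1⟩))

theorem adjV_far {x y : VC} (h0 : x.1 ≠ y.1) (h : ∀ k < 3, nb k x.1 y.1 = false)
    (h' : ∀ k < 3, nb k y.1 x.1 = false) : adjV x y = false := by
  unfold adjV adjDir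
  rw [h 0 (by norm_num), h 1 (by norm_num), h 2 (by norm_num), h' 0 (by norm_num),
    h' 1 (by norm_num), h' 2 (by norm_num)]
  simp [h0]

theorem nb_one {K g : ℕ} (hg : g + 1 ≤ K) :
    nb (dirOf (g + 1)) (siteOf K (g + 1)) (siteOf K g) = true := by
  rcases Nat.mod_two_eq_zero_or_one g with h | h
  · rw [siteOf_even h, siteOf_odd (by omega), show dirOf (g + 1) = 2 by unfold dirOf; rw [if_neg (by omega)]]
    simp only [nb, OfNat.ofNat_ne_zero, OfNat.ofNat_ne_one, if_false, Bool.and_eq_true,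
      decide_eq_true_eq]
    constructor <;> first | trivial | omega
  · rw [siteOf_odd h, siteOf_even (by omega), show dirOf (g + 1) = 0 by unfold dirOf; rw [if_pos (by omega)]]
    simp only [nb, if_true, Bool.and_eq_true, decide_eq_true_eq]
    constructor <;> first | trivial | omega

theorem nb_two {K g : ℕ} (hg : g + 2 ≤ K) :
    nb 1 (siteOf K (g + 2)) (siteOf K g) = true := by
  rcases Nat.mod_two_eq_zero_or_one g with h | h
  · rw [siteOf_even h, siteOf_even (by omega)]
    simp only [nb, Nat.one_ne_zero, if_false, if_true, Bool.and_eq_true, decide_eq_true_eq]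
    constructor <;> first | trivial | omega
  · rw [siteOf_odd h, siteOf_odd (by omega)]
    simp only [nb, Nat.one_ne_zero, if_false, if_true, Bool.and_eq_true, decide_eq_true_eq]
    constructor <;> first | trivial | omega

theorem far_three {K g : ℕ} (hg : g + 3 ≤ K) : siteOf K (g + 3) ≠ siteOf K g ∧
    (∀ k < 3, nb k (siteOf K (g + 3)) (siteOf K g) = false) ∧
    (∀ k < 3, nb k (siteOf K g) (siteOf K (g + 3)) = false) := by
  have key : ∀ (s1 s2 t1 t2 : ℕ), s2 + 1 < t2 ∨ (s2 + 1 = t2 ∧ s1 + 1 = t1) →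
      ((s1, s2) : ℕ × ℕ) ≠ (t1, t2) ∧
      (∀ k < 3, nb k (s1, s2) (t1, t2) = false) ∧ (∀ k < 3, nb k (t1, t2) (s1, s2) = false) := by
    intro s1 s2 t1 t2 h
    refine ⟨fun e => ?_, fun k hk => ?_, fun k hk => ?_⟩
    · rw [Prod.mk.injEq] at e
      omega
    · interval_cases k <;> simp [nb] <;> omega
    · interval_cases k <;> simp [nb] <;> omega
  rcases Nat.mod_two_eq_zero_or_one g with h | h
  · rw [siteOf_even h, siteOf_odd (by omega)]
    exact key _ _ _ _ (Or.inl (by omega))
  · rw [siteOf_odd h, siteOf_even (by omega)]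
    exact key _ _ _ _ (by omega)

/-- The strip part of a realization. -/
theorem stripReal_of_realizes {T : ℕ} {ops : List Op} {N M : ℕ} {p : VC → ℝ × ℝ}
    (h : RealizesOn (verts T ops N M) adjV p) :
    StripReal N M (lab0 T ops) (fun g lam l => p (siteOf (shiftK N M) g, (lam, l))) := by
  have hK : N + 5 ≤ shiftK N M := by unfold shiftK; omega
  refine ⟨?_, ?_, ?_, ?_⟩
  · intro g lam l lam' l' h1 h2
    by_cases e : (siteOf (shiftK N M) g, (lam, l)) = (siteOf (shiftK N M) g, (lam', l'))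
    · simp only [e]
      exact near_self _
    · exact (h _ (mem_verts_of_presS h1) _ (mem_verts_of_presS h2) e).1 (by simp [adjV])
  · intro g lam l lam' l' h1 h2
    have hn := nb_one (K := shiftK N M) (g := g) (by have := presS_le h1; omega)
    have hd : dirOf (g + 1) < 3 := by unfold dirOf; split_ifs <;> norm_num
    have hne : siteOf (shiftK N M) (g + 1) ≠ siteOf (shiftK N M) g := by
      intro e
      rw [e] at hn
      unfold nb at hn
      split_ifs at hn <;> simp at hn
    have := realizes_near h (mem_verts_of_presS h1) (mem_verts_of_presS h2) hne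
    simp only [this]
    rw [adjV_of_nb hd hn]
  · intro g lam l lam' l' h1 h2
    have hn := nb_two (K := shiftK N M) (g := g) (by have := presS_le h1; omega)
    have hne : siteOf (shiftK N M) (g + 2) ≠ siteOf (shiftK N M) g := by
      intro e
      rw [e] at hn
      unfold nb at hn
      split_ifs at hn <;> simp at hn
    have := realizes_near h (mem_verts_of_presS h1) (mem_verts_of_presS h2) hne
    simp only [this]
    rw [adjV_of_nb (by norm_num) hn]
  · intro g lam l lam' l' h1 h2 h3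
    obtain ⟨hne, f1, f2⟩ := far_three (K := shiftK N M) (g := g)
      (by have := presS_le h1; omega)
    have := realizes_near h (mem_verts_of_presS h1) (mem_verts_of_presS h2) hne
    simp only [this] at h3
    rw [adjV_far hne f1 f2] at h3
    exact absurd h3 (by simp)

end Pool.Agent.MP1cb9f1
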