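import Pool.Agent.Lib.MP_1cb9f1_lc.Link

/-!
# The tower

A strip of sites `q 0, q 1, q 2, …` of the triangular lattice, `q m`, `q (m + 1)`, `q (m + 2)`
being a triangle. The site `q m` carries for each level `l` with `m - 2 ≤ l ≤ m + 1` the six
corners of a small hexagon (at angles `30° + 60° t`). Soundness: the size of level `l` is doubly
exponentially small in `l`.
-/

namespace Pool.Agent.Lib.MP_1cb9f1_lc

/-- The sign of the scalar product of the unit vectors at angles `60° k` and `30° + 60° t`. -/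
def cls (k t : Fin 6) : ℤ :=
  if t - k = 0 ∨ t - k = 5 then 1 else if t - k = 1 ∨ t - k = 4 then 0 else -1

/-- Adjacency of the point of level `l` and type `t` at a site `v` and the point of level `l'` and
type `t'` at the neighbouring site of `v` in direction `k`. -/
def lvl (k : Fin 6) (l : ℕ) (t : Fin 6) (l' : ℕ) (t' : Fin 6) : Prop :=
  (l = l' ∧ (t = t' ∨ cls k t' < cls k t)) ∨ (l < l' ∧ cls k t = 1) ∨ (l' < l ∧ cls k t' = -1)

instance (k : Fin 6) (l : ℕ) (t : Fin 6) (l' : ℕ) (t' : Fin 6) : Decidable (lvl k l t l' t') := by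
  unfold lvl; infer_instance

/-- The levels present at the site `q m` of the strip. -/
def TValid (T m l : ℕ) : Prop := m ≤ l + 2 ∧ l ≤ m + 1 ∧ l ≤ T

/-- The hypotheses on a realization of the tower; `κ m m'` is the direction from the site `q m` to
the site `q m'`, where `m' = m + 1` or `m' = m + 2`. -/
structure TowerReal (κ : ℕ → ℕ → Fin 6) (T : ℕ) (g : ℕ → ℕ → Fin 6 → ℝ × ℝ) : Prop where
  same : ∀ m l l' t t', m ≤ T + 2 → TValid T m l → TValid T m l' → dsq (g m l t) (g m l' t') ≤ 4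
  link : ∀ m m' l l' t t', m' ≤ T + 2 → (m' = m + 1 ∨ m' = m + 2) → TValid T m l →
    TValid T m' l' → (dsq (g m l t) (g m' l' t') ≤ 4 ↔ lvl (κ m m') l t l' t')

theorem exists_other (k t : Fin 6) : ∃ t', t ≠ t' ∧ cls k t' = cls k t := by
  revert k t; decide

theorem exists_pos (k : Fin 6) : ∃ t, cls k t = 1 := by revert k; decide

theorem exists_neg (k : Fin 6) : ∃ t, cls k t = -1 := by revert k; decide

theorem exists_zero (k : Fin 6) : ∃ t, cls k t = 0 := by revert k; decide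

/-- Every point of level `≥ l` at the head has a neighbour and a non-neighbour of level `l` at the
tail. -/
theorem lvl_head {k : Fin 6} {l l' : ℕ} (h : l ≤ l') (t' : Fin 6) :
    (∃ t, lvl k l t l' t') ∧ ∃ t, ¬ lvl k l t l' t' := by
  rcases Nat.lt_or_ge l l' with h1 | h1
  · obtain ⟨t1, ht1⟩ := exists_pos k
    obtain ⟨t2, ht2⟩ := exists_neg k
    refine ⟨⟨t1, Or.inr (Or.inl ⟨h1, ht1⟩)⟩, t2, ?_⟩
    rintro (⟨h2, -⟩ | ⟨-, h2⟩ | ⟨h2, -⟩)
    · omega
    · omega
    · omega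
  · have h2 : l = l' := le_antisymm h h1
    subst h2
    refine ⟨⟨t', Or.inl ⟨rfl, Or.inl rfl⟩⟩, ?_⟩
    obtain ⟨t, ht, hc⟩ := exists_other k t'
    refine ⟨t, ?_⟩
    rintro (⟨-, h2 | h2⟩ | ⟨h2, -⟩ | ⟨h2, -⟩)
    · exact ht h2.symm
    · omega
    · omega
    · omega

/-- Three almost equilateral links. -/
theorem tri_dot {e1 e2 e3 δ : ℝ × ℝ} (h1 : dot e1 e1 ≤ 4) (h1' : 399 / 100 ≤ dot e1 e1)
    (h2 : dot e2 e2 ≤ 4) (h2' : 399 / 100 ≤ dot e2 e2) (h3 : dot e3 e3 ≤ 4)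
    (h3' : 399 / 100 ≤ dot e3 e3) (hδ : dot δ δ ≤ (3 / 100) ^ 2) (he : e3 = e1 + e2 + δ) :
    |dot e1 e2| ≤ 22 / 10 ∧ |dot e2 e3| ≤ 22 / 10 := by
  have k1 := abs_dot_le (a := 2) (b := 3 / 100) (by norm_num) (by norm_num)
    (by linarith : dot e1 e1 ≤ 2 ^ 2) hδ
  have k2 := abs_dot_le (a := 2) (b := 3 / 100) (by norm_num) (by norm_num)
    (by linarith : dot e2 e2 ≤ 2 ^ 2) hδ
  have x1 : dot e3 e3 = dot e1 e1 + dot e2 e2 + dot δ δ + 2 * dot e1 e2 + 2 * dot e1 δ +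
      2 * dot e2 δ := by
    rw [he]; simp only [dot, Prod.fst_add, Prod.snd_add]; ring
  have x2 : dot e2 e3 = dot e1 e2 + dot e2 e2 + dot e2 δ := by
    rw [he]; simp only [dot, Prod.fst_add, Prod.snd_add]; ring
  have x3 := dot_self_nonneg δ
  obtain ⟨k11, k12⟩ := abs_le.mp k1
  obtain ⟨k21, k22⟩ := abs_le.mp k2
  refine ⟨abs_le.mpr ⟨by linarith, by linarith⟩, abs_le.mpr ⟨by linarith, by linarith⟩⟩

/-- The closeness statement for level `l`. -/
def TClose (T : ℕ) (g : ℕ → ℕ → Fin 6 → ℝ × ℝ) (l : ℕ) (s : ℝ) (m : ℕ) : Prop :=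
  ∀ l' l'' t t', l ≤ l' → l ≤ l'' → TValid T m l' → TValid T m l'' →
    dsq (g m l' t) (g m l'' t') ≤ s ^ 2

section
variable {κ : ℕ → ℕ → Fin 6} {T : ℕ} {g : ℕ → ℕ → Fin 6 → ℝ × ℝ}

/-- Level `≥ l` at the third site of a triangle. -/
theorem tower_third (h : TowerReal κ T g) {l : ℕ} (hl : l ≤ T) {s : ℝ} (hs : 0 ≤ s)
    (hs1 : s ≤ 1 / 1000) (hA : TClose T g l s l) (hB : TClose T g l s (l + 1)) :
    TClose T g l (10 * s) (l + 2) := by
  have vA : TValid T l l := ⟨by omega, by omega, hl⟩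
  have vB : TValid T (l + 1) l := ⟨by omega, by omega, hl⟩
  -- distance of the two reference points
  have hab : |dsq (g l l 0) (g (l + 1) l 0) - 4| ≤ 2 * (5 * s) := by
    have e1 : dsq (g l l 0) (g (l + 1) l 0) ≤ 4 :=
      (h.link l (l + 1) l l 0 0 (by omega) (Or.inl rfl) vA vB).2 (Or.inl ⟨rfl, Or.inl rfl⟩)
    obtain ⟨t, ht, hc⟩ := exists_other (κ l (l + 1)) 0
    have e2 : 4 < dsq (g l l 0) (g (l + 1) l t) := by
      by_contra hcon
      push Not at hcon
      have := (h.link l (l + 1) l l 0 t (by omega) (Or.inl rfl) vA vB).1 hcon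
      rcases this with ⟨-, h2 | h2⟩ | ⟨h2, -⟩ | ⟨h2, -⟩
      · exact ht h2
      · omega
      · omega
      · omega
    have := shell (x := g l l 0) (a := g (l + 1) l 0) (a1 := g (l + 1) l 0) (a2 := g (l + 1) l t)
      hs (by linarith) (by rw [dsq_self]; positivity) (hB l l t 0 le_rfl le_rfl vB vB) e1 e2
    linarith
  intro l' l'' t t' hl' hl'' v' v''
  have key : ∀ l' t, l ≤ l' → TValid T (l + 2) l' →
      |dsq (g (l + 2) l' t) (g l l 0) - 4| ≤ 5 * s ∧
      |dsq (g (l + 2) l' t) (g (l + 1) l 0) - 4| ≤ 5 * s := by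
    intro l' t hl' v'
    constructor
    · obtain ⟨⟨t1, ht1⟩, t2, ht2⟩ := lvl_head (k := κ l (l + 2)) hl' t
      refine shell (a1 := g l l t1) (a2 := g l l t2) hs (by linarith)
        (hA l l t1 0 le_rfl le_rfl vA vA) (hA l l t2 0 le_rfl le_rfl vA vA) ?_ ?_
      · rw [dsq_comm]
        exact (h.link l (l + 2) l l' t1 t (by omega) (Or.inr rfl) vA v').2 ht1
      · rw [dsq_comm]
        by_contra hcon
        push Not at hcon
        exact ht2 ((h.link l (l + 2) l l' t2 t (by omega) (Or.inr rfl) vA v').1 hcon)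
    · obtain ⟨⟨t1, ht1⟩, t2, ht2⟩ := lvl_head (k := κ (l + 1) (l + 2)) hl' t
      refine shell (a1 := g (l + 1) l t1) (a2 := g (l + 1) l t2) hs (by linarith)
        (hB l l t1 0 le_rfl le_rfl vB vB) (hB l l t2 0 le_rfl le_rfl vB vB) ?_ ?_
      · rw [dsq_comm]
        exact (h.link (l + 1) (l + 2) l l' t1 t (by omega) (Or.inl rfl) vB v').2 ht1
      · rw [dsq_comm]
        by_contra hcon
        push Not at hcon
        exact ht2 ((h.link (l + 1) (l + 2) l l' t2 t (by omega) (Or.inl rfl) vB v').1 hcon)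
  obtain ⟨k1, k2⟩ := key l' t hl' v'
  obtain ⟨k1', k2'⟩ := key l'' t' hl'' v''
  have := two_nbr (a := g l l 0) (b := g (l + 1) l 0) (c := g (l + 2) l' t)
    (c' := g (l + 2) l'' t') (ε := 5 * s) (by linarith) hab k1 k2 k1' k2'
    (h.same (l + 2) l' l'' t t' (by omega) v' v'')
  calc _ ≤ (2 * (5 * s)) ^ 2 := this
    _ = (10 * s) ^ 2 := by ring

/-- What one link gives: with `zP, zQ` of level `l` and class `0`, all points of level `≥ l + 1` at
both ends have small component along the link. -/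
theorem tower_link (h : TowerReal κ T g) {l m m' : ℕ} (hm : m' = m + 1 ∨ m' = m + 2)
    (hm' : m' ≤ T + 2) (v : TValid T m l) (v' : TValid T m' l) (v1 : TValid T m (l + 1))
    (v1' : TValid T m' (l + 1)) {s : ℝ} (hA : TClose T g l s m)
    (hB : TClose T g l s m') :
    ∃ z, (4 - 8 * s ^ 2 ≤ dsq (g m l z) (g m' l z) ∧ dsq (g m l z) (g m' l z) ≤ 4) ∧
      (∀ l' t, l + 1 ≤ l' → TValid T m l' →
        |dot (g m l' t - g m l z) (g m l z - g m' l z)| ≤ 6 * s ^ 2) ∧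
      (∀ l' t, l + 1 ≤ l' → TValid T m' l' →
        |dot (g m' l' t - g m' l z) (g m l z - g m' l z)| ≤ 6 * s ^ 2) := by
  obtain ⟨z, hz⟩ := exists_zero (κ m m')
  have hzz : dsq (g m l z) (g m' l z) ≤ 4 :=
    (h.link m m' l l z z hm' hm v v').2 (Or.inl ⟨rfl, Or.inl rfl⟩)
  have hmat : ∀ t, |dot (g m (l + 1) t - g m l z) (g m l z - g m' l z)| ≤ 2 * s ^ 2 ∧
      |dot (g m' (l + 1) t - g m' l z) (g m l z - g m' l z)| ≤ 2 * s ^ 2 ∧
      4 - 8 * s ^ 2 ≤ dsq (g m l z) (g m' l z) := by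
    intro t
    refine matching (hA (l + 1) l t z (by omega) le_rfl v1 v)
      (hB (l + 1) l t z (by omega) le_rfl v1' v') hzz
      ((h.link m m' (l + 1) (l + 1) t t hm' hm v1 v1').2 (Or.inl ⟨rfl, Or.inl rfl⟩)) ?_ ?_
    · by_contra hcon
      push Not at hcon
      have := (h.link m m' l (l + 1) z t hm' hm v v1').1 hcon
      rcases this with ⟨h2, -⟩ | ⟨-, h2⟩ | ⟨h2, -⟩
      · omega
      · omega
      · omega
    · by_contra hcon
      push Not at hcon
      have := (h.link m m' (l + 1) l t z hm' hm v1 v').1 hcon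
      rcases this with ⟨h2, -⟩ | ⟨h2, -⟩ | ⟨-, h2⟩
      · omega
      · omega
      · omega
  have hs : 0 ≤ s ^ 2 := by positivity
  obtain ⟨tp, htp⟩ := exists_pos (κ m m')
  obtain ⟨tn, htn⟩ := exists_neg (κ m m')
  refine ⟨z, ⟨(hmat 0).2.2, hzz⟩, ?_, ?_⟩
  · intro l' t hl' vl'
    rcases Nat.eq_or_lt_of_le hl' with h1 | h1
    · subst h1
      exact le_trans (hmat t).1 (by linarith)
    · -- finer point at the tail: head level `l + 1` is coarser
      refine finer_left (y1 := g m' (l + 1) tn) (y2 := g m' (l + 1) tp)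
        (hA l' l t z (by omega) le_rfl vl' v) (hB (l + 1) l tp z (by omega) le_rfl v1' v')
        (hmat tn).2.1 (hmat tp).2.1 (hmat 0).2.2 hzz ?_ ?_
      · exact (h.link m m' l' (l + 1) t tn hm' hm vl' v1').2 (Or.inr (Or.inr ⟨h1, htn⟩))
      · by_contra hcon
        push Not at hcon
        have := (h.link m m' l' (l + 1) t tp hm' hm vl' v1').1 hcon
        rcases this with ⟨h2, -⟩ | ⟨h2, -⟩ | ⟨-, h2⟩
        · omega
        · omega
        · omega
  · intro l' t hl' vl'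
    rcases Nat.eq_or_lt_of_le hl' with h1 | h1
    · subst h1
      exact le_trans (hmat t).2.1 (by linarith)
    · refine finer_right (y1 := g m (l + 1) tp) (y2 := g m (l + 1) tn)
        (hB l' l t z (by omega) le_rfl vl' v') (hA (l + 1) l tn z (by omega) le_rfl v1 v)
        (hmat tp).1 (hmat tn).1 (hmat 0).2.2 hzz ?_ ?_
      · rw [dsq_comm]
        exact (h.link m m' (l + 1) l' tp t hm' hm v1 vl').2 (Or.inr (Or.inl ⟨h1, htp⟩))
      · rw [dsq_comm]
        by_contra hcon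
        push Not at hcon
        have := (h.link m m' (l + 1) l' tn t hm' hm v1 vl').1 hcon
        rcases this with ⟨h2, -⟩ | ⟨-, h2⟩ | ⟨h2, -⟩
        · omega
        · omega
        · omega

theorem TClose.mono {l : ℕ} {s s' : ℝ} {m : ℕ} (h : TClose T g l s m) (hs : 0 ≤ s)
    (hss : s ≤ s') : TClose T g l s' m := by
  intro l' l'' t t' h1 h2 h3 h4
  exact le_trans (h l' l'' t t' h1 h2 h3 h4) (pow_le_pow_left₀ hs hss 2)

/-- Final combination of two links at one site. -/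
theorem combine {x u z e : ℝ × ℝ} {c : ℝ} (h1 : |dot (x - z) e| ≤ c) (h2 : |dot (u - z) e| ≤ c) :
    |dot (x - u) e| ≤ 2 * c := by
  have : dot (x - u) e = dot (x - z) e - dot (u - z) e := by
    simp only [dot, Prod.fst_sub, Prod.snd_sub]; ring
  rw [this]
  rw [abs_le] at *
  constructor <;> linarith [h1.1, h1.2, h2.1, h2.2]

/-- One step of the tower. -/
theorem tower_step (h : TowerReal κ T g) {l : ℕ} (hl : l + 1 ≤ T) {s : ℝ} (hs : 0 ≤ s)
    (hs1 : s ≤ 1 / 1000) (hA : TClose T g l s l) (hB : TClose T g l s (l + 1)) :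
    TClose T g (l + 1) (1400 * s ^ 2) (l + 1) ∧ TClose T g (l + 1) (1400 * s ^ 2) (l + 2) := by
  have hC := tower_third h (by omega) hs hs1 hA hB
  set r := 10 * s with hr
  have hr0 : 0 ≤ r := by positivity
  have hA' : TClose T g l r l := hA.mono hs (by linarith)
  have hB' : TClose T g l r (l + 1) := hB.mono hs (by linarith)
  have hr1 : r ≤ 1 / 100 := by linarith
  have hr2 : r ^ 2 ≤ (1 / 100) ^ 2 := pow_le_pow_left₀ hr0 hr1 2
  have vA : TValid T l l := ⟨by omega, by omega, by omega⟩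
  have vB : TValid T (l + 1) l := ⟨by omega, by omega, by omega⟩
  have vC : TValid T (l + 2) l := ⟨by omega, by omega, by omega⟩
  have vA1 : TValid T l (l + 1) := ⟨by omega, by omega, by omega⟩
  have vB1 : TValid T (l + 1) (l + 1) := ⟨by omega, by omega, by omega⟩
  have vC1 : TValid T (l + 2) (l + 1) := ⟨by omega, by omega, by omega⟩
  obtain ⟨z1, ⟨p1, q1⟩, a1, b1⟩ := tower_link h (Or.inl rfl) (by omega) vA vB vA1 vB1 hA' hB'
  obtain ⟨z2, ⟨p2, q2⟩, a2, b2⟩ := tower_link h (Or.inl rfl) (by omega) vB vC vB1 vC1 hB' hC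
  obtain ⟨z3, ⟨p3, q3⟩, a3, b3⟩ := tower_link h (Or.inr rfl) (by omega) vA vC vA1 vC1 hA' hC
  set e1 := g l l z1 - g (l + 1) l z1 with he1
  set e2 := g (l + 1) l z2 - g (l + 2) l z2 with he2
  set e3 := g l l z3 - g (l + 2) l z3 with he3
  rw [dsq_eq_dot, ← he1] at p1 q1
  rw [dsq_eq_dot, ← he2] at p2 q2
  rw [dsq_eq_dot, ← he3] at p3 q3
  have hδ : dot (e3 - e1 - e2) (e3 - e1 - e2) ≤ (3 / 100) ^ 2 := by
    have c1 := hA' l l z3 z1 le_rfl le_rfl vA vA
    have c2 := hB' l l z1 z2 le_rfl le_rfl vB vB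
    have c3 := hC l l z2 z3 le_rfl le_rfl vC vC
    have c4 : dot (e3 - e1 - e2) (e3 - e1 - e2) ≤
        3 * (dsq (g l l z3) (g l l z1) + dsq (g (l + 1) l z1) (g (l + 1) l z2) +
          dsq (g (l + 2) l z2) (g (l + 2) l z3)) := by
      simp only [he1, he2, he3, dsq, dot, Prod.fst_sub, Prod.snd_sub]
      nlinarith [sq_nonneg (((g l l z3).1 - (g l l z1).1) - ((g (l + 1) l z1).1 - (g (l + 1) l z2).1)),
        sq_nonneg (((g l l z3).1 - (g l l z1).1) - ((g (l + 2) l z2).1 - (g (l + 2) l z3).1)),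
        sq_nonneg (((g (l + 1) l z1).1 - (g (l + 1) l z2).1) - ((g (l + 2) l z2).1 - (g (l + 2) l z3).1)),
        sq_nonneg (((g l l z3).2 - (g l l z1).2) - ((g (l + 1) l z1).2 - (g (l + 1) l z2).2)),
        sq_nonneg (((g l l z3).2 - (g l l z1).2) - ((g (l + 2) l z2).2 - (g (l + 2) l z3).2)),
        sq_nonneg (((g (l + 1) l z1).2 - (g (l + 1) l z2).2) - ((g (l + 2) l z2).2 - (g (l + 2) l z3).2))]
    nlinarith
  obtain ⟨d12, d23⟩ := tri_dot (e1 := e1) (e2 := e2) (e3 := e3) (δ := e3 - e1 - e2) q1 (by linarith)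
    q2 (by linarith) q3 (by linarith) hδ (by abel)
  have fin : ∀ x : ℝ × ℝ, ∀ e e' : ℝ × ℝ, |dot x e| ≤ 2 * (6 * r ^ 2) →
      |dot x e'| ≤ 2 * (6 * r ^ 2) → dot e e ≤ 4 → 4 - 8 * r ^ 2 ≤ dot e e → dot e' e' ≤ 4 →
      4 - 8 * r ^ 2 ≤ dot e' e' → |dot e e'| ≤ 22 / 10 → dot x x ≤ (1400 * s ^ 2) ^ 2 := by
    intro x e e' h1 h2 h3 h4 h5 h6 h7
    have := two_dir h1 h2 h3 (by linarith) h5 (by linarith) h7
    have h8 : (5 / 4 : ℝ) * (2 * (6 * r ^ 2)) ^ 2 = 1800000 * (s ^ 2) ^ 2 := by rw [hr]; ring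
    have h9 : (1400 * s ^ 2) ^ 2 = 1960000 * (s ^ 2) ^ 2 := by ring
    rw [h8] at this
    rw [h9]
    nlinarith [sq_nonneg (s ^ 2)]
  constructor
  · intro l' l'' t t' hl' hl'' v' v''
    rw [dsq_eq_dot]
    exact fin _ e1 e2 (combine (b1 l' t hl' v') (b1 l'' t' hl'' v''))
      (combine (a2 l' t hl' v') (a2 l'' t' hl'' v'')) q1 p1 q2 p2 d12
  · intro l' l'' t t' hl' hl'' v' v''
    rw [dsq_eq_dot]
    exact fin _ e2 e3 (combine (b2 l' t hl' v') (b2 l'' t' hl'' v''))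
      (combine (b3 l' t hl' v') (b3 l'' t' hl'' v'')) q2 p2 q3 p3 d23

/-- **The tower.** Level `l` has size at most `(1400 s) ^ (2 ^ l) / 1400`. -/
theorem tower_close (h : TowerReal κ T g) {s : ℝ} (hs : 0 ≤ s) (hs1 : s ≤ 1 / 2800)
    (h0 : TClose T g 0 s 0) (h1 : TClose T g 0 s 1) :
    ∀ l ≤ T, TClose T g l ((1400 * s) ^ 2 ^ l / 1400) l ∧
      TClose T g l ((1400 * s) ^ 2 ^ l / 1400) (l + 1) := by
  intro l
  induction l with
  | zero =>
    intro _
    have : (1400 * s) ^ 2 ^ 0 / 1400 = s := by ring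
    rw [this]
    exact ⟨h0, h1⟩
  | succ l ih =>
    intro hl
    obtain ⟨i1, i2⟩ := ih (by omega)
    have e : (1400 * s) ^ 2 ^ (l + 1) / 1400 = 1400 * ((1400 * s) ^ 2 ^ l / 1400) ^ 2 := by
      rw [pow_succ 2 l, pow_mul]; ring
    have hb : (1400 * s) ^ 2 ^ l ≤ 1 / 2 := by
      have hx : 0 ≤ 1400 * s := by positivity
      have hx1 : 1400 * s ≤ 1 / 2 := by linarith
      calc (1400 * s) ^ 2 ^ l ≤ (1400 * s) ^ 1 :=
            pow_le_pow_of_le_one hx (by linarith) Nat.one_le_two_pow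
        _ ≤ 1 / 2 := by rw [pow_one]; exact hx1
    have hb0 : 0 ≤ (1400 * s) ^ 2 ^ l := by positivity
    rw [e]
    exact tower_step h hl (by positivity) (by linarith) i1 i2

end

end Pool.Agent.Lib.MP_1cb9f1_lc
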